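import Mathlib

/-!
Shared definitions for the classification of recurrent pattern Sturmian sequences.
-/

set_option autoImplicit false

namespace Pool.Agent.PatSturm

/-- the pattern of `x` at position `m` seen through the window `F`, as the set of places of `F`
where the letter is `true` -/
def pat (x : ℤ → Bool) (F : Finset ℤ) (m : ℤ) : Finset ℤ := F.filter fun i => x (m + i) = true

open Classical in
/-- the set of patterns of `x` on the window `F` -/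
noncomputable def L (x : ℤ → Bool) (F : Finset ℤ) : Finset (Finset ℤ) :=
  F.powerset.filter fun S => ∃ m, pat x F m = S

/-- the number of patterns of `x` on the window `F` -/
noncomputable def p (x : ℤ → Bool) (F : Finset ℤ) : ℕ := (L x F).card

/-- low pattern complexity -/
def Low (x : ℤ → Bool) : Prop := ∀ F : Finset ℤ, F.Nonempty → p x F ≤ 2 * F.card

/-- right recurrence: every block comes back to the right -/
def Rec (x : ℤ → Bool) : Prop :=
  ∀ a b : ℤ, ∃ h : ℤ, 0 < h ∧ ∀ m, a ≤ m → m ≤ b → x (m + h) = x m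

/-- `x` has no period -/
def Aper (x : ℤ → Bool) : Prop := ∀ q : ℤ, q ≠ 0 → ∃ m, x (m + q) ≠ x m

/-- uniform recurrence: every block comes back with bounded gaps -/
def UR (x : ℤ → Bool) : Prop :=
  ∀ a b : ℤ, ∃ K : ℤ, 0 < K ∧ ∀ n : ℤ, ∃ k, 0 ≤ k ∧ k < K ∧
    ∀ m, a ≤ m → m ≤ b → x (m + (n + k)) = x m

/-- every block of `y` is a block of `x` -/
def Hull (x y : ℤ → Bool) : Prop :=
  ∀ a b : ℤ, ∃ h : ℤ, ∀ m, a ≤ m → m ≤ b → x (m + h) = y m

/-- `x` is constant on the class of `r` modulo `N` -/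
def ConstOn (x : ℤ → Bool) (N r : ℤ) : Prop := ∀ j : ℤ, x (r + j * N) = x r

/-- `N` is a one-hole modulus of `x`, with hole `r` -/
def OneHole (x : ℤ → Bool) (N r : ℤ) : Prop :=
  ¬ ConstOn x N r ∧ ∀ s : ℤ, ¬ N ∣ s - r → ConstOn x N s

/-- coding of an irrational rotation by an interval -/
def RotForm (x : ℤ → Bool) : Prop :=
  ∃ α β θ : ℝ, Irrational α ∧ 0 < β ∧ β < 1 ∧
    ((∀ n : ℤ, x n = true ↔ Int.fract (n * α + θ) < β) ∨
     (∀ n : ℤ, x n = true ↔ 0 < Int.fract (n * α + θ) ∧ Int.fract (n * α + θ) ≤ β))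

/-- Toeplitz type -/
def ToepForm (x : ℤ → Bool) : Prop :=
  ∃ (N : ℕ → ℤ) (r : ℕ → ℤ) (c : ℕ → Bool) (u a : ℤ),
    1 ≤ N 0 ∧ (∀ k, N k ∣ N (k + 1)) ∧ (∀ k, N k < N (k + 1)) ∧
    (∀ k, N k ∣ r (k + 1) - r k) ∧
    (∀ K, ∃ k, K ≤ k ∧ c k = true) ∧ (∀ K, ∃ k, K ≤ k ∧ c k = false) ∧
    IsCoprime u (N 0) ∧ 0 ≤ a ∧ a < N 0 ∧
    (∀ n, ¬ N 0 ∣ n - r 0 → (x n = true ↔ ∃ i, 1 ≤ i ∧ i ≤ a ∧ N 0 ∣ n - (r 0 + u * i))) ∧
    (∀ k n, N k ∣ n - r k → ¬ N (k + 1) ∣ n - r (k + 1) → x n = c k)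

end Pool.Agent.PatSturm
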