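import Mathlib
import Pool.Agent.PatSturm.Defs

set_option autoImplicit false

namespace Pool.Agent.PatSturm

variable {x : ℤ → Bool} {F F' G W : Finset ℤ} {m n : ℤ}

lemma mem_pat {i : ℤ} : i ∈ pat x F m ↔ i ∈ F ∧ x (m + i) = true := by
  simp [pat]

lemma pat_subset : pat x F m ⊆ F := Finset.filter_subset _ _

lemma mem_L {S : Finset ℤ} : S ∈ L x F ↔ ∃ m, pat x F m = S := by
  classical
  unfold L
  rw [Finset.mem_filter, Finset.mem_powerset]
  constructor
  · rintro ⟨-, h⟩; exact h
  · rintro ⟨m, rfl⟩; exact ⟨pat_subset, m, rfl⟩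

lemma pat_mem_L (x : ℤ → Bool) (F : Finset ℤ) (m : ℤ) : pat x F m ∈ L x F := mem_L.mpr ⟨m, rfl⟩

lemma pat_inter (h : G ⊆ F) : pat x F m ∩ G = pat x G m := by
  ext i
  simp only [Finset.mem_inter, mem_pat]
  constructor
  · rintro ⟨⟨-, h1⟩, h2⟩; exact ⟨h2, h1⟩
  · rintro ⟨h1, h2⟩; exact ⟨⟨h h1, h2⟩, h1⟩

lemma pat_eq_iff : pat x F m = pat x F n ↔ ∀ i ∈ F, x (m + i) = x (n + i) := by
  constructor
  · intro h i hi
    have h1 : i ∈ pat x F m ↔ i ∈ pat x F n := by rw [h]
    simp only [mem_pat, hi, true_and] at h1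
    cases hx : x (m + i) <;> cases hy : x (n + i) <;> simp_all
  · intro h
    ext i
    simp only [mem_pat]
    constructor
    · rintro ⟨h1, h2⟩; exact ⟨h1, by rw [← h i h1]; exact h2⟩
    · rintro ⟨h1, h2⟩; exact ⟨h1, by rw [h i h1]; exact h2⟩

lemma pat_mono (h : G ⊆ F) (he : pat x F m = pat x F n) : pat x G m = pat x G n := by
  rw [pat_eq_iff] at he ⊢
  exact fun i hi => he i (h hi)

/-- any finite set of values of a function of the pattern has at most `p x F` elements -/
lemma card_le_p {β : Type*} [DecidableEq β] (g : ℤ → β)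
    (hg : ∀ m n, pat x F m = pat x F n → g m = g n) (T : Finset β) (hT : ∀ t ∈ T, ∃ m, g m = t) :
    T.card ≤ p x F := by
  classical
  choose! f hf using hT
  have hinj : Set.InjOn (fun t => pat x F (f t)) (T : Set β) := by
    intro s hs t ht h
    rw [← hf s hs, ← hf t ht]
    exact hg _ _ h
  rw [← Finset.card_image_of_injOn hinj]
  apply Finset.card_le_card
  intro S hS
  rw [Finset.mem_image] at hS
  obtain ⟨t, -, rfl⟩ := hS
  exact pat_mem_L x F _

/-- the gain inequality -/
theorem gain (h : F ⊆ F') (M : Finset ℤ) :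
    (M.image (pat x F')).card + p x F ≤ p x F' + (M.image (pat x F)).card := by
  classical
  have hex : ∀ S ∈ L x F, ∃ m, pat x F m = S := fun S hS => mem_L.mp hS
  choose! f hf using hex
  set A := M.image (pat x F') with hA
  set B := (L x F \ M.image (pat x F)).image (fun S => pat x F' (f S)) with hB
  have hdisj : Disjoint A B := by
    rw [Finset.disjoint_left]
    intro S hSA hSB
    rw [hA, Finset.mem_image] at hSA
    rw [hB, Finset.mem_image] at hSB
    obtain ⟨m, hm, rfl⟩ := hSA
    obtain ⟨S', hS', h2⟩ := hSB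
    rw [Finset.mem_sdiff] at hS'
    apply hS'.2
    rw [Finset.mem_image]
    refine ⟨m, hm, ?_⟩
    rw [← hf S' hS'.1]
    exact pat_mono h h2.symm
  have hcard : B.card = (L x F \ M.image (pat x F)).card := by
    apply Finset.card_image_of_injOn
    intro S hS S' hS' h2
    have hS1 := (Finset.mem_sdiff.mp hS).1
    have hS2 := (Finset.mem_sdiff.mp hS').1
    rw [← hf S hS1, ← hf S' hS2]
    exact pat_mono h h2
  have hsub : A ∪ B ⊆ L x F' := by
    intro S hS
    rw [Finset.mem_union] at hS
    rcases hS with hS | hS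
    · rw [hA, Finset.mem_image] at hS
      obtain ⟨m, -, rfl⟩ := hS
      exact pat_mem_L _ _ _
    · rw [hB, Finset.mem_image] at hS
      obtain ⟨m, -, rfl⟩ := hS
      exact pat_mem_L _ _ _
  have h1 := Finset.card_le_card hsub
  rw [Finset.card_union_of_disjoint hdisj, hcard] at h1
  have h2 := Finset.le_card_sdiff (M.image (pat x F)) (L x F)
  unfold p
  omega

lemma p_mono (h : F ⊆ F') : p x F ≤ p x F' := by
  have := gain (x := x) h ∅
  simpa using this

lemma L_subset_powerset : L x F ⊆ F.powerset := by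
  intro S hS
  obtain ⟨m, rfl⟩ := mem_L.mp hS
  exact Finset.mem_powerset.mpr pat_subset

lemma p_pos (x : ℤ → Bool) (F : Finset ℤ) : 0 < p x F :=
  Finset.card_pos.mpr ⟨_, pat_mem_L x F 0⟩

/-- a sequence of low complexity cannot have windows which can always be enlarged with a gain
of more than two patterns per place -/
theorem slope (hl : Low x) (F0 : Finset ℤ)
    (h : ∀ F, F0 ⊆ F → ∃ F', F ⊆ F' ∧ 2 * F'.card + p x F + 1 ≤ p x F' + 2 * F.card) : False := by
  have key : ∀ k : ℕ, ∃ F, F0 ⊆ F ∧ 2 * F.card + p x F0 + k ≤ p x F + 2 * F0.card := by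
    intro k
    induction k with
    | zero => exact ⟨F0, Finset.Subset.refl _, by omega⟩
    | succ k ih =>
      obtain ⟨F, hF, h1⟩ := ih
      obtain ⟨F', hF', h2⟩ := h F hF
      exact ⟨F', hF.trans hF', by omega⟩
  obtain ⟨F, hF, h1⟩ := key (2 * F0.card + 1)
  rcases F.eq_empty_or_nonempty with he | hne
  · subst he
    have : F0 = ∅ := Finset.subset_empty.mp hF
    subst this
    simp at h1
  · have h2 := hl F hne
    have h3 := p_pos x F0
    omega

/-- returns that are divisible by a given integer -/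
theorem AR (hr : Rec x) (a b q : ℤ) (hq : 0 < q) :
    ∃ h : ℤ, 0 < h ∧ q ∣ h ∧ ∀ m, a ≤ m → m ≤ b → x (m + h) = x m := by
  choose f hf0 hf using fun c : ℤ => hr a c
  let s : ℕ → ℤ := fun n => Nat.rec 0 (fun _ s => s + f (b + s)) n
  have hs0 : s 0 = 0 := rfl
  have hs1 : ∀ n, s (n + 1) = s n + f (b + s n) := fun n => rfl
  have hpos : ∀ n, s n < s (n + 1) := fun n => by rw [hs1]; linarith [hf0 (b + s n)]
  have hmono : StrictMono s := strictMono_nat_of_lt_succ hpos
  have hnn : ∀ n, 0 ≤ s n := fun n => by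
    have := hmono.monotone (Nat.zero_le n)
    rwa [hs0] at this
  have key : ∀ i j : ℕ, i ≤ j → ∀ m, a ≤ m → m ≤ b → x (m + (s j - s i)) = x m := by
    intro i j hij
    induction j, hij using Nat.le_induction with
    | base => intro m _ _; simp
    | succ j hij ih =>
      intro m hm1 hm2
      have h1 := ih m hm1 hm2
      have h2 := hf (b + s j) (m + (s j - s i)) (by have := hmono.monotone hij; linarith)
        (by linarith [hnn i])
      rw [hs1, ← h1, ← h2]
      congr 1
      ring
  have : NeZero q.toNat := ⟨by omega⟩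
  obtain ⟨i, j, hij, h⟩ := Finite.exists_ne_map_eq_of_infinite
    (fun n : ℕ => (Int.cast (s n) : ZMod q.toNat))
  have hq' : ((q.toNat : ℕ) : ℤ) = q := Int.toNat_of_nonneg hq.le
  wlog hlt : i < j generalizing i j with H
  · exact H j i hij.symm h.symm (lt_of_le_of_ne (not_lt.mp hlt) hij.symm)
  refine ⟨s j - s i, by linarith [hmono hlt], ?_, key i j hlt.le⟩
  have h1 := (ZMod.intCast_eq_intCast_iff_dvd_sub (s i) (s j) q.toNat).mp h
  rwa [hq'] at h1

/-- returns that are large and divisible by a given integer -/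
theorem AR' (hr : Rec x) (a b q C : ℤ) (hq : 0 < q) :
    ∃ h : ℤ, C < h ∧ 0 < h ∧ q ∣ h ∧ ∀ m, a ≤ m → m ≤ b → x (m + h) = x m := by
  obtain ⟨h, h0, h1, h2⟩ := AR hr a b (q * (|C| + 1)) (by positivity)
  refine ⟨h, ?_, h0, (Dvd.intro _ rfl).trans h1, h2⟩
  obtain ⟨k, rfl⟩ := h1
  have hk : 0 < k := by
    by_contra hk
    push Not at hk
    have h3 : 0 < q * (|C| + 1) := by positivity
    nlinarith
  have h4 : |C| + 1 ≤ q * (|C| + 1) := by nlinarith [abs_nonneg C]
  have h5 : q * (|C| + 1) ≤ q * (|C| + 1) * k := by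
    have : 0 < q * (|C| + 1) := by positivity
    nlinarith
  linarith [le_abs_self C]

/-- both changes occur at every distance -/
lemma both (hr : Rec x) (ha : Aper x) {h : ℤ} (hh : 0 < h) :
    (∃ m, x m = false ∧ x (m + h) = true) ∧ (∃ m, x m = true ∧ x (m + h) = false) := by
  obtain ⟨m0, hm0⟩ := ha h hh.ne'
  obtain ⟨h', h0, ⟨k, rfl⟩, h2⟩ := AR hr m0 m0 h hh
  have h3 := h2 m0 le_rfl le_rfl
  have hk : 0 < k := by
    by_contra hk
    push Not at hk
    nlinarith
  have hprop : ∀ v : Bool, (∀ m, x m = v → x (m + h) = v) →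
      ∀ j : ℕ, x (m0 + h) = v → x (m0 + h + j * h) = v := by
    intro v hv j hj
    induction j with
    | zero => simpa using hj
    | succ j ih =>
      have := hv _ ih
      rw [← this]
      congr 1
      push_cast
      ring
  have hend : m0 + h + ((k - 1).toNat : ℤ) * h = m0 + h * k := by
    rw [Int.toNat_of_nonneg (by omega)]
    ring
  constructor
  · by_contra hcon
    push Not at hcon
    have hv : ∀ m, x m = false → x (m + h) = false := fun m hm => by
      have := hcon m hm
      simpa using this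
    cases hx : x m0
    · have h5 := hv m0 hx
      exact hm0 (by rw [hx, h5])
    · have h5 : x (m0 + h) = false := by
        cases h6 : x (m0 + h)
        · rfl
        · exact absurd (by rw [h6, hx]) hm0
      have h6 := hprop false hv (k - 1).toNat h5
      rw [hend, h3, hx] at h6
      exact absurd h6 (by decide)
  · by_contra hcon
    push Not at hcon
    have hv : ∀ m, x m = true → x (m + h) = true := fun m hm => by
      have := hcon m hm
      simpa using this
    cases hx : x m0
    · have h5 : x (m0 + h) = true := by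
        cases h6 : x (m0 + h)
        · exact absurd (by rw [h6, hx]) hm0
        · rfl
      have h6 := hprop true hv (k - 1).toNat h5
      rw [hend, h3, hx] at h6
      exact absurd h6 (by decide)
    · have h5 := hv m0 hx
      exact hm0 (by rw [hx, h5])

/-- enlarging a window by a common return gains at least two patterns -/
theorem growth (hr : Rec x) (ha : Aper x) (W : Finset ℤ) :
    ∃ a b : ℤ, ∀ h, 0 < h → (∀ m, a ≤ m → m ≤ b → x (m + h) = x m) →
      ∀ w ∈ W, p x W + 2 ≤ p x (insert (w + h) W) := by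
  classical
  have hex : ∀ S ∈ L x W, ∃ m, pat x W m = S := fun S hS => mem_L.mp hS
  choose! f hf using hex
  -- all the places `f S + w`
  set T : Finset ℤ := (L x W ×ˢ W).image (fun q => f q.1 + q.2) with hT
  obtain ⟨a, ha'⟩ := T.bddBelow
  obtain ⟨b, hb'⟩ := T.bddAbove
  refine ⟨a, b, fun h hh hret w hw => ?_⟩
  obtain ⟨⟨m1, h1, h1'⟩, ⟨m2, h2, h2'⟩⟩ := both hr ha hh
  have hret' : ∀ S ∈ L x W, x (f S + w + h) = x (f S + w) := by
    intro S hS
    have : f S + w ∈ T := by
      rw [hT, Finset.mem_image]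
      exact ⟨(S, w), Finset.mem_product.mpr ⟨hS, hw⟩, rfl⟩
    exact hret _ (ha' this) (hb' this)
  set n1 := m1 - w with hn1
  set n2 := m2 - w with hn2
  set P := pat x W n1 with hP
  set Q := pat x W n2 with hQ
  have hPL : P ∈ L x W := pat_mem_L _ _ _
  have hQL : Q ∈ L x W := pat_mem_L _ _ _
  have e1 : x (f P + w) = false := by
    have := (pat_eq_iff.mp (hf P hPL)) w hw
    rw [this, hn1]
    rw [show m1 - w + w = m1 by ring]; exact h1
  have e2 : x (f Q + w) = true := by
    have := (pat_eq_iff.mp (hf Q hQL)) w hw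
    rw [this, hn2]
    rw [show m2 - w + w = m2 by ring]; exact h2
  have g := gain (x := x) (Finset.subset_insert (w + h) W) {n1, f P, n2, f Q}
  have him : ({n1, f P, n2, f Q} : Finset ℤ).image (pat x W) ⊆ {P, Q} := by
    intro S hS
    simp only [Finset.mem_image, Finset.mem_insert, Finset.mem_singleton] at hS ⊢
    obtain ⟨m, hm, rfl⟩ := hS
    rcases hm with rfl | rfl | rfl | rfl
    · left; rfl
    · left; exact hf P hPL
    · right; rfl
    · right; exact hf Q hQL
  have hcard2 : (({n1, f P, n2, f Q} : Finset ℤ).image (pat x W)).card ≤ 2 :=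
    (Finset.card_le_card him).trans Finset.card_le_two
  have hcard4 : 4 ≤ (({n1, f P, n2, f Q} : Finset ℤ).image (pat x (insert (w + h) W))).card := by
    have hsub : ({(false, true), (false, false), (true, false), (true, true)} : Finset (Bool × Bool))
        ⊆ (({n1, f P, n2, f Q} : Finset ℤ).image (pat x (insert (w + h) W))).image
          (fun S => (decide (w ∈ S), decide (w + h ∈ S))) := by
      intro t ht
      rw [Finset.image_image, Finset.mem_image]
      have hd : ∀ m i : ℤ, i ∈ insert (w + h) W →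
          decide (i ∈ pat x (insert (w + h) W) m) = x (m + i) := by
        intro m i hi
        have : i ∈ pat x (insert (w + h) W) m ↔ x (m + i) = true := by
          rw [mem_pat]; exact ⟨fun h => h.2, fun h => ⟨hi, h⟩⟩
        cases hx : x (m + i)
        · rw [hx] at this
          simpa using this
        · rw [hx] at this
          simpa using this
      have hw1 : w ∈ insert (w + h) W := Finset.mem_insert_of_mem hw
      have hw2 : w + h ∈ insert (w + h) W := Finset.mem_insert_self _ _
      have ev : ∀ m, ((fun S => (decide (w ∈ S), decide (w + h ∈ S))) ∘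
          (pat x (insert (w + h) W))) m = (x (m + w), x (m + (w + h))) := by
        intro m
        simp only [Function.comp]
        rw [hd m w hw1, hd m (w + h) hw2]
      simp only [Finset.mem_insert, Finset.mem_singleton] at ht
      rcases ht with rfl | rfl | rfl | rfl
      · refine ⟨n1, by simp, ?_⟩
        rw [ev, hn1, show m1 - w + w = m1 by ring, show m1 - w + (w + h) = m1 + h by ring, h1, h1']
      · refine ⟨f P, by simp, ?_⟩
        rw [ev, ← add_assoc, hret' P hPL, e1]
      · refine ⟨n2, by simp, ?_⟩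
        rw [ev, hn2, show m2 - w + w = m2 by ring, show m2 - w + (w + h) = m2 + h by ring, h2, h2']
      · refine ⟨f Q, by simp, ?_⟩
        rw [ev, ← add_assoc, hret' Q hQL, e2]
    have h5 := Finset.card_le_card hsub
    have h6 : ({(false, true), (false, false), (true, false), (true, true)} :
        Finset (Bool × Bool)).card = 4 := by decide
    rw [h6] at h5
    exact h5.trans Finset.card_image_le
  omega

/-- windows of every size with at least `2 n` patterns -/
theorem exists_full (hr : Rec x) (ha : Aper x) (n : ℕ) (hn : 1 ≤ n) :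
    ∃ F : Finset ℤ, 0 ∈ F ∧ (∀ i ∈ F, 0 ≤ i) ∧ F.card = n ∧ 2 * n ≤ p x F := by
  classical
  induction n, hn using Nat.le_induction with
  | base =>
    refine ⟨{0}, by simp, by simp, by simp, ?_⟩
    obtain ⟨⟨m1, h1, -⟩, ⟨m2, h2, -⟩⟩ := both hr ha (show (0 : ℤ) < 1 by norm_num)
    have := card_le_p (x := x) (F := {0}) (fun m => x m) (by
      intro m n h
      have := (pat_eq_iff.mp h) 0 (by simp)
      simpa using this) {false, true} (by
      intro t ht
      simp only [Finset.mem_insert, Finset.mem_singleton] at ht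
      rcases ht with rfl | rfl
      · exact ⟨m1, h1⟩
      · exact ⟨m2, h2⟩)
    simpa using this
  | succ n hn ih =>
    obtain ⟨F, h0, h1, h2, h3⟩ := ih
    obtain ⟨a, b, hab⟩ := growth hr ha F
    have hne : F.Nonempty := ⟨0, h0⟩
    obtain ⟨h, hh1, hh2, -, hh3⟩ := AR' hr a b 1 (F.max' hne) one_pos
    have h4 := hab h hh2 hh3 0 h0
    have h5 : (0 : ℤ) + h ∉ F := by
      intro hmem
      have := F.le_max' _ hmem
      linarith
    refine ⟨insert (0 + h) F, by simp [h0], ?_, ?_, ?_⟩
    · intro i hi
      rw [Finset.mem_insert] at hi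
      rcases hi with rfl | hi
      · linarith
      · exact h1 i hi
    · rw [Finset.card_insert_of_notMem h5, h2]
    · omega

/-- full windows of every size -/
theorem exists_full' (hl : Low x) (hr : Rec x) (ha : Aper x) (n : ℕ) (hn : 1 ≤ n) :
    ∃ F : Finset ℤ, F.card = n ∧ p x F = 2 * n := by
  obtain ⟨F, h0, -, h2, h3⟩ := exists_full hr ha n hn
  refine ⟨F, h2, le_antisymm ?_ h3⟩
  have := hl F ⟨0, h0⟩
  rwa [h2] at this

/-- restriction to a residue class -/
def sub (x : ℤ → Bool) (N r : ℤ) : ℤ → Bool := fun j => x (r + j * N)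

lemma sub_p {N r : ℤ} (F : Finset ℤ) :
    p (sub x N r) F ≤ p x (F.image (fun i => i * N)) := by
  classical
  have hex : ∀ S ∈ L (sub x N r) F, ∃ m, pat (sub x N r) F m = S := fun S hS => mem_L.mp hS
  choose! f hf using hex
  apply card_le_p (x := x) (F := F.image (fun i => i * N))
    (fun m => F.filter fun i => x (m + i * N) = true)
  · intro m n h
    ext i
    simp only [Finset.mem_filter]
    constructor
    · rintro ⟨h1, h2⟩
      refine ⟨h1, ?_⟩
      rw [← (pat_eq_iff.mp h) (i * N) (Finset.mem_image_of_mem _ h1)]; exact h2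
    · rintro ⟨h1, h2⟩
      refine ⟨h1, ?_⟩
      rw [(pat_eq_iff.mp h) (i * N) (Finset.mem_image_of_mem _ h1)]; exact h2
  · intro S hS
    refine ⟨r + f S * N, ?_⟩
    conv_rhs => rw [← hf S hS]
    ext i
    simp only [Finset.mem_filter, mem_pat, sub]
    rw [show r + f S * N + i * N = r + (f S + i) * N by ring]

lemma sub_low {N r : ℤ} (hl : Low x) : Low (sub x N r) := by
  classical
  intro F hF
  refine (sub_p F).trans ?_
  have h1 := hl (F.image (fun i => i * N)) (hF.image _)
  have h2 : (F.image (fun i => i * N)).card ≤ F.card := Finset.card_image_le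
  omega

lemma sub_rec {N r : ℤ} (hN : 0 < N) (hr : Rec x) : Rec (sub x N r) := by
  intro a b
  obtain ⟨h, h0, ⟨k, rfl⟩, h2⟩ := AR hr (r + a * N) (r + b * N) N hN
  have hk : 0 < k := by
    by_contra hk
    push Not at hk
    nlinarith
  refine ⟨k, hk, fun m hm1 hm2 => ?_⟩
  have h3 := h2 (r + m * N) (by nlinarith) (by nlinarith)
  simp only [sub]
  rw [← h3]
  congr 1
  ring

/-- a uniformly recurrent sequence is recurrent -/
lemma UR.rec' (hu : UR x) : Rec x := by
  intro a b
  obtain ⟨K, hK, h⟩ := hu a b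
  obtain ⟨k, hk0, -, hk⟩ := h 1
  exact ⟨1 + k, by omega, hk⟩

end Pool.Agent.PatSturm
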