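import Mathlib
import Pool.Agent.PatSturm.Core
import Pool.Agent.Helper434.PCBasic

/-!
Translation between the two sets of definitions.
-/

set_option autoImplicit false

namespace Pool.Agent.PatSturm

open Pool.Agent.Helper434.PCDefs Pool.Agent.Helper434.PCBasic

variable {x y : ℤ → Bool} {F : Finset ℤ}

lemma eqv_iff {m n : ℤ} : Eqv x F m n ↔ pat x F m = pat x F n := pat_eq_iff.symm

theorem Low.bdd (hl : Low x) : Bdd x := by
  classical
  intro F T hF hT
  refine le_trans ?_ (hl F hF)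
  have h1 : (T.image (pat x F)).card = T.card := by
    apply Finset.card_image_of_injOn
    intro m hm n hn h
    exact hT m hm n hn (eqv_iff.mpr h)
  rw [← h1]
  apply Finset.card_le_card
  intro S hS
  rw [Finset.mem_image] at hS
  obtain ⟨m, -, rfl⟩ := hS
  exact pat_mem_L x F m

/-- a complete set of representatives of the patterns on a window -/
lemma exists_reps (x : ℤ → Bool) (F : Finset ℤ) : ∃ T : Finset ℤ, Indep x F T ∧
    T.card = p x F ∧ ∀ n, ∃ t ∈ T, Eqv x F n t := by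
  classical
  have hex : ∀ S ∈ L x F, ∃ m, pat x F m = S := fun S hS => mem_L.mp hS
  choose! f hf using hex
  refine ⟨(L x F).image f, ?_, ?_, ?_⟩
  · intro m hm n hn h
    rw [Finset.mem_image] at hm hn
    obtain ⟨S, hS, rfl⟩ := hm
    obtain ⟨S', hS', rfl⟩ := hn
    rw [eqv_iff, hf S hS, hf S' hS'] at h
    rw [h]
  · unfold p
    apply Finset.card_image_of_injOn
    intro S hS S' hS' h
    have h' : f S = f S' := h
    rw [← hf S hS, ← hf S' hS', h']
  · intro n
    refine ⟨f (pat x F n), Finset.mem_image_of_mem _ (pat_mem_L x F n), ?_⟩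
    rw [eqv_iff, hf _ (pat_mem_L x F n)]

theorem Bdd.low (hb : Bdd x) : Low x := by
  intro F hF
  obtain ⟨T, h1, h2, -⟩ := exists_reps x F
  rw [← h2]
  exact hb F T hF h1

lemma exists_bounds (F : Finset ℤ) : ∃ C : ℤ, 0 ≤ C ∧ ∀ i ∈ F, -C ≤ i ∧ i ≤ C := by
  refine ⟨∑ i ∈ F, |i|, Finset.sum_nonneg fun i _ => abs_nonneg i, fun i hi => ?_⟩
  have := Finset.single_le_sum (f := fun i : ℤ => |i|) (fun i _ => abs_nonneg i) hi
  exact abs_le.mp this

theorem Rec.recR (hr : Rec x) : RecR x := by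
  intro F m N
  obtain ⟨C, hC0, hC⟩ := exists_bounds F
  obtain ⟨h, h1, -, -, h2⟩ := AR' hr (m - C) (m + C) 1 (N - m) one_pos
  refine ⟨m + h, by omega, fun i hi => ?_⟩
  have := hC i hi
  rw [← h2 (m + i) (by omega) (by omega)]
  congr 1; ring

theorem RecR.rec' (hr : RecR x) : Rec x := by
  intro a b
  obtain ⟨m, h0, h1⟩ := hr (Finset.Icc a b) 0 0
  refine ⟨m, h0, fun i hi1 hi2 => ?_⟩
  have := h1 i (Finset.mem_Icc.mpr ⟨hi1, hi2⟩)
  rw [zero_add] at this
  rw [← this, add_comm]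

theorem UR.urec (hu : UR x) : URec x := by
  intro F m
  obtain ⟨C, hC0, hC⟩ := exists_bounds F
  obtain ⟨K, hK, h⟩ := hu (m - C) (m + C)
  refine ⟨K.toNat, fun n => ?_⟩
  obtain ⟨k, hk0, hk1, hk2⟩ := h (n - m)
  refine ⟨n + k, by omega, by omega, fun i hi => ?_⟩
  have := hC i hi
  rw [← hk2 (m + i) (by omega) (by omega)]
  congr 1; ring

theorem URec.ur (hu : URec x) : UR x := by
  intro a b
  obtain ⟨G, h⟩ := hu (Finset.Icc a b) 0
  refine ⟨(G : ℤ) + 1, by omega, fun n => ?_⟩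
  obtain ⟨m, h1, h2, h3⟩ := h n
  refine ⟨m - n, by omega, by omega, fun i hi1 hi2 => ?_⟩
  have := h3 i (Finset.mem_Icc.mpr ⟨hi1, hi2⟩)
  rw [zero_add] at this
  rw [← this]
  congr 1; ring

/-- patterns of `y` are patterns of `x` -/
lemma Hull.L_subset (h : Hull x y) (F : Finset ℤ) : L y F ⊆ L x F := by
  intro S hS
  obtain ⟨m, rfl⟩ := mem_L.mp hS
  obtain ⟨C, hC0, hC⟩ := exists_bounds F
  obtain ⟨k, hk⟩ := h (m - C) (m + C)
  rw [mem_L]
  refine ⟨m + k, ?_⟩
  ext i
  simp only [mem_pat]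
  constructor
  · rintro ⟨h1, h2⟩
    have := hC i h1
    refine ⟨h1, ?_⟩
    rw [← hk (m + i) (by omega) (by omega), ← h2]
    congr 1; ring
  · rintro ⟨h1, h2⟩
    have := hC i h1
    refine ⟨h1, ?_⟩
    rw [← hk (m + i) (by omega) (by omega)] at h2
    rw [← h2]
    congr 1; ring

lemma Hull.low (h : Hull x y) (hl : Low x) : Low y := by
  intro F hF
  exact (Finset.card_le_card (h.L_subset F)).trans (hl F hF)

end Pool.Agent.PatSturm
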