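import Mathlib
import Pool.Agent.PatSturm.Defs
import Pool.Agent.PatSturm.Bridge
import Pool.Agent.Helper434.PCDefs

/-!
Definitions for words `x_1 x_2 x_3 ...` that need not be recurrent. A word is given by a function
on the integers of which only the values at `n ≥ 1` matter; windows are finite sets of integers
`≥ 0`, and windows are placed at `m ≥ 1`.
-/

set_option autoImplicit false

namespace Pool.Agent.PatSturm.NR

open Pool.Agent.PatSturm Pool.Agent.Helper434.PCDefs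

/-- at most `2 |K|` patterns on every window -/
def Low1 (x : ℤ → Bool) : Prop :=
  ∀ K T : Finset ℤ, K.Nonempty → (∀ k ∈ K, 0 ≤ k) → (∀ m ∈ T, 1 ≤ m) → Indep x K T →
    T.card ≤ 2 * K.card

/-- windows of each size with at least `2 |K|` patterns -/
def Full1 (x : ℤ → Bool) : Prop :=
  ∀ n : ℕ, 1 ≤ n → ∃ K T : Finset ℤ, K.card = n ∧ (∀ k ∈ K, 0 ≤ k) ∧ (∀ m ∈ T, 1 ≤ m) ∧
    Indep x K T ∧ T.card = 2 * n

/-- not ultimately periodic (to the right) -/
def NUP (x : ℤ → Bool) : Prop := ∀ q C : ℤ, 0 < q → ∃ n, C < n ∧ x (n + q) ≠ x n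

/-- every block of `y` occurs infinitely often to the right in `x` -/
def RHull (x y : ℤ → Bool) : Prop :=
  ∀ a b C : ℤ, ∃ h, C < h ∧ ∀ m, a ≤ m → m ≤ b → x (m + h) = y m

/-- the letter `true` occurs infinitely often, with gaps tending to infinity -/
def Sparse (x : ℤ → Bool) : Prop :=
  (∀ C : ℤ, ∃ n, C < n ∧ x n = true) ∧
    ∀ h : ℤ, 0 < h → ∃ C : ℤ, ∀ n, C < n → ¬ (x n = true ∧ x (n + h) = true)

/-- at most `|K| - 1` distinct traces of size at least two -/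
def Star (x : ℤ → Bool) : Prop :=
  ∀ K T : Finset ℤ, K.Nonempty → (∀ k ∈ K, 0 ≤ k) → (∀ m ∈ T, 1 ≤ m) → Indep x K T →
    (∀ m ∈ T, ∃ k ∈ K, ∃ l ∈ K, k ≠ l ∧ x (m + k) = true ∧ x (m + l) = true) →
    T.card + 1 ≤ K.card

/-- coding of an irrational rotation by an interval of any of the types `[0,β)`, `[0,β]`, `(0,β)`,
`(0,β]` -/
def AnyInterval (x : ℤ → Bool) : Prop :=
  ∃ α β θ : ℝ, Irrational α ∧ 0 < β ∧ β < 1 ∧
    ((∀ n : ℤ, 1 ≤ n → (x n = true ↔ Int.fract (n * α + θ) < β)) ∨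
     (∀ n : ℤ, 1 ≤ n → (x n = true ↔ Int.fract (n * α + θ) ≤ β)) ∨
     (∀ n : ℤ, 1 ≤ n → (x n = true ↔ 0 < Int.fract (n * α + θ) ∧ Int.fract (n * α + θ) < β)) ∨
     (∀ n : ℤ, 1 ≤ n → (x n = true ↔ 0 < Int.fract (n * α + θ) ∧ Int.fract (n * α + θ) ≤ β)))

/-!
Parts (`x y : ℤ → Bool`):

R1  exists_rhull (x) : ∃ y, RHull x y ∧ UR y
    RHull.low : RHull x y → Low1 x → Low y
R2  rot_case : Low1 x → RHull x y → Irrational α → 0 < β → β < 1 →
      (∀ n : ℤ, y n = true ↔ Int.fract (n * α + θ) < β) → AnyInterval x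
R3  toep_case : Low1 x → NUP x → RHull x y → ToepForm y → ∃ X, ToepForm X ∧ ∀ n, 1 ≤ n → x n = X n
R4  sparse_of_runs : Low1 x → (∀ C, ∃ n, C < n ∧ x n = true) →
      (∀ C K, ∃ n, C < n ∧ ∀ i, 0 ≤ i → i < K → x (n + i) = false) → Sparse x
R5  per_case : Low1 x → NUP x → RHull x y → (∃ q, 0 < q ∧ ∀ m, y (m + q) = y m) →
      Sparse x ∨ Sparse (fun n => !x n)
R6  sparse_low_iff : Sparse x → (Low1 x ↔ Star x),  sparse_full : Sparse x → Full1 x
R7  any_low : AnyInterval x → Low1 x,  any_full : AnyInterval x → Full1 x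
R8  criterion for Star x in terms of the sum graph
R9  statement and assembly
-/

end Pool.Agent.PatSturm.NR
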