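import Mathlib
import Pool.Agent.Helper434.PCBasic
import Pool.Agent.PatSturm.Defs

/-!
Interface for Case 1 (one cluster of flips) of the classification of uniformly recurrent pattern
Sturmian sequences.
-/

set_option autoImplicit false

namespace Pool.Agent.PatSturm

open Pool.Agent.Helper434.PCDefs Pool.Agent.Helper434.PCBasic

/-- the flips of all small `h` lie in one small ball -/
def OnePt (y : ℤ → Bool) : Prop :=
  ∀ η : ℝ, 0 < η → ∃ ε : ℝ, 0 < ε ∧ ∃ c : ℤ, ∀ h,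
    0 < dd y h → dd y h < ε →
    ∀ n ∈ R y h, dd y (n - c) < η

/-- the places around which `y` is not constant at scale `ρ` -/
def NZ (y : ℤ → Bool) (ρ : ℝ) : Set ℤ :=
  {n | ∃ a b, dd y (a - n) < ρ ∧
    dd y (b - n) < ρ ∧ y a ≠ y b}

/-- `y` has a germ `g` at its unique point of discontinuity -/
structure Germ (y g : ℤ → Bool) : Prop where
  core : Core y
  ne : ∀ ρ : ℝ, 0 < ρ → (NZ y ρ).Nonempty
  small : ∀ ε : ℝ, 0 < ε → ∃ ρ : ℝ, 0 < ρ ∧ ∀ n ∈ NZ y ρ, ∀ n' ∈ NZ y ρ,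
    dd y (n - n') < ε
  lim : ∀ w : ℤ, w ≠ 0 → ∃ ρ : ℝ, 0 < ρ ∧ ∀ n ∈ NZ y ρ, ∀ m,
    dd y (m - (n + w)) < ρ → y m = g w

/-- small elements are divisible by `N` -/
def Open' (y : ℤ → Bool) (N : ℤ) : Prop :=
  ∃ ρ : ℝ, 0 < ρ ∧ ∀ k, dd y k < ρ → N ∣ k

/-- `N` is a good modulus: small elements are divisible by `N`, and both letters occupy a whole
class modulo `N` -/
def Good (y : ℤ → Bool) (N : ℤ) : Prop :=
  1 ≤ N ∧ Open' y N ∧ (∀ a : Bool, ∃ r, ∀ j, y (r + j * N) = a)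

end Pool.Agent.PatSturm
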