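import Mathlib
import Pool.Agent.PatSturm.Germ

/-!
Case 1 (one cluster of flips), first part: existence of the germ at the point of discontinuity,
the patterns around it, and existence of a good modulus.
-/

set_option autoImplicit false

namespace Pool.Agent.PatSturm

open Pool.Agent.Helper434.PCDefs Pool.Agent.Helper434.PCBasic

variable {y g : ℤ → Bool}

lemma NZ_mono {ρ ρ' : ℝ} (h : ρ ≤ ρ') : NZ y ρ ⊆ NZ y ρ' := by
  rintro n ⟨a, b, ha, hb, hab⟩
  exact ⟨a, b, ha.trans_le h, hb.trans_le h, hab⟩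

/-- if two places at distance less than `ρ` carry different letters, the first is in `NZ y ρ` -/
lemma mem_NZ {ρ : ℝ} (hρ : 0 < ρ) {a b : ℤ} (h : dd y (b - a) < ρ) (hab : y a ≠ y b) :
    a ∈ NZ y ρ := by
  refine ⟨a, b, ?_, h, hab⟩
  rw [sub_self, dd_zero]; exact hρ

/-- outside `NZ y ρ` the sequence is constant at scale `ρ` -/
lemma eq_of_not_mem_NZ {ρ : ℝ} (hρ : 0 < ρ) {a : ℤ} (ha : a ∉ NZ y ρ) {b : ℤ}
    (h : dd y (b - a) < ρ) : y b = y a := by
  by_contra hne
  exact ha (mem_NZ hρ h (Ne.symm hne))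

/-- every letter occurs close to a point of `NZ y ρ` -/
lemma exists_near {ρ : ℝ} {n : ℤ} (hn : n ∈ NZ y ρ) (b : Bool) : ∃ a, dd y (a - n) < ρ ∧ y a = b := by
  obtain ⟨a, a', ha, ha', hne⟩ := hn
  by_cases h : y a = b
  · exact ⟨a, ha, h⟩
  · refine ⟨a', ha', ?_⟩
    revert h hne
    cases y a <;> cases y a' <;> cases b <;> simp

theorem germ_of_core (hc : Core y) (h1 : OnePt y) : ∃ g, Germ y g := by
  have hne : ∀ ρ : ℝ, 0 < ρ → (NZ y ρ).Nonempty := by
    intro ρ hρ
    obtain ⟨h, hh0, hh1⟩ := hc.inf ρ hρ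
    obtain ⟨n, hn⟩ := R01_nonempty hh0
    refine ⟨n, mem_NZ hρ (b := n + h) ?_ (R01_sub y h hn)⟩
    rw [show n + h - n = h by ring]; exact hh1
  have hsmall : ∀ ε : ℝ, 0 < ε → ∃ ρ : ℝ, 0 < ρ ∧ ∀ n ∈ NZ y ρ, ∀ n' ∈ NZ y ρ,
      dd y (n - n') < ε := by
    intro ε hε
    obtain ⟨ε0, hε0, c, hcc⟩ := h1 (ε / 4) (by positivity)
    refine ⟨min (ε0 / 2) (ε / 8), by positivity, ?_⟩
    have key : ∀ n ∈ NZ y (min (ε0 / 2) (ε / 8)), dd y (n - c) < ε / 2 := by
      rintro n ⟨a, b, ha, hb, hab⟩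
      have ha1 := lt_of_lt_of_le ha (min_le_left _ _)
      have ha2 := lt_of_lt_of_le ha (min_le_right _ _)
      have hb1 := lt_of_lt_of_le hb (min_le_left _ _)
      have hd : dd y (b - a) < ε0 := by
        have t1 := dd_tri y b n a
        have t2 := dd_comm y n a
        linarith
      have hne' : b - a ≠ 0 := by
        intro h0
        have : b = a := by linarith
        exact hab (by rw [this])
      have hR : a ∈ R y (b - a) := by
        show y a ≠ y (a + (b - a))
        rw [show a + (b - a) = b by ring]; exact hab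
      have h2 := hcc (b - a) (hc.pos _ hne') hd a hR
      have t1 := dd_tri y n a c
      have t2 := dd_comm y n a
      linarith
    intro n hn n' hn'
    have k1 := key n hn
    have k2 := key n' hn'
    have t1 := dd_tri y n c n'
    have t2 := dd_comm y c n'
    linarith
  have hlim : ∀ w : ℤ, ∃ v : Bool, w ≠ 0 → ∃ ρ : ℝ, 0 < ρ ∧ ∀ n ∈ NZ y ρ, ∀ m,
      dd y (m - (n + w)) < ρ → y m = v := by
    intro w
    by_cases hw : w = 0
    · exact ⟨false, fun h => absurd hw h⟩
    · have hdw := hc.pos w hw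
      obtain ⟨ρ', hρ', hs'⟩ := hsmall (dd y w / 2) (by positivity)
      obtain ⟨ρ'', hρ'', hs''⟩ := hsmall (ρ' / 2) (by positivity)
      set ρ : ℝ := min ρ'' (min (ρ' / 8) (dd y w / 4)) with hρd
      have hρ : 0 < ρ := by positivity
      have hρ1 : ρ ≤ ρ'' := min_le_left _ _
      have hρ2 : ρ ≤ ρ' / 8 := (min_le_right _ _).trans (min_le_left _ _)
      have hρ3 : ρ ≤ dd y w / 4 := (min_le_right _ _).trans (min_le_right _ _)
      have key : ∀ n ∈ NZ y ρ, ∀ n' ∈ NZ y ρ, ∀ m m', dd y (m - (n + w)) < ρ →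
          dd y (m' - (n' + w)) < ρ → y m = y m' := by
        intro n hn n' hn' m m' hm hm'
        by_contra hne'
        have hnn := hs'' n (NZ_mono hρ1 hn) n' (NZ_mono hρ1 hn')
        have hmm : dd y (m' - m) < ρ' := by
          have t1 := dd_tri y m' (n' + w) m
          have t2 := dd_tri y (n' + w) (n + w) m
          have t3 : dd y (n' + w - (n + w)) = dd y (n - n') := by
            rw [← dd_neg]; congr 1; ring
          have t4 := dd_comm y (n + w) m
          linarith
        have hmem := mem_NZ hρ' hmm hne'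
        have h2 := hs' m hmem n (NZ_mono (by linarith) hn)
        have t1 := dd_tri y (n + w) m n
        have t2 := dd_comm y (n + w) m
        rw [show n + w - n = w by ring] at t1
        linarith
      obtain ⟨n0, hn0⟩ := hne ρ hρ
      refine ⟨y (n0 + w), fun _ => ⟨ρ, hρ, fun n hn m hm => ?_⟩⟩
      exact key n hn n0 hn0 m (n0 + w) hm (by rw [sub_self, dd_zero]; exact hρ)
  choose g hg using hlim
  exact ⟨g, hc, hne, hsmall, hg⟩

/-- a common scale for the germ on finitely many places -/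
lemma Germ.lim_finset (hG : Germ y g) (V : Finset ℤ) : ∃ ρ : ℝ, 0 < ρ ∧ ∀ w ∈ V, w ≠ 0 →
    ∀ n ∈ NZ y ρ, ∀ m, dd y (m - (n + w)) < ρ → y m = g w := by
  classical
  induction V using Finset.induction_on with
  | empty => exact ⟨1, one_pos, fun w hw => by simp at hw⟩
  | insert v V hv ih =>
    obtain ⟨ρ, hρ, h⟩ := ih
    by_cases hv0 : v = 0
    · refine ⟨ρ, hρ, fun w hw hw0 => ?_⟩
      rcases Finset.mem_insert.1 hw with rfl | hw
      · exact absurd hv0 hw0
      · exact h w hw hw0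
    · obtain ⟨ρ', hρ', h'⟩ := hG.lim v hv0
      refine ⟨min ρ ρ', lt_min hρ hρ', fun w hw hw0 n hn m hm => ?_⟩
      rcases Finset.mem_insert.1 hw with rfl | hw
      · exact h' n (NZ_mono (min_le_right _ _) hn) m (hm.trans_le (min_le_right _ _))
      · exact h w hw hw0 n (NZ_mono (min_le_left _ _) hn) m (hm.trans_le (min_le_left _ _))

/-- the patterns seen around the point of discontinuity -/
theorem engine (hG : Germ y g) (V : Finset ℤ) (v : ℤ) (b : Bool) :
    ∃ m, y (m + v) = b ∧ ∀ u ∈ V, u ≠ v → y (m + u) = g (u - v) := by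
  classical
  obtain ⟨ρ, hρ, h⟩ := hG.lim_finset (V.image fun u => u - v)
  obtain ⟨n, hn⟩ := hG.ne ρ hρ
  obtain ⟨a, ha, hab⟩ := exists_near hn b
  refine ⟨a - v, by rw [sub_add_cancel]; exact hab, fun u hu huv => ?_⟩
  refine h (u - v) (Finset.mem_image_of_mem _ hu) (sub_ne_zero.2 huv) n hn _ ?_
  rw [show a - v + u - (n + (u - v)) = a - n by ring]
  exact ha

/-- both letters occur near the point of discontinuity at places avoiding a given one -/
lemma Germ.near_ne (hG : Germ y g) {ρ : ℝ} (hρ : 0 < ρ) (b : Bool) (z : ℤ) :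
    ∃ n ∈ NZ y ρ, ∃ a, a ≠ z ∧ dd y (a - n) < ρ ∧ y a = b := by
  obtain ⟨h, hh0, hh1⟩ := hG.core.inf ρ hρ
  obtain ⟨n0, hn0⟩ := R01_nonempty hh0
  obtain ⟨G, hgap⟩ := hG.core.urec {0, h} n0
  obtain ⟨m, hm1, -, hm⟩ := hgap (|z| + |h| + 1)
  have e0 : y m = y n0 := by
    have := hm 0 (by simp)
    simpa using this
  have e1 : y (m + h) = y (n0 + h) := hm h (by simp)
  have hz := le_abs_self z
  have hh := neg_abs_le h
  have hh' := abs_nonneg h
  have hmem : m ∈ NZ y ρ := by
    refine mem_NZ hρ (b := m + h) ?_ ?_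
    · rw [show m + h - m = h by ring]; exact hh1
    · rw [e0, e1]; exact R01_sub y h hn0
  refine ⟨m, hmem, ?_⟩
  obtain ⟨f0, f1⟩ := hn0
  cases b
  · refine ⟨m, by omega, by rw [sub_self, dd_zero]; exact hρ, ?_⟩
    rw [e0]; exact f0
  · refine ⟨m + h, by omega, by rw [show m + h - m = h by ring]; exact hh1, ?_⟩
    rw [e1]; exact f1

/-- there is at most one integer at which the sequence is discontinuous -/
lemma Germ.exists_center (hG : Germ y g) : ∃ z : ℤ, ∀ a, a ≠ z → ∃ r : ℝ, 0 < r ∧ a ∉ NZ y r := by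
  by_cases hz : ∃ z : ℤ, ∀ r : ℝ, 0 < r → z ∈ NZ y r
  · obtain ⟨z, hz⟩ := hz
    refine ⟨z, fun a ha => ?_⟩
    by_contra hcon
    push Not at hcon
    have hd := hG.core.pos (a - z) (sub_ne_zero.2 ha)
    obtain ⟨ρ, hρ, hs⟩ := hG.small _ hd
    exact lt_irrefl _ (hs a (hcon ρ hρ) z (hz ρ hρ))
  · push Not at hz
    exact ⟨0, fun a _ => hz a⟩

theorem both_small (hG : Germ y g) {ρ : ℝ} (hρ : 0 < ρ) (b : Bool) :
    ∃ s, 0 < dd y s ∧ dd y s < ρ ∧ g s = b := by
  obtain ⟨z, hz⟩ := hG.exists_center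
  obtain ⟨ρa, hρa, hsa⟩ := hG.small (ρ / 4) (by positivity)
  set ρ0 : ℝ := min ρa (ρ / 4) with hρ0d
  have hρ0 : 0 < ρ0 := by positivity
  have hρ01 : ρ0 ≤ ρa := min_le_left _ _
  have hρ02 : ρ0 ≤ ρ / 4 := min_le_right _ _
  obtain ⟨n0, hn0, a, haz, had, hab⟩ := hG.near_ne hρ0 b z
  obtain ⟨r, hr, har⟩ := hz a haz
  obtain ⟨ρb, hρb, hsb⟩ := hG.small r hr
  set ρ1 : ℝ := min ρb (min r ρ0) with hρ1d
  have hρ1 : 0 < ρ1 := by positivity
  have hρ11 : ρ1 ≤ ρb := min_le_left _ _
  have hρ12 : ρ1 ≤ r := (min_le_right _ _).trans (min_le_left _ _)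
  have hρ13 : ρ1 ≤ ρ0 := (min_le_right _ _).trans (min_le_right _ _)
  obtain ⟨n, hn⟩ := hG.ne ρ1 hρ1
  have hs0 : a - n ≠ 0 := by
    intro h0
    have : a = n := by linarith
    rw [this] at har
    exact har (NZ_mono hρ12 hn)
  refine ⟨a - n, hG.core.pos _ hs0, ?_, ?_⟩
  · have t1 := dd_tri y a n0 n
    have t2 := hsa n0 (NZ_mono hρ01 hn0) n (NZ_mono (hρ13.trans hρ01) hn)
    linarith
  · obtain ⟨ρs, hρs, hls⟩ := hG.lim (a - n) hs0
    obtain ⟨n', hn'⟩ := hG.ne (min ρs ρ1) (lt_min hρs hρ1)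
    have e1 := hls n' (NZ_mono (min_le_left _ _) hn') (n' + (a - n))
      (by rw [sub_self, dd_zero]; exact hρs)
    have e2 : y (n' + (a - n)) = y a := by
      refine eq_of_not_mem_NZ hr har ?_
      rw [show n' + (a - n) - a = n' - n by ring]
      exact hsb n' (NZ_mono ((min_le_right _ _).trans hρ11) hn') n (NZ_mono hρ11 hn)
    rw [← e1, e2, hab]

/-- the stabiliser of a set of integers -/
def stab (Q : Set ℤ) : AddSubgroup ℤ where
  carrier := {k | ∀ n, n ∈ Q ↔ n + k ∈ Q}
  zero_mem' := fun n => by rw [add_zero]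
  add_mem' := by
    intro a b ha hb n
    rw [ha n, hb (n + a), add_assoc]
  neg_mem' := by
    intro a ha n
    rw [ha (n + -a), neg_add_cancel_right]

lemma mem_stab {Q : Set ℤ} {k : ℤ} : k ∈ stab Q ↔ ∀ n, n ∈ Q ↔ n + k ∈ Q := Iff.rfl

/-- a uniformly clopen set is a union of classes modulo some `N` -/
lemma exists_modulus (hc : Core y) (Q : Set ℤ) {ρ : ℝ} (hρ : 0 < ρ)
    (hQ : ∀ k, dd y k < ρ → ∀ n ∈ Q, n + k ∈ Q) :
    ∃ N : ℤ, 1 ≤ N ∧ (∀ j n, n ∈ Q ↔ n + j * N ∈ Q) ∧ Open' y N := by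
  have hst : ∀ k, dd y k < ρ → k ∈ stab Q := by
    intro k hk n
    refine ⟨hQ k hk n, fun h => ?_⟩
    have := hQ (-k) (by rw [dd_neg]; exact hk) _ h
    rwa [add_neg_cancel_right] at this
  obtain ⟨a, ha⟩ := Int.subgroup_cyclic (stab Q)
  have hmem : ∀ k, k ∈ stab Q ↔ a ∣ k := by
    intro k
    rw [ha, AddSubgroup.mem_closure_singleton]
    constructor
    · rintro ⟨n, rfl⟩; exact ⟨n, by simp [mul_comm]⟩
    · rintro ⟨n, rfl⟩; exact ⟨n, by simp [mul_comm]⟩
  obtain ⟨h, hh0, hh1⟩ := hc.inf ρ hρ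
  have hne : h ≠ 0 := by
    rintro rfl
    rw [dd_zero] at hh0
    exact lt_irrefl _ hh0
  have ha0 : a ≠ 0 := by
    rintro rfl
    exact hne (zero_dvd_iff.1 ((hmem h).1 (hst h hh1)))
  refine ⟨|a|, Int.one_le_abs ha0, fun j n => ?_, ρ, hρ, fun k hk => ?_⟩
  · exact (hmem (j * |a|)).2 (((dvd_abs a a).2 dvd_rfl).mul_left j) n
  · exact (abs_dvd a k).2 ((hmem k).1 (hst k hk))

/-- small subgroups -/
theorem small_subgroup (hG : Germ y g) {ε : ℝ} (hε : 0 < ε) :
    ∃ N : ℤ, 1 ≤ N ∧ (∀ j : ℤ, dd y (j * N) < ε) ∧ Open' y N := by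
  obtain ⟨ρs, hρs, hs⟩ := hG.small ε hε
  obtain ⟨h, hh0, hh1⟩ := hG.core.inf (min ε ρs) (lt_min hε hρs)
  have hhε := hh1.trans_le (min_le_left _ _)
  have hhs := hh1.trans_le (min_le_right _ _)
  have hne : h ≠ 0 := by
    rintro rfl
    rw [dd_zero] at hh0
    exact lt_irrefl _ hh0
  obtain ⟨ρ1, hρ1, hl1⟩ := hG.lim h hne
  obtain ⟨ρ2, hρ2, hl2⟩ := hG.lim (-h) (neg_ne_zero.2 hne)
  set Q : Set ℤ := {n | y n = !g (-h) ∧ y (n + h) = !g h} with hQ
  have hclopen : ∀ k, dd y k < min ρ1 ρ2 → ∀ n ∈ Q, n + k ∈ Q := by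
    rintro k hk n ⟨hn1, hn2⟩
    have hk1 := hk.trans_le (min_le_left _ _)
    have hk2 := hk.trans_le (min_le_right _ _)
    have e1 : y n = y (n + k) := by
      by_contra hcon
      have hmem : n ∈ NZ y ρ1 := mem_NZ hρ1 (b := n + k) (by
        rw [show n + k - n = k by ring]; exact hk1) hcon
      have := hl1 n hmem (n + h) (by rw [sub_self, dd_zero]; exact hρ1)
      rw [hn2] at this
      revert this
      cases g h <;> simp
    have e2 : y (n + h) = y (n + h + k) := by
      by_contra hcon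
      have hmem : n + h ∈ NZ y ρ2 := mem_NZ hρ2 (b := n + h + k) (by
        rw [show n + h + k - (n + h) = k by ring]; exact hk2) hcon
      have := hl2 (n + h) hmem n (by
        rw [show n - (n + h + -h) = 0 by ring, dd_zero]; exact hρ2)
      rw [hn1] at this
      revert this
      cases g (-h) <;> simp
    refine ⟨by rw [← e1]; exact hn1, ?_⟩
    rw [show n + k + h = n + h + k by ring, ← e2]; exact hn2
  obtain ⟨N, hN1, hN2, hN3⟩ := exists_modulus hG.core Q (lt_min hρ1 hρ2) hclopen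
  refine ⟨N, hN1, fun j => ?_, hN3⟩
  by_cases hcase : g h = g (-h)
  · -- the set `P` of flips in one direction
    set P : Set ℤ := {n | y n = !g h ∧ y (n + h) = g h} with hP
    have hPmean : mean (ind P) = dd y h / 2 := by
      cases hgh : g h
      · have : P = R10 y h := by rw [hP, hgh]; rfl
        rw [this]; exact half10 y h
      · have : P = R01 y h := by rw [hP, hgh]; rfl
        rw [this]; exact half01 y h
    have hsub : ∀ n, ind (R y (j * N)) n ≤ ind P n + ind P (n + j * N) := by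
      intro n
      have hnn : ∀ n, 0 ≤ ind P n := fun n => by unfold ind; split_ifs <;> norm_num
      by_cases hn : n ∈ R y (j * N)
      · rw [ind_of_mem hn]
        have hPQ : ∀ m, y m = (!g h) → m ∉ P → m ∈ Q := by
          intro m hm hmP
          refine ⟨by rw [← hcase]; exact hm, ?_⟩
          by_contra hcon
          apply hmP
          refine ⟨hm, ?_⟩
          revert hcon
          cases y (m + h) <;> cases g h <;> simp
        by_cases h1 : n ∈ P
        · rw [ind_of_mem h1]; linarith [hnn (n + j * N)]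
        · by_cases h2 : n + j * N ∈ P
          · rw [ind_of_mem h2]; linarith [hnn n]
          · exfalso
            have hne' : y n ≠ y (n + j * N) := hn
            by_cases h3 : y n = !g h
            · have h4 := (hN2 j n).1 (hPQ n h3 h1)
              have h5 : y (n + j * N) = !g h := by rw [hcase]; exact h4.1
              exact hne' (h3.trans h5.symm)
            · have h4 : y (n + j * N) = !g h := by
                revert h3 hne'
                cases y n <;> cases y (n + j * N) <;> cases g h <;> simp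
              have h5 := (hN2 j n).2 (hPQ _ h4 h2)
              exact h3 (by rw [hcase]; exact h5.1)
      · rw [ind_of_not_mem hn]
        linarith [hnn n, hnn (n + j * N)]
    have h3 : dd y (j * N) ≤ dd y h := by
      unfold dd
      have h4 := isMean_mean.mono _ _ (ind_bdd (R y (j * N)))
        (bddF_add (ind_bdd P) (bddF_shift (j * N) (ind_bdd P))) hsub
      rw [isMean_mean.add _ _ (ind_bdd P) (bddF_shift (j * N) (ind_bdd P)),
        isMean_mean.shift _ (ind_bdd P), hPmean] at h4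
      unfold dd at h4
      linarith
    linarith
  · -- `Q` consists of flips
    have hQR : ∀ n ∈ Q, n ∈ NZ y ρs := by
      rintro n ⟨hn1, hn2⟩
      refine mem_NZ hρs (b := n + h) ?_ ?_
      · rw [show n + h - n = h by ring]; exact hhs
      · rw [hn1, hn2]
        revert hcase
        cases g h <;> cases g (-h) <;> simp
    have hQne : Q.Nonempty := by
      cases hgh : g h
      · have h2 : g (-h) = true := by
          revert hcase; rw [hgh]; cases g (-h) <;> simp
        have : Q = R01 y h := by rw [hQ, hgh, h2]; rfl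
        rw [this]; exact R01_nonempty hh0
      · have h2 : g (-h) = false := by
          revert hcase; rw [hgh]; cases g (-h) <;> simp
        have : Q = R10 y h := by rw [hQ, hgh, h2]; rfl
        rw [this]; exact R10_nonempty hh0
    obtain ⟨n, hn⟩ := hQne
    have h2 := (hN2 j n).1 hn
    have h3 := hs _ (hQR _ h2) _ (hQR _ hn)
    rwa [show n + j * N - n = j * N by ring] at h3

theorem good_exists (hG : Germ y g) : ∃ N, Good y N := by
  obtain ⟨z, hz⟩ := hG.exists_center
  have key : ∀ b : Bool, ∃ a, y a = b ∧ ∃ r : ℝ, 0 < r ∧ a ∉ NZ y r := by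
    intro b
    obtain ⟨n, -, a, ha, -, hab⟩ := hG.near_ne one_pos b z
    obtain ⟨r, hr, har⟩ := hz a ha
    exact ⟨a, hab, r, hr, har⟩
  obtain ⟨a0, ha0, r0, hr0, h0⟩ := key false
  obtain ⟨a1, ha1, r1, hr1, h1⟩ := key true
  obtain ⟨N, hN1, hN2, hN3⟩ := small_subgroup hG (lt_min hr0 hr1)
  refine ⟨N, hN1, hN3, fun b => ?_⟩
  cases b
  · refine ⟨a0, fun j => ?_⟩
    rw [eq_of_not_mem_NZ hr0 h0 (b := a0 + j * N) (by
      rw [show a0 + j * N - a0 = j * N by ring]
      exact (hN2 j).trans_le (min_le_left _ _)), ha0]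
  · refine ⟨a1, fun j => ?_⟩
    rw [eq_of_not_mem_NZ hr1 h1 (b := a1 + j * N) (by
      rw [show a1 + j * N - a1 = j * N by ring]
      exact (hN2 j).trans_le (min_le_right _ _)), ha1]

end Pool.Agent.PatSturm
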