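import Mathlib
import Pool.Agent.PatSturm.Core

set_option autoImplicit false

namespace Pool.Agent.PatSturm

variable {x z : ℤ → Bool} {F : Finset ℤ}

/-- pairwise different values of a function of the pattern are bounded in number -/
lemma nodup_le {β : Type*} [DecidableEq β] (g : ℤ → β)
    (hg : ∀ m n, pat x F m = pat x F n → g m = g n) (l : List ℤ) (hn : (l.map g).Nodup) :
    l.length ≤ p x F := by
  have h1 := card_le_p (x := x) (F := F) g hg (l.map g).toFinset (by
    intro t ht
    rw [List.mem_toFinset, List.mem_map] at ht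
    obtain ⟨m, -, h⟩ := ht
    exact ⟨m, h⟩)
  rw [List.toFinset_card_of_nodup hn, List.length_map] at h1
  exact h1

/-- applying a function to the letters does not increase complexity -/
lemma map_p (f : Bool → Bool) (F : Finset ℤ) : p (fun n => f (x n)) F ≤ p x F := by
  classical
  apply card_le_p (x := x) (F := F) (fun m => pat (fun n => f (x n)) F m)
  · intro m n h
    rw [pat_eq_iff] at h ⊢
    intro i hi
    rw [h i hi]
  · intro S hS
    exact mem_L.mp hS

lemma map_low (f : Bool → Bool) (hl : Low x) : Low (fun n => f (x n)) :=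
  fun F hF => (map_p f F).trans (hl F hF)

lemma map_rec (f : Bool → Bool) (hr : Rec x) : Rec (fun n => f (x n)) := by
  intro a b
  obtain ⟨h, h0, h1⟩ := hr a b
  exact ⟨h, h0, fun m hm1 hm2 => congrArg f (h1 m hm1 hm2)⟩

/-- at most eight patterns on four places -/
lemma four (hl : Low z) {h1 h2 : ℤ} (l : List ℤ)
    (hn : (l.map (fun m => (z m, z (m + h1), z (m + h2), z (m + (h1 + h2))))).Nodup) :
    l.length ≤ 8 := by
  classical
  have h := nodup_le (x := z) (F := {0, h1, h2, h1 + h2})
    (fun m => (z m, z (m + h1), z (m + h2), z (m + (h1 + h2)))) (by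
      intro m n h
      have h' := pat_eq_iff.mp h
      have e0 := h' 0 (by simp)
      have e1 := h' h1 (by simp)
      have e2 := h' h2 (by simp)
      have e3 := h' (h1 + h2) (by simp)
      rw [add_zero, add_zero] at e0
      simp only [e0, e1, e2, e3]) l hn
  have h3 := hl {0, h1, h2, h1 + h2} (by simp)
  have h4 : ({0, h1, h2, h1 + h2} : Finset ℤ).card ≤ 4 := Finset.card_le_four
  omega

/-- at most six patterns on three places -/
lemma three (hl : Low z) {h1 h2 : ℤ} (l : List ℤ)
    (hn : (l.map (fun m => (z m, z (m + h1), z (m + h2)))).Nodup) :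
    l.length ≤ 6 := by
  classical
  have h := nodup_le (x := z) (F := {0, h1, h2})
    (fun m => (z m, z (m + h1), z (m + h2))) (by
      intro m n h
      have h' := pat_eq_iff.mp h
      have e0 := h' 0 (by simp)
      have e1 := h' h1 (by simp)
      have e2 := h' h2 (by simp)
      rw [add_zero, add_zero] at e0
      simp only [e0, e1, e2]) l hn
  have h3 := hl {0, h1, h2} (by simp)
  have h4 : ({0, h1, h2} : Finset ℤ).card ≤ 3 := Finset.card_le_three
  omega

/-- a long run of `false` between two consecutive occurrences of `true` on the right of `s` -/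
lemma long_gap (hr : Rec z) {s : ℤ} (hs : z s = true)
    (hrun : ∀ K : ℤ, ∃ n, ∀ i, 0 ≤ i → i < K → z (n + i) = false) (K : ℤ) :
    ∃ e e' : ℤ, s ≤ e ∧ K < e' - e ∧ z e = true ∧ z e' = true ∧
      ∀ m, e < m → m < e' → z m = false := by
  classical
  -- a run of length `K` on the right of `s`
  obtain ⟨n0, hn0⟩ := hrun (|K| + 1)
  obtain ⟨h, hC, hh, -, hret⟩ := AR' hr n0 (n0 + |K|) 1 (s - n0) one_pos
  set n := n0 + h with hn
  have hrun' : ∀ m, n ≤ m → m ≤ n + |K| → z m = false := by
    intro m h1 h2
    have h3 := hret (m - h) (by omega) (by omega)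
    rw [sub_add_cancel] at h3
    rw [h3]
    have := hn0 (m - h - n0) (by omega) (by omega)
    rwa [show n0 + (m - h - n0) = m - h by ring] at this
  have hsn : s < n := by omega
  -- the last `true` before `n`
  have hex1 : ∃ k : ℕ, z (n - k) = true := ⟨(n - s).toNat, by
    rw [Int.toNat_of_nonneg (by omega)]; rw [show n - (n - s) = s by ring]; exact hs⟩
  set k1 := Nat.find hex1 with hk1
  have hk1s := Nat.find_spec hex1
  have hk1m : ∀ j : ℕ, j < k1 → z (n - j) = false := fun j hj => by
    have := Nat.find_min hex1 hj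
    simpa using this
  -- the first `true` after `n`
  obtain ⟨g, hgC, -, -, hg⟩ := AR' hr s s 1 (n - s) one_pos
  have hex2 : ∃ k : ℕ, z (n + k) = true := ⟨(s + g - n).toNat, by
    rw [Int.toNat_of_nonneg (by omega)]
    rw [show n + (s + g - n) = s + g by ring, hg s le_rfl le_rfl]; exact hs⟩
  set k2 := Nat.find hex2 with hk2
  have hk2s := Nat.find_spec hex2
  have hk2m : ∀ j : ℕ, j < k2 → z (n + j) = false := fun j hj => by
    have := Nat.find_min hex2 hj
    simpa using this
  have hk1pos : 0 < k1 := by
    by_contra hc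
    have : k1 = 0 := by omega
    rw [← hk1, this] at hk1s
    have h4 := hrun' n le_rfl (by have := abs_nonneg K; omega)
    simp at hk1s
    rw [h4] at hk1s
    exact absurd hk1s (by decide)
  have hk2big : |K| < (k2 : ℤ) := by
    by_contra hc
    push Not at hc
    have h4 := hrun' (n + k2) (by omega) (by omega)
    rw [hk2s] at h4
    exact absurd h4 (by decide)
  refine ⟨n - k1, n + k2, ?_, ?_, hk1s, hk2s, ?_⟩
  · have := Nat.find_min' hex1 (m := (n - s).toNat) (by
      rw [Int.toNat_of_nonneg (by omega)]; rw [show n - (n - s) = s by ring]; exact hs)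
    omega
  · have := le_abs_self K
    omega
  · intro m hm1 hm2
    rcases le_or_gt m n with hmn | hmn
    · have := hk1m (n - m).toNat (by omega)
      rwa [Int.toNat_of_nonneg (by omega), show n - (n - m) = m by ring] at this
    · have := hk2m (m - n).toNat (by omega)
      rwa [Int.toNat_of_nonneg (by omega), show n + (m - n) = m by ring] at this

/-- the letter `true` cannot occur with unbounded gaps -/
theorem np0 (hr : Rec z) (hl : Low z) {s0 : ℤ} (hs0 : z s0 = true)
    (hrun : ∀ K : ℤ, ∃ n, ∀ i, 0 ≤ i → i < K → z (n + i) = false) : False := by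
  obtain ⟨h1, hh1, hs1⟩ := hr s0 s0
  have hs1' : z (s0 + h1) = true := by rw [hs1 s0 le_rfl le_rfl]; exact hs0
  obtain ⟨e, e', hse, hlen, he, he', hgap⟩ := long_gap hr hs0 hrun (h1 + 1)
  obtain ⟨h2, hh2, -, -, hret⟩ := AR' hr s0 (e' + h1) 1 (2 * h1) one_pos
  obtain ⟨f, f', hsf, hlen', hf, hf', hgap'⟩ := long_gap hr hs0 hrun (h1 + h2 + 2)
  have B : ∀ m, s0 ≤ m → m ≤ e' + h1 → z (m + h2) = z m := hret
  -- values of the four letters at the eight places
  have v1 : (z s0, z (s0 + h1), z (s0 + h2), z (s0 + (h1 + h2))) = (true, true, true, true) := by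
    rw [B s0 le_rfl (by omega), ← add_assoc, B (s0 + h1) (by omega) (by omega), hs1', hs0]
  have v2 : (z e, z (e + h1), z (e + h2), z (e + (h1 + h2))) = (true, false, true, false) := by
    rw [B e hse (by omega), ← add_assoc, B (e + h1) (by omega) (by omega), he,
      hgap (e + h1) (by omega) (by omega)]
  have v3 : (z (e' - h1), z (e' - h1 + h1), z (e' - h1 + h2), z (e' - h1 + (h1 + h2))) =
      (false, true, false, true) := by
    rw [← add_assoc, B (e' - h1) (by omega) (by omega), sub_add_cancel, B e' (by omega) (by omega),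
      he', hgap (e' - h1) (by omega) (by omega)]
  have v4 : (z (e + 1), z (e + 1 + h1), z (e + 1 + h2), z (e + 1 + (h1 + h2))) =
      (false, false, false, false) := by
    rw [← add_assoc, B (e + 1) (by omega) (by omega), B (e + 1 + h1) (by omega) (by omega),
      hgap (e + 1) (by omega) (by omega), hgap (e + 1 + h1) (by omega) (by omega)]
  have v5 : (z f, z (f + h1), z (f + h2), z (f + (h1 + h2))) = (true, false, false, false) := by
    rw [hf, hgap' (f + h1) (by omega) (by omega), hgap' (f + h2) (by omega) (by omega),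
      hgap' (f + (h1 + h2)) (by omega) (by omega)]
  have v6 : (z (f - h1), z (f - h1 + h1), z (f - h1 + h2), z (f - h1 + (h1 + h2))) =
      (z (f - h1), true, false, false) := by
    rw [sub_add_cancel, hf, hgap' (f - h1 + h2) (by omega) (by omega),
      hgap' (f - h1 + (h1 + h2)) (by omega) (by omega)]
  have v7 : (z (f' - (h1 + h2)), z (f' - (h1 + h2) + h1), z (f' - (h1 + h2) + h2),
      z (f' - (h1 + h2) + (h1 + h2))) = (false, false, false, true) := by
    rw [sub_add_cancel, hf', hgap' (f' - (h1 + h2)) (by omega) (by omega),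
      hgap' (f' - (h1 + h2) + h1) (by omega) (by omega),
      hgap' (f' - (h1 + h2) + h2) (by omega) (by omega)]
  have v8 : (z (f' - h2), z (f' - h2 + h1), z (f' - h2 + h2), z (f' - h2 + (h1 + h2))) =
      (false, false, true, z (f' - h2 + (h1 + h2))) := by
    rw [sub_add_cancel, hf', hgap' (f' - h2) (by omega) (by omega),
      hgap' (f' - h2 + h1) (by omega) (by omega)]
  simp only [Prod.mk.injEq] at v1 v2 v3 v4 v5 v6 v7 v8
  -- `a = false`
  have ha : z (f - h1) = false := by
    by_contra ha
    have ha : z (f - h1) = true := by simpa using ha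
    have h3 := three (z := z) hl (h1 := h1) (h2 := h2)
      [s0, e, e' - h1, e + 1, f, f - h1, f' - h2] (by
        simp only [List.map, v1, v2, v3, v4, v5, v6, v8, ha]
        decide)
    simp at h3
  -- the eight patterns are all patterns
  have key : ∀ m, z m = true → z (m + h1) = true → z (m + h2) = true ∧
      z (m + h2 + h1) = true := by
    intro m hm hm1
    by_contra hcon
    have hcon' : ¬ (z (m + h2) = true ∧ z (m + (h1 + h2)) = true) := by
      rwa [show m + (h1 + h2) = m + h2 + h1 by ring]
    have h3 := four (z := z) hl (h1 := h1) (h2 := h2)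
      [m, s0, e, e' - h1, e + 1, f, f - h1, f' - (h1 + h2), f' - h2] (by
        simp only [List.map, v1, v2, v3, v4, v5, v6, v7, v8, ha, hm, hm1]
        cases hb : z (f' - h2 + (h1 + h2)) <;> cases hc : z (m + h2) <;>
          cases hd : z (m + (h1 + h2)) <;> simp_all)
    simp at h3
  have hall : ∀ j : ℕ, z (s0 + j * h2) = true ∧ z (s0 + j * h2 + h1) = true := by
    intro j
    induction j with
    | zero => simpa using ⟨hs0, hs1'⟩
    | succ j ih =>
      have := key _ ih.1 ih.2
      rw [show s0 + ((j + 1 : ℕ) : ℤ) * h2 = s0 + j * h2 + h2 by push_cast; ring]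
      exact this
  -- a place `s0 + j * h2` in the gap `(f, f')`
  have hpos : 0 < h2 := by omega
  set j := (f - s0) / h2 + 1 with hj
  have hj0 : 0 ≤ (f - s0) / h2 := Int.ediv_nonneg (by omega) hpos.le
  have h5 := hall j.toNat
  rw [Int.toNat_of_nonneg (by omega)] at h5
  have h6 : f - s0 < j * h2 := by
    rw [hj]
    exact Int.lt_ediv_add_one_mul_self _ hpos
  have h7 : (f - s0) / h2 * h2 ≤ f - s0 := Int.ediv_mul_le _ hpos.ne'
  have h8 : j * h2 = (f - s0) / h2 * h2 + h2 := by rw [hj]; ring
  rw [hgap' (s0 + j * h2) (by omega) (by omega)] at h5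
  exact absurd h5.1 (by decide)

/-- on a class on which a sequence is not constant both letters occur with bounded gaps -/
theorem NP (hr : Rec x) (hl : Low x) {N : ℤ} (hN : 0 < N) (r : ℤ) :
    ConstOn x N r ∨ ∃ K : ℤ, 0 < K ∧ ∀ b : Bool, ∀ j : ℤ, ∃ k, 0 ≤ k ∧ k < K ∧
      x (r + (j + k) * N) = b := by
  by_cases hc : ConstOn x N r
  · exact Or.inl hc
  right
  have key : ∀ b : Bool, ∃ K : ℤ, 0 < K ∧ ∀ j : ℤ, ∃ k, 0 ≤ k ∧ k < K ∧
      x (r + (j + k) * N) = b := by
    intro b
    by_contra hcon
    push Not at hcon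
    -- the letter `b` occurs
    have hoc : ∃ j, x (r + j * N) = b := by
      by_contra hno
      push Not at hno
      apply hc
      intro j
      have h1 := hno j
      have h2 := hno 0
      rw [zero_mul, add_zero] at h2
      revert h1 h2
      cases x (r + j * N) <;> cases x r <;> cases b <;> decide
    obtain ⟨j0, hj0⟩ := hoc
    set f : Bool → Bool := fun c => c == b with hf
    have hl' : Low (fun n => f (sub x N r n)) := map_low f (sub_low hl)
    have hr' : Rec (fun n => f (sub x N r n)) := map_rec f (sub_rec hN hr)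
    apply np0 hr' hl' (s0 := j0)
    · simp [hf, sub, hj0]
    · intro K
      obtain ⟨j, hj⟩ := hcon (|K| + 1) (by positivity)
      refine ⟨j, fun i hi1 hi2 => ?_⟩
      have := hj i hi1 (by have := le_abs_self K; omega)
      simp only [hf, sub]
      simpa using this
  obtain ⟨K1, hK1, h1⟩ := key false
  obtain ⟨K2, hK2, h2⟩ := key true
  refine ⟨max K1 K2, by omega, fun b j => ?_⟩
  cases b
  · obtain ⟨k, hk1, hk2, hk3⟩ := h1 j
    exact ⟨k, hk1, lt_of_lt_of_le hk2 (le_max_left _ _), hk3⟩
  · obtain ⟨k, hk1, hk2, hk3⟩ := h2 j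
    exact ⟨k, hk1, lt_of_lt_of_le hk2 (le_max_right _ _), hk3⟩

end Pool.Agent.PatSturm
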