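import Mathlib
import Pool.Agent.PatSturm.G1
import Pool.Agent.PatSturm.NP
import Pool.Agent.PatSturm.Bridge

set_option autoImplicit false

namespace Pool.Agent.PatSturm

open Pool.Agent.Helper434.PCDefs Pool.Agent.Helper434.PCBasic

variable {y g : ℤ → Bool} {N : ℤ}

/-- the germ is continuous -/
lemma Germ.cont (hG : Germ y g) {w : ℤ} (hw : w ≠ 0) : ∃ ρ : ℝ, 0 < ρ ∧ ∀ s, dd y s < ρ →
    w + s ≠ 0 → g (w + s) = g w := by
  obtain ⟨ρ, hρ, h⟩ := hG.lim w hw
  refine ⟨ρ, hρ, fun s hs hws => ?_⟩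
  obtain ⟨ρ', hρ', h'⟩ := hG.lim (w + s) hws
  obtain ⟨n, hn⟩ := hG.ne (min ρ ρ') (lt_min hρ hρ')
  have e1 := h n (NZ_mono (min_le_left _ _) hn) (n + (w + s)) (by
    rw [show n + (w + s) - (n + w) = s by ring]; exact hs)
  have e2 := h' n (NZ_mono (min_le_right _ _) hn) (n + (w + s)) (by
    rw [sub_self, dd_zero]; exact hρ')
  rw [← e1, ← e2]

/-- at most six patterns on three places -/
lemma three' (hl : Low y) (a b c : ℤ) (l : List ℤ)
    (hn : (l.map (fun m => (y (m + a), y (m + b), y (m + c)))).Nodup) : l.length ≤ 6 := by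
  classical
  have h := nodup_le (x := y) (F := {a, b, c})
    (fun m => (y (m + a), y (m + b), y (m + c))) (by
      intro m n h
      have h' := pat_eq_iff.mp h
      have e0 := h' a (by simp)
      have e1 := h' b (by simp)
      have e2 := h' c (by simp)
      simp only [e0, e1, e2]) l hn
  have h3 := hl {a, b, c} (by simp)
  have h4 : ({a, b, c} : Finset ℤ).card ≤ 3 := Finset.card_le_three
  omega

lemma asym_add (hG : Germ y g) (hN : Good y N) {h k : ℤ} (hNh : N ∣ h) (hNk : N ∣ k) (h0 : h ≠ 0)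
    (k0 : k ≠ 0) (gh : g h = false) (gh' : g (-h) = true) (gk : g k = false)
    (gk' : g (-k) = true) : g (h + k) = false ∧ g (-(h + k)) = true := by
  have hl : Low y := Bdd.low hG.core.bdd
  have hhk : -k ≠ h := by
    intro hc
    rw [hc, gh] at gk'
    exact absurd gk' (by decide)
  -- the positions
  have E0 : ∀ b : Bool, ∃ m, (y (m + -k), y (m + 0), y (m + h)) = (true, b, false) := by
    intro b
    obtain ⟨m, h1, h2⟩ := engine hG {-k, 0, h} 0 b
    refine ⟨m, ?_⟩
    have e1 := h2 (-k) (by simp) (by omega)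
    have e2 := h2 h (by simp) h0
    rw [sub_zero] at e1 e2
    rw [e1, h1, e2, gh, gk']
  have E1 : ∀ b : Bool, ∃ m, (y (m + -k), y (m + 0), y (m + h)) = (g (-(h + k)), true, b) := by
    intro b
    obtain ⟨m, h1, h2⟩ := engine hG {-k, 0, h} h b
    refine ⟨m, ?_⟩
    have e1 := h2 (-k) (by simp) hhk
    have e2 := h2 0 (by simp) h0.symm
    rw [e1, h1, e2, show -k - h = -(h + k) by ring, zero_sub, gh']
  have E2 : ∀ b : Bool, ∃ m, (y (m + -k), y (m + 0), y (m + h)) = (b, false, g (h + k)) := by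
    intro b
    obtain ⟨m, h1, h2⟩ := engine hG {-k, 0, h} (-k) b
    refine ⟨m, ?_⟩
    have e1 := h2 0 (by simp) (by omega)
    have e2 := h2 h (by simp) hhk.symm
    rw [e1, h1, e2, show 0 - -k = k by ring, show h - -k = h + k by ring, gk]
  have E3 : ∀ b : Bool, ∃ m, (y (m + -k), y (m + 0), y (m + h)) = (b, b, b) := by
    intro b
    obtain ⟨r, hr⟩ := hN.2.2 b
    obtain ⟨i, rfl⟩ := hNh
    obtain ⟨j, rfl⟩ := hNk
    refine ⟨r, ?_⟩
    have e1 := hr (-j)
    have e2 := hr 0
    have e3 := hr i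
    rw [show r + -j * N = r + -(N * j) by ring] at e1
    rw [zero_mul] at e2
    rw [mul_comm] at e3
    rw [e1, e2, e3]
  obtain ⟨m1, hm1⟩ := E0 false
  obtain ⟨m2, hm2⟩ := E0 true
  obtain ⟨m3, hm3⟩ := E3 false
  obtain ⟨m4, hm4⟩ := E3 true
  obtain ⟨n5, hn5⟩ := R01_nonempty (hG.core.pos h h0)
  obtain ⟨n6, hn6⟩ := R01_nonempty (hG.core.pos k k0)
  have hm5 : (y (n5 + -k), y (n5 + 0), y (n5 + h)) = (y (n5 + -k), false, true) := by
    rw [add_zero, hn5.1, hn5.2]
  have hm6 : (y (n6 + k + -k), y (n6 + k + 0), y (n6 + k + h)) = (false, true, y (n6 + k + h)) := by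
    rw [add_zero, hn6.2, add_neg_cancel_right, hn6.1]
  constructor
  · by_contra hcon
    have ha : g (h + k) = true := by simpa using hcon
    rw [ha] at E2
    obtain ⟨m7, hm7⟩ := E2 false
    obtain ⟨m8, hm8⟩ := E2 true
    have := three' hl (-k) 0 h [m1, m2, m3, m4, m7, m8, n6 + k] (by
      simp only [List.map, hm1, hm2, hm3, hm4, hm6, hm7, hm8]
      cases y (n6 + k + h) <;> decide)
    simp at this
  · by_contra hcon
    have ha : g (-(h + k)) = false := by simpa using hcon
    rw [ha] at E1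
    obtain ⟨m7, hm7⟩ := E1 false
    obtain ⟨m8, hm8⟩ := E1 true
    have := three' hl (-k) 0 h [m1, m2, m3, m4, m7, m8, n5] (by
      simp only [List.map, hm1, hm2, hm3, hm4, hm5, hm7, hm8]
      cases y (n5 + -k) <;> decide)
    simp at this

/-- the germ is symmetric on the multiples of a good modulus -/
theorem germ_symm (hG : Germ y g) (hN : Good y N) {h : ℤ} (hNh : N ∣ h) (h0 : h ≠ 0) :
    g h = g (-h) := by
  have key : ∀ h : ℤ, N ∣ h → h ≠ 0 → g h = false → g (-h) = true → False := by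
    intro h hNh h0 gh gh'
    have hj : ∀ j : ℕ, g (((j : ℤ) + 1) * h) = false ∧ g (-(((j : ℤ) + 1) * h)) = true := by
      intro j
      induction j with
      | zero => simpa using ⟨gh, gh'⟩
      | succ j ih =>
        have hj0 : ((j : ℤ) + 1) * h ≠ 0 := mul_ne_zero (by positivity) h0
        have := asym_add hG hN (hNh.mul_left _) hNh hj0 h0 ih.1 ih.2 gh gh'
        rw [show ((j : ℤ) + 1) * h + h = (((j + 1 : ℕ) : ℤ) + 1) * h by push_cast; ring] at this
        exact this
    obtain ⟨ρ, hρ, hc⟩ := hG.cont (neg_ne_zero.mpr h0)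
    obtain ⟨M, hM1, hM2, -⟩ := small_subgroup hG hρ
    have h1 := hc (2 * h * M) (hM2 _) (by
      rw [show -h + 2 * h * M = (2 * M - 1) * h by ring]
      exact mul_ne_zero (by omega) h0)
    have h2 := (hj (2 * M - 2).toNat).1
    rw [Int.toNat_of_nonneg (by omega), show (2 * M - 2 + 1) * h = -h + 2 * h * M by ring, h1,
      gh'] at h2
    exact absurd h2 (by decide)
  cases e1 : g h <;> cases e2 : g (-h)
  · rfl
  · exact (key h hNh h0 e1 e2).elim
  · refine (key (-h) ((dvd_neg).mpr hNh) (neg_ne_zero.mpr h0) e2 ?_).elim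
    rw [neg_neg]; exact e1
  · rfl

end Pool.Agent.PatSturm
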