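import Mathlib
import Pool.Agent.PatSturm.G2c

set_option autoImplicit false

namespace Pool.Agent.PatSturm

open Pool.Agent.Helper434.PCDefs Pool.Agent.Helper434.PCBasic

variable {y g : ℤ → Bool} {N : ℤ}

/-- at most eight patterns on four places -/
lemma four' (hl : Low y) (a b c d : ℤ) (l : List ℤ)
    (hn : (l.map (fun m => (y (m + a), y (m + b), y (m + c), y (m + d)))).Nodup) :
    l.length ≤ 8 := by
  classical
  have h := nodup_le (x := y) (F := {a, b, c, d})
    (fun m => (y (m + a), y (m + b), y (m + c), y (m + d))) (by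
      intro m n h
      have h' := pat_eq_iff.mp h
      have e0 := h' a (by simp)
      have e1 := h' b (by simp)
      have e2 := h' c (by simp)
      have e3 := h' d (by simp)
      simp only [e0, e1, e2, e3]) l hn
  have h3 := hl {a, b, c, d} (by simp)
  have h4 : ({a, b, c, d} : Finset ℤ).card ≤ 4 := Finset.card_le_four
  omega

/-- the graph of the germ has no induced path on four vertices -/
lemma P4_free (hG : Germ y g) (hN : Good y N) (col : Bool) {a b c d : ℤ} (ha : N ∣ a)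
    (hb : N ∣ b) (hc : N ∣ c) (hd : N ∣ d) (hab : a ≠ b) (hac : a ≠ c) (had : a ≠ d) (hbc : b ≠ c)
    (hbd : b ≠ d) (hcd : c ≠ d) (g1 : g (a - b) = !col) (g2 : g (b - c) = !col)
    (g3 : g (c - d) = !col) (g4 : g (a - c) = col) (g5 : g (b - d) = col) (g6 : g (a - d) = col) :
    False := by
  have hl : Low y := Bdd.low hG.core.bdd
  have hsym : ∀ u v : ℤ, N ∣ u → N ∣ v → u ≠ v → g (v - u) = g (u - v) := by
    intro u v hu hv huv
    rw [germ_symm hG hN (dvd_sub hu hv) (sub_ne_zero.mpr huv), neg_sub]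
  have Ea : ∀ t : Bool, ∃ m, (y (m + a), y (m + b), y (m + c), y (m + d)) =
      (t, !col, col, col) := by
    intro t
    obtain ⟨m, h1, h2⟩ := engine hG {a, b, c, d} a t
    refine ⟨m, ?_⟩
    rw [h1, h2 b (by simp) hab.symm, h2 c (by simp) hac.symm, h2 d (by simp) had.symm,
      hsym a b ha hb hab, hsym a c ha hc hac, hsym a d ha hd had, g1, g4, g6]
  have Eb : ∀ t : Bool, ∃ m, (y (m + a), y (m + b), y (m + c), y (m + d)) =
      (!col, t, !col, col) := by
    intro t
    obtain ⟨m, h1, h2⟩ := engine hG {a, b, c, d} b t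
    refine ⟨m, ?_⟩
    rw [h1, h2 a (by simp) hab, h2 c (by simp) hbc.symm, h2 d (by simp) hbd.symm,
      hsym b c hb hc hbc, hsym b d hb hd hbd, g1, g2, g5]
  have Ec : ∀ t : Bool, ∃ m, (y (m + a), y (m + b), y (m + c), y (m + d)) =
      (col, !col, t, !col) := by
    intro t
    obtain ⟨m, h1, h2⟩ := engine hG {a, b, c, d} c t
    refine ⟨m, ?_⟩
    rw [h1, h2 a (by simp) hac, h2 b (by simp) hbc, h2 d (by simp) hcd.symm,
      hsym c d hc hd hcd, g2, g3, g4]
  have Ed : ∀ t : Bool, ∃ m, (y (m + a), y (m + b), y (m + c), y (m + d)) =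
      (col, col, !col, t) := by
    intro t
    obtain ⟨m, h1, h2⟩ := engine hG {a, b, c, d} d t
    refine ⟨m, ?_⟩
    rw [h1, h2 a (by simp) had, h2 b (by simp) hbd, h2 c (by simp) hcd, g3, g5, g6]
  have E : ∀ t : Bool, ∃ m, (y (m + a), y (m + b), y (m + c), y (m + d)) = (t, t, t, t) := by
    intro t
    obtain ⟨r, hr⟩ := hN.2.2 t
    obtain ⟨i, rfl⟩ := ha
    obtain ⟨j, rfl⟩ := hb
    obtain ⟨k, rfl⟩ := hc
    obtain ⟨l, rfl⟩ := hd
    refine ⟨r, ?_⟩
    have e1 := hr i
    have e2 := hr j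
    have e3 := hr k
    have e4 := hr l
    rw [mul_comm] at e1 e2 e3 e4
    rw [e1, e2, e3, e4]
  obtain ⟨m1, h1⟩ := Ea false
  obtain ⟨m2, h2⟩ := Ea true
  obtain ⟨m3, h3⟩ := Eb false
  obtain ⟨m4, h4⟩ := Eb true
  obtain ⟨m5, h5⟩ := Ec false
  obtain ⟨m6, h6⟩ := Ec true
  obtain ⟨m7, h7⟩ := Ed false
  obtain ⟨m8, h8⟩ := Ed true
  obtain ⟨m9, h9⟩ := E false
  obtain ⟨m10, h10⟩ := E true
  have := four' hl a b c d [m1, m2, m3, m4, m5, m6, m7, m8, m9, m10] (by
    simp only [List.map, h1, h2, h3, h4, h5, h6, h7, h8, h9, h10]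
    cases col <;> decide)
  simp at this

theorem step_cd (hG : Germ y g) (hN : Good y N) : ∃ (t : ℤ) (a : Bool), 2 ≤ t ∧
    (∀ h, N ∣ h → ¬ (t * N ∣ h) → g h = a) ∧ Good y (t * N) := by
  obtain ⟨hN1, ⟨ρ, hρ, hopen⟩, hlet⟩ := id hN
  set col := g N with hcol
  -- the elements of the other colour
  set S : Set ℤ := {h | N ∣ h ∧ h ≠ 0 ∧ g h = !col} with hS
  have hSneg : ∀ h ∈ S, -h ∈ S := by
    rintro h ⟨h1, h2, h3⟩
    refine ⟨(dvd_neg).mpr h1, neg_ne_zero.mpr h2, ?_⟩
    rw [← germ_symm hG hN h1 h2]; exact h3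
  have hnotS : ∀ h, N ∣ h → h ≠ 0 → h ∉ S → g h = col := by
    intro h h1 h2 h3
    by_contra hcon
    apply h3
    refine ⟨h1, h2, ?_⟩
    cases hc : col <;> cases hg : g h <;> simp_all
  have hSSS : ∀ a ∈ S, ∀ b ∈ S, ∀ c ∈ S, a + b + c = 0 ∨ a + b + c ∈ S ∨ a + b ∈ S ∨ b + c ∈ S ∨
      a + b = 0 ∨ b + c = 0 := by
    intro a ha b hb c hc
    by_contra hcon
    push Not at hcon
    obtain ⟨c1, c2, c3, c4, c5, c6⟩ := hcon
    have da := ha.1
    have db := hb.1
    have dc := hc.1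
    refine P4_free hG hN col (a := a + b + c) (b := a + b) (c := a) (d := 0)
      (dvd_add (dvd_add da db) dc) (dvd_add da db) da (dvd_zero _) ?_ ?_ c1 ?_ c5 ha.2.1 ?_ ?_ ?_
      ?_ ?_ ?_
    · intro h; exact hc.2.1 (by linarith)
    · intro h; exact c6 (by linarith)
    · intro h; exact hb.2.1 (by linarith)
    · rw [show a + b + c - (a + b) = c by ring]; exact hc.2.2
    · rw [show a + b - a = b by ring]; exact hb.2.2
    · rw [sub_zero]; exact ha.2.2
    · rw [show a + b + c - a = b + c by ring]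
      exact hnotS _ (dvd_add db dc) c6 c4
    · rw [sub_zero]; exact hnotS _ (dvd_add da db) c5 c3
    · rw [sub_zero]; exact hnotS _ (dvd_add (dvd_add da db) dc) c1 c2
  -- the subgroup
  let X : AddSubgroup ℤ :=
    { carrier := {k | k = 0 ∨ k ∈ S ∨ ∃ a ∈ S, ∃ b ∈ S, k = a + b}
      zero_mem' := Or.inl rfl
      add_mem' := by
        have key : ∀ k, (k = 0 ∨ k ∈ S ∨ ∃ a ∈ S, ∃ b ∈ S, k = a + b) → ∀ c ∈ S,
            (k + c = 0 ∨ k + c ∈ S ∨ ∃ a ∈ S, ∃ b ∈ S, k + c = a + b) := by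
          rintro k (rfl | hk | ⟨a, ha, b, hb, rfl⟩) c hc
          · right; left; rwa [zero_add]
          · right; right; exact ⟨k, hk, c, hc, rfl⟩
          · rcases hSSS a ha b hb c hc with h | h | h | h | h | h
            · left; exact h
            · right; left; exact h
            · right; right; exact ⟨a + b, h, c, hc, rfl⟩
            · right; right; exact ⟨a, ha, b + c, h, by ring⟩
            · right; left; rw [h, zero_add]; exact hc
            · right; left; rw [add_assoc, h, add_zero]; exact ha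
        rintro k l hk (rfl | hl | ⟨a, ha, b, hb, rfl⟩)
        · rw [add_zero]; exact hk
        · exact key k hk l hl
        · rw [← add_assoc]
          exact key _ (key k hk a ha) b hb
      neg_mem' := by
        rintro k (rfl | hk | ⟨a, ha, b, hb, rfl⟩)
        · left; simp
        · right; left; exact hSneg k hk
        · right; right; exact ⟨-a, hSneg a ha, -b, hSneg b hb, by ring⟩ }
  have hXmem : ∀ k, k ∈ X ↔ (k = 0 ∨ k ∈ S ∨ ∃ a ∈ S, ∃ b ∈ S, k = a + b) := fun k => Iff.rfl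
  have hXN : ∀ k ∈ X, N ∣ k := by
    intro k hk
    rcases (hXmem k).mp hk with rfl | h | ⟨a, ha, b, hb, rfl⟩
    · exact dvd_zero _
    · exact h.1
    · exact dvd_add ha.1 hb.1
  have hNS : N ∉ S := by
    intro h
    have hne : ∀ c : Bool, c ≠ !c := by decide
    exact hne _ h.2.2
  have hNX : N ∉ X := by
    intro hNX
    rcases (hXmem N).mp hNX with h | h | ⟨a, ha, b, hb, hab⟩
    · omega
    · exact hNS h
    · -- a positive element
      have hex : ∃ v : ℕ, 0 < v ∧ (v : ℤ) ∈ S ∧ (v : ℤ) - N ∈ S := by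
        have aux : ∀ a b : ℤ, a ∈ S → b ∈ S → N = a + b → 0 < a →
            ∃ v : ℕ, 0 < v ∧ (v : ℤ) ∈ S ∧ (v : ℤ) - N ∈ S := by
          intro a b ha hb hab h0
          refine ⟨a.toNat, by omega, ?_, ?_⟩
          · rw [Int.toNat_of_nonneg h0.le]; exact ha
          · rw [Int.toNat_of_nonneg h0.le, hab, show a - (a + b) = -b by ring]
            exact hSneg b hb
        rcases lt_or_ge 0 a with h0 | h0
        · exact aux a b ha hb hab h0
        · exact aux b a hb ha (by omega) (by omega)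
      classical
      set v := Nat.find hex with hv
      obtain ⟨hv0, hvS, hvN⟩ := Nat.find_spec hex
      have hmin : ∀ w : ℕ, w < v → ¬ (0 < w ∧ (w : ℤ) ∈ S ∧ (w : ℤ) - N ∈ S) :=
        fun w hw => Nat.find_min hex hw
      rw [← hv] at hv0 hvS hvN
      have hvne : (v : ℤ) ≠ N := fun h => hNS (h ▸ hvS)
      have hdv := hvS.1
      have hvge : N ≤ (v : ℤ) := Int.le_of_dvd (by exact_mod_cast hv0) hdv
      have hvN' : (v : ℤ) - N ≠ N := fun h => hNS (h ▸ hvN)
      have h2 : (v : ℤ) - N - N ∉ S := by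
        intro h
        apply hmin ((v : ℤ) - N).toNat (by omega)
        refine ⟨by omega, ?_, ?_⟩
        · rw [Int.toNat_of_nonneg (by omega)]; exact hvN
        · rw [Int.toNat_of_nonneg (by omega)]; exact h
      have hdvN : N ∣ (v : ℤ) - N := hvN.1
      refine P4_free hG hN col (a := N) (b := v) (c := 0) (d := (v : ℤ) - N) dvd_rfl hdv
        (dvd_zero _) hdvN hvne.symm (by omega) hvN'.symm (by omega) (by omega)
        hvN.2.1.symm ?_ ?_ ?_ ?_ ?_ ?_
      · have := (hSneg _ hvN).2.2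
        rwa [neg_sub] at this
      · rw [sub_zero]; exact hvS.2.2
      · have := (hSneg _ hvN).2.2
        rwa [← zero_sub] at this
      · rw [sub_zero]
      · rw [show (v : ℤ) - ((v : ℤ) - N) = N by ring]
      · have h3 : N ∣ (v : ℤ) - N - N := dvd_sub hdvN dvd_rfl
        have h4 : (v : ℤ) - N - N ≠ 0 := by omega
        have h5 := hnotS _ h3 h4 h2
        rw [germ_symm hG hN h3 h4] at h5
        rwa [show -((v : ℤ) - N - N) = N - ((v : ℤ) - N) by ring] at h5
  obtain ⟨τ, hτ⟩ := Int.subgroup_cyclic X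
  have hXτ : ∀ k, k ∈ X ↔ τ ∣ k := by
    intro k
    rw [hτ, AddSubgroup.mem_closure_singleton]
    constructor
    · rintro ⟨j, rfl⟩; exact Dvd.intro_left j rfl
    · rintro ⟨j, rfl⟩; exact ⟨j, by rw [smul_eq_mul, mul_comm]⟩
  -- an element of `S`
  obtain ⟨s, hs0, hsρ, hsg⟩ := both_small hG hρ (!col)
  have hsS : s ∈ S := by
    refine ⟨hopen s hsρ, ?_, hsg⟩
    rintro rfl
    rw [dd_zero] at hs0
    exact lt_irrefl _ hs0
  have hsX : s ∈ X := (hXmem s).mpr (Or.inr (Or.inl hsS))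
  have hNτ : N ∣ τ := hXN τ ((hXτ τ).mpr dvd_rfl)
  obtain ⟨t, ht⟩ := hNτ
  have hτ0 : τ ≠ 0 := by
    rintro h
    rw [h] at hXτ
    exact hsS.2.1 (zero_dvd_iff.mp ((hXτ s).mp hsX))
  have ht0 : t ≠ 0 := by
    rintro rfl
    rw [mul_zero] at ht
    exact hτ0 ht
  have hdvd : ∀ k, |t| * N ∣ k ↔ k ∈ X := by
    intro k
    rw [hXτ, ht, mul_comm N t]
    rcases abs_choice t with h | h
    · rw [h]
    · rw [h, neg_mul, neg_dvd]
  have ht1 : |t| ≠ 1 := by
    intro h
    apply hNX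
    rw [← hdvd, h, one_mul]
  have htpos : 0 < |t| := abs_pos.mpr ht0
  refine ⟨|t|, col, by omega, ?_, ?_, ?_, ?_⟩
  · intro h hNh hth
    have hX : h ∉ X := fun hX => hth ((hdvd h).mpr hX)
    apply hnotS h hNh
    · rintro rfl
      exact hth (dvd_zero _)
    · intro hS
      exact hX ((hXmem h).mpr (Or.inr (Or.inl hS)))
  · have : 0 < |t| * N := mul_pos htpos (by omega)
    omega
  · obtain ⟨ρ1, hρ1, h1⟩ := hG.cont hsS.2.1
    refine ⟨min ρ ρ1, lt_min hρ hρ1, fun k hk => ?_⟩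
    rw [hdvd]
    have hkN : N ∣ k := hopen k (lt_of_lt_of_le hk (min_le_left _ _))
    by_cases hsk : s + k = 0
    · have : k = -s := by linarith
      rw [this]
      exact X.neg_mem hsX
    · have h2 := h1 k (lt_of_lt_of_le hk (min_le_right _ _)) hsk
      have h3 : s + k ∈ X := (hXmem _).mpr (Or.inr (Or.inl ⟨dvd_add hsS.1 hkN, hsk, by
        rw [h2]; exact hsg⟩))
      have h4 := X.sub_mem h3 hsX
      rwa [add_sub_cancel_left] at h4
  · intro a
    obtain ⟨r, hr⟩ := hlet a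
    refine ⟨r, fun j => ?_⟩
    rw [← mul_assoc]
    exact hr _

end Pool.Agent.PatSturm
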