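import Mathlib
import Pool.Agent.PatSturm.G1

/-!
Case 1 (one cluster of flips), last part: from a chain of good moduli to one-hole moduli.
-/

set_option autoImplicit false

namespace Pool.Agent.PatSturm

open Pool.Agent.Helper434.PCDefs Pool.Agent.Helper434.PCBasic

variable {y g : ℤ → Bool}

/-- a chain of good moduli, with the letters of the germ on the differences -/
structure Chain (y g : ℤ → Bool) (n : ℕ → ℤ) (a : ℕ → Bool) : Prop where
  good : ∀ k, Good y (n k)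
  dvd : ∀ k, n k ∣ n (k + 1)
  grow : ∀ k : ℕ, (k : ℤ) + 1 ≤ n k
  col : ∀ k h, n k ∣ h → ¬ n (k + 1) ∣ h → g h = a k

theorem chain_exists (hG : Germ y g)
    (hcd : ∀ N, Good y N → ∃ (t : ℤ) (a : Bool), 2 ≤ t ∧
      (∀ h, N ∣ h → ¬ (t * N ∣ h) → g h = a) ∧ Good y (t * N)) :
    ∃ n a, Chain y g n a := by
  obtain ⟨N, hN⟩ := good_exists hG
  choose! t a h2 hc hg using hcd
  let n : ℕ → ℤ := fun k => Nat.rec N (fun _ m => t m * m) k
  have hn : ∀ k, n (k + 1) = t (n k) * n k := fun k => rfl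
  have hgood : ∀ k, Good y (n k) := by
    intro k
    induction k with
    | zero => exact hN
    | succ k ih => rw [hn]; exact hg _ ih
  refine ⟨n, fun k => a (n k), hgood, fun k => ?_, fun k => ?_, fun k h h1 h3 => ?_⟩
  · rw [hn]; exact dvd_mul_left _ _
  · induction k with
    | zero => have := (hgood 0).1; simpa using this
    | succ k ih =>
      rw [hn]
      have h3 := h2 _ (hgood k)
      push_cast
      nlinarith
  · rw [hn] at h3
    exact hc _ (hgood k) h h1 h3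

variable {n : ℕ → ℤ} {a : ℕ → Bool}

lemma Chain.dvd_le (hC : Chain y g n a) {i j : ℕ} (h : i ≤ j) : n i ∣ n j := by
  induction h with
  | refl => exact dvd_rfl
  | step _ ih => exact ih.trans (hC.dvd _)

/-- the germ is locally constant on the differences -/
lemma Chain.val_eq (hC : Chain y g n a) {k : ℕ} {s s' : ℤ} (h0 : n 0 ∣ s) (hk : ¬ n k ∣ s)
    (hs : n k ∣ s' - s) : g s' = g s := by
  classical
  have hex : ∃ k, ¬ n k ∣ s := ⟨k, hk⟩
  obtain ⟨i, hi⟩ : ∃ i, Nat.find hex = i + 1 := by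
    apply Nat.exists_eq_succ_of_ne_zero
    intro h
    have := Nat.find_spec hex
    rw [h] at this
    exact this h0
  have h1 : ¬ n (i + 1) ∣ s := by
    have := Nat.find_spec hex
    rwa [hi] at this
  have h2 : n i ∣ s := by
    by_contra hcon
    have := Nat.find_le (h := hex) hcon
    omega
  have h3 : i + 1 ≤ k := by
    rw [← hi]; exact Nat.find_le hk
  have h4 : n (i + 1) ∣ s' - s := (hC.dvd_le h3).trans hs
  have h5 : n i ∣ s' - s := (hC.dvd i).trans h4
  rw [hC.col i s h2 h1, hC.col i s' ?_ ?_]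
  · have := dvd_add h5 h2
    rwa [sub_add_cancel] at this
  · intro hcon
    apply h1
    have := dvd_sub hcon h4
    rwa [sub_sub_cancel] at this

/-- away from the origin the germ is uniformly continuous -/
lemma Germ.unif (hG : Germ y g) {ε : ℝ} (hε : 0 < ε) :
    ∃ r : ℝ, 0 < r ∧ ∀ h, ε ≤ dd y h → ∀ s, dd y s < r → g (h + s) = g h := by
  obtain ⟨ρ, hρ, hs⟩ := hG.small ε hε
  refine ⟨min ρ ε, lt_min hρ hε, fun h hh s hsd => ?_⟩
  have hs1 := hsd.trans_le (min_le_left _ _)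
  have hs2 := hsd.trans_le (min_le_right _ _)
  have hh0 : h ≠ 0 := by
    rintro rfl
    rw [dd_zero] at hh
    linarith
  have hhs0 : h + s ≠ 0 := by
    intro h0
    have h1 : s = -h := by linarith
    rw [h1, dd_neg] at hs2
    linarith
  obtain ⟨ρ1, hρ1, hl1⟩ := hG.lim h hh0
  obtain ⟨ρ2, hρ2, hl2⟩ := hG.lim (h + s) hhs0
  obtain ⟨m, hm⟩ := hG.ne (min ρ (min ρ1 ρ2)) (lt_min hρ (lt_min hρ1 hρ2))
  have hm0 := NZ_mono (min_le_left _ _) hm
  have hm1 := NZ_mono ((min_le_right _ _).trans (min_le_left _ _)) hm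
  have hm2 := NZ_mono ((min_le_right _ _).trans (min_le_right _ _)) hm
  have e1 := hl1 m hm1 (m + h) (by rw [sub_self, dd_zero]; exact hρ1)
  have e2 := hl2 m hm2 (m + (h + s)) (by rw [sub_self, dd_zero]; exact hρ2)
  rw [← e1, ← e2]
  by_contra hcon
  have hmem : m + h ∈ NZ y ρ := mem_NZ hρ (b := m + (h + s)) (by
    rw [show m + (h + s) - (m + h) = s by ring]; exact hs1) (Ne.symm hcon)
  have := hs _ hmem _ hm0
  rw [show m + h - m = h by ring] at this
  linarith

/-- the moduli of the chain are small -/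
theorem Chain.small (hC : Chain y g n a) (hG : Germ y g) {ε : ℝ} (hε : 0 < ε) :
    ∃ k0, ∀ k, k0 ≤ k → ∀ j : ℤ, dd y (j * n k) < ε := by
  obtain ⟨r, hr, hu⟩ := hG.unif hε
  obtain ⟨-, ⟨ρ, hρ, hρN⟩, -⟩ := hC.good 0
  obtain ⟨s, hs0, hs1, hs2⟩ := both_small hG (lt_min hr hρ) false
  obtain ⟨s', hs0', hs1', hs2'⟩ := both_small hG (lt_min hr hρ) true
  have hne : ∀ s, 0 < dd y s → s ≠ 0 := by
    rintro s hs rfl
    rw [dd_zero] at hs
    exact lt_irrefl _ hs
  have hnd : ∀ s : ℤ, s ≠ 0 → ∀ k : ℕ, s.natAbs ≤ k → ¬ n k ∣ s := by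
    intro s hs k hk hd
    have h1 := Int.le_of_dvd (by positivity : (0 : ℤ) < |s|) ((dvd_abs _ _).2 hd)
    have h2 := hC.grow k
    have h3 : |s| = (s.natAbs : ℤ) := Int.abs_eq_natAbs s
    have h4 : (s.natAbs : ℤ) ≤ k := by exact_mod_cast hk
    linarith
  refine ⟨max s.natAbs s'.natAbs, fun k hk j => ?_⟩
  by_contra hcon
  push Not at hcon
  have hk1 := hnd s (hne s hs0) k ((le_max_left _ _).trans hk)
  have hk2 := hnd s' (hne s' hs0') k ((le_max_right _ _).trans hk)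
  have e1 := hu _ hcon s (hs1.trans_le (min_le_left _ _))
  have e2 := hu _ hcon s' (hs1'.trans_le (min_le_left _ _))
  have e3 := hC.val_eq (s' := j * n k + s) (hρN s (hs1.trans_le (min_le_right _ _))) hk1
    (by rw [add_sub_cancel_right]; exact dvd_mul_left _ _)
  have e4 := hC.val_eq (s' := j * n k + s') (hρN s' (hs1'.trans_le (min_le_right _ _))) hk2
    (by rw [add_sub_cancel_right]; exact dvd_mul_left _ _)
  rw [hs2] at e3
  rw [hs2'] at e4
  rw [e3] at e1
  rw [e4] at e2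
  rw [← e2] at e1
  exact absurd e1 (by simp)

/-- the points of discontinuity lie in one class modulo `N` -/
lemma Germ.cong (hG : Germ y g) {N : ℤ} (hN : Open' y N) {ρ : ℝ} (hρ : 0 < ρ) :
    ∃ ρ' : ℝ, 0 < ρ' ∧ ρ' ≤ ρ ∧ ∀ z ∈ NZ y ρ', ∀ z' ∈ NZ y ρ', N ∣ z - z' := by
  obtain ⟨r, hr, h⟩ := hN
  obtain ⟨ρ1, hρ1, h1⟩ := hG.small r hr
  refine ⟨min ρ ρ1, lt_min hρ hρ1, min_le_left _ _, fun z hz z' hz' => h _ ?_⟩
  exact h1 z (NZ_mono (min_le_right _ _) hz) z' (NZ_mono (min_le_right _ _) hz')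

/-- off the class of the discontinuity, letters are values of the germ -/
lemma Germ.value (hG : Germ y g) {N z : ℤ} {ρ : ℝ} (hρ : 0 < ρ)
    (hz : ∀ z' ∈ NZ y ρ, N ∣ z' - z) {m : ℤ} (hm : ¬ N ∣ m - z) :
    ∃ z', N ∣ z' - z ∧ y m = g (m - z') := by
  have hmz : m ∉ NZ y ρ := fun h => hm (hz m h)
  obtain ⟨ρ1, hρ1, h1⟩ := hG.small ρ hρ
  obtain ⟨z1, hz1⟩ := hG.ne (min ρ ρ1) (lt_min hρ hρ1)
  have hz1c := hz z1 (NZ_mono (min_le_left _ _) hz1)
  refine ⟨z1, hz1c, ?_⟩
  have hne : m - z1 ≠ 0 := by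
    intro h0
    have : m = z1 := by linarith
    rw [this] at hm
    exact hm hz1c
  obtain ⟨ρ2, hρ2, h2⟩ := hG.lim (m - z1) hne
  obtain ⟨z2, hz2⟩ := hG.ne (min ρ1 ρ2) (lt_min hρ1 hρ2)
  have e1 := h2 z2 (NZ_mono (min_le_right _ _) hz2) (z2 + (m - z1))
    (by rw [sub_self, dd_zero]; exact hρ2)
  have e2 := eq_of_not_mem_NZ hρ hmz (b := z2 + (m - z1)) (by
    rw [show z2 + (m - z1) - m = z2 - z1 by ring]
    exact h1 z2 (NZ_mono (min_le_left _ _) hz2) z1 (NZ_mono (min_le_right _ _) hz1))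
  rw [← e1, e2]

theorem step5A_of (hG : Germ y g)
    (hcd : ∀ N, Good y N → ∃ (t : ℤ) (a : Bool), 2 ≤ t ∧
      (∀ h, N ∣ h → ¬ (t * N ∣ h) → g h = a) ∧ Good y (t * N)) (K : ℤ) :
    ∃ N r, K ≤ N ∧ OneHole y N r := by
  obtain ⟨n, a, hC⟩ := chain_exists hG hcd
  obtain ⟨ρ0, hρ0, -, hc0⟩ := hG.cong (hC.good 0).2.1 one_pos
  obtain ⟨k0, hk0⟩ := hC.small hG hρ0
  set k := max k0 K.toNat with hk
  have hks := hk0 k (le_max_left _ _)
  obtain ⟨ρ1, hρ1, hρ10, hc1⟩ := hG.cong (hC.good k).2.1 hρ0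
  obtain ⟨z, hz⟩ := hG.ne ρ1 hρ1
  refine ⟨n k, z, ?_, ?_⟩
  · have h1 := hC.grow k
    have h2 : K.toNat ≤ k := le_max_right _ _
    have h3 := Int.self_le_toNat K
    have h4 : (K.toNat : ℤ) ≤ k := by exact_mod_cast h2
    linarith
  have hconst : ∀ s, ¬ n k ∣ s - z → ConstOn y (n k) s := by
    intro s hs j
    by_cases h0 : n 0 ∣ s - z
    · have hs' : ¬ n k ∣ s + j * n k - z := by
        intro h
        apply hs
        have := dvd_sub h (dvd_mul_left (n k) j)
        rwa [show s + j * n k - z - j * n k = s - z by ring] at this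
      obtain ⟨z1, hz1, e1⟩ := hG.value hρ1 (fun z' hz' => hc1 z' hz' z hz) hs
      obtain ⟨z2, hz2, e2⟩ := hG.value hρ1 (fun z' hz' => hc1 z' hz' z hz) hs'
      have e3 := hC.val_eq (s' := s - z1) h0 hs (by
        rw [show s - z1 - (s - z) = -(z1 - z) by ring]; exact (dvd_neg).2 hz1)
      have e4 := hC.val_eq (s' := s + j * n k - z2) h0 hs (by
        rw [show s + j * n k - z2 - (s - z) = j * n k - (z2 - z) by ring]
        exact dvd_sub (dvd_mul_left _ _) hz2)
      rw [e2, e4, e1, e3]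
    · by_contra hcon
      have hmem : s ∈ NZ y ρ0 := mem_NZ hρ0 (b := s + j * n k) (by
        rw [add_sub_cancel_left]; exact hks j) (Ne.symm hcon)
      exact h0 (hc0 s hmem z (NZ_mono hρ10 hz))
  refine ⟨fun hcz => ?_, hconst⟩
  have hper : ∀ m, y (m + n k) = y m := by
    intro m
    by_cases hm : n k ∣ m - z
    · obtain ⟨j, hj⟩ := hm
      have e1 := hcz j
      have e2 := hcz (j + 1)
      rw [show m + n k = z + (j + 1) * n k by linarith, e2,
        show m = z + j * n k by linarith, e1]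
    · have := hconst m hm 1
      rwa [one_mul] at this
  have hpos := hG.core.pos (n k) (by have := (hC.good k).1; omega)
  obtain ⟨m, hm⟩ := R01_nonempty hpos
  have := R01_sub y _ hm
  exact this (hper m).symm

end Pool.Agent.PatSturm
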