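import Mathlib
import Pool.Agent.PatSturm.Core

/-!
From arbitrarily large one-hole moduli to the Toeplitz form (purely combinatorial).
-/

set_option autoImplicit false

namespace Pool.Agent.PatSturm

variable {x : ℤ → Bool}

/-! ### constant classes -/

lemma ConstOn.eq_of_dvd {N s n n' : ℤ} (h : ConstOn x N s) (hn : N ∣ n - s) (hn' : N ∣ n' - s) :
    x n = x n' := by
  obtain ⟨j, hj⟩ := hn
  obtain ⟨j', hj'⟩ := hn'
  have e1 : n = s + j * N := by linarith [mul_comm N j]
  have e2 : n' = s + j' * N := by linarith [mul_comm N j']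
  rw [e1, e2, h j, h j']

lemma ConstOn.of_dvd {N M s : ℤ} (h : ConstOn x N s) (hNM : N ∣ M) : ConstOn x M s := by
  intro j
  obtain ⟨k, rfl⟩ := hNM
  have := h (j * k)
  rw [← this]
  congr 1
  ring

/-- outside the hole the letter is determined by the class -/
lemma OneHole.det {N r n n' : ℤ} (h : OneHole x N r) (hn : ¬ N ∣ n - r) (hd : N ∣ n - n') :
    x n = x n' := by
  refine (h.2 n hn).eq_of_dvd (by simp) ?_
  rw [← dvd_neg, neg_sub]; exact hd

/-- the first half of the definition of a one-hole modulus is automatic -/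
lemma oneHole_of {N r : ℤ} (ha : Aper x) (hN : 0 < N) (h : ∀ s, ¬ N ∣ s - r → ConstOn x N s) :
    OneHole x N r := by
  refine ⟨fun hc => ?_, h⟩
  obtain ⟨m, hm⟩ := ha N hN.ne'
  apply hm
  by_cases hmr : N ∣ m - r
  · refine hc.eq_of_dvd ?_ hmr
    have := dvd_add hmr (dvd_refl N)
    rwa [show m - r + N = m + N - r by ring] at this
  · have := h m hmr 1
    rwa [one_mul] at this

/-- one-hole moduli are closed under least common multiples -/
lemma OneHole.lcm {N r N' r' : ℤ} (ha : Aper x) (hN : 0 < N) (hN' : 0 < N') (h : OneHole x N r)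
    (h' : OneHole x N' r') : ∃ M r'', 0 < M ∧ N ∣ M ∧ N' ∣ M ∧ N ∣ r'' - r ∧ OneHole x M r'' := by
  have hM : 0 < ((Int.lcm N N' : ℕ) : ℤ) := by
    have := Int.lcm_ne_zero hN.ne' hN'.ne'
    omega
  have hd1 : N ∣ ((Int.lcm N N' : ℕ) : ℤ) := Int.dvd_lcm_left N N'
  have hd2 : N' ∣ ((Int.lcm N N' : ℕ) : ℤ) := Int.dvd_lcm_right N N'
  set M : ℤ := ((Int.lcm N N' : ℕ) : ℤ) with hMd
  obtain ⟨r'', h1, h2⟩ : ∃ r'', N ∣ r'' - r ∧ N' ∣ r'' - r' := by
    by_contra hcon
    push Not at hcon
    obtain ⟨m, hm⟩ := ha M hM.ne'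
    apply hm
    by_cases h1 : N ∣ m - r
    · have h2 : ¬ N' ∣ m - r' := hcon m h1
      have := ((h'.2 m h2).of_dvd hd2) 1
      rwa [one_mul] at this
    · have := ((h.2 m h1).of_dvd hd1) 1
      rwa [one_mul] at this
  refine ⟨M, r'', hM, hd1, hd2, h1, oneHole_of ha hM fun s hs => ?_⟩
  have hs' : ¬ N ∣ s - r'' ∨ ¬ N' ∣ s - r'' := by
    by_contra hcon
    push Not at hcon
    exact hs (Int.coe_lcm_dvd hcon.1 hcon.2)
  rcases hs' with hs' | hs'
  · refine (h.2 s fun hcon => hs' ?_).of_dvd hd1
    have := dvd_sub hcon h1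
    rwa [show s - r - (r'' - r) = s - r'' by ring] at this
  · refine (h'.2 s fun hcon => hs' ?_).of_dvd hd2
    have := dvd_sub hcon h2
    rwa [show s - r' - (r'' - r') = s - r'' by ring] at this

/-! ### the word of a minimal one-hole modulus -/

open Classical in
/-- the periodic completions of the word -/
noncomputable def X (x : ℤ → Bool) (N r : ℤ) (b : Bool) (n : ℤ) : Bool :=
  if N ∣ n - r then b else x n

lemma X_hole {N r n : ℤ} {b : Bool} (h : N ∣ n - r) : X x N r b n = b := by
  unfold X; rw [if_pos h]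

lemma X_out {N r n : ℤ} {b : Bool} (h : ¬ N ∣ n - r) : X x N r b n = x n := by
  unfold X; rw [if_neg h]

lemma X_per {N r n n' : ℤ} (ho : OneHole x N r) (b : Bool) (hd : N ∣ n - n') :
    X x N r b n = X x N r b n' := by
  by_cases h : N ∣ n - r
  · have h' : N ∣ n' - r := by
      have := dvd_sub h hd
      rwa [show n - r - (n - n') = n' - r by ring] at this
    rw [X_hole h, X_hole h']
  · have h' : ¬ N ∣ n' - r := fun h' => h (by
      have := dvd_add h' hd
      rwa [show n' - r + (n - n') = n - r by ring] at this)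
    rw [X_out h, X_out h', ho.det h hd]

lemma X_le {N r n : ℤ} (h : X x N r false n = true) : X x N r true n = true := by
  by_cases hn : N ∣ n - r
  · exact X_hole hn
  · rw [X_out hn] at h ⊢; exact h

/-- data of a one-hole modulus without a smaller one -/
structure MinHole (x : ℤ → Bool) (N r : ℤ) : Prop where
  two : 2 ≤ N
  one : OneHole x N r
  min : ∀ d r', 2 ≤ d → d < N → ¬ OneHole x d r'

/-- if the values outside a class mod `d` are periodic mod `d`, then `d = 1` -/
lemma MinHole.gcd_one {N r v : ℤ} (ha : Aper x) (h : MinHole x N r) (hv : ¬ N ∣ v)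
    (hper : ∀ q, ¬ ((Int.gcd v N : ℕ) : ℤ) ∣ q - r →
      X x N r false (q - v) = X x N r false q) : Int.gcd v N = 1 := by
  have hN0 : 0 < N := by linarith [h.two]
  set d : ℤ := ((Int.gcd v N : ℕ) : ℤ) with hd
  have hdv : d ∣ v := Int.gcd_dvd_left v N
  have hdN : d ∣ N := Int.gcd_dvd_right v N
  have hd0 : 0 < d := by
    have := Int.gcd_pos_of_ne_zero_right v hN0.ne'
    omega
  have hdlt : d < N := by
    refine lt_of_le_of_ne (Int.le_of_dvd hN0 hdN) ?_
    intro he
    rw [he] at hdv
    exact hv hdv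
  -- periodicity under multiples of v
  have hk : ∀ (k : ℕ) q, ¬ d ∣ q - r → X x N r false (q - k * v) = X x N r false q := by
    intro k
    induction k with
    | zero => intro q _; simp
    | succ k ih =>
      intro q hq
      have h1 : ¬ d ∣ q - k * v - r := by
        intro hcon
        apply hq
        have := dvd_add hcon (hdv.mul_left (k : ℤ))
        rwa [show q - k * v - r + k * v = q - r by ring] at this
      have h2 := hper (q - k * v) h1
      rw [← ih q hq, ← h2]
      congr 1
      push_cast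
      ring
  have hone : OneHole x d r := by
    refine oneHole_of ha hd0 fun s hs => ?_
    intro j
    have hsN : ¬ N ∣ s - r := fun hcon => hs (hdN.trans hcon)
    have hs' : ¬ d ∣ s + j * d - r := by
      intro hcon
      apply hs
      have := dvd_sub hcon (dvd_mul_left d j)
      rwa [show s + j * d - r - j * d = s - r by ring] at this
    have hsN' : ¬ N ∣ s + j * d - r := fun hcon => hs' (hdN.trans hcon)
    -- bezout: j * d = - k * v mod N with k natural
    obtain ⟨k, hkk⟩ : ∃ k : ℕ, N ∣ j * d + k * v := by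
      have hb : d = v * Int.gcdA v N + N * Int.gcdB v N := Int.gcd_eq_gcd_ab v N
      refine ⟨((-(j * Int.gcdA v N)) % N).toNat, ?_⟩
      rw [Int.toNat_of_nonneg (Int.emod_nonneg _ hN0.ne')]
      have h1 : N ∣ (-(j * Int.gcdA v N)) - (-(j * Int.gcdA v N)) % N :=
        Int.dvd_self_sub_emod
      obtain ⟨e, he⟩ := h1
      refine ⟨j * Int.gcdB v N - e * v, ?_⟩
      have h2 : (-(j * Int.gcdA v N)) % N = -(j * Int.gcdA v N) - N * e := by linarith
      rw [h2]
      conv_lhs => rw [hb]
      ring
    rw [← X_out (x := x) (b := false) hsN', ← X_out (x := x) (b := false) hsN, ← hk k s hs]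
    refine X_per h.one false ?_
    rwa [show s + j * d - (s - k * v) = j * d + k * v by ring]
  by_contra hne
  have hd2 : 2 ≤ d := by omega
  exact h.min d r hd2 hdlt hone

/-- the positions used to see all patterns -/
lemma exists_pos {N r : ℤ} (ho : OneHole x N r) (b : Bool) :
    ∃ n, N ∣ n - r ∧ x n = b := by
  by_contra hcon
  push Not at hcon
  apply ho.1
  intro j
  have h1 := hcon (r + j * N) (by rw [add_sub_cancel_left]; exact dvd_mul_left N j)
  have h2 := hcon r (by simp)
  revert h1 h2
  cases x (r + j * N) <;> cases x r <;> cases b <;> simp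

/-- the pattern at distance `t` from the hole, with letter `b` in the hole -/
lemma exists_m {N r : ℤ} (hN : 0 < N) (ho : OneHole x N r) (t : ℤ) (b : Bool) :
    ∃ m, ∀ i, 0 ≤ i → i < N → x (m + i) = X x N r b (t + i) := by
  obtain ⟨n, hn, hb⟩ := exists_pos ho b
  set e : ℤ := (r - t) % N with he
  have he0 : 0 ≤ e := Int.emod_nonneg _ hN.ne'
  have he1 : e < N := Int.emod_lt_of_pos _ hN
  have he2 : N ∣ (r - t) - e := Int.dvd_self_sub_emod
  refine ⟨n - e, fun i hi0 hi1 => ?_⟩
  have hd : N ∣ (n - e + i) - (t + i) := by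
    have := dvd_add hn he2
    rwa [show n - r + (r - t - e) = n - e + i - (t + i) by ring] at this
  rw [← X_per ho b hd]
  by_cases h : N ∣ n - e + i - r
  · rw [X_hole h]
    have h1 : N ∣ i - e := by
      have := dvd_sub h hn
      rwa [show n - e + i - r - (n - r) = i - e by ring] at this
    have h2 : i = e := by
      obtain ⟨k, hk⟩ := h1
      have hk0 : k = 0 := by
        by_contra hk0
        rcases lt_or_gt_of_ne hk0 with h3 | h3
        · nlinarith
        · nlinarith
      rw [hk0, mul_zero] at hk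
      linarith
    rw [h2, sub_add_cancel, hb]
  · rw [X_out h]

/-- no nontrivial period of the completed words -/
def NoPer (x : ℤ → Bool) (N r : ℤ) : Prop :=
  ∀ (b : Bool) (v : ℤ), ¬ N ∣ v → ∃ q, X x N r b (q - v) ≠ X x N r b q

/-- a periodic completed word is constant -/
lemma MinHole.const_of_per {N r : ℤ} (ha : Aper x) (h : MinHole x N r) (hp : ¬ NoPer x N r) :
    ∃ c, ∀ n, ¬ N ∣ n - r → x n = c := by
  unfold NoPer at hp
  push Not at hp
  obtain ⟨b, v, hv, hper⟩ := hp
  have hN0 : 0 < N := by linarith [h.two]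
  have hg : Int.gcd v N = 1 := by
    refine h.gcd_one ha hv fun q hq => ?_
    have hdN : ((Int.gcd v N : ℕ) : ℤ) ∣ N := Int.gcd_dvd_right v N
    have hdv : ((Int.gcd v N : ℕ) : ℤ) ∣ v := Int.gcd_dvd_left v N
    have h1 : ¬ N ∣ q - r := fun hcon => hq (hdN.trans hcon)
    have h2 : ¬ N ∣ q - v - r := by
      intro hcon
      apply hq
      have := dvd_add (hdN.trans hcon) hdv
      rwa [show q - v - r + v = q - r by ring] at this
    have h3 := hper q
    rw [X_out h1, X_out h2] at h3 ⊢
    exact h3
  -- X b is constant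
  have hk : ∀ (k : ℕ) q, X x N r b (q - k * v) = X x N r b q := by
    intro k
    induction k with
    | zero => intro q; simp
    | succ k ih =>
      intro q
      rw [← ih q, ← hper (q - k * v)]
      congr 1
      push_cast
      ring
  refine ⟨b, fun n hn => ?_⟩
  -- n - k v = r mod N
  obtain ⟨k, hkk⟩ : ∃ k : ℕ, N ∣ n - k * v - r := by
    have hb : (1 : ℤ) = v * Int.gcdA v N + N * Int.gcdB v N := by
      have := Int.gcd_eq_gcd_ab v N
      rw [hg] at this
      exact_mod_cast this
    refine ⟨(((n - r) * Int.gcdA v N) % N).toNat, ?_⟩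
    rw [Int.toNat_of_nonneg (Int.emod_nonneg _ hN0.ne')]
    obtain ⟨e, he⟩ : N ∣ ((n - r) * Int.gcdA v N) - ((n - r) * Int.gcdA v N) % N :=
      Int.dvd_self_sub_emod
    have h2 : ((n - r) * Int.gcdA v N) % N = (n - r) * Int.gcdA v N - N * e := by linarith
    refine ⟨(n - r) * Int.gcdB v N + e * v, ?_⟩
    rw [h2]
    have h3 : n - r = (n - r) * (v * Int.gcdA v N + N * Int.gcdB v N) := by rw [← hb, mul_one]
    linear_combination h3
  rw [← X_out (x := x) (b := b) hn, ← hk k n, X_hole hkk]

/-- without periods all `2N` patterns are different -/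
lemma NoPer.indep {N r : ℤ} (hN : 0 < N) (ho : OneHole x N r) (hp : NoPer x N r) {t t' : ℤ}
    {b b' : Bool} (ht : 0 ≤ t ∧ t < N) (ht' : 0 ≤ t' ∧ t' < N)
    (he : ∀ i, 0 ≤ i → i < N → X x N r b (t + i) = X x N r b' (t' + i)) : t = t' ∧ b = b' := by
  -- extend to all integers
  have hall : ∀ q, X x N r b q = X x N r b' (q - (t - t')) := by
    intro q
    have h1 := he ((q - t) % N) (Int.emod_nonneg _ hN.ne') (Int.emod_lt_of_pos _ hN)
    have h2 : N ∣ (q - t) - (q - t) % N := Int.dvd_self_sub_emod
    rw [X_per ho b (n := q) (n' := t + (q - t) % N) (by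
      rwa [show q - (t + (q - t) % N) = q - t - (q - t) % N by ring]), h1]
    refine X_per ho b' ?_
    rw [← dvd_neg]
    rwa [show -(t' + (q - t) % N - (q - (t - t'))) = q - t - (q - t) % N by ring]
  have hbb : b = b' := by
    by_contra hne
    -- one inclusion propagates around the circle
    have key : ∀ v : ℤ, (∀ q, X x N r true q = X x N r false (q - v)) → False := by
      intro v hv
      have h1 : ∀ k : ℕ, X x N r true (r - k * v) = true := by
        intro k
        induction k with
        | zero => rw [X_hole (by simp)]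
        | succ k ih =>
          rw [hv] at ih
          have := X_le ih
          rw [← this]
          congr 1
          push_cast
          ring
      have h2 := h1 (N.toNat - 1)
      rw [hv] at h2
      have h3 : N ∣ r - ((N.toNat - 1 : ℕ) : ℤ) * v - v - r := by
        have : ((N.toNat - 1 : ℕ) : ℤ) = N - 1 := by omega
        rw [this]
        exact ⟨-v, by ring⟩
      rw [X_hole h3] at h2
      exact absurd h2 (by decide)
    cases b <;> cases b'
    · exact hne rfl
    · refine key (-(t - t')) fun q => ?_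
      have := hall (q + (t - t'))
      rw [add_sub_cancel_right] at this
      rw [← this]
      congr 1
      ring
    · exact key (t - t') hall
    · exact hne rfl
  refine ⟨?_, hbb⟩
  by_contra hne
  have hv : ¬ N ∣ t - t' := by
    rintro ⟨k, hk⟩
    have hk0 : k = 0 := by
      by_contra hk0
      rcases lt_or_gt_of_ne hk0 with h3 | h3
      · nlinarith [ht.1, ht'.2]
      · nlinarith [ht'.1, ht.2]
    rw [hk0, mul_zero] at hk
    exact hne (by linarith)
  obtain ⟨q, hq⟩ := hp b (t - t') hv
  apply hq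
  rw [hall q, hbb]

/-- the number of patterns on a complete residue system -/
lemma NoPer.card {N r : ℤ} (hN : 0 < N) (ho : OneHole x N r) (hp : NoPer x N r) :
    2 * N ≤ p x (Finset.Ico 0 N) := by
  classical
  have hm := fun q : ℤ × Bool => exists_m hN ho q.1 q.2
  choose m hm using hm
  have hinj : Set.InjOn (fun q => pat x (Finset.Ico 0 N) (m q))
      ((Finset.Ico 0 N ×ˢ Finset.univ : Finset (ℤ × Bool)) : Set (ℤ × Bool)) := by
    rintro ⟨t, b⟩ hq ⟨t', b'⟩ hq' he
    have h1 := Finset.mem_Ico.1 (Finset.mem_product.1 (Finset.mem_coe.1 hq)).1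
    have h2 := Finset.mem_Ico.1 (Finset.mem_product.1 (Finset.mem_coe.1 hq')).1
    have he' := pat_eq_iff.1 he
    obtain ⟨e1, e2⟩ := hp.indep hN ho h1 h2 (b := b) (b' := b') fun i hi0 hi1 => by
      rw [← hm (t, b) i hi0 hi1, ← hm (t', b') i hi0 hi1]
      exact he' i (Finset.mem_Ico.2 ⟨hi0, hi1⟩)
    exact Prod.ext e1 e2
  have h1 := Finset.card_image_of_injOn hinj
  have h2 : ((Finset.Ico 0 N ×ˢ Finset.univ : Finset (ℤ × Bool)).image
      (fun q => pat x (Finset.Ico 0 N) (m q))).card ≤ p x (Finset.Ico 0 N) := by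
    refine Finset.card_le_card fun S hS => ?_
    obtain ⟨q, -, rfl⟩ := Finset.mem_image.1 hS
    exact pat_mem_L x _ _
  rw [h1, Finset.card_product, Int.card_Ico, Finset.card_univ, Fintype.card_bool] at h2
  have h3 : ((N - 0).toNat : ℤ) = N := by rw [sub_zero]; exact Int.toNat_of_nonneg hN.le
  have h4 : (((N - 0).toNat * 2 : ℕ) : ℤ) ≤ (p x (Finset.Ico 0 N) : ℤ) := by exact_mod_cast h2
  push_cast at h4
  rw [h3] at h4
  linarith

/-- small multiples of `N` -/
lemma eq_zero_of_dvd_lt {N k : ℤ} (hd : N ∣ k) (h1 : -N < k) (h2 : k < N) : k = 0 := by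
  obtain ⟨e, he⟩ := hd
  have he0 : e = 0 := by
    by_contra he0
    rcases lt_or_gt_of_ne he0 with h3 | h3
    · nlinarith
    · nlinarith
  rw [he, he0, mul_zero]

/-- deleting a place must merge two nontrivial pairs of patterns -/
lemma merge {N r : ℤ} (hl : Low x) (h2 : 2 ≤ N) (ho : OneHole x N r) (hp : NoPer x N r) :
    ∃ (t t' : ℤ) (b b' : Bool), ¬ N ∣ t - t' ∧
      (∀ q, ¬ N ∣ q - t → X x N r b q = X x N r b' (q - (t - t'))) ∧
      X x N r b t ≠ X x N r b' (t - (t - t')) := by
  classical
  have hN : 0 < N := by linarith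
  have hm := fun q : ℤ × Bool => exists_m hN ho q.1 q.2
  choose m hm using hm
  set t0 : ℤ := r % N with ht0
  set P : Finset (ℤ × Bool) := (Finset.Ico 0 N ×ˢ Finset.univ).erase (t0, true) with hP
  have hPc : P.card = 2 * N.toNat - 1 := by
    rw [hP, Finset.card_erase_of_mem, Finset.card_product, Int.card_Ico, Finset.card_univ,
      Fintype.card_bool]
    · omega
    · rw [Finset.mem_product, Finset.mem_Ico]
      exact ⟨⟨Int.emod_nonneg _ hN.ne', Int.emod_lt_of_pos _ hN⟩, Finset.mem_univ _⟩
  have hF : (Finset.Ioo 0 N).Nonempty := ⟨1, by rw [Finset.mem_Ioo]; omega⟩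
  have hlow := hl _ hF
  rw [Int.card_Ioo] at hlow
  obtain ⟨⟨t, b⟩, hq, ⟨t', b'⟩, hq', hne, he⟩ := Finset.exists_ne_map_eq_of_card_lt_of_maps_to
    (s := P) (t := L x (Finset.Ioo 0 N)) (f := fun q => pat x (Finset.Ioo 0 N) (m q))
    (by
      show p x (Finset.Ioo 0 N) < P.card
      rw [hPc]; omega)
    (fun q _ => pat_mem_L x _ _)
  have he' := pat_eq_iff.1 he
  rw [hP, Finset.mem_erase, Finset.mem_product, Finset.mem_Ico] at hq hq'
  obtain ⟨hq1, ⟨hq2, hq3⟩, -⟩ := hq
  obtain ⟨hq1', ⟨hq2', hq3'⟩, -⟩ := hq'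
  simp only at hq2 hq3 hq2' hq3'
  have hX : ∀ i, 0 < i → i < N → X x N r b (t + i) = X x N r b' (t' + i) := by
    intro i hi0 hi1
    rw [← hm (t, b) i hi0.le hi1, ← hm (t', b') i hi0.le hi1]
    exact he' i (Finset.mem_Ioo.2 ⟨hi0, hi1⟩)
  have hdiff : X x N r b t ≠ X x N r b' t' := by
    intro hcon
    have := hp.indep hN ho ⟨hq2, hq3⟩ ⟨hq2', hq3'⟩ (b := b) (b' := b') fun i hi0 hi1 => by
      rcases hi0.eq_or_lt with h | h
      · rw [← h, add_zero, add_zero]; exact hcon
      · exact hX i h hi1
    exact hne (Prod.ext this.1 this.2)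
  have htt : ¬ N ∣ t - t' := by
    intro hd
    have h0 := eq_zero_of_dvd_lt hd (by linarith) (by linarith)
    have htt' : t = t' := by linarith
    subst htt'
    have hbb : b ≠ b' := fun hbb => hne (by rw [hbb])
    -- the hole is at distance `i`
    have hi0 : 0 ≤ (r - t) % N := Int.emod_nonneg _ hN.ne'
    have hi1 : (r - t) % N < N := Int.emod_lt_of_pos _ hN
    have hid : N ∣ (r - t) - (r - t) % N := Int.dvd_self_sub_emod
    rcases hi0.eq_or_lt with h | h
    · rw [← h, sub_zero] at hid
      have ht : t = t0 := by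
        have h1 : N ∣ r - r % N := Int.dvd_self_sub_emod
        have h2 := dvd_sub h1 hid
        have h3 := eq_zero_of_dvd_lt h2 (by
          have := Int.emod_nonneg r hN.ne'
          have := Int.emod_lt_of_pos r hN
          linarith) (by
          have := Int.emod_nonneg r hN.ne'
          have := Int.emod_lt_of_pos r hN
          linarith)
        rw [ht0]; linarith
      cases b
      · cases b'
        · exact hbb rfl
        · exact hq1' (by rw [ht])
      · exact hq1 (by rw [ht])
    · have h1 := hX _ h hi1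
      have h2 : N ∣ t + (r - t) % N - r := by
        rw [← dvd_neg]
        rwa [show -(t + (r - t) % N - r) = r - t - (r - t) % N by ring]
      rw [X_hole h2, X_hole h2] at h1
      exact hbb h1
  refine ⟨t, t', b, b', htt, fun q hq => ?_, ?_⟩
  · have hi0 : 0 ≤ (q - t) % N := Int.emod_nonneg _ hN.ne'
    have hi1 : (q - t) % N < N := Int.emod_lt_of_pos _ hN
    have hid : N ∣ (q - t) - (q - t) % N := Int.dvd_self_sub_emod
    have hpos : 0 < (q - t) % N := by
      rcases hi0.eq_or_lt with h | h
      · rw [← h, sub_zero] at hid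
        exact absurd hid hq
      · exact h
    rw [X_per ho b (n := q) (n' := t + (q - t) % N) (by
      rwa [show q - (t + (q - t) % N) = q - t - (q - t) % N by ring]), hX _ hpos hi1]
    refine X_per ho b' ?_
    rw [← dvd_neg]
    rwa [show -(t' + (q - t) % N - (q - (t - t'))) = q - t - (q - t) % N by ring]
  · rwa [show t - (t - t') = t' by ring]

/-- first return of a rotation -/
lemma first_return {N v : ℤ} (hN : 0 < N) :
    ∃ k0 : ℕ, 1 ≤ k0 ∧ N ∣ k0 * v ∧ ∀ k : ℕ, 1 ≤ k → k < k0 → ¬ N ∣ k * v := by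
  classical
  have hex : ∃ k : ℕ, 1 ≤ k ∧ N ∣ k * v := ⟨N.toNat, by omega, by
    rw [Int.toNat_of_nonneg hN.le]; exact dvd_mul_right N v⟩
  refine ⟨Nat.find hex, (Nat.find_spec hex).1, (Nat.find_spec hex).2, fun k h1 h2 h3 => ?_⟩
  exact Nat.find_min hex h2 ⟨h1, h3⟩

/-- the nontrivial merge, in normal form -/
lemma merge' {N r : ℤ} (hl : Low x) (h2 : 2 ≤ N) (ho : OneHole x N r) (hp : NoPer x N r) :
    ∃ q0 v : ℤ, ¬ N ∣ v ∧ (∀ q, ¬ N ∣ q - q0 → X x N r true q = X x N r false (q - v)) ∧
      X x N r true q0 = true ∧ X x N r false (q0 - v) = false := by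
  have hN : 0 < N := by linarith
  -- reduction
  have key : ∀ q0 v : ℤ, ¬ N ∣ v → (∀ q, ¬ N ∣ q - q0 → X x N r true q = X x N r false (q - v)) →
      X x N r true q0 ≠ X x N r false (q0 - v) →
      ∃ q0 v : ℤ, ¬ N ∣ v ∧ (∀ q, ¬ N ∣ q - q0 → X x N r true q = X x N r false (q - v)) ∧
      X x N r true q0 = true ∧ X x N r false (q0 - v) = false := by
    intro q0 v hv h1 h3
    refine ⟨q0, v, hv, h1, ?_⟩
    by_cases h4 : X x N r true q0 = true
    · refine ⟨h4, ?_⟩
      rw [h4] at h3
      revert h3
      cases X x N r false (q0 - v) <;> simp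
    · exfalso
      have h5 : X x N r false (q0 - v) = true := by
        revert h3 h4
        cases X x N r false (q0 - v) <;> cases X x N r true q0 <;> simp
      obtain ⟨k0, hk1, hk2, hk3⟩ := first_return (v := v) hN
      have h6 : ∀ k : ℕ, 1 ≤ k → k ≤ k0 → X x N r false (q0 - k * v) = true := by
        intro k hk
        induction k, hk using Nat.le_induction with
        | base => intro _; rw [Nat.cast_one, one_mul]; exact h5
        | succ k hk ih =>
          intro hk'
          have h7 := X_le (ih (by omega))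
          rw [h1 (q0 - k * v) (by
            rw [show q0 - k * v - q0 = -(k * v) by ring, dvd_neg]
            exact hk3 k hk (by omega))] at h7
          rw [← h7]
          congr 1
          push_cast
          ring
      have h7 := h6 k0 hk1 le_rfl
      rw [X_per ho false (n := q0 - k0 * v) (n' := q0) (by
        rw [show q0 - k0 * v - q0 = -(k0 * v) by ring, dvd_neg]; exact hk2)] at h7
      exact h4 (X_le h7)
  obtain ⟨t, t', b, b', htt, h1, h3⟩ := merge hl h2 ho hp
  by_cases hbb : b = b'
  · exfalso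
    subst hbb
    obtain ⟨k0, hk1, hk2, hk3⟩ := first_return (v := t - t') hN
    have h6 : ∀ k : ℕ, 1 ≤ k → k ≤ k0 →
        X x N r b (t - k * (t - t')) = X x N r b (t - (t - t')) := by
      intro k hk
      induction k, hk using Nat.le_induction with
      | base => intro _; rw [Nat.cast_one, one_mul]
      | succ k hk ih =>
        intro hk'
        rw [← ih (by omega), h1 (t - k * (t - t')) (by
          rw [show t - k * (t - t') - t = -(k * (t - t')) by ring, dvd_neg]
          exact hk3 k hk (by omega))]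
        congr 1
        push_cast
        ring
    have h7 := h6 k0 hk1 le_rfl
    rw [X_per ho b (n := t - k0 * (t - t')) (n' := t) (by
      rw [show t - k0 * (t - t') - t = -(k0 * (t - t')) by ring, dvd_neg]; exact hk2)] at h7
    exact h3 h7
  · cases b
    · cases b'
      · exact absurd rfl hbb
      · -- swap the roles
        refine key t' (-(t - t')) (by rwa [dvd_neg]) (fun q hq => ?_) ?_
        · have h4 := h1 (q + (t - t')) (by rwa [show q + (t - t') - t = q - t' by ring])
          rw [add_sub_cancel_right] at h4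
          rw [← h4]
          congr 1
          ring
        · rw [show t' - -(t - t') = t by ring]
          rw [show t - (t - t') = t' by ring] at h3
          exact fun h => h3 h.symm
    · cases b'
      · exact key t (t - t') htt h1 h3
      · exact absurd rfl hbb

/-- the word of a minimal one-hole modulus is an arc -/
theorem MinHole.arc {N r : ℤ} (hl : Low x) (ha : Aper x) (h : MinHole x N r) (hp : NoPer x N r) :
    ∃ u a, IsCoprime u N ∧ 1 ≤ a ∧ a < N ∧
      ∀ n, ¬ N ∣ n - r → (x n = true ↔ ∃ i, 1 ≤ i ∧ i ≤ a ∧ N ∣ n - (r + u * i)) := by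
  classical
  have hN : 0 < N := by linarith [h.two]
  have ho := h.one
  obtain ⟨q0, v, hv, h1, h3, h4⟩ := merge' hl h.two ho hp
  -- q0 is not the hole
  have hq0 : ¬ N ∣ q0 - r := by
    intro hcon
    obtain ⟨q, hq⟩ := hp false v hv
    apply hq
    by_cases hqr : N ∣ q - r
    · have h5 : N ∣ (q - v) - (q0 - v) := by
        have := dvd_sub hqr hcon
        rwa [show q - r - (q0 - r) = q - v - (q0 - v) by ring] at this
      rw [X_per ho false h5, h4, X_hole hqr]
    · rw [← h1 q (fun h5 => hqr (by
        have := dvd_add h5 hcon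
        rwa [show q - q0 + (q0 - r) = q - r by ring] at this)), X_out hqr, X_out hqr]
  -- the run of ones
  have hr1 : X x N r false (r - v) = true := by
    rw [← h1 r (fun h5 => hq0 (by rw [← dvd_neg]; rwa [show -(q0 - r) = r - q0 by ring])),
      X_hole (by simp)]
  have hex : ∃ k : ℕ, 1 ≤ k ∧ X x N r false (r - k * v) = false := ⟨N.toNat, by omega, by
    rw [Int.toNat_of_nonneg hN.le, X_hole]
    rw [show r - N * v - r = N * (-v) by ring]; exact dvd_mul_right _ _⟩
  set k1 := Nat.find hex with hk1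
  have hk1s := Nat.find_spec hex
  rw [← hk1] at hk1s
  have hk1m : ∀ k : ℕ, 1 ≤ k → k < k1 → X x N r false (r - k * v) = true := by
    intro k hk hk'
    have := Nat.find_min hex hk'
    push Not at this
    have h5 := this hk
    revert h5
    cases X x N r false (r - k * v) <;> simp
  have hk1N : k1 ≤ N.toNat := Nat.find_min' hex ⟨by omega, by
    rw [Int.toNat_of_nonneg hN.le, X_hole]
    rw [show r - N * v - r = N * (-v) by ring]; exact dvd_mul_right _ _⟩
  have hk12 : 2 ≤ k1 := by
    by_contra hcon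
    have : k1 = 1 := by omega
    rw [this, Nat.cast_one, one_mul, hr1] at hk1s
    exact absurd hk1s.2 (by decide)
  obtain ⟨a, ha1⟩ : ∃ a : ℕ, k1 = a + 1 := ⟨k1 - 1, by omega⟩
  have hq0a : N ∣ (r - a * v) - q0 := by
    by_contra hcon
    have h5 := h1 _ hcon
    have h6 := X_le (hk1m a (by omega) (by omega))
    rw [h6] at h5
    have h7 := hk1s.2
    rw [ha1] at h7
    rw [show r - a * v - v = r - ((a + 1 : ℕ) : ℤ) * v by push_cast; ring, h7] at h5
    exact absurd h5 (by decide)
  have hg : Int.gcd v N = 1 := by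
    refine h.gcd_one ha hv fun q hq => ?_
    have hdN : ((Int.gcd v N : ℕ) : ℤ) ∣ N := Int.gcd_dvd_right v N
    have hdv : ((Int.gcd v N : ℕ) : ℤ) ∣ v := Int.gcd_dvd_left v N
    have h5 : ¬ N ∣ q - r := fun hcon => hq (hdN.trans hcon)
    have h6 : ¬ N ∣ q - q0 := by
      intro hcon
      apply hq
      have e1 := hdN.trans hcon
      have e2 := hdN.trans hq0a
      have e3 := hdv.mul_left (a : ℤ)
      have := dvd_sub (dvd_sub e1 e2) e3
      rwa [show q - q0 - (r - a * v - q0) - a * v = q - r by ring] at this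
    rw [← h1 q h6, X_out h5, X_out h5]
  have hcop : IsCoprime v N := Int.isCoprime_iff_gcd_eq_one.2 hg
  have hdiv : ∀ k : ℤ, N ∣ k * v → N ∣ k := fun k hk => hcop.symm.dvd_of_dvd_mul_right hk
  have haN : (a : ℤ) < N := by omega
  -- after the run there are only zeros
  have hzero : ∀ k : ℕ, k1 ≤ k → (k : ℤ) ≤ N → X x N r false (r - k * v) = false := by
    intro k hk
    induction k, hk using Nat.le_induction with
    | base => intro _; exact hk1s.2
    | succ k hk ih =>
      intro hkN
      push_cast at hkN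
      have h5 := ih (by linarith)
      have h6 : ¬ N ∣ (r - k * v) - r := by
        intro hcon
        rw [show r - k * v - r = -(k * v) by ring, dvd_neg] at hcon
        have := eq_zero_of_dvd_lt (hdiv _ hcon) (by linarith) (by linarith)
        omega
      have h7 : ¬ N ∣ (r - k * v) - q0 := by
        intro hcon
        have h8 := dvd_sub hq0a hcon
        rw [show r - a * v - q0 - (r - k * v - q0) = (k - a) * v by ring] at h8
        have := eq_zero_of_dvd_lt (hdiv _ h8) (by omega) (by omega)
        omega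
      rw [show r - ((k + 1 : ℕ) : ℤ) * v = r - k * v - v by push_cast; ring, ← h1 _ h7, X_out h6]
      rw [X_out h6] at h5
      exact h5
  refine ⟨-v, a, hcop.neg_left, by omega, haN, fun n hn => ?_⟩
  constructor
  · intro hx
    have hXn : X x N r false n = true := by rw [X_out hn]; exact hx
    obtain ⟨α, β, hαβ⟩ := hcop
    set k : ℤ := ((r - n) * α) % N with hk
    have hk0 : 0 ≤ k := Int.emod_nonneg _ hN.ne'
    have hk1' : k < N := Int.emod_lt_of_pos _ hN
    obtain ⟨e, he⟩ : N ∣ (r - n) * α - k := Int.dvd_self_sub_emod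
    have hkd : N ∣ n - (r - k * v) := by
      refine ⟨-(r - n) * β - e * v, ?_⟩
      have h5 : k = (r - n) * α - N * e := by linarith
      rw [h5]
      linear_combination (r - n) * hαβ
    have hkpos : 0 < k := by
      rcases hk0.eq_or_lt with h5 | h5
      · exfalso
        rw [← h5, zero_mul, sub_zero] at hkd
        exact hn hkd
      · exact h5
    refine ⟨k, by linarith, ?_, by rwa [show r + -v * k = r - k * v by ring]⟩
    by_contra hcon
    push Not at hcon
    have h6 := hzero k.toNat (by omega) (by omega)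
    rw [Int.toNat_of_nonneg hk0, ← X_per ho false hkd, hXn] at h6
    exact absurd h6 (by decide)
  · rintro ⟨i, hi1, hi2, hi3⟩
    have h5 := hk1m i.toNat (by omega) (by omega)
    rw [Int.toNat_of_nonneg (by linarith)] at h5
    rw [show r + -v * i = r - i * v by ring] at hi3
    rw [← X_per ho false hi3, X_out hn] at h5
    exact h5

/-! ### the next level -/

lemma sub_aper {N r : ℤ} (ha : Aper x) (hN : 0 < N) (ho : OneHole x N r) : Aper (sub x N r) := by
  intro q hq
  obtain ⟨m, hm⟩ := ha (q * N) (mul_ne_zero hq hN.ne')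
  have hmr : N ∣ m - r := by
    by_contra hcon
    exact hm ((ho.2 m hcon) q)
  obtain ⟨j, hj⟩ := hmr
  refine ⟨j, ?_⟩
  have e1 : r + j * N = m := by linarith [mul_comm N j]
  have e2 : r + (j + q) * N = m + q * N := by rw [← e1]; ring
  show x (r + (j + q) * N) ≠ x (r + j * N)
  rw [e1, e2]
  exact hm

/-- minimal one-hole modulus -/
lemma exists_minHole (hex : ∃ N r, 2 ≤ N ∧ OneHole x N r) : ∃ N r, MinHole x N r := by
  classical
  have hex' : ∃ t : ℕ, 2 ≤ t ∧ ∃ s, OneHole x t s := by
    obtain ⟨N, r, h2, ho⟩ := hex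
    refine ⟨N.toNat, by omega, r, ?_⟩
    rw [Int.toNat_of_nonneg (by linarith)]
    exact ho
  obtain ⟨s, hs⟩ := (Nat.find_spec hex').2
  refine ⟨_, s, by exact_mod_cast (Nat.find_spec hex').1, hs, fun d r' hd2 hdlt hd => ?_⟩
  refine Nat.find_min hex' (m := d.toNat) (by omega) ⟨by omega, r', ?_⟩
  rw [Int.toNat_of_nonneg (by linarith)]
  exact hd

/-- a word seen together with a constant pattern is constant -/
lemma const_word {N r t s : ℤ} (hl : Low x) (ha : Aper x) (h2 : 2 ≤ N) (ho : OneHole x N r)
    (hz : MinHole (sub x N r) t s) : ∃ c, ∀ n, ¬ t ∣ n - s → sub x N r n = c := by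
  classical
  have hN : 0 < N := by linarith
  have ht : 0 < t := by linarith [hz.two]
  have za := sub_aper ha hN ho
  by_cases hp : NoPer (sub x N r) t s
  swap
  · exact hz.const_of_per za hp
  by_contra hcon
  push Not at hcon
  obtain ⟨n1, hn1, hx1⟩ := hcon true
  obtain ⟨n2, hn2, hx2⟩ := hcon false
  have hcard := hp.card ht hz.one
  set V : Finset ℤ := Finset.Ico 0 t with hV
  have hVc : (V.card : ℤ) = t := by
    rw [hV, Int.card_Ico, sub_zero]; exact Int.toNat_of_nonneg ht.le
  -- the constant class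
  have hc0 : ¬ N ∣ (r + 1) - r := by
    intro hd
    rw [add_sub_cancel_left] at hd
    have := eq_zero_of_dvd_lt hd (by linarith) (by linarith)
    omega
  have hconst := ho.2 (r + 1) hc0
  have hle := card_le_p (x := x) (F := V.image fun i => i * N)
    (fun m => V.filter fun i => x (m + i * N) = true) (by
      intro m n h
      ext i
      simp only [Finset.mem_filter]
      constructor
      · rintro ⟨h1, h2⟩
        refine ⟨h1, ?_⟩
        rw [← (pat_eq_iff.mp h) (i * N) (Finset.mem_image_of_mem _ h1)]; exact h2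
      · rintro ⟨h1, h2⟩
        refine ⟨h1, ?_⟩
        rw [(pat_eq_iff.mp h) (i * N) (Finset.mem_image_of_mem _ h1)]; exact h2)
    (insert (V.filter fun i => x (r + 1 + i * N) = true) (L (sub x N r) V)) (by
      intro T hT
      rcases Finset.mem_insert.1 hT with rfl | hT
      · exact ⟨r + 1, rfl⟩
      · obtain ⟨j, hj⟩ := mem_L.1 hT
        refine ⟨r + j * N, ?_⟩
        rw [← hj]
        ext i
        simp only [Finset.mem_filter, mem_pat, sub]
        rw [show r + j * N + i * N = r + (j + i) * N by ring])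
  have hnot : (V.filter fun i => x (r + 1 + i * N) = true) ∉ L (sub x N r) V := by
    intro hmem
    obtain ⟨j, hj⟩ := mem_L.1 hmem
    -- the letter at any place of the window is the constant one
    have key : ∀ n, ¬ t ∣ n - s → sub x N r n = x (r + 1) := by
      intro n hn
      have hi0 : 0 ≤ (n - j) % t := Int.emod_nonneg _ ht.ne'
      have hi1 : (n - j) % t < t := Int.emod_lt_of_pos _ ht
      have hid : t ∣ (n - j) - (n - j) % t := Int.dvd_self_sub_emod
      have hiV : (n - j) % t ∈ V := by rw [hV, Finset.mem_Ico]; exact ⟨hi0, hi1⟩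
      have h3 : (n - j) % t ∈ pat (sub x N r) V j ↔
          (n - j) % t ∈ V.filter fun i => x (r + 1 + i * N) = true := by rw [hj]
      rw [mem_pat, Finset.mem_filter, hconst] at h3
      simp only [hiV, true_and] at h3
      have h4 : sub x N r n = sub x N r (j + (n - j) % t) := by
        refine hz.one.det hn ?_
        rwa [show n - (j + (n - j) % t) = n - j - (n - j) % t by ring]
      rw [h4]
      cases h5 : x (r + 1)
      · rw [h5] at h3
        cases h6 : sub x N r (j + (n - j) % t)
        · rfl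
        · exact absurd (h3.1 h6) (by decide)
      · exact h3.2 h5
    have k1 := key n1 hn1
    have k2 := key n2 hn2
    rw [k1] at hx1
    rw [k2] at hx2
    revert hx1 hx2
    cases x (r + 1) <;> simp
  rw [Finset.card_insert_of_notMem hnot] at hle
  have hlow := hl (V.image fun i => i * N) (Finset.Nonempty.image ⟨0, by
    rw [hV, Finset.mem_Ico]; exact ⟨le_rfl, ht⟩⟩ _)
  have h3 : (V.image fun i => i * N).card ≤ V.card := Finset.card_image_le
  have h4 : ((L (sub x N r) V).card : ℤ) = p (sub x N r) V := rfl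
  have h5 : ((L (sub x N r) V).card + 1 : ℤ) ≤ 2 * V.card := by
    have : (L (sub x N r) V).card + 1 ≤ 2 * V.card := by omega
    exact_mod_cast this
  rw [hVc, h4] at h5
  linarith

/-- the next level -/
theorem next_level {N r : ℤ} (hl : Low x) (ha : Aper x)
    (hm : ∀ K : ℤ, ∃ N r, K ≤ N ∧ OneHole x N r) (h2 : 2 ≤ N) (ho : OneHole x N r) :
    ∃ N' r' c, N ∣ N' ∧ N < N' ∧ N ∣ r' - r ∧ OneHole x N' r' ∧
      ∀ n, N ∣ n - r → ¬ N' ∣ n - r' → x n = c := by
  have hN : 0 < N := by linarith
  -- one-hole moduli of the class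
  obtain ⟨M, rM, hM, hoM⟩ := hm (2 * N)
  obtain ⟨M', r'', hM', hd1, hd2, hd3, ho'⟩ := ho.lcm ha hN (by linarith) hoM
  obtain ⟨t', rfl⟩ := hd1
  obtain ⟨j'', hj''⟩ := hd3
  have hMle : M ≤ N * t' := Int.le_of_dvd hM' hd2
  have ht' : 2 ≤ t' := by
    by_contra hcon
    push Not at hcon
    have : t' ≤ 1 := by linarith
    nlinarith
  have za := sub_aper ha hN ho
  have hzo : OneHole (sub x N r) t' j'' := by
    refine oneHole_of za (by linarith) fun j hj => ?_
    have hs : ¬ N * t' ∣ (r + j * N) - r'' := by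
      intro hcon
      apply hj
      have e : r + j * N - r'' = N * (j - j'') := by linarith [mul_comm N j'', mul_comm N j]
      rw [e] at hcon
      exact (mul_dvd_mul_iff_left hN.ne').1 hcon
    intro k
    have := (ho'.2 _ hs) k
    show x (r + (j + k * t') * N) = x (r + j * N)
    rw [← this]
    congr 1
    ring
  obtain ⟨t, s, hz⟩ := exists_minHole ⟨t', j'', ht', hzo⟩
  obtain ⟨c, hc⟩ := const_word hl ha h2 ho hz
  have ht : 0 < t := by linarith [hz.two]
  refine ⟨N * t, r + s * N, c, dvd_mul_right N t, by nlinarith [hz.two], ?_, ?_, ?_⟩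
  · rw [add_sub_cancel_left]; exact dvd_mul_left N s
  · refine oneHole_of ha (by positivity) fun n hn => ?_
    by_cases hnr : N ∣ n - r
    · obtain ⟨j, hj⟩ := hnr
      have e1 : n = r + j * N := by linarith [mul_comm N j]
      have hjt : ¬ t ∣ j - s := by
        intro hcon
        apply hn
        rw [e1, show r + j * N - (r + s * N) = N * (j - s) by ring]
        exact mul_dvd_mul_left N hcon
      intro k
      have := (hz.one.2 j hjt) k
      have e2 : n + k * (N * t) = r + (j + k * t) * N := by rw [e1]; ring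
      rw [e2, e1]
      exact this
    · exact (ho.2 n hnr).of_dvd (dvd_mul_right N t)
  · intro n hnr hn
    obtain ⟨j, hj⟩ := hnr
    have e1 : n = r + j * N := by linarith [mul_comm N j]
    have hjt : ¬ t ∣ j - s := by
      intro hcon
      apply hn
      rw [e1, show r + j * N - (r + s * N) = N * (j - s) by ring]
      exact mul_dvd_mul_left N hcon
    have := hc j hjt
    rw [e1]
    exact this

/-- the levels cannot have eventually the same colour -/
lemma colours {N r : ℕ → ℤ} {c : ℕ → Bool} (hr : Rec x)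
    (hpos : ∀ k, 0 < N k) (hlt : ∀ k, N k < N (k + 1)) (hdvd : ∀ k, N k ∣ N (k + 1))
    (hnest : ∀ k, N k ∣ r (k + 1) - r k) (ho : ∀ k, OneHole x (N k) (r k))
    (hcol : ∀ k n, N k ∣ n - r k → ¬ N (k + 1) ∣ n - r (k + 1) → x n = c k) (b : Bool) :
    ∀ K, ∃ k, K ≤ k ∧ c k = b := by
  intro K
  by_contra hcon
  push Not at hcon
  have hbig : ∀ k : ℕ, (k : ℤ) < N k := by
    intro k
    induction k with
    | zero => exact_mod_cast hpos 0
    | succ k ih => have := hlt k; push_cast; omega
  have hDvd : ∀ j k : ℕ, j ≤ k → N j ∣ N k := by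
    intro j k hjk
    induction k, hjk using Nat.le_induction with
    | base => exact dvd_rfl
    | succ k _ ih => exact ih.trans (hdvd k)
  -- a place of the class with letter `b`
  obtain ⟨n0, hn0, hb⟩ := exists_pos (ho K) b
  -- places of the class outside some deeper class carry the other letter
  have key : ∀ n, N K ∣ n - r K → ∀ k, K ≤ k → ¬ N k ∣ n - r k → x n ≠ b := by
    intro n hn k hk
    induction k, hk using Nat.le_induction with
    | base => intro h; exact absurd hn h
    | succ k hk ih =>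
      intro h
      by_cases h1 : N k ∣ n - r k
      · rw [hcol k n h1 h]
        exact hcon k hk
      · exact ih h1
  have hn0all : ∀ k, K ≤ k → N k ∣ n0 - r k := by
    intro k hk
    by_contra h
    exact key n0 hn0 k hk h hb
  obtain ⟨h, hh0, hhd, hh⟩ := AR hr n0 n0 (N K) (hpos K)
  have h1 := hh n0 le_rfl le_rfl
  have h2 : N K ∣ n0 + h - r K := by
    have := dvd_add hn0 hhd
    rwa [show n0 - r K + h = n0 + h - r K by ring] at this
  -- `n0 + h` leaves a deep class
  set k : ℕ := max K h.toNat with hk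
  have h3 : ¬ N k ∣ n0 + h - r k := by
    intro hcon'
    have h4 := hn0all k (le_max_left _ _)
    have h5 := dvd_sub hcon' h4
    rw [show n0 + h - r k - (n0 - r k) = h by ring] at h5
    have h6 := Int.le_of_dvd hh0 h5
    have h7 := hbig k
    have h8 : h.toNat ≤ k := le_max_right _ _
    omega
  exact key (n0 + h) h2 k (le_max_left _ _) h3 (by rw [h1, hb])

/-- (H) from arbitrarily large one-hole moduli to the Toeplitz form -/
theorem step5B (hl : Low x) (hr : Rec x) (ha : Aper x)
    (hm : ∀ K : ℤ, ∃ N r, K ≤ N ∧ OneHole x N r) : ToepForm x := by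
  classical
  obtain ⟨N0, r0, h0⟩ := exists_minHole (x := x) (by
    obtain ⟨N, r, h1, h2⟩ := hm 2
    exact ⟨N, r, h1, h2⟩)
  -- the word of the first level
  obtain ⟨u, a, hu, ha0, haN, harc⟩ : ∃ u a, IsCoprime u N0 ∧ 0 ≤ a ∧ a < N0 ∧
      ∀ n, ¬ N0 ∣ n - r0 → (x n = true ↔ ∃ i, 1 ≤ i ∧ i ≤ a ∧ N0 ∣ n - (r0 + u * i)) := by
    have hN0 : 0 < N0 := by linarith [h0.two]
    by_cases hp : NoPer x N0 r0
    · obtain ⟨u, a, h1, h2, h3, h4⟩ := h0.arc hl ha hp
      exact ⟨u, a, h1, by linarith, h3, h4⟩
    · obtain ⟨c, hc⟩ := h0.const_of_per ha hp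
      cases c
      · refine ⟨1, 0, isCoprime_one_left, le_rfl, hN0, fun n hn => ?_⟩
        rw [hc n hn]
        constructor
        · intro h; exact absurd h (by decide)
        · rintro ⟨i, h1, h2, -⟩; linarith
      · refine ⟨1, N0 - 1, isCoprime_one_left, by linarith, by linarith, fun n hn => ?_⟩
        rw [hc n hn]
        refine ⟨fun _ => ?_, fun _ => rfl⟩
        have hi0 : 0 ≤ (n - r0) % N0 := Int.emod_nonneg _ hN0.ne'
        have hi1 : (n - r0) % N0 < N0 := Int.emod_lt_of_pos _ hN0
        have hid : N0 ∣ (n - r0) - (n - r0) % N0 := Int.dvd_self_sub_emod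
        have hpos : 0 < (n - r0) % N0 := by
          rcases hi0.eq_or_lt with h | h
          · rw [← h, sub_zero] at hid
            exact absurd hid hn
          · exact h
        refine ⟨(n - r0) % N0, by linarith, by linarith, ?_⟩
        rwa [show n - (r0 + 1 * ((n - r0) % N0)) = n - r0 - (n - r0) % N0 by ring]
  -- the sequence of levels
  have hnext : ∀ q : {q : ℤ × ℤ // 2 ≤ q.1 ∧ OneHole x q.1 q.2},
      ∃ (q' : {q : ℤ × ℤ // 2 ≤ q.1 ∧ OneHole x q.1 q.2}) (c : Bool), q.1.1 ∣ q'.1.1 ∧
        q.1.1 < q'.1.1 ∧ q.1.1 ∣ q'.1.2 - q.1.2 ∧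
        ∀ n, q.1.1 ∣ n - q.1.2 → ¬ q'.1.1 ∣ n - q'.1.2 → x n = c := by
    rintro ⟨⟨N, r⟩, h2, ho⟩
    obtain ⟨N', r', c, h3, h4, h5, h6, h7⟩ := next_level hl ha hm h2 ho
    have h2' : 2 ≤ N := h2
    exact ⟨⟨(N', r'), (by show 2 ≤ N'; linarith), h6⟩, c, h3, h4, h5, h7⟩
  choose nx cx hnx using hnext
  let st : ℕ → {q : ℤ × ℤ // 2 ≤ q.1 ∧ OneHole x q.1 q.2} := fun k =>
    Nat.rec ⟨(N0, r0), h0.two, h0.one⟩ (fun _ q => nx q) k
  have hst0 : (st 0).1 = (N0, r0) := rfl
  have hst : ∀ k, st (k + 1) = nx (st k) := fun k => rfl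
  have hpos : ∀ k, 0 < (st k).1.1 := fun k => by linarith [(st k).2.1]
  have hdvd : ∀ k, (st k).1.1 ∣ (st (k + 1)).1.1 := fun k => by rw [hst]; exact (hnx (st k)).1
  have hlt : ∀ k, (st k).1.1 < (st (k + 1)).1.1 := fun k => by rw [hst]; exact (hnx (st k)).2.1
  have hnest : ∀ k, (st k).1.1 ∣ (st (k + 1)).1.2 - (st k).1.2 := fun k => by
    rw [hst]; exact (hnx (st k)).2.2.1
  have hcol : ∀ k n, (st k).1.1 ∣ n - (st k).1.2 → ¬ (st (k + 1)).1.1 ∣ n - (st (k + 1)).1.2 →
      x n = cx (st k) := fun k => by rw [hst]; exact (hnx (st k)).2.2.2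
  refine ⟨fun k => (st k).1.1, fun k => (st k).1.2, fun k => cx (st k), u, a, ?_, hdvd, hlt, hnest,
    ?_, ?_, ?_, ha0, ?_, ?_, hcol⟩
  · show 1 ≤ N0
    linarith [h0.two]
  · exact colours hr hpos hlt hdvd hnest (fun k => (st k).2.2) hcol true
  · exact colours hr hpos hlt hdvd hnest (fun k => (st k).2.2) hcol false
  · exact hu
  · exact haN
  · exact harc

end Pool.Agent.PatSturm
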