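import Mathlib
import Pool.Agent.PatSturm.NP
import Pool.Agent.PatSturm.Bridge

/-!
A uniformly recurrent aperiodic sequence in the hull.
-/

set_option autoImplicit false

namespace Pool.Agent.PatSturm

variable {x y : ℤ → Bool} {F : Finset ℤ}

/-- translate of a sequence -/
def sh (k : ℤ) (z : ℤ → Bool) : ℤ → Bool := fun m => z (m + k)

lemma sh_continuous (k : ℤ) : Continuous (sh k) := continuous_pi fun m => continuous_apply (m + k)

/-- the sequences that agree with `y` on `[a, b]` -/
def cyl (y : ℤ → Bool) (a b : ℤ) : Set (ℤ → Bool) := {z | ∀ m, a ≤ m → m ≤ b → z m = y m}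

lemma cyl_open (y : ℤ → Bool) (a b : ℤ) : IsOpen (cyl y a b) := by
  have : cyl y a b = ⋂ m ∈ (Set.Icc a b), {z : ℤ → Bool | z m = y m} := by
    ext z
    simp only [cyl, Set.mem_ofPred_eq, Set.mem_iInter, Set.mem_Icc]
    constructor
    · intro h m hm; exact h m hm.1 hm.2
    · intro h m h1 h2; exact h m ⟨h1, h2⟩
  rw [this]
  apply (Set.finite_Icc a b).isOpen_biInter
  intro m _
  have h : {z : ℤ → Bool | z m = y m} = (fun z : ℤ → Bool => z m) ⁻¹' {y m} := rfl
  rw [h]
  exact (isOpen_discrete _).preimage (continuous_apply m)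

/-- every hull contains a uniformly recurrent sequence -/
theorem exists_UR (x : ℤ → Bool) : ∃ y, Hull x y ∧ UR y := by
  classical
  set X : Set (ℤ → Bool) := closure (Set.range fun h : ℤ => sh h x) with hX
  have hXhull : ∀ z ∈ X, Hull x z := by
    intro z hz a b
    rw [hX, mem_closure_iff] at hz
    obtain ⟨w, hw1, ⟨h, rfl⟩⟩ := hz (cyl z a b) (cyl_open z a b) (fun m _ _ => rfl)
    exact ⟨h, fun m h1 h2 => hw1 m h1 h2⟩
  set S : Set (Set (ℤ → Bool)) :=
    {K | IsClosed K ∧ K.Nonempty ∧ K ⊆ X ∧ ∀ k : ℤ, ∀ z ∈ K, sh k z ∈ K} with hS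
  have hXS : X ∈ S := by
    refine ⟨isClosed_closure, ⟨sh 0 x, subset_closure ⟨0, rfl⟩⟩, Set.Subset.refl _, ?_⟩
    intro k z hz
    have h1 : Set.MapsTo (sh k) (Set.range fun h : ℤ => sh h x) (Set.range fun h : ℤ => sh h x) := by
      rintro _ ⟨h, rfl⟩
      refine ⟨k + h, ?_⟩
      funext m
      simp only [sh]
      congr 1; ring
    exact (h1.closure (sh_continuous k)) hz
  obtain ⟨K, hK⟩ : ∃ K, Minimal (· ∈ S) K := by
    apply zorn_superset
    intro c hc hchain
    rcases c.eq_empty_or_nonempty with he | hne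
    · exact ⟨X, hXS, by intro s hs; rw [he] at hs; exact absurd hs (Set.notMem_empty _)⟩
    · refine ⟨⋂₀ c, ⟨?_, ?_, ?_, ?_⟩, fun s hs => Set.sInter_subset_of_mem hs⟩
      · exact isClosed_sInter fun s hs => (hc hs).1
      · have : Nonempty c := hne.to_subtype
        apply IsCompact.nonempty_sInter_of_directed_nonempty_isCompact_isClosed
        · intro s hs t ht
          rcases hchain.total hs ht with h | h
          · exact ⟨s, hs, Set.Subset.refl _, h⟩
          · exact ⟨t, ht, h, Set.Subset.refl _⟩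
        · exact fun s hs => (hc hs).2.1
        · exact fun s hs => (hc hs).1.isCompact
        · exact fun s hs => (hc hs).1
      · obtain ⟨s, hs⟩ := hne
        exact (Set.sInter_subset_of_mem hs).trans (hc hs).2.2.1
      · intro k z hz s hs
        exact (hc hs).2.2.2 k z (hz s hs)
  obtain ⟨hKc, ⟨y, hy⟩, hKX, hKinv⟩ := hK.prop
  refine ⟨y, hXhull y (hKX hy), ?_⟩
  intro a b
  -- the translates of the cylinder cover `K`
  have hcover : K ⊆ ⋃ n : ℤ, sh n ⁻¹' cyl y a b := by
    by_contra hcon
    rw [Set.not_subset] at hcon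
    obtain ⟨z0, hz0, hz0'⟩ := hcon
    have hK' : K \ (⋃ n : ℤ, sh n ⁻¹' cyl y a b) ∈ S := by
      refine ⟨?_, ⟨z0, hz0, hz0'⟩, Set.sdiff_subset.trans hKX, ?_⟩
      · apply hKc.sdiff
        apply isOpen_iUnion
        intro n
        exact (cyl_open y a b).preimage (sh_continuous n)
      · rintro k z ⟨hz1, hz2⟩
        refine ⟨hKinv k z hz1, fun hcon => hz2 ?_⟩
        rw [Set.mem_iUnion] at hcon ⊢
        obtain ⟨n, hn⟩ := hcon
        refine ⟨n + k, ?_⟩
        intro m h1 h2
        have := hn m h1 h2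
        simp only [sh] at this ⊢
        rw [← this]
        congr 1; ring
    have h1 := hK.le_of_le hK' Set.sdiff_subset hy
    apply h1.2
    rw [Set.mem_iUnion]
    refine ⟨0, fun m _ _ => ?_⟩
    simp [sh]
  obtain ⟨t, ht⟩ := hKc.isCompact.elim_finite_subcover _
    (fun n => (cyl_open y a b).preimage (sh_continuous n)) hcover
  obtain ⟨C, hC0, hC⟩ := exists_bounds t
  refine ⟨2 * C + 1, by omega, fun n => ?_⟩
  have h1 := ht (hKinv (n + C) y hy)
  rw [Set.mem_iUnion] at h1
  obtain ⟨i, hi⟩ := h1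
  rw [Set.mem_iUnion] at hi
  obtain ⟨hi1, hi2⟩ := hi
  have := hC i hi1
  refine ⟨i + C, by omega, by omega, fun m h1 h2 => ?_⟩
  have h3 := hi2 m h1 h2
  simp only [sh] at h3
  rw [← h3]
  congr 1; ring

/-- the hull of a recurrent aperiodic sequence of low complexity contains no periodic sequence -/
theorem Hull.aper (h : Hull x y) (hr : Rec x) (hl : Low x) (ha : Aper x) : Aper y := by
  have key : ∀ q : ℤ, 0 < q → ∃ m, y (m + q) ≠ y m := by
    intro q hq
    by_contra hcon
    push Not at hcon
    have hper : ∀ k : ℕ, ∀ m, y (m + k * q) = y m := by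
      intro k
      induction k with
      | zero => intro m; simp
      | succ k ih =>
        intro m
        rw [← ih m, ← hcon (m + k * q)]
        congr 1; push_cast; ring
    have hconst : ∀ r, ConstOn x q r := by
      intro r
      rcases NP hr hl hq r with h1 | ⟨K, hK, h1⟩
      · exact h1
      exfalso
      obtain ⟨g, hg⟩ := h 0 ((K + 1) * q)
      -- first element of the class of `r` in `[g, g + q)`
      set j0 := -((r - g) / q) with hj0
      set s := r + j0 * q - g with hs
      have hs1 : s = (r - g) % q := by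
        have := Int.emod_add_mul_ediv (r - g) q
        rw [hs, hj0]
        linarith [mul_comm q ((r - g) / q)]
      have hs0 : 0 ≤ s := by rw [hs1]; exact Int.emod_nonneg _ hq.ne'
      have hsq : s < q := by rw [hs1]; exact Int.emod_lt_of_pos _ hq
      obtain ⟨k, hk0, hkK, hk⟩ := h1 (!(y s)) j0
      have h2 := hg (s + k * q) (by positivity) (by nlinarith)
      have h3 := hper k.toNat s
      rw [Int.toNat_of_nonneg hk0] at h3
      rw [h3, show s + k * q + g = r + (j0 + k) * q by rw [hs]; ring, hk] at h2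
      revert h2
      cases y s <;> decide
    obtain ⟨m, hm⟩ := ha q hq.ne'
    apply hm
    have := hconst m 1
    rwa [one_mul] at this
  intro q hq
  rcases lt_or_gt_of_ne hq with h1 | h1
  · obtain ⟨m, hm⟩ := key (-q) (by omega)
    exact ⟨m - q, by
      rw [sub_add_cancel]
      intro hc
      exact hm (by rw [← sub_eq_add_neg, ← hc])⟩
  · exact key q h1

theorem exists_hull (hr : Rec x) (hl : Low x) (ha : Aper x) :
    ∃ y, Hull x y ∧ UR y ∧ Low y ∧ Aper y := by
  obtain ⟨y, h1, h2⟩ := exists_UR x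
  exact ⟨y, h1, h2, h1.low hl, h1.aper hr hl ha⟩

end Pool.Agent.PatSturm
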