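import Mathlib
import Pool.Agent.PatSturm.Hull

/-!
Step 6, generic case: a recurrent sequence of low complexity with a generic uniformly recurrent
sequence in its hull has the same language.
-/

set_option autoImplicit false

namespace Pool.Agent.PatSturm

open Pool.Agent.Helper434.PCDefs Pool.Agent.Helper434.PCBasic

variable {x y : ℤ → Bool} {F F' V W : Finset ℤ}

/-- the flips of small `h` do not occur at a fixed non-zero distance -/
def Gen (y : ℤ → Bool) : Prop := ∀ δ : ℤ, δ ≠ 0 → ∃ ε : ℝ, 0 < ε ∧ ∀ h, 0 < dd y h → dd y h < ε →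
  ∀ n ∈ R y h, n + δ ∉ R y h

lemma exists_pos_le {ι : Type*} (s : Finset ι) (f : ι → ℝ) (hf : ∀ i ∈ s, 0 < f i) :
    ∃ ε : ℝ, 0 < ε ∧ ∀ i ∈ s, ε ≤ f i := by
  classical
  induction s using Finset.induction_on with
  | empty => exact ⟨1, one_pos, by simp⟩
  | insert a s ha ih =>
    obtain ⟨ε, h1, h2⟩ := ih fun i hi => hf i (Finset.mem_insert_of_mem hi)
    refine ⟨min ε (f a), lt_min h1 (hf a (Finset.mem_insert_self _ _)), ?_⟩
    intro i hi
    rw [Finset.mem_insert] at hi
    rcases hi with rfl | hi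
    · exact min_le_right _ _
    · exact (min_le_left _ _).trans (h2 i hi)

lemma exists_eps {ι : Type*} (s : Finset ι) (P : ι → ℝ → Prop)
    (hP : ∀ i ∈ s, ∃ ε : ℝ, 0 < ε ∧ ∀ t, t < ε → P i t) :
    ∃ ε : ℝ, 0 < ε ∧ ∀ i ∈ s, ∀ t, t < ε → P i t := by
  choose! e h1 h2 using hP
  obtain ⟨ε, h3, h4⟩ := exists_pos_le s e h1
  exact ⟨ε, h3, fun i hi t ht => h2 i hi t (lt_of_lt_of_le ht (h4 i hi))⟩

/-- small elements can be chosen large -/
lemma small_large (hp : ∀ h, h ≠ 0 → 0 < dd y h)
    (hi : ∀ ε : ℝ, 0 < ε → ∃ h, 0 < dd y h ∧ dd y h < ε) {ε : ℝ} (hε : 0 < ε) (C : ℤ) :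
    ∃ h, C < h ∧ 0 < h ∧ 0 < dd y h ∧ dd y h < ε := by
  obtain ⟨e, he1, he2⟩ := exists_pos_le (Finset.Icc 1 C) (dd y) (fun i hi => hp i (by
    have := (Finset.mem_Icc.mp hi).1
    omega))
  obtain ⟨h, h1, h2⟩ := hi (min ε e) (lt_min hε he1)
  have hh : h ≠ 0 := by
    rintro rfl
    rw [dd_zero] at h1
    exact lt_irrefl _ h1
  have habs : dd y |h| = dd y h := by
    rcases abs_choice h with h' | h' <;> rw [h']
    rw [dd_neg]
  refine ⟨|h|, ?_, abs_pos.mpr hh, by rw [habs]; exact h1, by
    rw [habs]; exact lt_of_lt_of_le h2 (min_le_left _ _)⟩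
  by_contra hcon
  push Not at hcon
  have h3 := he2 |h| (Finset.mem_Icc.mpr ⟨by have := abs_pos.mpr hh; omega, hcon⟩)
  rw [habs] at h3
  have h4 := lt_of_lt_of_le h2 (min_le_right _ _)
  linarith

lemma bddF_sum {ι : Type*} (s : Finset ι) (f : ι → ℤ → ℝ) (hf : ∀ i ∈ s, BddF (f i)) :
    BddF (fun n => ∑ i ∈ s, f i n) := by
  classical
  induction s using Finset.induction_on with
  | empty => exact ⟨0, fun n => by simp⟩
  | insert a s ha ih =>
    have h1 := bddF_add (hf a (Finset.mem_insert_self _ _))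
      (ih fun i hi => hf i (Finset.mem_insert_of_mem hi))
    refine (?_ : BddF _)
    simp only [Finset.sum_insert ha]
    exact h1

lemma mean_sum {ι : Type*} (s : Finset ι) (f : ι → ℤ → ℝ) (hf : ∀ i ∈ s, BddF (f i)) :
    mean (fun n => ∑ i ∈ s, f i n) = ∑ i ∈ s, mean (f i) := by
  classical
  induction s using Finset.induction_on with
  | empty => simp [mean_zero]
  | insert a s ha ih =>
    rw [Finset.sum_insert ha, ← ih fun i hi => hf i (Finset.mem_insert_of_mem hi),
      ← isMean_mean.add _ _ (hf a (Finset.mem_insert_self _ _))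
        (bddF_sum s f fun i hi => hf i (Finset.mem_insert_of_mem hi))]
    congr 1
    ext n
    rw [Finset.sum_insert ha]

/-- a set which is larger than the sum of other sets is not covered by them -/
lemma exists_avoid {ι : Type*} (s : Finset ι) (S : ι → Set ℤ) (A : Set ℤ)
    (h : ∑ i ∈ s, mean (ind (S i)) < mean (ind A)) : ∃ n ∈ A, ∀ i ∈ s, n ∉ S i := by
  classical
  by_contra hcon
  push Not at hcon
  have h1 : mean (ind A) ≤ mean (fun n => ∑ i ∈ s, ind (S i) n) := by
    apply isMean_mean.mono _ _ (ind_bdd _) (bddF_sum _ _ fun i _ => ind_bdd _)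
    intro n
    have hnn : ∀ i, 0 ≤ ind (S i) n := fun i => by unfold ind; split_ifs <;> norm_num
    by_cases hn : n ∈ A
    · obtain ⟨i, hi, hni⟩ := hcon n hn
      rw [ind_of_mem hn]
      calc (1 : ℝ) = ind (S i) n := (ind_of_mem hni).symm
        _ ≤ ∑ i ∈ s, ind (S i) n :=
          Finset.single_le_sum (f := fun i => ind (S i) n) (fun i _ => hnn i) hi
    · rw [ind_of_not_mem hn]
      exact Finset.sum_nonneg fun i _ => hnn i
  rw [mean_sum _ _ fun i _ => ind_bdd _] at h1
  linarith

/-- patterns that occur have positive measure -/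
lemma pos_atom (hu : URec y) (W : Finset ℤ) (t : ℤ) : 0 < mean (ind {n | Eqv y W n t}) := by
  classical
  obtain ⟨G, hG⟩ := hu W t
  have h1 : (1 : ℝ) ≤ mean (fun n => ∑ k ∈ Finset.range G, ind {n | Eqv y W n t} (n + (k : ℤ))) := by
    rw [← isMean_mean.one]
    apply isMean_mean.mono _ _ ⟨1, fun n => by simp⟩
      (bddF_sum _ _ fun k _ => bddF_shift _ (ind_bdd _))
    intro n
    obtain ⟨m, h1, h2, h3⟩ := hG n
    have hk : (m - n).toNat ∈ Finset.range G := by
      rw [Finset.mem_range]; omega
    have h4 : ind {n | Eqv y W n t} (n + ((m - n).toNat : ℤ)) = 1 := by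
      apply ind_of_mem
      rw [Int.toNat_of_nonneg (by omega), show n + (m - n) = m by ring]
      exact h3
    calc (1 : ℝ) = ind {n | Eqv y W n t} (n + ((m - n).toNat : ℤ)) := h4.symm
      _ ≤ _ := Finset.single_le_sum (f := fun k : ℕ => ind {n | Eqv y W n t} (n + (k : ℤ)))
        (fun k _ => by unfold ind; split_ifs <;> norm_num) hk
  rw [mean_sum _ _ fun k _ => bddF_shift _ (ind_bdd _)] at h1
  have h2 : ∀ k ∈ Finset.range G, mean (fun n => ind {n | Eqv y W n t} (n + (k : ℤ))) =
      mean (ind {n | Eqv y W n t}) := fun k _ => isMean_mean.shift _ (ind_bdd _) _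
  rw [Finset.sum_congr rfl h2, Finset.sum_const, Finset.card_range, nsmul_eq_mul] at h1
  by_contra hcon
  push Not at hcon
  have h3 : (G : ℝ) * mean (ind {n | Eqv y W n t}) ≤ 0 :=
    mul_nonpos_of_nonneg_of_nonpos (Nat.cast_nonneg _) hcon
  linarith

/-- four positions, two classes, four patterns on two places -/
lemma gain4 (hF : F ⊆ F') {v w : ℤ} (hv : v ∈ F') (hw : w ∈ F') {n1 n1' n2 n2' : ℤ}
    (e1 : pat y F n1 = pat y F n1') (e2 : pat y F n2 = pat y F n2')
    (a1 : y (n1 + v) = false) (b1 : y (n1 + w) = true)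
    (a1' : y (n1' + v) = false) (b1' : y (n1' + w) = false)
    (a2 : y (n2 + v) = true) (b2 : y (n2 + w) = false)
    (a2' : y (n2' + v) = true) (b2' : y (n2' + w) = true) : p y F + 2 ≤ p y F' := by
  classical
  have g := gain (x := y) hF {n1, n1', n2, n2'}
  have him : ({n1, n1', n2, n2'} : Finset ℤ).image (pat y F) ⊆ {pat y F n1, pat y F n2} := by
    intro S hS
    simp only [Finset.mem_image, Finset.mem_insert, Finset.mem_singleton] at hS ⊢
    obtain ⟨m, hm, rfl⟩ := hS
    rcases hm with rfl | rfl | rfl | rfl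
    · left; rfl
    · left; exact e1.symm
    · right; rfl
    · right; exact e2.symm
  have hcard2 := (Finset.card_le_card him).trans Finset.card_le_two
  have hcard4 : 4 ≤ (({n1, n1', n2, n2'} : Finset ℤ).image (pat y F')).card := by
    have hsub : ({(false, true), (false, false), (true, false), (true, true)} : Finset (Bool × Bool))
        ⊆ (({n1, n1', n2, n2'} : Finset ℤ).image (pat y F')).image
          (fun S => (decide (v ∈ S), decide (w ∈ S))) := by
      intro t ht
      rw [Finset.image_image, Finset.mem_image]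
      have hd : ∀ m i : ℤ, i ∈ F' → decide (i ∈ pat y F' m) = y (m + i) := by
        intro m i hi
        have : i ∈ pat y F' m ↔ y (m + i) = true := by
          rw [mem_pat]; exact ⟨fun h => h.2, fun h => ⟨hi, h⟩⟩
        cases hx : y (m + i)
        · rw [hx] at this
          simpa using this
        · rw [hx] at this
          simpa using this
      have ev : ∀ m, ((fun S => (decide (v ∈ S), decide (w ∈ S))) ∘ (pat y F')) m =
          (y (m + v), y (m + w)) := by
        intro m
        simp only [Function.comp]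
        rw [hd m v hv, hd m w hw]
      simp only [Finset.mem_insert, Finset.mem_singleton] at ht
      rcases ht with rfl | rfl | rfl | rfl
      · exact ⟨n1, by simp, by rw [ev, a1, b1]⟩
      · exact ⟨n1', by simp, by rw [ev, a1', b1']⟩
      · exact ⟨n2, by simp, by rw [ev, a2, b2]⟩
      · exact ⟨n2', by simp, by rw [ev, a2', b2']⟩
    have h5 := Finset.card_le_card hsub
    have h6 : ({(false, true), (false, false), (true, false), (true, true)} :
        Finset (Bool × Bool)).card = 4 := by decide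
    rw [h6] at h5
    exact h5.trans Finset.card_image_le
  omega

/-- adding a translate of `V` by a tiny element to `W` gains `2 |V|` patterns -/
lemma grow (hc : Core y) (hg : Gen y) (hVW : V ⊆ W) (C : ℤ) :
    ∃ h, C < h ∧ 0 < h ∧ p y W + 2 * V.card ≤ p y (W ∪ V.image (fun v => v + h)) := by
  classical
  obtain ⟨T, hT1, hT2, hT3⟩ := exists_reps y W
  -- atoms are large
  obtain ⟨e1, he1, he1'⟩ := exists_pos_le T (fun t => mean (ind {n | Eqv y W n t}))
    (fun t _ => pos_atom hc.urec W t)
  -- no flips at distances of `V`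
  obtain ⟨e2, he2, he2'⟩ : ∃ ε : ℝ, 0 < ε ∧ ∀ h, 0 < dd y h → dd y h < ε →
      ∀ v ∈ V, ∀ u ∈ V, u ≠ v → ∀ n ∈ R y h, n + (u - v) ∉ R y h := by
    have := exists_pos_le ((V ×ˢ V).filter fun q => q.1 ≠ q.2)
      (fun q => if hq : q.2 - q.1 ≠ 0 then (hg (q.2 - q.1) hq).choose else 1) (by
        intro q hq
        rw [Finset.mem_filter] at hq
        have h1 : q.2 - q.1 ≠ 0 := fun h => hq.2 (by omega)
        simp only [h1, ne_eq, not_false_eq_true, dif_pos]
        exact (hg (q.2 - q.1) h1).choose_spec.1)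
    obtain ⟨ε, h1, h2⟩ := this
    refine ⟨ε, h1, fun h hh1 hh2 v hv u hu huv n hn => ?_⟩
    have h3 : u - v ≠ 0 := fun h => huv (by omega)
    have h4 := h2 (v, u) (Finset.mem_filter.mpr ⟨Finset.mem_product.mpr ⟨hv, hu⟩, fun h => huv h.symm⟩)
    simp only [h3, ne_eq, not_false_eq_true, dif_pos] at h4
    exact (hg (u - v) h3).choose_spec.2 h hh1 (lt_of_lt_of_le hh2 h4) n hn
  have hcard : (0 : ℝ) < (V.card : ℝ) + 1 := by positivity
  obtain ⟨h, hC, hh0, hd0, hd⟩ := small_large hc.pos hc.inf
    (show 0 < min e2 (e1 / ((V.card : ℝ) + 1)) from lt_min he2 (div_pos he1 hcard)) C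
  refine ⟨h, hC, hh0, ?_⟩
  have hd2 : dd y h < e2 := lt_of_lt_of_le hd (min_le_left _ _)
  have hd1 : (V.card : ℝ) * dd y h < e1 := by
    have h1 := lt_of_lt_of_le hd (min_le_right _ _)
    rw [lt_div_iff₀ hcard] at h1
    nlinarith
  -- in every atom there is a place without flips
  have hav : ∀ n, ∃ n', Eqv y W n n' ∧ ∀ v ∈ V, n' + v ∉ R y h := by
    intro n
    obtain ⟨t, ht, hnt⟩ := hT3 n
    obtain ⟨n', h1, h2⟩ := exists_avoid V (fun v => {n | n + v ∈ R y h}) {n | Eqv y W n t} (by
      refine lt_of_le_of_lt ?_ (lt_of_lt_of_le hd1 (he1' t ht))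
      rw [← nsmul_eq_mul, ← Finset.sum_const]
      apply Finset.sum_le_sum
      intro v _
      apply le_of_eq
      unfold dd
      rw [← isMean_mean.shift _ (ind_bdd (R y h)) v]
      rfl)
    refine ⟨n', fun i hi => ?_, h2⟩
    rw [hnt i hi, h1 i hi]
  have hnR : ∀ m, m ∉ R y h → y (m + h) = y m := by
    intro m hm
    by_contra hcon
    exact hm (fun he => hcon he.symm)
  obtain ⟨k1, hk1⟩ := R01_nonempty hd0
  obtain ⟨k2, hk2⟩ := R10_nonempty hd0
  have key : ∀ U : Finset ℤ, U ⊆ V → p y W + 2 * U.card ≤ p y (W ∪ U.image (fun v => v + h)) := by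
    intro U
    induction U using Finset.induction_on with
    | empty => intro _; simp
    | insert v U hvU ih =>
      intro hU
      have hUV : U ⊆ V := (Finset.subset_insert _ _).trans hU
      have hvV : v ∈ V := hU (Finset.mem_insert_self _ _)
      have h1 := ih hUV
      obtain ⟨n1', hn1, hn1'⟩ := hav (k1 - v)
      obtain ⟨n2', hn2, hn2'⟩ := hav (k2 - v)
      have hpat : ∀ k n', k ∈ R y h → Eqv y W (k - v) n' → (∀ v ∈ V, n' + v ∉ R y h) →
          pat y (W ∪ U.image (fun v => v + h)) (k - v) =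
            pat y (W ∪ U.image (fun v => v + h)) n' := by
        intro k n' hk hn hn'
        rw [pat_eq_iff]
        intro i hi
        rw [Finset.mem_union, Finset.mem_image] at hi
        rcases hi with hi | ⟨u, hu, rfl⟩
        · exact hn i hi
        · have huv : u ≠ v := fun h => hvU (h ▸ hu)
          have h2 := he2' h hd0 hd2 v hvV u (hUV hu) huv k hk
          have h3 := hnR _ h2
          have h4 := hnR _ (hn' u (hUV hu))
          have h5 := hn u (hVW (hUV hu))
          rw [show k - v + (u + h) = k + (u - v) + h by ring, h3, ← add_assoc, h4, ← h5]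
          congr 1; ring
      have hvW : v ∈ W := hVW hvV
      have g := gain4 (y := y) (F := W ∪ U.image (fun v => v + h))
        (F' := W ∪ (insert v U).image (fun v => v + h)) (by
          apply Finset.union_subset_union_right
          exact Finset.image_subset_image (Finset.subset_insert _ _))
        (v := v) (w := v + h) (Finset.mem_union_left _ hvW)
        (Finset.mem_union_right _ (Finset.mem_image_of_mem _ (Finset.mem_insert_self _ _)))
        (n1 := k1 - v) (n1' := n1') (n2 := k2 - v) (n2' := n2')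
        (hpat k1 n1' (R01_sub y h hk1) hn1 hn1') (hpat k2 n2' (R10_sub y h hk2) hn2 hn2')
        (by rw [sub_add_cancel]; exact hk1.1)
        (by rw [show k1 - v + (v + h) = k1 + h by ring]; exact hk1.2)
        (by rw [← hn1 v hvW, sub_add_cancel]; exact hk1.1)
        (by rw [← add_assoc, hnR _ (hn1' v hvV), ← hn1 v hvW, sub_add_cancel]; exact hk1.1)
        (by rw [sub_add_cancel]; exact hk2.1)
        (by rw [show k2 - v + (v + h) = k2 + h by ring]; exact hk2.2)
        (by rw [← hn2 v hvW, sub_add_cancel]; exact hk2.1)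
        (by rw [← add_assoc, hnR _ (hn2' v hvV), ← hn2 v hvW, sub_add_cancel]; exact hk2.1)
      rw [Finset.card_insert_of_notMem hvU]
      omega
  exact key V (Finset.Subset.refl _)

/-- occurrences of a pattern which is not a pattern of `y`, with a long gap on the left -/
lemma gap_left (hH : Hull x y) (hr : Rec x) {V : Finset ℤ} {m0 : ℤ}
    (hm0 : pat x V m0 ∉ L y V) (G : ℤ) :
    ∃ f, pat x V f = pat x V m0 ∧ ∀ m, f - G ≤ m → m < f → pat x V m ≠ pat x V m0 := by
  classical
  obtain ⟨C, hC0, hC⟩ := exists_bounds V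
  obtain ⟨k, hk⟩ := hH (-C) (|G| + C)
  have hfree : ∀ m, k ≤ m → m ≤ k + |G| → pat x V m ≠ pat x V m0 := by
    intro m h1 h2 h3
    apply hm0
    rw [← h3, mem_L]
    refine ⟨m - k, ?_⟩
    ext i
    simp only [mem_pat]
    constructor
    · rintro ⟨h4, h5⟩
      have := hC i h4
      refine ⟨h4, ?_⟩
      rw [← hk (m - k + i) (by omega) (by omega)] at h5
      rw [← h5]; congr 1; ring
    · rintro ⟨h4, h5⟩
      have := hC i h4
      refine ⟨h4, ?_⟩
      rw [← hk (m - k + i) (by omega) (by omega), ← h5]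
      congr 1; ring
  -- occurrences on the right
  obtain ⟨h, h1, -, -, h2⟩ := AR' hr (m0 - C) (m0 + C) 1 (k - m0) one_pos
  have hex : ∃ j : ℕ, pat x V (k + j) = pat x V m0 := by
    refine ⟨(m0 + h - k).toNat, ?_⟩
    rw [Int.toNat_of_nonneg (by omega), show k + (m0 + h - k) = m0 + h by ring]
    rw [pat_eq_iff]
    intro i hi
    have := hC i hi
    rw [← h2 (m0 + i) (by omega) (by omega)]
    congr 1; ring
  have hs := Nat.find_spec hex
  set j := Nat.find hex with hj
  have hjG : |G| < (j : ℤ) := by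
    by_contra hcon
    push Not at hcon
    exact hfree (k + j) (by omega) (by omega) hs
  refine ⟨k + j, hs, fun m hm1 hm2 h3 => ?_⟩
  have hm3 : k ≤ m := by have := le_abs_self G; omega
  have h4 := Nat.find_min hex (m := (m - k).toNat) (by omega)
  rw [Int.toNat_of_nonneg (by omega), show k + (m - k) = m by ring] at h4
  exact h4 h3

/-- extra patterns of `x` on unions of translates -/
lemma extra (hH : Hull x y) (hr : Rec x) {V : Finset ℤ} {m0 : ℤ}
    (hm0 : pat x V m0 ∉ L y V) (H : Finset ℤ) (hH0 : ∀ h ∈ H, 0 ≤ h) :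
    p y (H.biUnion fun h => V.image (fun v => v + h)) + H.card ≤
      p x (H.biUnion fun h => V.image (fun v => v + h)) := by
  classical
  set U := H.biUnion fun h => V.image (fun v => v + h) with hU
  obtain ⟨C, hC0, hC⟩ := exists_bounds H
  obtain ⟨f, hf1, hf2⟩ := gap_left hH hr hm0 C
  have hmemU : ∀ h ∈ H, ∀ v ∈ V, v + h ∈ U := fun h hh v hv =>
    Finset.mem_biUnion.mpr ⟨h, hh, Finset.mem_image_of_mem _ hv⟩
  have hinj : Set.InjOn (fun h => pat x U (f - h)) (H : Set ℤ) := by
    have aux : ∀ h ∈ H, ∀ h' ∈ H, h < h' → pat x U (f - h) ≠ pat x U (f - h') := by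
      intro h hh h' hh' hlt he
      rw [pat_eq_iff] at he
      have := hC h hh
      have := hC h' hh'
      have := hH0 h hh
      apply hf2 (f - (h' - h)) (by omega) (by omega)
      rw [← hf1, pat_eq_iff]
      intro v hv
      have h3 := he (v + h) (hmemU h hh v hv)
      rw [show f - h + (v + h) = f + v by ring] at h3
      rw [h3]; congr 1; ring
    intro h hh h' hh' he
    rcases lt_trichotomy h h' with h1 | h1 | h1
    · exact absurd he (aux h hh h' hh' h1)
    · exact h1
    · exact absurd he.symm (aux h' hh' h hh h1)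
  have hdisj : Disjoint (L y U) (H.image fun h => pat x U (f - h)) := by
    rw [Finset.disjoint_left]
    intro S hS hS'
    rw [Finset.mem_image] at hS'
    obtain ⟨h, hh, rfl⟩ := hS'
    obtain ⟨n, hn⟩ := mem_L.mp hS
    apply hm0
    rw [← hf1, mem_L]
    refine ⟨n + h, ?_⟩
    ext v
    simp only [mem_pat]
    have key : ∀ v ∈ V, (y (n + h + v) = true ↔ x (f + v) = true) := by
      intro v hv
      have h1 : v + h ∈ pat y U n ↔ v + h ∈ pat x U (f - h) := by rw [hn]
      simp only [mem_pat, hmemU h hh v hv, true_and] at h1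
      rw [show n + (v + h) = n + h + v by ring, show f - h + (v + h) = f + v by ring] at h1
      exact h1
    constructor
    · rintro ⟨h1, h2⟩; exact ⟨h1, (key v h1).mp h2⟩
    · rintro ⟨h1, h2⟩; exact ⟨h1, (key v h1).mpr h2⟩
  have hsub : L y U ∪ H.image (fun h => pat x U (f - h)) ⊆ L x U := by
    apply Finset.union_subset (hH.L_subset U)
    intro S hS
    rw [Finset.mem_image] at hS
    obtain ⟨h, -, rfl⟩ := hS
    exact pat_mem_L _ _ _
  have h1 := Finset.card_le_card hsub
  rw [Finset.card_union_of_disjoint hdisj, Finset.card_image_of_injOn hinj] at h1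
  exact h1

/-- Step 6, generic case -/
theorem lang_of_gen (hc : Core y) (hg : Gen y) (hH : Hull x y) (hr : Rec x) (hl : Low x)
    (V : Finset ℤ) : L x V ⊆ L y V := by
  classical
  intro S hS
  obtain ⟨m0, rfl⟩ := mem_L.mp hS
  by_contra hm0
  have hne : V.Nonempty := by
    rw [Finset.nonempty_iff_ne_empty]
    rintro rfl
    apply hm0
    rw [mem_L]
    exact ⟨0, by simp [pat]⟩
  have key : ∀ k : ℕ, ∃ H : Finset ℤ, 0 ∈ H ∧ (∀ h ∈ H, 0 ≤ h) ∧ H.card = k + 1 ∧
      p y V + 2 * (k * V.card) ≤ p y (H.biUnion fun h => V.image (fun v => v + h)) := by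
    intro k
    induction k with
    | zero =>
      refine ⟨{0}, by simp, by simp, by simp, ?_⟩
      have h9 : ({0} : Finset ℤ).biUnion (fun h => V.image (fun v => v + h)) = V := by
        rw [Finset.singleton_biUnion]
        ext v
        rw [Finset.mem_image]
        constructor
        · rintro ⟨u, hu, rfl⟩
          rwa [add_zero]
        · intro hv
          exact ⟨v, hv, add_zero v⟩
      rw [h9]
      omega
    | succ k ih =>
      obtain ⟨H, h0, h1, h2, h3⟩ := ih
      set W := H.biUnion fun h => V.image (fun v => v + h) with hW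
      have hVW : V ⊆ W := by
        intro v hv
        rw [hW, Finset.mem_biUnion]
        exact ⟨0, h0, Finset.mem_image.mpr ⟨v, hv, by ring⟩⟩
      obtain ⟨C, -, hC⟩ := exists_bounds H
      obtain ⟨h, hh1, hh2, hh3⟩ := grow hc hg hVW C
      have hnot : h ∉ H := fun hm => by
        have := hC h hm
        omega
      refine ⟨insert h H, Finset.mem_insert_of_mem h0, ?_, ?_, ?_⟩
      · intro h' hh'
        rw [Finset.mem_insert] at hh'
        rcases hh' with rfl | hh'
        · exact hh2.le
        · exact h1 h' hh'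
      · rw [Finset.card_insert_of_notMem hnot, h2]
      · rw [Finset.biUnion_insert, Finset.union_comm, ← hW]
        have : 2 * ((k + 1) * V.card) = 2 * (k * V.card) + 2 * V.card := by ring
        omega
  obtain ⟨H, h0, h1, h2, h3⟩ := key (2 * V.card)
  have h4 := extra hH hr hm0 H h1
  set W := H.biUnion fun h => V.image (fun v => v + h) with hW
  have hWne : W.Nonempty := by
    obtain ⟨v, hv⟩ := hne
    exact ⟨v, Finset.mem_biUnion.mpr ⟨0, h0, Finset.mem_image.mpr ⟨v, hv, by ring⟩⟩⟩
  have h5 := hl W hWne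
  have h6 : W.card ≤ (2 * V.card + 1) * V.card := by
    rw [hW, ← h2]
    refine Finset.card_biUnion_le.trans ?_
    rw [← smul_eq_mul, ← Finset.sum_const]
    exact Finset.sum_le_sum fun h _ => Finset.card_image_le
  have h7 : 2 * W.card ≤ 2 * ((2 * V.card + 1) * V.card) := by omega
  have h8 : 2 * ((2 * V.card + 1) * V.card) = 2 * (2 * V.card * V.card) + 2 * V.card := by ring
  omega

/-- a sequence with the language of a uniformly recurrent sequence is uniformly recurrent -/
theorem UR.of_L (hu : UR y) (h1 : ∀ F, L x F ⊆ L y F) : UR x := by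
  intro a b
  obtain ⟨m, hm⟩ := mem_L.mp (h1 (Finset.Icc a b) (pat_mem_L x (Finset.Icc a b) 0))
  have hm' : ∀ i, a ≤ i → i ≤ b → y (m + i) = x i := by
    intro i h2 h3
    have h4 : i ∈ pat y (Finset.Icc a b) m ↔ i ∈ pat x (Finset.Icc a b) 0 := by rw [hm]
    simp only [mem_pat, Finset.mem_Icc, h2, h3, and_self, true_and, zero_add] at h4
    cases hx : x i <;> cases hy : y (m + i) <;> simp_all
  obtain ⟨K, hK, hK'⟩ := hu (a + m) (b + m)
  refine ⟨K, hK, fun n => ?_⟩
  obtain ⟨n', hn'⟩ := mem_L.mp (h1 (Finset.Icc a (b + K)) (pat_mem_L x (Finset.Icc a (b + K)) n))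
  have hn'' : ∀ i, a ≤ i → i ≤ b + K → y (n' + i) = x (n + i) := by
    intro i h2 h3
    have h4 : i ∈ pat y (Finset.Icc a (b + K)) n' ↔ i ∈ pat x (Finset.Icc a (b + K)) n := by
      rw [hn']
    simp only [mem_pat, Finset.mem_Icc, h2, h3, and_self, true_and] at h4
    cases hx : x (n + i) <;> cases hy : y (n' + i) <;> simp_all
  obtain ⟨k, hk0, hkK, hk⟩ := hK' (n' - m)
  refine ⟨k, hk0, hkK, fun i hi1 hi2 => ?_⟩
  have h5 := hk (i + m) (by omega) (by omega)
  have h6 := hn'' (i + k) (by omega) (by omega)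
  have h7 := hm' i hi1 hi2
  rw [show i + (n + k) = n + (i + k) by ring, ← h6, ← h7, show m + i = i + m by ring, ← h5]
  congr 1; ring

end Pool.Agent.PatSturm
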