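import Mathlib
import Pool.Agent.PatSturm.Step6
import Pool.Agent.PatSturm.G1
import Pool.Agent.PatSturm.G2
import Pool.Agent.PatSturm.G3
import Pool.Agent.PatSturm.Step5B
import Pool.Agent.Helper434.PCRotD
import Pool.Agent.Helper434.PCCore
import Pool.Agent.Helper434.PCSpec3

set_option autoImplicit false

namespace Pool.Agent.PatSturm

open Pool.Agent.Helper434.PCDefs Pool.Agent.Helper434.PCBasic Pool.Agent.Helper434.PCRotA

variable {x y : ℤ → Bool}

lemma twoPoints_of_not (h : ¬ OnePt y) : TwoPoints y := by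
  unfold OnePt at h
  push Not at h
  exact h

lemma gen_of_one (hc : Core y) (h1 : OnePt y) : Gen y := by
  intro δ hδ
  have hd := hc.pos δ hδ
  obtain ⟨ε, hε, c, h⟩ := h1 (dd y δ / 2) (by linarith)
  refine ⟨ε, hε, fun h' h1 h2 n hn hn' => ?_⟩
  have h3 := h h' h1 h2 n hn
  have h4 := h h' h1 h2 _ hn'
  have h5 := dd_tri y (n + δ) c n
  rw [show n + δ - n = δ by ring, dd_comm y c n] at h5
  linarith

/-- the structure theorem -/
theorem main (hr : Rec x) (hl : Low x) (ha : Aper x) :
    (∃ α β θ : ℝ, Irrational α ∧ 0 < β ∧ β < 1 ∧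
      ∀ n : ℤ, x n = true ↔ Int.fract (n * α + θ) < β) ∨ ToepForm x := by
  obtain ⟨y, hH, hu, hly, hay⟩ := exists_hull hr hl ha
  have hcy : Core y := Pool.Agent.Helper434.PCCore.core_of_UR hu.urec hly.bdd hay
  have hux : UR x := by
    by_cases h1 : OnePt y
    · exact hu.of_L (lang_of_gen hcy (gen_of_one hcy h1) hH hr hl)
    · exact hu.of_L (lang_of_two hcy h1 hH hr hl)
  have hcx : Core x := Pool.Agent.Helper434.PCCore.core_of_UR hux.urec hl.bdd ha
  by_cases h2 : OnePt x
  · right
    obtain ⟨g, hg⟩ := germ_of_core hcx h2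
    exact step5B hl hr ha (step5A_of hg fun N hN => step_cd hg hN)
  · left
    exact Pool.Agent.Helper434.PCRotD.rot hcx (twoPoints_of_not h2)

end Pool.Agent.PatSturm
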