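import Mathlib

/-!
Definitions for the classification of the recurrent pattern Sturmian sequences, single-sided and
double-sided.
-/

set_option autoImplicit false

namespace Pool.Agent.PatSturm.Statement

/-! ### Double-sided sequences -/

/-- The pattern complexity `p^*(n)` of a double-sided sequence: the supremum, over all
`0 = τ(0) < τ(1) < ... < τ(n-1)`, of the number of patterns `x_{m+τ(0)} ... x_{m+τ(n-1)}`,
`m ∈ ℤ`. -/
noncomputable def patternComplexity {A : Type} (x : ℤ → A) (n : ℕ) : ℕ∞ :=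
  ⨆ τ : {τ : Fin n → ℕ // StrictMono τ ∧ ∀ h : 0 < n, τ ⟨0, h⟩ = 0},
    (Set.range fun m : ℤ => fun i : Fin n => x (m + τ.1 i)).encard

/-- Every finite block of the double-sided sequence `x` occurs infinitely often. -/
def Recurrent {A : Type} (x : ℤ → A) : Prop :=
  ∀ (a : ℤ) (n : ℕ), {m : ℤ | ∀ i : ℕ, i < n → x (m + i) = x (a + i)}.Infinite

/-- `p^*(n) = 2 n` for all `n ≥ 1`. -/
def PatternSturmian {A : Type} (x : ℤ → A) : Prop :=
  ∀ n : ℕ, 1 ≤ n → patternComplexity x n = 2 * n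

/-! ### Single-sided sequences `(x_m)_{m ≥ 1}` (the value `x 0` is never used) -/

/-- The pattern complexity of a single-sided sequence: `m` ranges over the positive integers. -/
noncomputable def patternComplexity₁ {A : Type} (x : ℕ → A) (n : ℕ) : ℕ∞ :=
  ⨆ τ : {τ : Fin n → ℕ // StrictMono τ ∧ ∀ h : 0 < n, τ ⟨0, h⟩ = 0},
    (Set.range fun m : {m : ℕ // 1 ≤ m} => fun i : Fin n => x (m + τ.1 i)).encard

/-- Every finite block of the single-sided sequence `x` occurs infinitely often. -/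
def Recurrent₁ {A : Type} (x : ℕ → A) : Prop :=
  ∀ a : ℕ, 1 ≤ a → ∀ n : ℕ, {m : ℕ | 1 ≤ m ∧ ∀ i : ℕ, i < n → x (m + i) = x (a + i)}.Infinite

/-- `p^*(n) = 2 n` for all `n ≥ 1`. -/
def PatternSturmian₁ {A : Type} (x : ℕ → A) : Prop :=
  ∀ n : ℕ, 1 ≤ n → patternComplexity₁ x n = 2 * n

/-! ### The explicit class -/

/-- Coding of an irrational rotation by an interval: `X_n = 1` iff `n α + θ` modulo 1 lies in
`[0, β)`. (The codings by `(0, β]` are included: replace `α` by `-α` and `θ` by `β - θ`.) -/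
def IntervalCoding (X : ℤ → Bool) : Prop :=
  ∃ α β θ : ℝ, Irrational α ∧ 0 < β ∧ β < 1 ∧
    ∀ n : ℤ, X n = true ↔ Int.fract (n * α + θ) < β

/-- Arc-Toeplitz sequences. There are moduli `N_0 | N_1 | N_2 | ...`, `1 ≤ N_0 < N_1 < ...`, nested
classes `r_{k+1} ≡ r_k mod N_k` and colours `c_k`, both colours occurring infinitely often. Outside
the class `r_0 mod N_0` the sequence is `N_0`-periodic and equal to `1` exactly on the classes
`r_0 + u, r_0 + 2 u, ..., r_0 + a u` modulo `N_0`, where `u` is a unit modulo `N_0` and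
`0 ≤ a < N_0`. On the class `r_k mod N_k` minus the class `r_{k+1} mod N_{k+1}` it is equal to the
constant `c_k`. (There is at most one integer in all the classes `r_k mod N_k`; the letter there is
arbitrary.) -/
def ArcToeplitz (X : ℤ → Bool) : Prop :=
  ∃ (N : ℕ → ℤ) (r : ℕ → ℤ) (c : ℕ → Bool) (u a : ℤ),
    1 ≤ N 0 ∧ (∀ k, N k < N (k + 1)) ∧ (∀ k, N k ∣ N (k + 1)) ∧ (∀ k, N k ∣ r (k + 1) - r k) ∧
    (∀ K, ∃ k, K ≤ k ∧ c k = true) ∧ (∀ K, ∃ k, K ≤ k ∧ c k = false) ∧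
    IsCoprime u (N 0) ∧ 0 ≤ a ∧ a < N 0 ∧
    (∀ n, ¬ N 0 ∣ n - r 0 → (X n = true ↔ ∃ i, 1 ≤ i ∧ i ≤ a ∧ N 0 ∣ n - (r 0 + u * i))) ∧
    ∀ k n, N k ∣ n - r k → ¬ N (k + 1) ∣ n - r (k + 1) → X n = c k

end Pool.Agent.PatSturm.Statement
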