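import Mathlib
import Pool.Agent.Helper434.PCFin
import Pool.Agent.PatSturm.Main
import Pool.Agent.PatSturm.Statement

/-!
Classification of the recurrent pattern Sturmian sequences, single-sided and double-sided:
end of the proof.
-/

set_option autoImplicit false

namespace Pool.Agent.PatSturm.Final

open Pool.Agent.PatSturm.Statement

/-! ### Proof -/

open Pool.Agent.Helper434 Pool.Agent.Helper434.PCDefs Pool.Agent.Helper434.PCCore
  Pool.Agent.Helper434.PCFin

lemma td_of {X : ℤ → Bool} (h : ArcToeplitz X) : ∃ N r c u a, PCToep.TD X N r c u a := by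
  obtain ⟨N, r, c, u, a, h1, h2, h3, h4, h5, h6, h7, h8, h9, h10, h11⟩ := h
  exact ⟨N, r, c, u, a, h1, h3, h2, h4, h5, h6, h7, h8, h9, h10, h11⟩

/-- the class is closed under reflection -/
lemma reflect {X : ℤ → Bool} (h : IntervalCoding (fun n => X (-n)) ∨ ArcToeplitz (fun n => X (-n))) :
    IntervalCoding X ∨ ArcToeplitz X := by
  rcases h with ⟨α, β, θ, h1, h2, h3, h4⟩ | ⟨N, r, c, u, a, h1, h2, h3, h4, h5, h6, h7, h8, h9, h10, h11⟩
  · refine Or.inl ⟨-α, β, θ, h1.neg, h2, h3, fun n => ?_⟩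
    have := h4 (-n)
    simp only [neg_neg] at this
    rw [this]
    push_cast
    rw [neg_mul, mul_neg]
  · refine Or.inr ⟨N, fun k => -r k, c, -u, a, h1, h2, h3, fun k => ?_, h5, h6, h7.neg_left, h8, h9,
      fun n hn => ?_, fun k n hn hn' => ?_⟩
    · have := (dvd_neg (a := N k)).mpr (h4 k)
      rwa [show -(r (k + 1) - r k) = -r (k + 1) - -r k by ring] at this
    · have e : ¬ N 0 ∣ -n - r 0 := by
        intro h
        apply hn
        have := (dvd_neg (a := N 0)).mpr h
        rwa [show -(-n - r 0) = n - -r 0 by ring] at this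
      have := h10 (-n) e
      simp only [neg_neg] at this
      rw [this]
      constructor
      · rintro ⟨i, p, q, s⟩
        refine ⟨i, p, q, ?_⟩
        have := (dvd_neg (a := N 0)).mpr s
        rwa [show -(-n - (r 0 + u * i)) = n - (-r 0 + -u * i) by ring] at this
      · rintro ⟨i, p, q, s⟩
        refine ⟨i, p, q, ?_⟩
        have := (dvd_neg (a := N 0)).mpr s
        rwa [show -(n - (-r 0 + -u * i)) = -n - (r 0 + u * i) by ring] at this
    · have := h11 k (-n) (by
        have := (dvd_neg (a := N k)).mpr hn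
        rwa [show -(n - -r k) = -n - r k by ring] at this) (by
        intro h
        apply hn'
        have := (dvd_neg (a := N (k + 1))).mpr h
        rwa [show -(-n - r (k + 1)) = n - -r (k + 1) by ring] at this)
      simp only [neg_neg] at this
      exact this

lemma class_recR {X : ℤ → Bool} (h : IntervalCoding X ∨ ArcToeplitz X) : RecR X := by
  rcases h with ⟨α, β, θ, h1, h2, h3, h4⟩ | h
  · exact PCRotIf.recR h4 h1 h2 h3
  · obtain ⟨N, r, c, u, a, h⟩ := td_of h
    exact PCToep.recR h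

lemma class_bdd {X : ℤ → Bool} (h : IntervalCoding X ∨ ArcToeplitz X) : Bdd X := by
  rcases h with ⟨α, β, θ, h1, h2, h3, h4⟩ | h
  · exact PCRotIf.bdd h4 h2 h3
  · obtain ⟨N, r, c, u, a, h⟩ := td_of h
    exact PCToep.bdd h

lemma class_full {X : ℤ → Bool} (h : IntervalCoding X ∨ ArcToeplitz X) (n : ℕ) :
    ∃ V T : Finset ℤ, V.card = n + 1 ∧ (0 : ℤ) ∈ V ∧
    (∀ v ∈ V, 0 ≤ v) ∧ Indep X V T ∧ T.card = 2 * (n + 1) := by
  rcases h with ⟨α, β, θ, h1, h2, h3, h4⟩ | h
  · exact PCRotIf.full h4 h1 h2 h3 n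
  · obtain ⟨N, r, c, u, a, h⟩ := td_of h
    exact PCToep.full h n

lemma class_window {X : ℤ → Bool} (h : IntervalCoding X ∨ ArcToeplitz X) {n : ℕ} (hn : 1 ≤ n) :
    ∃ (V T : Finset ℤ) (τ : Fin n → ℕ), StrictMono τ ∧ (∀ h : 0 < n, τ ⟨0, h⟩ = 0) ∧
      (∀ v, v ∈ V → ∃ i, v = 0 + (τ i : ℤ)) ∧ Indep X V T ∧ T.card = 2 * n := by
  obtain ⟨V, T, h1, h2, h3, h4, h5⟩ := class_full h (n - 1)
  obtain ⟨f₀, τ, hf₀, g1, g2, g3⟩ := window V (n := n) (by omega) hn
  have hf : f₀ = 0 := by
    obtain ⟨i, hi⟩ := (g3 0).mp h2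
    have := h3 f₀ hf₀
    omega
  subst hf
  exact ⟨V, T, τ, g1, g2, fun v hv => (g3 v).mp hv, h4, by rw [h5]; omega⟩

theorem pc_two {X : ℤ → Bool} (h : IntervalCoding X ∨ ArcToeplitz X) : PatternSturmian X := by
  intro n hn
  unfold patternComplexity
  apply le_antisymm
  · apply iSup_le
    intro τ
    exact encard_le (class_bdd h) hn (fun m : ℤ => m) τ.1
  · obtain ⟨V, T, τ, h1, h2, h3, h4, h5⟩ := class_window h hn
    have h6 := le_encard h3 h4 (fun m : ℤ => m) (fun t _ => ⟨t, fun i => by rw [zero_add]⟩)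
    rw [h5] at h6
    push_cast at h6
    exact h6.trans (le_iSup (fun τ : {τ : Fin n → ℕ // StrictMono τ ∧
      ∀ h : 0 < n, τ ⟨0, h⟩ = 0} => (Set.range fun m : ℤ => fun i : Fin n => X (m + τ.1 i)).encard)
      ⟨τ, h1, h2⟩)

theorem pc_one {Y : ℤ → Bool} (h : IntervalCoding Y ∨ ArcToeplitz Y) {X : ℕ → Bool}
    (hXY : ∀ m : ℕ, 1 ≤ m → X m = Y m) : PatternSturmian₁ X := by
  have e : ∀ {n : ℕ} (τ : Fin n → ℕ),
      (fun m : {m : ℕ // 1 ≤ m} => fun i : Fin n => X (m + τ i)) =
      fun m : {m : ℕ // 1 ≤ m} => fun i : Fin n => Y (((m : ℕ) : ℤ) + τ i) := by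
    intro n τ
    ext m i
    rw [hXY _ (m.2.trans (Nat.le_add_right _ _))]
    push_cast
    rfl
  intro n hn
  unfold patternComplexity₁
  have : Nonempty {m : ℕ // 1 ≤ m} := ⟨⟨1, le_rfl⟩⟩
  apply le_antisymm
  · apply iSup_le
    intro τ
    rw [e]
    exact encard_le (class_bdd h) hn (fun m : {m : ℕ // 1 ≤ m} => ((m : ℕ) : ℤ)) τ.1
  · obtain ⟨V, T, τ, h1, h2, h3, h4, h5⟩ := class_window h hn
    have h6 := le_encard h3 h4 (fun m : {m : ℕ // 1 ≤ m} => ((m : ℕ) : ℤ)) (fun t _ => by
      obtain ⟨t', ht', hE⟩ := class_recR h (Finset.univ.image fun i => (τ i : ℤ)) t 0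
      refine ⟨⟨t'.toNat, by omega⟩, fun i => ?_⟩
      have h7 := hE (τ i) (Finset.mem_image_of_mem _ (Finset.mem_univ i))
      show Y ((t'.toNat : ℤ) + τ i) = _
      rw [Int.toNat_of_nonneg (by omega), zero_add]
      exact h7)
    rw [h5, ← e] at h6
    push_cast at h6
    exact h6.trans (le_iSup (fun τ : {τ : Fin n → ℕ // StrictMono τ ∧
      ∀ h : 0 < n, τ ⟨0, h⟩ = 0} => (Set.range fun m : {m : ℕ // 1 ≤ m} =>
      fun i : Fin n => X (m + τ.1 i)).encard) ⟨τ, h1, h2⟩)

theorem rec_one {Y : ℤ → Bool} (h : RecR Y) {X : ℕ → Bool}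
    (hXY : ∀ m : ℕ, 1 ≤ m → X m = Y m) : Recurrent₁ X := by
  intro a ha n
  apply Set.infinite_of_not_bddAbove
  rw [not_bddAbove_iff]
  intro N
  obtain ⟨m', h1, h2⟩ := h ((Finset.range n).image fun i : ℕ => (i : ℤ)) a N
  refine ⟨m'.toNat, ⟨by omega, fun i hi => ?_⟩, by omega⟩
  have h3 := h2 i (Finset.mem_image_of_mem _ (Finset.mem_range.mpr hi))
  rw [hXY _ (by omega), hXY _ (by omega)]
  push_cast
  rw [Int.toNat_of_nonneg (by omega)]
  exact h3

/-- low complexity of periodic sequences -/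
lemma aper_two {X : ℤ → Bool} (h : PatternSturmian X) (q : ℤ) (hq : q ≠ 0) :
    ∃ m, X (m + q) ≠ X m := by
  by_contra hcon
  push Not at hcon
  have hn : 1 ≤ q.natAbs := Int.natAbs_pos.mpr hq
  have h1 := h q.natAbs hn
  have h2 : patternComplexity X q.natAbs ≤ (q.natAbs : ℕ∞) := by
    unfold patternComplexity
    apply iSup_le
    intro τ
    exact periodic_encard hq hcon (fun m : ℤ => m) τ.1
  rw [h1] at h2
  have h3 : 2 * q.natAbs ≤ q.natAbs := by exact_mod_cast h2
  omega

lemma aper_one {Y : ℤ → Bool} {X : ℕ → Bool} (hXY : ∀ m : ℕ, 1 ≤ m → X m = Y m)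
    (h : PatternSturmian₁ X) (q : ℤ) (hq : q ≠ 0) : ∃ m, Y (m + q) ≠ Y m := by
  by_contra hcon
  push Not at hcon
  have hn : 1 ≤ q.natAbs := Int.natAbs_pos.mpr hq
  have h1 := h q.natAbs hn
  have h2 : patternComplexity₁ X q.natAbs ≤ (q.natAbs : ℕ∞) := by
    unfold patternComplexity₁
    apply iSup_le
    intro τ
    have e : (fun m : {m : ℕ // 1 ≤ m} => fun i : Fin q.natAbs => X (m + τ.1 i)) =
        fun m : {m : ℕ // 1 ≤ m} => fun i : Fin q.natAbs => Y (((m : ℕ) : ℤ) + τ.1 i) := by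
      ext m i
      rw [hXY _ (m.2.trans (Nat.le_add_right _ _))]
      push_cast
      rfl
    rw [e]
    exact periodic_encard hq hcon (fun m : {m : ℕ // 1 ≤ m} => ((m : ℕ) : ℤ)) τ.1
  rw [h1] at h2
  have h3 : 2 * q.natAbs ≤ q.natAbs := by exact_mod_cast h2
  omega

/-- the structure theorem -/
def Main : Prop := ∀ X : ℤ → Bool, RecR X → Bdd X → (∀ q : ℤ, q ≠ 0 → ∃ m, X (m + q) ≠ X m) →
  IntervalCoding X ∨ ArcToeplitz X

theorem bool_two (main : Main) (X : ℤ → Bool) :
    (Recurrent X ∧ PatternSturmian X) ↔ IntervalCoding X ∨ ArcToeplitz X := by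
  constructor
  · rintro ⟨hr, hp⟩
    have hb : Bdd X := PCFin.bdd_of_encard fun n hn τ h1 h2 => by
      rw [← hp n hn]
      exact le_iSup (fun τ : {τ : Fin n → ℕ // StrictMono τ ∧
        ∀ h : 0 < n, τ ⟨0, h⟩ = 0} => (Set.range fun m : ℤ => fun i : Fin n =>
          X (m + τ.1 i)).encard) ⟨τ, h1, h2⟩
    have ha := aper_two hp
    rcases recR_or hr with h | h
    · exact main X h hb ha
    · apply reflect
      apply main _ h (bdd_neg hb)
      intro q hq
      obtain ⟨m, hm⟩ := ha (-q) (neg_ne_zero.mpr hq)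
      refine ⟨-m, ?_⟩
      show X (-(-m + q)) ≠ X (- -m)
      rw [show -(-m + q) = m + -q by ring, neg_neg]
      exact hm
  · intro h
    exact ⟨fun a n => infinite_of_recR (class_recR h) a n, pc_two h⟩

theorem bool_one (main : Main) (X : ℕ → Bool) :
    (Recurrent₁ X ∧ PatternSturmian₁ X) ↔
      ∃ Y : ℤ → Bool, (IntervalCoding Y ∨ ArcToeplitz Y) ∧ ∀ m : ℕ, 1 ≤ m → X m = Y m := by
  constructor
  · rintro ⟨hr, hp⟩
    obtain ⟨Y, hXY, hG⟩ := exists_ext X hr
    refine ⟨Y, main Y (ext_recR hr hXY hG) (ext_bdd hXY hG fun n hn τ h1 h2 => ?_)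
      (aper_one hXY hp), hXY⟩
    have e : (fun m : {m : ℕ // 1 ≤ m} => fun i : Fin n => X (m + τ i)) =
        fun m : {m : ℕ // 1 ≤ m} => fun i : Fin n => Y (((m : ℕ) : ℤ) + τ i) := by
      ext m i
      rw [hXY _ (m.2.trans (Nat.le_add_right _ _))]
      push_cast
      rfl
    rw [← e, ← hp n hn]
    exact le_iSup (fun τ : {τ : Fin n → ℕ // StrictMono τ ∧
        ∀ h : 0 < n, τ ⟨0, h⟩ = 0} => (Set.range fun m : {m : ℕ // 1 ≤ m} => fun i : Fin n =>
          X (m + τ.1 i)).encard) ⟨τ, h1, h2⟩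
  · rintro ⟨Y, h, hXY⟩
    exact ⟨rec_one (class_recR h) hXY, pc_one h hXY⟩

/-! ### General alphabets -/

lemma lett_inj {A : Type} {p q : A} (hpq : p ≠ q) :
    Function.Injective fun b : Bool => if b = true then p else q := by
  intro b b' h
  cases b <;> cases b' <;> simp_all

lemma two_letters {I A : Type} {x : I → A}
    (h : (Set.range fun m : I => fun _ : Fin 1 => x m).encard = 2) :
    ∃ p q : A, p ≠ q ∧ ∀ m, x m = p ∨ x m = q := by
  obtain ⟨f, g, hfg, h1⟩ := Set.encard_eq_two.mp h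
  refine ⟨f 0, g 0, fun h => hfg (funext fun i => by rw [Subsingleton.elim i 0]; exact h),
    fun m => ?_⟩
  have h2 : (fun _ : Fin 1 => x m) ∈ ({f, g} : Set (Fin 1 → A)) := by rw [← h1]; exact ⟨m, rfl⟩
  rcases h2 with h2 | h2
  · left; exact congrFun h2 0
  · right; exact congrFun h2 0

lemma lett_encard {I A : Type} {n : ℕ} {p q : A} (hpq : p ≠ q) (f : I → Fin n → Bool) :
    (Set.range fun m : I => fun i : Fin n => if f m i = true then p else q).encard =
      (Set.range f).encard := by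
  have h1 : Function.Injective fun (w : Fin n → Bool) (i : Fin n) =>
      if w i = true then p else q := by
    intro w w' h
    ext i
    rw [lett_inj hpq (congrFun h i)]
  rw [← h1.encard_image, ← Set.range_comp]
  rfl

lemma rec_two_iff {A : Type} {p q : A} (hpq : p ≠ q) {x : ℤ → A} {X : ℤ → Bool}
    (h : ∀ n, x n = if X n = true then p else q) : Recurrent x ↔ Recurrent X := by
  unfold Recurrent
  have e : ∀ a b : ℤ, x a = x b ↔ X a = X b := fun a b => by
    rw [h, h]; exact (lett_inj hpq).eq_iff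
  simp only [e]

lemma rec_one_iff {A : Type} {p q : A} (hpq : p ≠ q) {x : ℕ → A} {X : ℕ → Bool}
    (h : ∀ n, 1 ≤ n → x n = if X n = true then p else q) : Recurrent₁ x ↔ Recurrent₁ X := by
  have e : ∀ a b : ℕ, 1 ≤ a → 1 ≤ b → (x a = x b ↔ X a = X b) := fun a b ha hb => by
    rw [h a ha, h b hb]; exact (lett_inj hpq).eq_iff
  have e2 : ∀ a : ℕ, 1 ≤ a → ∀ n : ℕ,
      {m : ℕ | 1 ≤ m ∧ ∀ i : ℕ, i < n → x (m + i) = x (a + i)} =
      {m : ℕ | 1 ≤ m ∧ ∀ i : ℕ, i < n → X (m + i) = X (a + i)} := by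
    intro a ha n
    ext m
    constructor
    · rintro ⟨h1, h2⟩
      exact ⟨h1, fun i hi => (e _ _ (by omega) (by omega)).mp (h2 i hi)⟩
    · rintro ⟨h1, h2⟩
      exact ⟨h1, fun i hi => (e _ _ (by omega) (by omega)).mpr (h2 i hi)⟩
  constructor
  · intro h a ha n
    rw [← e2 a ha]; exact h a ha n
  · intro h a ha n
    rw [e2 a ha]; exact h a ha n

lemma pc_two_eq {A : Type} {p q : A} (hpq : p ≠ q) {x : ℤ → A} {X : ℤ → Bool}
    (h : ∀ n, x n = if X n = true then p else q) (n : ℕ) :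
    patternComplexity x n = patternComplexity X n := by
  unfold patternComplexity
  congr 1
  ext τ
  rw [← lett_encard hpq]
  simp only [h]

lemma pc_one_eq {A : Type} {p q : A} (hpq : p ≠ q) {x : ℕ → A} {X : ℕ → Bool}
    (h : ∀ n, 1 ≤ n → x n = if X n = true then p else q) (n : ℕ) :
    patternComplexity₁ x n = patternComplexity₁ X n := by
  unfold patternComplexity₁
  congr 1
  ext τ
  rw [← lett_encard hpq]
  have e : (fun m : {m : ℕ // 1 ≤ m} => fun i : Fin n => x (m + τ.1 i)) =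
      fun m : {m : ℕ // 1 ≤ m} => fun i : Fin n => if X (m + τ.1 i) = true then p else q := by
    ext m i
    exact h _ (m.2.trans (Nat.le_add_right _ _))
  rw [e]

theorem full_result (main : Main) :
    (∀ {A : Type} (x : ℤ → A), (Recurrent x ∧ PatternSturmian x) ↔
      ∃ (p q : A) (X : ℤ → Bool), p ≠ q ∧ (IntervalCoding X ∨ ArcToeplitz X) ∧
        ∀ m : ℤ, x m = if X m = true then p else q) ∧
    (∀ {A : Type} (x : ℕ → A), (Recurrent₁ x ∧ PatternSturmian₁ x) ↔
      ∃ (p q : A) (X : ℤ → Bool), p ≠ q ∧ (IntervalCoding X ∨ ArcToeplitz X) ∧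
        ∀ m : ℕ, 1 ≤ m → x m = if X m = true then p else q) := by
  classical
  constructor
  · intro A x
    constructor
    · rintro ⟨hr, hp⟩
      have h1 := hp 1 le_rfl
      obtain ⟨p, q, hpq, hx⟩ := two_letters (x := x) (by
        have h2 : (Set.range fun m : ℤ => fun i : Fin 1 => x m).encard = patternComplexity x 1 := by
          unfold patternComplexity
          apply le_antisymm
          · refine le_trans ?_ (le_iSup (fun τ : {τ : Fin 1 → ℕ // StrictMono τ ∧
              ∀ h : 0 < 1, τ ⟨0, h⟩ = 0} => (Set.range fun m : ℤ => fun i : Fin 1 =>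
                x (m + τ.1 i)).encard) ⟨fun _ => 0, Subsingleton.strictMono _, fun _ => rfl⟩)
            simp
          · apply iSup_le
            rintro ⟨τ, h3, h4⟩
            have : ∀ i, τ i = 0 := fun i => by
              rw [Subsingleton.elim i ⟨0, one_pos⟩]; exact h4 one_pos
            simp [this]
        rw [h2, h1]; simp)
      refine ⟨p, q, fun m => decide (x m = p), hpq, ?_, fun m => ?_⟩
      · have hX : ∀ n, x n = if decide (x n = p) = true then p else q := by
          intro n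
          by_cases h : x n = p
          · simp [h]
          · rcases hx n with h2 | h2
            · exact absurd h2 h
            · simp [h2, hpq.symm]
        rw [← bool_two main]
        exact ⟨(rec_two_iff hpq hX).mp hr, fun n hn => by rw [← pc_two_eq hpq hX]; exact hp n hn⟩
      · by_cases h : x m = p
        · simp [h]
        · rcases hx m with h2 | h2
          · exact absurd h2 h
          · simp [h2, hpq.symm]
    · rintro ⟨p, q, X, hpq, hX, hx⟩
      rw [← bool_two main] at hX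
      exact ⟨(rec_two_iff hpq hx).mpr hX.1, fun n hn => by rw [pc_two_eq hpq hx]; exact hX.2 n hn⟩
  · intro A x
    constructor
    · rintro ⟨hr, hp⟩
      have h1 := hp 1 le_rfl
      obtain ⟨p, q, hpq, hx⟩ := two_letters (x := fun m : {m : ℕ // 1 ≤ m} => x m) (by
        have h2 : (Set.range fun m : {m : ℕ // 1 ≤ m} => fun i : Fin 1 => x m).encard =
            patternComplexity₁ x 1 := by
          unfold patternComplexity₁
          apply le_antisymm
          · refine le_trans ?_ (le_iSup (fun τ : {τ : Fin 1 → ℕ // StrictMono τ ∧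
              ∀ h : 0 < 1, τ ⟨0, h⟩ = 0} => (Set.range fun m : {m : ℕ // 1 ≤ m} =>
                fun i : Fin 1 => x (m + τ.1 i)).encard)
                ⟨fun _ => 0, Subsingleton.strictMono _, fun _ => rfl⟩)
            simp
          · apply iSup_le
            rintro ⟨τ, h3, h4⟩
            have : ∀ i, τ i = 0 := fun i => by
              rw [Subsingleton.elim i ⟨0, one_pos⟩]; exact h4 one_pos
            simp [this]
        rw [h2, h1]; simp)
      have hX : ∀ n, 1 ≤ n → x n = if decide (x n = p) = true then p else q := by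
        intro n hn
        by_cases h : x n = p
        · simp [h]
        · rcases hx ⟨n, hn⟩ with h2 | h2
          · exact absurd h2 h
          · simp only at h2
            simp [h2, hpq.symm]
      obtain ⟨Y, hY, hXY⟩ := (bool_one main fun m => decide (x m = p)).mp
        ⟨(rec_one_iff hpq hX).mp hr, fun n hn => by rw [← pc_one_eq hpq hX]; exact hp n hn⟩
      refine ⟨p, q, Y, hpq, hY, fun m hm => ?_⟩
      rw [← hXY m hm]
      exact hX m hm
    · rintro ⟨p, q, Y, hpq, hY, hx⟩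
      have hx' : ∀ n : ℕ, 1 ≤ n → x n = if (fun m : ℕ => Y m) n = true then p else q := hx
      have h1 := (bool_one main fun m : ℕ => Y m).mpr ⟨Y, hY, fun _ _ => rfl⟩
      exact ⟨(rec_one_iff hpq hx').mpr h1.1, fun n hn => by
        rw [pc_one_eq hpq hx']; exact h1.2 n hn⟩

/-- the structure theorem holds -/
theorem main_holds : Main := by
  intro X hr hb ha
  rcases Pool.Agent.PatSturm.main (Pool.Agent.PatSturm.RecR.rec' hr)
    (Pool.Agent.PatSturm.Bdd.low hb) ha with h | h
  · exact Or.inl h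
  · obtain ⟨N, r, c, u, a, h1, h2, h3, h4, h5, h6, h7, h8, h9, h10, h11⟩ := h
    exact Or.inr ⟨N, r, c, u, a, h1, h3, h2, h4, h5, h6, h7, h8, h9, h10, h11⟩

end Pool.Agent.PatSturm.Final
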