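import Mathlib
import Pool.Agent.PatSturm.Hull
import Pool.Agent.PatSturm.NRDefs

/-!
R1: a uniformly recurrent sequence in the right hull.
-/

set_option autoImplicit false

namespace Pool.Agent.PatSturm.NR

open Pool.Agent.PatSturm Pool.Agent.Helper434.PCDefs

variable {x y : ℤ → Bool}

/-- a closed shift invariant set contains a uniformly recurrent sequence -/
theorem exists_UR_mem (X : Set (ℤ → Bool)) (hXc : IsClosed X) (hXne : X.Nonempty)
    (hXinv : ∀ k : ℤ, ∀ z ∈ X, sh k z ∈ X) : ∃ y ∈ X, UR y := by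
  classical
  set S : Set (Set (ℤ → Bool)) :=
    {K | IsClosed K ∧ K.Nonempty ∧ K ⊆ X ∧ ∀ k : ℤ, ∀ z ∈ K, sh k z ∈ K} with hS
  have hXS : X ∈ S := ⟨hXc, hXne, Set.Subset.refl _, hXinv⟩
  obtain ⟨K, hK⟩ : ∃ K, Minimal (· ∈ S) K := by
    apply zorn_superset
    intro c hc hchain
    rcases c.eq_empty_or_nonempty with he | hne
    · exact ⟨X, hXS, by intro s hs; rw [he] at hs; exact absurd hs (Set.notMem_empty _)⟩
    · refine ⟨⋂₀ c, ⟨?_, ?_, ?_, ?_⟩, fun s hs => Set.sInter_subset_of_mem hs⟩
      · exact isClosed_sInter fun s hs => (hc hs).1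
      · have : Nonempty c := hne.to_subtype
        apply IsCompact.nonempty_sInter_of_directed_nonempty_isCompact_isClosed
        · intro s hs t ht
          rcases hchain.total hs ht with h | h
          · exact ⟨s, hs, Set.Subset.refl _, h⟩
          · exact ⟨t, ht, h, Set.Subset.refl _⟩
        · exact fun s hs => (hc hs).2.1
        · exact fun s hs => (hc hs).1.isCompact
        · exact fun s hs => (hc hs).1
      · obtain ⟨s, hs⟩ := hne
        exact (Set.sInter_subset_of_mem hs).trans (hc hs).2.2.1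
      · intro k z hz s hs
        exact (hc hs).2.2.2 k z (hz s hs)
  obtain ⟨hKc, ⟨y, hy⟩, hKX, hKinv⟩ := hK.prop
  refine ⟨y, hKX hy, ?_⟩
  intro a b
  -- the translates of the cylinder cover `K`
  have hcover : K ⊆ ⋃ n : ℤ, sh n ⁻¹' cyl y a b := by
    by_contra hcon
    rw [Set.not_subset] at hcon
    obtain ⟨z0, hz0, hz0'⟩ := hcon
    have hK' : K \ (⋃ n : ℤ, sh n ⁻¹' cyl y a b) ∈ S := by
      refine ⟨?_, ⟨z0, hz0, hz0'⟩, Set.sdiff_subset.trans hKX, ?_⟩
      · apply hKc.sdiff
        apply isOpen_iUnion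
        intro n
        exact (cyl_open y a b).preimage (sh_continuous n)
      · rintro k z ⟨hz1, hz2⟩
        refine ⟨hKinv k z hz1, fun hcon => hz2 ?_⟩
        rw [Set.mem_iUnion] at hcon ⊢
        obtain ⟨n, hn⟩ := hcon
        refine ⟨n + k, ?_⟩
        intro m h1 h2
        have := hn m h1 h2
        simp only [sh] at this ⊢
        rw [← this]
        congr 1; ring
    have h1 := hK.le_of_le hK' Set.sdiff_subset hy
    apply h1.2
    rw [Set.mem_iUnion]
    refine ⟨0, fun m _ _ => ?_⟩
    simp [sh]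
  obtain ⟨t, ht⟩ := hKc.isCompact.elim_finite_subcover _
    (fun n => (cyl_open y a b).preimage (sh_continuous n)) hcover
  obtain ⟨C, hC0, hC⟩ := exists_bounds t
  refine ⟨2 * C + 1, by omega, fun n => ?_⟩
  have h1 := ht (hKinv (n + C) y hy)
  rw [Set.mem_iUnion] at h1
  obtain ⟨i, hi⟩ := h1
  rw [Set.mem_iUnion] at hi
  obtain ⟨hi1, hi2⟩ := hi
  have := hC i hi1
  refine ⟨i + C, by omega, by omega, fun m h1 h2 => ?_⟩
  have h3 := hi2 m h1 h2
  simp only [sh] at h3
  rw [← h3]
  congr 1; ring

/-- the right hull contains a uniformly recurrent sequence -/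
theorem exists_rhull (x : ℤ → Bool) : ∃ y, RHull x y ∧ UR y := by
  classical
  set X : ℤ → Set (ℤ → Bool) := fun C => closure ((fun h : ℤ => sh h x) '' Set.Ioi C) with hX
  have hanti : ∀ C C' : ℤ, C ≤ C' → X C' ⊆ X C := fun C C' h =>
    closure_mono (Set.image_mono (Set.Ioi_subset_Ioi h))
  have hne : (⋂ C, X C).Nonempty := by
    apply IsCompact.nonempty_iInter_of_directed_nonempty_isCompact_isClosed
    · intro C C'
      exact ⟨max C C', hanti _ _ (le_max_left _ _), hanti _ _ (le_max_right _ _)⟩
    · intro C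
      exact ⟨sh (C + 1) x, subset_closure ⟨C + 1, by simp, rfl⟩⟩
    · intro C; exact isClosed_closure.isCompact
    · intro C; exact isClosed_closure
  obtain ⟨y, hy, hu⟩ := exists_UR_mem (⋂ C, X C) (isClosed_iInter fun C => isClosed_closure) hne (by
    intro k z hz
    rw [Set.mem_iInter] at hz ⊢
    intro C
    have h1 : Set.MapsTo (sh k) ((fun h : ℤ => sh h x) '' Set.Ioi (C - k))
        ((fun h : ℤ => sh h x) '' Set.Ioi C) := by
      rintro _ ⟨h, hh, rfl⟩
      refine ⟨k + h, ?_, ?_⟩
      · have : C - k < h := hh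
        show C < k + h
        omega
      · funext m
        simp only [sh]
        congr 1; ring
    exact (h1.closure (sh_continuous k)) (hz (C - k)))
  refine ⟨y, ?_, hu⟩
  intro a b C
  have h1 := Set.mem_iInter.mp hy C
  rw [hX] at h1
  simp only at h1
  rw [mem_closure_iff] at h1
  obtain ⟨w, hw1, ⟨h, hh, rfl⟩⟩ := h1 (cyl y a b) (cyl_open y a b) (fun m _ _ => rfl)
  exact ⟨h, hh, fun m h1 h2 => hw1 m h1 h2⟩

/-- patterns of the right hull occur arbitrarily far to the right -/
lemma RHull.eqv (h : RHull x y) (K : Finset ℤ) (m C : ℤ) :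
    ∃ m', C < m' ∧ ∀ i ∈ K, x (m' + i) = y (m + i) := by
  obtain ⟨B, hB0, hB⟩ := exists_bounds K
  obtain ⟨s, hs, hs'⟩ := h (m - B) (m + B) (C - m)
  refine ⟨m + s, by omega, fun i hi => ?_⟩
  have := hB i hi
  rw [← hs' (m + i) (by omega) (by omega)]
  congr 1; ring

lemma RHull.bdd (h : RHull x y) (hl : Low1 x) : Bdd y := by
  classical
  intro K T hK hT
  -- translate the window to the right
  obtain ⟨B, hB0, hB⟩ := exists_bounds K
  choose f hf1 hf2 using fun m : ℤ => h.eqv K m (B + 1)
  have key := hl (K.image fun k => k + B) (T.image fun m => f m - B) (hK.image _) (by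
    intro k hk
    obtain ⟨k', hk', rfl⟩ := Finset.mem_image.mp hk
    have := hB k' hk'
    omega) (by
    intro m hm
    obtain ⟨m', hm', rfl⟩ := Finset.mem_image.mp hm
    have := hf1 m'
    omega) (by
    intro a ha b hb hE
    obtain ⟨m, hm, rfl⟩ := Finset.mem_image.mp ha
    obtain ⟨n, hn, rfl⟩ := Finset.mem_image.mp hb
    have : m = n := by
      apply hT m hm n hn
      intro i hi
      have h1 := hE (i + B) (Finset.mem_image_of_mem _ hi)
      rw [show f m - B + (i + B) = f m + i by ring, show f n - B + (i + B) = f n + i by ring,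
        hf2 m i hi, hf2 n i hi] at h1
      exact h1
    rw [this])
  have hinj1 : (K.image fun k => k + B).card = K.card :=
    Finset.card_image_of_injective _ (add_left_injective B)
  have hinj2 : (T.image fun m => f m - B).card = T.card := by
    apply Finset.card_image_of_injOn
    intro m hm n hn he
    apply hT m hm n hn
    have he' : f m = f n := by
      have : f m - B = f n - B := he
      omega
    intro i hi
    rw [← hf2 m i hi, ← hf2 n i hi, he']
  rwa [hinj1, hinj2] at key

lemma RHull.low (h : RHull x y) (hl : Low1 x) : Low y := Bdd.low (h.bdd hl)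

end Pool.Agent.PatSturm.NR
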