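import Mathlib
import Pool.Agent.PatSturm.NRDefs
import Pool.Agent.Helper434.PCSpec2

/-!
Part R2: words whose right hull contains a rotation coding.
-/

set_option autoImplicit false

namespace Pool.Agent.PatSturm.NR

open Pool.Agent.PatSturm Pool.Agent.Helper434.PCDefs Pool.Agent.Helper434.PCCore
open Pool.Agent.Helper434.PCSpec Pool.Agent.Helper434.PCSpec2

variable {x y : ℤ → Bool} {α β θ : ℝ}

/-- too many patterns, one-sided version -/
lemma toomany1 (hb : Low1 x) {V : Finset ℤ} {I : Finset (ℤ × Bool)} {Q : ℤ × Bool → ℤ}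
    {M : Finset ℤ} (hV : V.Nonempty) (hV0 : ∀ v ∈ V, 0 ≤ v) (hQ1 : ∀ p ∈ I, 1 ≤ Q p)
    (hM1 : ∀ m ∈ M, 1 ≤ m)
    (h1 : ∀ p ∈ I, ∀ p' ∈ I, Eqv x V (Q p) (Q p') → p = p')
    (h2 : ∀ m ∈ M, ∀ m' ∈ M, Eqv x V m m' → m = m')
    (h3 : ∀ m ∈ M, ∀ p ∈ I, ¬ Eqv x V m (Q p)) (hc : 2 * V.card < I.card + M.card) : False := by
  classical
  have hQ : Set.InjOn Q (I : Set (ℤ × Bool)) := fun p hp p' hp' h =>
    h1 p hp p' hp' (by rw [h]; intro _ _; rfl)
  have hd : Disjoint (I.image Q) M := by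
    rw [Finset.disjoint_left]
    intro m hm hm'
    obtain ⟨p, hp, rfl⟩ := Finset.mem_image.mp hm
    exact h3 _ hm' p hp fun _ _ => rfl
  have h4 := hb V (I.image Q ∪ M) hV hV0 (by
    intro m hm
    rcases Finset.mem_union.mp hm with h | h
    · obtain ⟨p, hp, rfl⟩ := Finset.mem_image.mp h
      exact hQ1 p hp
    · exact hM1 m h) (by
    intro m hm m' hm' hE
    rcases Finset.mem_union.mp hm with h | h <;> rcases Finset.mem_union.mp hm' with h' | h'
    · obtain ⟨p, hp, rfl⟩ := Finset.mem_image.mp h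
      obtain ⟨p', hp', rfl⟩ := Finset.mem_image.mp h'
      rw [h1 p hp p' hp' hE]
    · obtain ⟨p, hp, rfl⟩ := Finset.mem_image.mp h
      exact absurd (eqv_symm hE) (h3 _ h' p hp)
    · obtain ⟨p, hp, rfl⟩ := Finset.mem_image.mp h'
      exact absurd hE (h3 _ h p hp)
    · exact h2 m h m' h' hE)
  rw [Finset.card_union_of_disjoint hd, Finset.card_image_of_injOn hQ] at h4
  omega

/-- patterns of `y` occur in `x` at places `≥ 1` -/
lemma RHull.pat (hH : RHull x y) (F : Finset ℤ) (m : ℤ) :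
    ∃ m', 1 ≤ m' ∧ ∀ i ∈ F, x (m' + i) = y (m + i) := by
  obtain ⟨C, -, hC⟩ := exists_bounds F
  obtain ⟨h, h1, h2⟩ := hH (m - C) (m + C) (-m)
  refine ⟨m + h, by omega, fun i hi => ?_⟩
  have := hC i hi
  rw [← h2 (m + i) (by omega) (by omega)]
  congr 1; ring

theorem free1 (hy : ∀ n : ℤ, y n = true ↔ Int.fract (n * α + θ) < β) (hα : Irrational α)
    (hβ0 : 0 < β) (hβ1 : β < 1) (hH : RHull x y) (hb : Low1 x) {F : Finset ℤ}
    (hF0 : ∀ v ∈ F, 0 ≤ v) (hF : ∀ v ∈ F, ∀ v' ∈ F, ¬ B α β (v - v')) {m : ℤ} (hm1 : 1 ≤ m) :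
    ∃ m', ∀ i ∈ F, y (m' + i) = x (m + i) := by
  classical
  obtain ⟨q, K, hq, hqB, hK⟩ := exists_q hα hβ0 hβ1
  by_contra hcon
  push Not at hcon
  set δ₀ := min β (1 - β) / 2 with hδ₀
  have hm0 : 0 < min β (1 - β) := lt_min hβ0 (by linarith)
  have hδ₀0 : 0 < δ₀ := by positivity
  have hδβ : 2 * δ₀ ≤ β := by
    have := min_le_left β (1 - β); rw [hδ₀]; linarith
  have hδβ' : 2 * δ₀ ≤ 1 - β := by
    have := min_le_right β (1 - β); rw [hδ₀]; linarith
  obtain ⟨J, hJ⟩ := rich hy hα hβ0 hβ1 hδ₀0 hq.ne'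
  obtain ⟨C, hC0, hC⟩ := exists_bounds F
  have hC : ∀ v ∈ F, v ≤ C := fun v hv => (hC v hv).2
  set s : ℤ := C + |K| + 1 with hs
  have hKn := abs_nonneg K
  set T := AP s q (J + 1) with hT
  have hTlow : ∀ v ∈ T, s ≤ v := by
    intro v hv
    obtain ⟨j, -, rfl⟩ := mem_AP.mp hv
    have : 0 ≤ q * (j : ℤ) := by positivity
    omega
  have hsT : s ∈ T := mem_AP.mpr ⟨0, by omega, by simp⟩
  set V := F ∪ T with hV
  have hnB : ∀ v ∈ V, ∀ v' ∈ V, ¬ B α β (v - v') := by
    intro v hv v' hv' hB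
    have hK' := hK _ hB
    have hKK := le_abs_self K
    rcases Finset.mem_union.mp hv with h | h <;> rcases Finset.mem_union.mp hv' with h' | h'
    · exact hF v h v' h' hB
    · have h1 := hC v h
      have h2 := hTlow v' h'
      have h3 := neg_abs_le (v - v')
      omega
    · have h1 := hC v' h'
      have h2 := hTlow v h
      have h3 := le_abs_self (v - v')
      omega
    · obtain ⟨j, -, rfl⟩ := mem_AP.mp h
      obtain ⟨j', -, rfl⟩ := mem_AP.mp h'
      exact hqB _ hB ⟨(j : ℤ) - j', by ring⟩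
  obtain ⟨P, hP⟩ := count hy hα (I := V ×ˢ Finset.univ) (V := V) (β := β) (δ₀ := δ₀)
    (fun p hp => (Finset.mem_product.mp hp).1)
    (nc hα fun p hp p' hp' _ _ => hnB _ (Finset.mem_product.mp hp).1 _
      (Finset.mem_product.mp hp').1) hδ₀0 hδβ hδβ' (fun m m' hE => hJ s m m' fun j hj =>
      hE _ (Finset.mem_union_right _ (mem_AP.mpr ⟨j, by omega, rfl⟩)))
  choose Q hQ1 hQ using fun p : ℤ × Bool => hH.pat V (P p)
  refine toomany1 hb (V := V) (I := V ×ˢ Finset.univ) (Q := Q) (M := {m})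
    ⟨s, Finset.mem_union_right _ hsT⟩ (fun v hv => ?_) (fun p _ => hQ1 p) (by simpa using hm1)
    (fun p hp p' hp' hE => hP p hp p' hp' fun i hi => ?_)
    (by simp) (fun m' hm' p _ hE => ?_) ?_
  · rcases Finset.mem_union.mp hv with h | h
    · exact hF0 v h
    · have := hTlow v h
      omega
  · rw [← hQ p i hi, ← hQ p' i hi]; exact hE i hi
  · rw [Finset.mem_singleton] at hm'
    subst hm'
    obtain ⟨i, hi, hne⟩ := hcon (P p)
    have hiV : i ∈ V := Finset.mem_union_left _ hi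
    exact hne (by rw [← hQ p i hiV]; exact (hE i hiV).symm)
  · rw [Finset.card_product, Finset.card_univ, Fintype.card_bool, Finset.card_singleton]
    omega

/-- the coincidence difference -/
lemma exists_kap (hα : Irrational α) (hβ0 : 0 < β) (hβ1 : β < 1) :
    ∃ κ : ℤ, 0 < κ ∧ ∀ k, B α β k → |k| = κ := by
  by_cases h : ∃ k, B α β k
  · obtain ⟨k₀, hk₀⟩ := h
    have hne : k₀ ≠ 0 := by
      rintro rfl
      obtain ⟨J, hJ⟩ := hk₀
      have h1 : ((0 : ℤ) : ℝ) < J := by rw [← hJ]; push_cast; linarith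
      have h2 : (J : ℝ) < ((1 : ℤ) : ℝ) := by rw [← hJ]; push_cast; linarith
      have h3 : 0 < J := by exact_mod_cast h1
      have h4 : J < 1 := by exact_mod_cast h2
      omega
    exact ⟨|k₀|, abs_pos.mpr hne, fun k hk => by rw [B_unique hα hk hk₀]⟩
  · exact ⟨1, one_pos, fun k hk => absurd ⟨k, hk⟩ h⟩

lemma block_free {κ c v v' : ℤ} (hκ : 0 < κ) (hc : 2 ≤ c) (h : v / κ % c = v' / κ % c) :
    |v - v'| ≠ κ := by
  intro habs
  have key : ∀ a b : ℤ, a / κ % c = b / κ % c → a - b = κ → False := by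
    intro a b hab h1
    have h2 : a / κ = b / κ + 1 := by
      rw [show a = b + κ by omega, Int.add_ediv_of_dvd_right (dvd_refl κ), Int.ediv_self hκ.ne']
    rw [h2] at hab
    have h3 : c ∣ (b / κ + 1) - b / κ := (Int.ModEq.dvd (show b / κ ≡ b / κ + 1 [ZMOD c] from hab.symm))
    rw [add_sub_cancel_left] at h3
    have := Int.le_of_dvd one_pos h3
    omega
  rcases abs_cases (v - v') with ⟨h1, _⟩ | ⟨h1, _⟩
  · exact key v v' h (by omega)
  · exact key v' v h.symm (by omega)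

/-- letters of the limit phase -/
lemma limit_code (hy : ∀ n : ℤ, y n = true ↔ Int.fract (n * α + θ) < β) (hβ0 : 0 < β)
    (hβ1 : β < 1) {t : ℝ} {i : ℤ} {b : Bool}
    (h : ∀ ε : ℝ, 0 < ε → ∃ m j : ℤ, |m * α + θ - j - t| < ε ∧ y (m + i) = b) :
    (0 < Int.fract (t + i * α) → Int.fract (t + i * α) < β → b = true) ∧
      (β < Int.fract (t + i * α) → b = false) := by
  have f0 := Int.fract_nonneg (t + i * α)
  have f1 := Int.fract_lt_one (t + i * α)
  have f2 : Int.fract (t + i * α) = t + i * α - ⌊t + i * α⌋ := rfl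
  set z := Int.fract (t + i * α) with hz
  refine ⟨fun h1 h2 => ?_, fun h1 => ?_⟩
  · obtain ⟨m, j, h3, h4⟩ := h (min z (β - z)) (lt_min h1 (by linarith))
    have h5 := abs_lt.mp (h3.trans_le (min_le_left _ _))
    have h6 := abs_lt.mp (h3.trans_le (min_le_right _ _))
    rw [← h4, hy]
    have e1 : ((m + i : ℤ) : ℝ) * α + θ - ((j + ⌊t + i * α⌋ : ℤ) : ℝ) =
        z + (m * α + θ - j - t) := by
      rw [f2]; push_cast; ring
    rw [fr (j + ⌊t + i * α⌋) (by rw [e1]; linarith) (by rw [e1]; linarith), e1]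
    linarith
  · obtain ⟨m, j, h3, h4⟩ := h (min (z - β) (1 - z)) (lt_min (by linarith) (by linarith))
    have h5 := abs_lt.mp (h3.trans_le (min_le_left _ _))
    have h6 := abs_lt.mp (h3.trans_le (min_le_right _ _))
    have h7 : ¬ y (m + i) = true := by
      rw [hy]
      have e1 : ((m + i : ℤ) : ℝ) * α + θ - ((j + ⌊t + i * α⌋ : ℤ) : ℝ) =
          z + (m * α + θ - j - t) := by
        rw [f2]; push_cast; ring
      rw [fr (j + ⌊t + i * α⌋) (by rw [e1]; linarith) (by rw [e1]; linarith), e1]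
      linarith
    rw [← h4]
    simpa using h7

/-- a common phase -/
theorem exists_phase (hy : ∀ n : ℤ, y n = true ↔ Int.fract (n * α + θ) < β) (hα : Irrational α)
    (hβ0 : 0 < β) (hβ1 : β < 1) (hH : RHull x y) (hb : Low1 x) :
    ∃ t : ℝ, ∀ i : ℤ, 0 ≤ i →
      (0 < Int.fract (t + i * α) → Int.fract (t + i * α) < β → x (1 + i) = true) ∧
      (β < Int.fract (t + i * α) → x (1 + i) = false) := by
  classical
  obtain ⟨κ, hκ, hκB⟩ := exists_kap hα hβ0 hβ1
  have hfree : ∀ (c a : ℤ), 2 ≤ c → ∀ N : ℕ, ∃ m', ∀ i : ℤ, 0 ≤ i → i ≤ N → i / κ % c = a →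
      y (m' + i) = x (1 + i) := by
    intro c a hc N
    obtain ⟨m', hm'⟩ := free1 hy hα hβ0 hβ1 hH hb
      (F := (Finset.Icc (0 : ℤ) N).filter fun i => i / κ % c = a)
      (fun v hv => (Finset.mem_Icc.mp (Finset.mem_filter.mp hv).1).1)
      (fun v hv v' hv' hB => by
        have h1 := (Finset.mem_filter.mp hv).2
        have h2 := (Finset.mem_filter.mp hv').2
        exact block_free hκ hc (h1.trans h2.symm) (hκB _ hB)) (m := 1) le_rfl
    exact ⟨m', fun i h0 h1 h2 => hm' i (Finset.mem_filter.mpr ⟨Finset.mem_Icc.mpr ⟨h0, h1⟩, h2⟩)⟩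
  choose m1 hm1 using hfree 2 0 le_rfl
  choose m2 hm2 using hfree 2 1 le_rfl
  choose m3 hm3 using hfree 3 0 (by norm_num)
  obtain ⟨t, -, φ, hφ, hlim⟩ := (isCompact_Icc (a := (0 : ℝ)) (b := 1)).tendsto_subseq
    (x := fun N => Int.fract ((m1 N : ℝ) * α + θ))
    (fun N => ⟨Int.fract_nonneg _, (Int.fract_lt_one _).le⟩)
  -- approximation of the phase by the three families
  have happ : ∀ ε : ℝ, 0 < ε → ∀ i : ℤ, ∃ N : ℕ, i ≤ N ∧ (∃ j : ℤ, |m1 N * α + θ - j - t| < ε) ∧
      ∃ j : ℤ, |m2 N * α + θ - j - t| < ε := by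
    intro ε hε i
    obtain ⟨J, hJ⟩ := rich hy hα hβ0 hβ1 (δ := ε / 4) (by positivity) (q := 6 * κ) (by omega)
    have h1 := (Metric.tendsto_atTop.mp hlim) (ε / 4) (by positivity)
    obtain ⟨L, hL⟩ := h1
    set l := max L (max i.toNat (3 * κ + 6 * κ * J).toNat) with hl
    have hl1 : l ≤ φ l := hφ.id_le l
    have hlL : L ≤ l := le_max_left _ _
    have hli : i.toNat ≤ l := (le_max_left _ _).trans (le_max_right _ _)
    have hlJ : (3 * κ + 6 * κ * J).toNat ≤ l := (le_max_right _ _).trans (le_max_right _ _)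
    have hlim' := hL l hlL
    rw [Real.dist_eq] at hlim'
    set N := φ l with hN
    have hNi : i ≤ N := by
      have := Int.self_le_toNat i
      omega
    have hNJ : 3 * κ + 6 * κ * J ≤ N := by
      have := Int.self_le_toNat (3 * κ + 6 * κ * J)
      omega
    have hdiv0 : ∀ j : ℕ, (0 + 6 * κ * (j : ℤ)) / κ = 6 * j := by
      intro j
      rw [show 0 + 6 * κ * (j : ℤ) = κ * (6 * j) by ring, Int.mul_ediv_cancel_left _ hκ.ne']
    have hdiv3 : ∀ j : ℕ, (3 * κ + 6 * κ * (j : ℤ)) / κ = 3 + 6 * j := by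
      intro j
      rw [show 3 * κ + 6 * κ * (j : ℤ) = κ * (3 + 6 * j) by ring,
        Int.mul_ediv_cancel_left _ hκ.ne']
    obtain ⟨j1, hj1⟩ := hJ 0 (m1 N) (m3 N) (fun j hj => by
      have hjJ : 6 * κ * (j : ℤ) ≤ 6 * κ * J := by
        have : (j : ℤ) ≤ J := by exact_mod_cast hj.le
        nlinarith
      have h0 : 0 ≤ 6 * κ * (j : ℤ) := by positivity
      rw [hm1 N (0 + 6 * κ * j) (by omega) (by omega) (by rw [hdiv0]; omega),
        hm3 N (0 + 6 * κ * j) (by omega) (by omega) (by rw [hdiv0]; omega)])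
    obtain ⟨j2, hj2⟩ := hJ (3 * κ) (m3 N) (m2 N) (fun j hj => by
      have hjJ : 6 * κ * (j : ℤ) ≤ 6 * κ * J := by
        have : (j : ℤ) ≤ J := by exact_mod_cast hj.le
        nlinarith
      have h0 : 0 ≤ 6 * κ * (j : ℤ) := by positivity
      rw [hm3 N (3 * κ + 6 * κ * j) (by omega) (by omega) (by rw [hdiv3]; omega),
        hm2 N (3 * κ + 6 * κ * j) (by omega) (by omega) (by rw [hdiv3]; omega)])
    have hfr : Int.fract ((m1 N : ℝ) * α + θ) = m1 N * α + θ - ⌊(m1 N : ℝ) * α + θ⌋ := rfl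
    simp only [Function.comp_apply] at hlim'
    rw [← hN, hfr] at hlim'
    refine ⟨N, hNi, ⟨⌊(m1 N : ℝ) * α + θ⌋, by linarith⟩,
      ⟨⌊(m1 N : ℝ) * α + θ⌋ - j1 - j2, ?_⟩⟩
    have e1 : (m2 N : ℝ) * α + θ - ((⌊(m1 N : ℝ) * α + θ⌋ - j1 - j2 : ℤ) : ℝ) - t =
        (m1 N * α + θ - ⌊(m1 N : ℝ) * α + θ⌋ - t) - (((m1 N - m3 N : ℤ) : ℝ) * α - j1) -
          (((m3 N - m2 N : ℤ) : ℝ) * α - j2) := by
      push_cast; ring
    rw [e1]
    have a1 := abs_lt.mp hlim'
    have a2 := abs_lt.mp hj1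
    have a3 := abs_lt.mp hj2
    rw [abs_lt]
    constructor <;> linarith
  refine ⟨t, fun i hi => ?_⟩
  apply limit_code hy hβ0 hβ1
  intro ε hε
  obtain ⟨N, hN, ⟨j1, h1⟩, ⟨j2, h2⟩⟩ := happ ε hε i
  rcases Int.emod_two_eq_zero_or_one (i / κ) with h | h
  · exact ⟨m1 N, j1, h1, hm1 N i hi hN h⟩
  · exact ⟨m2 N, j2, h2, hm2 N i hi hN h⟩

/-- R2 -/
theorem rot_case (hb : Low1 x) (hH : RHull x y) (hα : Irrational α)
    (hβ0 : 0 < β) (hβ1 : β < 1) (hy : ∀ n : ℤ, y n = true ↔ Int.fract (n * α + θ) < β) :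
    AnyInterval x := by
  obtain ⟨t, ht⟩ := exists_phase hy hα hβ0 hβ1 hH hb
  have hphase : ∀ n : ℤ, t + ((n - 1 : ℤ) : ℝ) * α = n * α + (t - α) := fun n => by
    push_cast; ring
  have h1 : ∀ n : ℤ, 1 ≤ n → 0 < Int.fract (n * α + (t - α)) →
      Int.fract (n * α + (t - α)) < β → x n = true := by
    intro n hn
    have := (ht (n - 1) (by omega)).1
    rwa [hphase, add_sub_cancel] at this
  have h2 : ∀ n : ℤ, 1 ≤ n → β < Int.fract (n * α + (t - α)) → x n = false := by
    intro n hn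
    have := (ht (n - 1) (by omega)).2
    rwa [hphase, add_sub_cancel] at this
  have huniq : ∀ n n' : ℤ, Int.fract (n * α + (t - α)) = Int.fract (n' * α + (t - α)) → n = n' := by
    intro n n' h
    rw [Int.fract_eq_fract] at h
    obtain ⟨z, hz⟩ := h
    have := mul_int hα (k := n - n') (J := z) (by push_cast; linarith)
    omega
  have hdich : ∀ r : ℝ, (∀ n : ℤ, 1 ≤ n → Int.fract (n * α + (t - α)) = r → x n = true) ∨
      (∀ n : ℤ, 1 ≤ n → Int.fract (n * α + (t - α)) = r → x n = false) := by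
    intro r
    by_cases h : ∃ n : ℤ, 1 ≤ n ∧ Int.fract (n * α + (t - α)) = r ∧ x n = true
    · obtain ⟨n0, -, h3, h4⟩ := h
      left
      intro n _ hn
      rw [huniq n n0 (hn.trans h3.symm)]
      exact h4
    · right
      intro n hn1 hn
      by_contra hc
      exact h ⟨n, hn1, hn, by simpa using hc⟩
  have hn0 : ∀ n : ℤ, 0 ≤ Int.fract (n * α + (t - α)) := fun n => Int.fract_nonneg _
  refine ⟨α, β, t - α, hα, hβ0, hβ1, ?_⟩
  rcases hdich 0 with h0 | h0 <;> rcases hdich β with hb' | hb'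
  · -- `[0, β]`
    right; left
    intro n hn
    constructor
    · intro h
      by_contra hc
      rw [h2 n hn (not_le.mp hc)] at h
      exact absurd h (by decide)
    · intro h
      rcases h.lt_or_eq with h3 | h3
      · rcases (hn0 n).lt_or_eq with h4 | h4
        · exact h1 n hn h4 h3
        · exact h0 n hn h4.symm
      · exact hb' n hn h3
  · -- `[0, β)`
    left
    intro n hn
    constructor
    · intro h
      by_contra hc
      rcases (not_lt.mp hc).lt_or_eq with h3 | h3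
      · rw [h2 n hn h3] at h
        exact absurd h (by decide)
      · rw [hb' n hn h3.symm] at h
        exact absurd h (by decide)
    · intro h
      rcases (hn0 n).lt_or_eq with h4 | h4
      · exact h1 n hn h4 h
      · exact h0 n hn h4.symm
  · -- `(0, β]`
    right; right; right
    intro n hn
    constructor
    · intro h
      refine ⟨?_, ?_⟩
      · rcases (hn0 n).lt_or_eq with h4 | h4
        · exact h4
        · rw [h0 n hn h4.symm] at h
          exact absurd h (by decide)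
      · by_contra hc
        rw [h2 n hn (not_le.mp hc)] at h
        exact absurd h (by decide)
    · rintro ⟨h4, h⟩
      rcases h.lt_or_eq with h3 | h3
      · exact h1 n hn h4 h3
      · exact hb' n hn h3
  · -- `(0, β)`
    right; right; left
    intro n hn
    constructor
    · intro h
      refine ⟨?_, ?_⟩
      · rcases (hn0 n).lt_or_eq with h4 | h4
        · exact h4
        · rw [h0 n hn h4.symm] at h
          exact absurd h (by decide)
      · by_contra hc
        rcases (not_lt.mp hc).lt_or_eq with h3 | h3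
        · rw [h2 n hn h3] at h
          exact absurd h (by decide)
        · rw [hb' n hn h3.symm] at h
          exact absurd h (by decide)
    · rintro ⟨h4, h3⟩
      exact h1 n hn h4 h3

end Pool.Agent.PatSturm.NR
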