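import Mathlib
import Pool.Agent.PatSturm.NRDefs

/-!
Parts R4 and R5: words with long runs, and words whose right hull contains a periodic word.
-/

set_option autoImplicit false

namespace Pool.Agent.PatSturm.NR

open Pool.Agent.PatSturm Pool.Agent.Helper434.PCDefs

variable {x y : ℤ → Bool}

/-- the letter `true` occurs infinitely often to the right -/
def Inf1 (x : ℤ → Bool) : Prop := ∀ C : ℤ, ∃ n, C < n ∧ x n = true

/-- there are arbitrarily long runs of `false` far to the right -/
def Runs (x : ℤ → Bool) : Prop :=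
  ∀ C K : ℤ, ∃ n, C < n ∧ ∀ i, 0 ≤ i → i < K → x (n + i) = false

lemma Low1.nodup_le {β : Type*} (hl : Low1 x) {K : Finset ℤ} (hK : K.Nonempty)
    (hK0 : ∀ k ∈ K, 0 ≤ k) (g : ℤ → β)
    (hg : ∀ m n, Eqv x K m n → g m = g n) (l : List ℤ) (hl1 : ∀ m ∈ l, 1 ≤ m)
    (hn : (l.map g).Nodup) : l.length ≤ 2 * K.card := by
  classical
  have hnd : l.Nodup := hn.of_map
  have h := hl K l.toFinset hK hK0 (by simpa using hl1) (by
    intro m hm n hn' he
    rw [List.mem_toFinset] at hm hn'
    exact List.inj_on_of_nodup_map hn hm hn' (hg m n he))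
  rwa [List.toFinset_card_of_nodup hnd] at h

/-- at most six patterns on three places -/
lemma Low1.three (hl : Low1 x) {h1 h2 : ℤ} (h10 : 0 ≤ h1) (h20 : 0 ≤ h2) (l : List ℤ)
    (hl1 : ∀ m ∈ l, 1 ≤ m)
    (hn : (l.map (fun m => (x m, x (m + h1), x (m + h2)))).Nodup) :
    l.length ≤ 6 := by
  classical
  have h := hl.nodup_le (K := {0, h1, h2}) (by simp) (by
      intro k hk
      simp only [Finset.mem_insert, Finset.mem_singleton] at hk
      rcases hk with rfl | rfl | rfl
      · exact le_rfl
      · exact h10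
      · exact h20) (fun m => (x m, x (m + h1), x (m + h2))) (by
      intro m n h
      have e0 := h 0 (by simp)
      have e1 := h h1 (by simp)
      have e2 := h h2 (by simp)
      rw [add_zero, add_zero] at e0
      simp only [e0, e1, e2]) l hl1 hn
  have h4 : ({0, h1, h2} : Finset ℤ).card ≤ 3 := Finset.card_le_three
  omega

/-- at most eight patterns on four places -/
lemma Low1.four (hl : Low1 x) {h1 h2 : ℤ} (h10 : 0 ≤ h1) (h20 : 0 ≤ h2) (l : List ℤ)
    (hl1 : ∀ m ∈ l, 1 ≤ m)
    (hn : (l.map (fun m => (x m, x (m + h1), x (m + h2), x (m + (h1 + h2))))).Nodup) :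
    l.length ≤ 8 := by
  classical
  have h := hl.nodup_le (K := {0, h1, h2, h1 + h2}) (by simp) (by
      intro k hk
      simp only [Finset.mem_insert, Finset.mem_singleton] at hk
      rcases hk with rfl | rfl | rfl | rfl
      · exact le_rfl
      · exact h10
      · exact h20
      · omega) (fun m => (x m, x (m + h1), x (m + h2), x (m + (h1 + h2)))) (by
      intro m n h
      have e0 := h 0 (by simp)
      have e1 := h h1 (by simp)
      have e2 := h h2 (by simp)
      have e3 := h (h1 + h2) (by simp)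
      rw [add_zero, add_zero] at e0
      simp only [e0, e1, e2, e3]) l hl1 hn
  have h4 : ({0, h1, h2, h1 + h2} : Finset ℤ).card ≤ 4 := Finset.card_le_four
  omega

/-- long gaps between two consecutive occurrences of `true` -/
lemma gap1 (ho : Inf1 x) (hr : Runs x) (C K : ℤ) :
    ∃ f f', C < f ∧ K < f' - f ∧ x f = true ∧ x f' = true ∧
      ∀ m, f < m → m < f' → x m = false := by
  obtain ⟨s, hs, hxs⟩ := ho C
  obtain ⟨n, hn, hrun⟩ := hr s (|K| + 1)
  obtain ⟨f, ⟨hf1, hf2⟩, hf3⟩ := Int.exists_greatest_of_bdd (P := fun z => z < n ∧ x z = true)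
    ⟨n, fun z hz => hz.1.le⟩ ⟨s, hn, hxs⟩
  obtain ⟨t, ht, hxt⟩ := ho n
  obtain ⟨f', ⟨hf1', hf2'⟩, hf3'⟩ := Int.exists_least_of_bdd (P := fun z => n ≤ z ∧ x z = true)
    ⟨n, fun z hz => hz.1⟩ ⟨t, ht.le, hxt⟩
  have h1 := hf3 s ⟨hn, hxs⟩
  have h2 : n + |K| < f' := by
    by_contra hcon
    have h3 := hrun (f' - n) (by omega) (by omega)
    rw [show n + (f' - n) = f' by ring, hf2'] at h3
    exact absurd h3 (by decide)
  refine ⟨f, f', by omega, ?_, hf2, hf2', ?_⟩
  · have := le_abs_self K
    omega
  · intro m hm1 hm2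
    by_contra hcon
    have hcon : x m = true := by simpa using hcon
    rcases lt_or_ge m n with hmn | hmn
    · have := hf3 m ⟨hmn, hcon⟩
      omega
    · have := hf3' m ⟨hmn, hcon⟩
      omega

/-- pairs of `true` cannot be followed by longer and longer gaps -/
lemma no_pair_long (hl : Low1 x) (ho : Inf1 x) {h : ℤ} (hh : 0 < h)
    (H : ∀ C G : ℤ, ∃ s, C < s ∧ x s = true ∧ x (s + h) = true ∧
      ∀ i, 0 < i → i ≤ G → x (s + h + i) = false) : False := by
  obtain ⟨s, hs1, hs2, hs3, hs4⟩ := H 1 h
  obtain ⟨t, ht1, ht2, ht3, -⟩ := H (s + h) 0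
  obtain ⟨k, hk1, hk2, hk3, hk4⟩ := H 1 (t - s + 1)
  obtain ⟨w, hw1, hw2⟩ := ho (k + h)
  obtain ⟨f, ⟨hf1, hf2⟩, hf3⟩ := Int.exists_least_of_bdd (P := fun z => k + h < z ∧ x z = true)
    ⟨k + h, fun z hz => hz.1.le⟩ ⟨w, hw1, hw2⟩
  have hgap : ∀ m, k + h < m → m < f → x m = false := by
    intro m hm1 hm2
    by_contra hcon
    have := hf3 m ⟨hm1, by simpa using hcon⟩
    omega
  have hfbig : k + h + (t - s + 1) < f := by
    by_contra hcon
    have := hk4 (f - (k + h)) (by omega) (by omega)
    rw [show k + h + (f - (k + h)) = f by ring, hf2] at this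
    exact absurd this (by decide)
  have v1 : (x s, x (s + h), x (s + (t - s))) = (true, true, true) := by
    rw [show s + (t - s) = t by ring, hs2, hs3, ht2]
  have v2 : (x (s + h), x (s + h + h), x (s + h + (t - s))) = (true, false, true) := by
    rw [show s + h + (t - s) = t + h by ring, hs3, hs4 h hh le_rfl, ht3]
  have v3 : (x k, x (k + h), x (k + (t - s))) = (true, true, false) := by
    rw [hk2, hk3, hgap (k + (t - s)) (by omega) (by omega)]
  have v4 : (x (k + h), x (k + h + h), x (k + h + (t - s))) = (true, false, false) := by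
    rw [hk3, hgap (k + h + h) (by omega) (by omega), hgap (k + h + (t - s)) (by omega) (by omega)]
  have v5 : (x (k + h + 1), x (k + h + 1 + h), x (k + h + 1 + (t - s))) =
      (false, false, false) := by
    rw [hgap (k + h + 1) (by omega) (by omega), hgap (k + h + 1 + h) (by omega) (by omega),
      hgap (k + h + 1 + (t - s)) (by omega) (by omega)]
  have v6 : (x (f - (t - s)), x (f - (t - s) + h), x (f - (t - s) + (t - s))) =
      (false, false, true) := by
    rw [sub_add_cancel, hf2, hgap (f - (t - s)) (by omega) (by omega),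
      hgap (f - (t - s) + h) (by omega) (by omega)]
  have v7 : (x (f - h), x (f - h + h), x (f - h + (t - s))) =
      (false, true, x (f - h + (t - s))) := by
    rw [sub_add_cancel, hf2, hgap (f - h) (by omega) (by omega)]
  simp only [Prod.mk.injEq] at v1 v2 v3 v4 v5 v6 v7
  have h3 := hl.three (h1 := h) (h2 := t - s) hh.le (by omega)
    [s, s + h, k, k + h, k + h + 1, f - (t - s), f - h] (by
      intro m hm
      simp only [List.mem_cons, List.not_mem_nil, or_false] at hm
      omega) (by
      simp only [List.map, v1, v2, v3, v4, v5, v6, v7]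
      cases x (f - h + (t - s)) <;> decide)
  simp at h3

/-- the eight patterns argument -/
lemma no_block (hl : Low1 x) (ho : Inf1 x) (hr : Runs x) {h h2 s m2 m3 : ℤ} (hh : 0 < h)
    (hh2 : h < h2) (hs : 1 ≤ s) (hm2 : 1 ≤ m2) (hm3 : 1 ≤ m3)
    (v1 : (x s, x (s + h), x (s + h2), x (s + (h + h2))) = (true, true, true, true))
    (v2 : (x m2, x (m2 + h), x (m2 + h2), x (m2 + (h + h2))) = (true, false, true, false))
    (v3 : (x m3, x (m3 + h), x (m3 + h2), x (m3 + (h + h2))) = (false, true, false, true)) :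
    False := by
  obtain ⟨f, f', hsf, hlen', hf, hf', hgap'⟩ := gap1 ho hr (s + h) (h + h2 + 2)
  have v4 : (x (f + 1), x (f + 1 + h), x (f + 1 + h2), x (f + 1 + (h + h2))) =
      (false, false, false, false) := by
    rw [hgap' (f + 1) (by omega) (by omega), hgap' (f + 1 + h) (by omega) (by omega),
      hgap' (f + 1 + h2) (by omega) (by omega), hgap' (f + 1 + (h + h2)) (by omega) (by omega)]
  have v5 : (x f, x (f + h), x (f + h2), x (f + (h + h2))) = (true, false, false, false) := by
    rw [hf, hgap' (f + h) (by omega) (by omega), hgap' (f + h2) (by omega) (by omega),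
      hgap' (f + (h + h2)) (by omega) (by omega)]
  have v6 : (x (f - h), x (f - h + h), x (f - h + h2), x (f - h + (h + h2))) =
      (x (f - h), true, false, false) := by
    rw [sub_add_cancel, hf, hgap' (f - h + h2) (by omega) (by omega),
      hgap' (f - h + (h + h2)) (by omega) (by omega)]
  have v7 : (x (f' - (h + h2)), x (f' - (h + h2) + h), x (f' - (h + h2) + h2),
      x (f' - (h + h2) + (h + h2))) = (false, false, false, true) := by
    rw [sub_add_cancel, hf', hgap' (f' - (h + h2)) (by omega) (by omega),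
      hgap' (f' - (h + h2) + h) (by omega) (by omega),
      hgap' (f' - (h + h2) + h2) (by omega) (by omega)]
  have v8 : (x (f' - h2), x (f' - h2 + h), x (f' - h2 + h2), x (f' - h2 + (h + h2))) =
      (false, false, true, x (f' - h2 + (h + h2))) := by
    rw [sub_add_cancel, hf', hgap' (f' - h2) (by omega) (by omega),
      hgap' (f' - h2 + h) (by omega) (by omega)]
  simp only [Prod.mk.injEq] at v1 v2 v3 v4 v5 v6 v7 v8
  have ha : x (f - h) = false := by
    by_contra ha
    have ha : x (f - h) = true := by simpa using ha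
    have h3 := hl.three (h1 := h) (h2 := h2) (by omega) (by omega)
      [s, m2, m3, f + 1, f, f - h, f' - h2] (by
        intro m hm
        simp only [List.mem_cons, List.not_mem_nil, or_false] at hm
        omega) (by
        simp only [List.map, v1, v2, v3, v4, v5, v6, v8, ha]
        decide)
    simp at h3
  have key : ∀ m, 1 ≤ m → x m = true → x (m + h) = true → x (m + h2) = true ∧
      x (m + h2 + h) = true := by
    intro m hm1 hm hmh
    by_contra hcon
    have hcon' : ¬ (x (m + h2) = true ∧ x (m + (h + h2)) = true) := by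
      rwa [show m + (h + h2) = m + h2 + h by ring]
    have h3 := hl.four (h1 := h) (h2 := h2) (by omega) (by omega)
      [m, s, m2, m3, f + 1, f, f - h, f' - (h + h2), f' - h2] (by
        intro n hn
        simp only [List.mem_cons, List.not_mem_nil, or_false] at hn
        omega) (by
        simp only [List.map, v1, v2, v3, v4, v5, v6, v7, v8, ha, hm, hmh]
        cases hb : x (f' - h2 + (h + h2)) <;> cases hc : x (m + h2) <;>
          cases hd : x (m + (h + h2)) <;> simp_all)
    simp at h3
  have hall : ∀ j : ℕ, x (s + j * h2) = true ∧ x (s + j * h2 + h) = true := by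
    intro j
    induction j with
    | zero => simpa using ⟨v1.1, v1.2.1⟩
    | succ j ih =>
      have := key _ (by nlinarith [Int.natCast_nonneg j]) ih.1 ih.2
      rw [show s + ((j + 1 : ℕ) : ℤ) * h2 = s + j * h2 + h2 by push_cast; ring]
      exact this
  have hpos : 0 < h2 := by omega
  set j := (f - s) / h2 + 1 with hj
  have hj0 : 0 ≤ (f - s) / h2 := Int.ediv_nonneg (by omega) hpos.le
  have h5 := hall j.toNat
  rw [Int.toNat_of_nonneg (by omega)] at h5
  have h6 : f - s < j * h2 := by
    rw [hj]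
    exact Int.lt_ediv_add_one_mul_self _ hpos
  have h7 : (f - s) / h2 * h2 ≤ f - s := Int.ediv_mul_le _ hpos.ne'
  have h8 : j * h2 = (f - s) / h2 * h2 + h2 := by rw [hj]; ring
  rw [hgap' (s + j * h2) (by omega) (by omega)] at h5
  exact absurd h5.1 (by decide)

/-- two far apart places with the same pattern among infinitely many places -/
lemma exists_same (F : Finset ℤ) (h : ℤ) (Q : ℤ → Prop) (hQ : ∀ C, ∃ s, C < s ∧ Q s) (C : ℤ) :
    ∃ s t, C < s ∧ s + h < t ∧ Q s ∧ Q t ∧ Eqv x F s t := by
  classical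
  choose g hg1 hg2 using hQ
  let u : ℕ → ℤ := fun n => Nat.rec (g C) (fun _ a => g (a + |h|)) n
  have hu : ∀ n, u (n + 1) = g (u n + |h|) := fun n => rfl
  have hstep : ∀ n, u n + |h| < u (n + 1) := fun n => by rw [hu]; exact hg1 _
  have hmono : ∀ i j : ℕ, i < j → u i + |h| < u j := by
    intro i j hij
    induction j with
    | zero => omega
    | succ j ih =>
      have := hstep j
      rcases Nat.lt_succ_iff_lt_or_eq.mp hij with h1 | h1
      · have := ih h1
        have := abs_nonneg h
        omega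
      · rw [h1]; exact this
  have hQu : ∀ n, Q (u n) := by
    intro n
    cases n with
    | zero => exact hg2 C
    | succ n => rw [hu]; exact hg2 _
  have hC : ∀ n, C < u n := by
    intro n
    induction n with
    | zero => exact hg1 C
    | succ n ih =>
      have := hstep n
      have := abs_nonneg h
      omega
  obtain ⟨i, j, hij, he⟩ := Finite.exists_ne_map_eq_of_infinite
    (fun n : ℕ => fun k : F => x (u n + k))
  have hE : Eqv x F (u i) (u j) := fun k hk => congrFun he ⟨k, hk⟩
  have hle := le_abs_self h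
  rcases lt_or_gt_of_ne hij with h1 | h1
  · refine ⟨u i, u j, hC i, ?_, hQu i, hQu j, hE⟩
    have := hmono i j h1
    omega
  · refine ⟨u j, u i, hC j, ?_, hQu j, hQu i, fun k hk => (hE k hk).symm⟩
    have := hmono j i h1
    omega

/-- R4 -/
theorem sparse_of_runs (hl : Low1 x) (ho : ∀ C : ℤ, ∃ n, C < n ∧ x n = true)
    (hr : ∀ C K : ℤ, ∃ n, C < n ∧ ∀ i, 0 ≤ i → i < K → x (n + i) = false) : Sparse x := by
  refine ⟨ho, fun h hh => ?_⟩
  by_contra hcon
  push Not at hcon
  -- pairs are not followed by long gaps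
  have hG : ∃ C G : ℤ, ∀ s, C < s → x s = true → x (s + h) = true →
      ∃ i, 0 < i ∧ i ≤ G ∧ x (s + h + i) = true := by
    by_contra hno
    apply no_pair_long hl ho hh
    intro C G
    push Not at hno
    obtain ⟨s, h1, h2, h3, h4⟩ := hno C G
    exact ⟨s, h1, h2, h3, fun i hi1 hi2 => by
      have := h4 i hi1 hi2
      simpa using this⟩
  obtain ⟨C0, G, hG⟩ := hG
  -- last pairs before long runs
  have hQ : ∀ C, ∃ s, C < s ∧ (C0 < s ∧ x s = true ∧ x (s + h) = true ∧
      ∀ s', s < s' → s' < s + max h G + 1 → ¬ (x s' = true ∧ x (s' + h) = true)) := by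
    intro C
    obtain ⟨s0, h1, h2, h3⟩ := hcon (max C C0)
    obtain ⟨n, hn, hrun⟩ := hr s0 (max h G + 1)
    obtain ⟨s, ⟨hs1, hs2, hs3⟩, hs4⟩ := Int.exists_greatest_of_bdd
      (P := fun z => z < n ∧ x z = true ∧ x (z + h) = true)
      ⟨n, fun z hz => hz.1.le⟩ ⟨s0, hn, h2, h3⟩
    have h5 := hs4 s0 ⟨hn, h2, h3⟩
    refine ⟨s, by omega, by omega, hs2, hs3, fun s' hs1' hs2' hs3' => ?_⟩
    rcases lt_or_ge s' n with h6 | h6
    · have := hs4 s' ⟨h6, hs3'⟩
      omega
    · have := hrun (s' - n) (by omega) (by omega)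
      rw [show n + (s' - n) = s' by ring, hs3'.1] at this
      exact absurd this (by decide)
  obtain ⟨s, t, hs1, hst, ⟨hs2, hs3, hs4, hs5⟩, ⟨ht2, ht3, ht4, ht5⟩, hE⟩ :=
    exists_same (x := x) (Finset.Icc 0 (2 * h + |G|)) h _ hQ 1
  have hE' : ∀ i, 0 ≤ i → i ≤ 2 * h + |G| → x (s + i) = x (t + i) := fun i h1 h2 =>
    hE i (Finset.mem_Icc.mpr ⟨h1, h2⟩)
  obtain ⟨g, hg1, hg2, hg3⟩ := hG s hs2 hs3 hs4
  have hGa := le_abs_self G
  have hGn := abs_nonneg G
  have hs2h : x (s + h + h) = false := by
    have := hs5 (s + h) (by omega) (by omega)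
    simp only [hs4, true_and] at this
    simpa using this
  have hsg : x (s + g) = false := by
    have := hs5 (s + g) (by omega) (by omega)
    rw [show s + g + h = s + h + g by ring, hg3] at this
    simpa using this
  refine no_block hl ho hr (h := h) (h2 := t - s) (s := s) (m2 := s + h) (m3 := s + g) hh
    (by omega) (by omega) (by omega) (by omega) ?_ ?_ ?_
  · rw [show s + (t - s) = t by ring, show s + (h + (t - s)) = t + h by ring, hs3, hs4, ht3, ht4]
  · have e1 := hE' (h + h) (by omega) (by omega)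
    rw [show s + (h + h) = s + h + h by ring, hs2h] at e1
    rw [show s + h + (t - s) = t + h by ring, show s + h + (h + (t - s)) = t + (h + h) by ring,
      hs4, hs2h, ht4, ← e1]
  · have e1 := hE' g (by omega) (by omega)
    have e2 := hE' (h + g) (by omega) (by omega)
    rw [hsg] at e1
    rw [show s + (h + g) = s + h + g by ring, hg3] at e2
    rw [show s + g + (t - s) = t + g by ring, show s + g + (h + (t - s)) = t + (h + g) by ring,
      show s + g + h = s + h + g by ring, hsg, hg3, ← e1, ← e2]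

/-- the word on a class modulo `q` -/
def cls (x : ℤ → Bool) (q r : ℤ) : ℤ → Bool := fun j => x (r + j * q)

lemma Low1.cls (hl : Low1 x) {q r : ℤ} (hq : 0 < q) (hr : 0 ≤ r) : Low1 (cls x q r) := by
  classical
  intro K T hK hK0 hT0 hI
  have hinjK : Function.Injective fun k : ℤ => k * q := fun a b h => by
    have h' : a * q = b * q := h
    exact mul_right_cancel₀ hq.ne' h'
  have hinjT : Function.Injective fun k : ℤ => r + k * q := fun a b h => by
    have h' : r + a * q = r + b * q := h
    exact mul_right_cancel₀ hq.ne' (add_left_cancel h')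
  have h := hl (K.image fun k => k * q) (T.image fun m => r + m * q) (hK.image _) ?_ ?_ ?_
  · rwa [Finset.card_image_of_injective _ hinjK, Finset.card_image_of_injective _ hinjT] at h
  · intro k hk
    rw [Finset.mem_image] at hk
    obtain ⟨k', hk', rfl⟩ := hk
    exact mul_nonneg (hK0 k' hk') hq.le
  · intro m hm
    rw [Finset.mem_image] at hm
    obtain ⟨m', hm', rfl⟩ := hm
    have := hT0 m' hm'
    nlinarith
  · intro m hm m' hm' he
    rw [Finset.mem_image] at hm hm'
    obtain ⟨a, ha, rfl⟩ := hm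
    obtain ⟨b, hb, rfl⟩ := hm'
    rw [hI a ha b hb (fun k hk => ?_)]
    have := he (k * q) (Finset.mem_image_of_mem _ hk)
    simp only [NR.cls]
    rw [show r + (a + k) * q = r + a * q + k * q by ring,
      show r + (b + k) * q = r + b * q + k * q by ring]
    exact this

lemma Low1.not (hl : Low1 x) : Low1 (fun n => !x n) := by
  intro K T hK hK0 hT0 hI
  refine hl K T hK hK0 hT0 fun m hm m' hm' he => hI m hm m' hm' fun k hk => ?_
  simp only [he k hk]

/-- a word cannot have long runs of both letters -/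
lemma no_two_runs (hl : Low1 x) (h0 : Runs x) (h1 : Runs (fun n => !x n)) : False := by
  have i1 : Inf1 x := fun C => by
    obtain ⟨n, hn, h⟩ := h1 C 1
    refine ⟨n, hn, ?_⟩
    have := h 0 le_rfl one_pos
    simpa using this
  have i0 : Inf1 (fun n => !x n) := fun C => by
    obtain ⟨n, hn, h⟩ := h0 C 1
    refine ⟨n, hn, ?_⟩
    have := h 0 le_rfl one_pos
    simpa using this
  obtain ⟨a, ha, hxa⟩ := i0 0
  obtain ⟨b, hb, hxb⟩ := i1 a
  obtain ⟨c, hc, hxc⟩ := i0 b
  have hxa : x a = false := by simpa using hxa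
  have hxc : x c = false := by simpa using hxc
  obtain ⟨f, f', hf1, hf2, hf3, hf4, hf5⟩ := gap1 i1 h0 1 (c - a + 2)
  obtain ⟨u, u', hu1, hu2, hu3, hu4, hu5⟩ := gap1 i0 h1 1 (c - a + 2)
  have hu3 : x u = false := by simpa using hu3
  have hu4 : x u' = false := by simpa using hu4
  have hu5 : ∀ m, u < m → m < u' → x m = true := fun m h1 h2 => by
    have := hu5 m h1 h2
    simpa using this
  have v1 : (x a, x (a + (b - a)), x (a + (c - a))) = (false, true, false) := by
    rw [show a + (b - a) = b by ring, show a + (c - a) = c by ring, hxa, hxb, hxc]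
  have v2 : (x f, x (f + (b - a)), x (f + (c - a))) = (true, false, false) := by
    rw [hf3, hf5 (f + (b - a)) (by omega) (by omega), hf5 (f + (c - a)) (by omega) (by omega)]
  have v3 : (x (f + 1), x (f + 1 + (b - a)), x (f + 1 + (c - a))) = (false, false, false) := by
    rw [hf5 (f + 1) (by omega) (by omega), hf5 (f + 1 + (b - a)) (by omega) (by omega),
      hf5 (f + 1 + (c - a)) (by omega) (by omega)]
  have v4 : (x (f' - (c - a)), x (f' - (c - a) + (b - a)), x (f' - (c - a) + (c - a))) =
      (false, false, true) := by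
    rw [sub_add_cancel, hf4, hf5 (f' - (c - a)) (by omega) (by omega),
      hf5 (f' - (c - a) + (b - a)) (by omega) (by omega)]
  have v5 : (x u, x (u + (b - a)), x (u + (c - a))) = (false, true, true) := by
    rw [hu3, hu5 (u + (b - a)) (by omega) (by omega), hu5 (u + (c - a)) (by omega) (by omega)]
  have v6 : (x (u + 1), x (u + 1 + (b - a)), x (u + 1 + (c - a))) = (true, true, true) := by
    rw [hu5 (u + 1) (by omega) (by omega), hu5 (u + 1 + (b - a)) (by omega) (by omega),
      hu5 (u + 1 + (c - a)) (by omega) (by omega)]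
  have v7 : (x (u' - (c - a)), x (u' - (c - a) + (b - a)), x (u' - (c - a) + (c - a))) =
      (true, true, false) := by
    rw [sub_add_cancel, hu4, hu5 (u' - (c - a)) (by omega) (by omega),
      hu5 (u' - (c - a) + (b - a)) (by omega) (by omega)]
  simp only [Prod.mk.injEq] at v1 v2 v3 v4 v5 v6 v7
  have h3 := hl.three (h1 := b - a) (h2 := c - a) (by omega) (by omega)
    [a, f, f + 1, f' - (c - a), u, u + 1, u' - (c - a)] (by
      intro m hm
      simp only [List.mem_cons, List.not_mem_nil, or_false] at hm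
      omega) (by
      simp only [List.map, v1, v2, v3, v4, v5, v6, v7]
      decide)
  simp at h3

/-- a sparse class forces the same background on all classes -/
lemma no_mixed (hl : Low1 x) {q r r' : ℤ} (hq : 0 < q) (hr : 0 ≤ r) (hr' : 0 ≤ r')
    (hruns : Runs (cls x q r)) (hsp : Sparse (cls x q r))
    (hr1 : Runs (fun j => !cls x q r' j)) : False := by
  obtain ⟨hinf, hsp⟩ := hsp
  obtain ⟨d1, hd1, hz1⟩ := hinf 1
  obtain ⟨d2, hd2, hz2⟩ := hinf d1
  obtain ⟨Ca, hCa⟩ := hsp (d2 - d1) (by omega)
  obtain ⟨d3, hd3, hz3⟩ := hinf (|d2| + |Ca| + |d2 - d1| + 1)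
  have e1 := le_abs_self d2
  have e2 := le_abs_self Ca
  have e3 := le_abs_self (d2 - d1)
  have e4 := abs_nonneg d2
  have e5 := abs_nonneg Ca
  have e6 := abs_nonneg (d2 - d1)
  obtain ⟨Cd, hCd⟩ := hsp (d3 - d2) (by omega)
  obtain ⟨d4, hd4, hz4⟩ := hinf (|d3| + |Cd| + |d3 - d2|)
  have e7 := le_abs_self d3
  have e8 := le_abs_self Cd
  have e9 := le_abs_self (d3 - d2)
  have e10 := abs_nonneg Cd
  have e11 := abs_nonneg (d3 - d2)
  have e12 := abs_nonneg d3
  set A : ℤ := d2 - d1 with hA
  set B : ℤ := A + (d4 - d3) with hB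
  have hA0 : 0 < A := by omega
  have hAB : A < B := by omega
  obtain ⟨Cb, hCb⟩ := hsp B (by omega)
  obtain ⟨Cc, hCc⟩ := hsp (B - A) (by omega)
  obtain ⟨s, hs, hzs⟩ := hinf (|Ca| + |Cb| + |Cc| + B + 1)
  have e13 := le_abs_self Cb
  have e14 := le_abs_self Cc
  have e15 := abs_nonneg Cb
  have e16 := abs_nonneg Cc
  obtain ⟨n, hn, hnr⟩ := hruns 1 (B + 1)
  obtain ⟨n', hn', hnr'⟩ := hr1 1 (B + 1)
  have hv : ∀ m, (x (r + m * q), x (r + m * q + A * q), x (r + m * q + B * q)) =
      (cls x q r m, cls x q r (m + A), cls x q r (m + B)) := by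
    intro m
    simp only [cls]
    rw [show r + m * q + A * q = r + (m + A) * q by ring,
      show r + m * q + B * q = r + (m + B) * q by ring]
  have hv' : (x (r' + n' * q), x (r' + n' * q + A * q), x (r' + n' * q + B * q)) =
      (true, true, true) := by
    have h1 := hnr' 0 le_rfl (by omega)
    have h2 := hnr' A hA0.le (by omega)
    have h3 := hnr' B (by omega) (by omega)
    simp only [cls, Bool.not_eq_false'] at h1 h2 h3
    rw [add_zero] at h1
    rw [show r' + n' * q + A * q = r' + (n' + A) * q by ring,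
      show r' + n' * q + B * q = r' + (n' + B) * q by ring, h1, h2, h3]
  have hF : ∀ m, ¬ (cls x q r m = true) → cls x q r m = false := fun m h => by simpa using h
  have p1 : (cls x q r d1, cls x q r (d1 + A), cls x q r (d1 + B)) = (true, true, false) := by
    have : cls x q r (d1 + B) = false := hF _ fun h => hCd (d1 + B) (by omega)
      ⟨h, by rw [show d1 + B + (d3 - d2) = d4 by omega]; exact hz4⟩
    rw [hz1, show d1 + A = d2 by omega, hz2, this]
  have p2 : (cls x q r (d3 - A), cls x q r (d3 - A + A), cls x q r (d3 - A + B)) =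
      (false, true, true) := by
    have : cls x q r (d3 - A) = false := hF _ fun h => hCa (d3 - A) (by omega)
      ⟨h, by rw [sub_add_cancel]; exact hz3⟩
    rw [this, sub_add_cancel, hz3, show d3 - A + B = d4 by omega, hz4]
  have p3 : (cls x q r s, cls x q r (s + A), cls x q r (s + B)) = (true, false, false) := by
    have h1 : cls x q r (s + A) = false := hF _ fun h => hCa s (by omega) ⟨hzs, h⟩
    have h2 : cls x q r (s + B) = false := hF _ fun h => hCb s (by omega) ⟨hzs, h⟩
    rw [hzs, h1, h2]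
  have p4 : (cls x q r (s - A), cls x q r (s - A + A), cls x q r (s - A + B)) =
      (false, true, false) := by
    have h1 : cls x q r (s - A) = false := hF _ fun h => hCa (s - A) (by omega)
      ⟨h, by rw [sub_add_cancel]; exact hzs⟩
    have h2 : cls x q r (s - A + B) = false := hF _ fun h => hCc s (by omega)
      ⟨hzs, by rw [show s + (B - A) = s - A + B by ring]; exact h⟩
    rw [h1, sub_add_cancel, hzs, h2]
  have p5 : (cls x q r (s - B), cls x q r (s - B + A), cls x q r (s - B + B)) =
      (false, false, true) := by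
    have h1 : cls x q r (s - B) = false := hF _ fun h => hCb (s - B) (by omega)
      ⟨h, by rw [sub_add_cancel]; exact hzs⟩
    have h2 : cls x q r (s - B + A) = false := hF _ fun h => hCc (s - B + A) (by omega)
      ⟨h, by rw [show s - B + A + (B - A) = s by ring]; exact hzs⟩
    rw [h1, sub_add_cancel, hzs, h2]
  have p6 : (cls x q r n, cls x q r (n + A), cls x q r (n + B)) = (false, false, false) := by
    have h0 := hnr 0 le_rfl (by omega)
    rw [add_zero] at h0
    rw [h0, hnr A (by omega) (by omega), hnr B (by omega) (by omega)]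
  rw [← hv] at p1 p2 p3 p4 p5 p6
  simp only [Prod.mk.injEq] at p1 p2 p3 p4 p5 p6 hv'
  have hpos : ∀ r m : ℤ, 0 ≤ r → 1 ≤ m → 1 ≤ r + m * q := fun r m h1 h2 => by nlinarith
  have h3 := hl.three (h1 := A * q) (h2 := B * q) (by positivity) (by nlinarith)
    [r + d1 * q, r + (d3 - A) * q, r + s * q, r + (s - A) * q, r + (s - B) * q, r + n * q,
      r' + n' * q] (by
      intro m hm
      simp only [List.mem_cons, List.not_mem_nil, or_false] at hm
      rcases hm with rfl | rfl | rfl | rfl | rfl | rfl | rfl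
      · exact hpos _ _ hr (by omega)
      · exact hpos _ _ hr (by omega)
      · exact hpos _ _ hr (by omega)
      · exact hpos _ _ hr (by omega)
      · exact hpos _ _ hr (by omega)
      · exact hpos _ _ hr (by omega)
      · exact hpos _ _ hr' (by omega)) (by
      simp only [List.map, p1, p2, p3, p4, p5, p6, hv']
      decide)
  simp at h3

/-- a common phase for the long pieces of a periodic word -/
lemma per_phase (hy : RHull x y) {q : ℤ} (hq : 0 < q) (hp : ∀ m, y (m + q) = y m) :
    ∃ z : ℤ → Bool, (∀ m, z (m + q) = z m) ∧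
      ∀ C L : ℤ, ∃ n, C < n ∧ ∀ i, 0 ≤ i → i < L → x (n + i) = z (n + i) := by
  classical
  by_contra hcon
  push Not at hcon
  have h1 : ∀ ρ : ℤ, ∃ C L : ℤ, ∀ n, C < n → ∃ i, 0 ≤ i ∧ i < L ∧ x (n + i) ≠ y (n + i - ρ) := by
    intro ρ
    refine hcon (fun m => y (m - ρ)) fun m => ?_
    rw [show m + q - ρ = m - ρ + q by ring]
    exact hp _
  choose C L hCL using h1
  obtain ⟨h, hh, hx⟩ := hy 0 (∑ ρ ∈ Finset.Ico 0 q, |L ρ|) (∑ ρ ∈ Finset.Ico 0 q, |C ρ|)
  have hρ : h % q ∈ Finset.Ico 0 q :=
    Finset.mem_Ico.mpr ⟨Int.emod_nonneg _ hq.ne', Int.emod_lt_of_pos _ hq⟩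
  have hC := Finset.single_le_sum (f := fun ρ => |C ρ|) (fun ρ _ => abs_nonneg _) hρ
  have hL := Finset.single_le_sum (f := fun ρ => |L ρ|) (fun ρ _ => abs_nonneg _) hρ
  have e1 := le_abs_self (C (h % q))
  have e2 := le_abs_self (L (h % q))
  obtain ⟨i, hi0, hi1, hi2⟩ := hCL (h % q) h (by omega)
  apply hi2
  have h2 := hx i hi0 (by omega)
  rw [show h + i = i + h by ring, h2]
  have hper : Function.Periodic y q := hp
  have h3 := hper.int_mul (h / q) i
  have h4 := Int.emod_add_mul_ediv h q
  rw [← h3]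
  congr 1
  push_cast
  linarith

lemma runs_cls {z : ℤ → Bool} {q : ℤ} (hq : 0 < q) (hz : ∀ m, z (m + q) = z m)
    (hP : ∀ C L : ℤ, ∃ n, C < n ∧ ∀ i, 0 ≤ i → i < L → x (n + i) = z (n + i)) {r : ℤ}
    (hzr : z r = false) : Runs (cls x q r) := by
  intro C K
  obtain ⟨n, hn, h⟩ := hP (r + |C| * q) ((|K| + 1) * q)
  have hper : Function.Periodic z q := hz
  have h1 : (n - r) / q * q ≤ n - r := Int.ediv_mul_le _ hq.ne'
  have h2 : n - r < ((n - r) / q + 1) * q := Int.lt_ediv_add_one_mul_self _ hq
  refine ⟨(n - r) / q + 1, ?_, fun i hi0 hi1 => ?_⟩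
  · have h3 : |C| * q < ((n - r) / q + 1) * q := by linarith
    have h4 : |C| < (n - r) / q + 1 := lt_of_mul_lt_mul_right h3 hq.le
    have := le_abs_self C
    omega
  · have hK := le_abs_self K
    have hiK : i + 1 ≤ |K| := by omega
    have h5 : (i + 1) * q ≤ |K| * q := mul_le_mul_of_nonneg_right hiK hq.le
    have h6 := h (r + ((n - r) / q + 1 + i) * q - n) (by nlinarith) (by nlinarith)
    rw [show n + (r + ((n - r) / q + 1 + i) * q - n) = r + ((n - r) / q + 1 + i) * q by ring] at h6
    simp only [cls]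
    rw [h6, ← hzr]
    have h7 := hper.int_mul ((n - r) / q + 1 + i) r
    simpa using h7

lemma per_half (hl : Low1 x) {z : ℤ → Bool} {q : ℤ} (hq : 0 < q) (hz : ∀ m, z (m + q) = z m)
    (hP : ∀ C L : ℤ, ∃ n, C < n ∧ ∀ i, 0 ≤ i → i < L → x (n + i) = z (n + i)) {r : ℤ}
    (hr : 0 ≤ r) (hzr : z r = false) (hinf : Inf1 (cls x q r)) : Sparse x := by
  have hruns := runs_cls hq hz hP hzr
  have hsp : Sparse (cls x q r) := sparse_of_runs (hl.cls hq hr) hinf hruns
  have hall : ∀ r', 0 ≤ r' → z r' = false := by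
    intro r' hr'
    by_contra hcon
    have hcon : z r' = true := by simpa using hcon
    refine no_mixed hl hq hr hr' hruns hsp ?_
    have := runs_cls (x := fun n => !x n) (z := fun n => !z n) hq (fun m => by simp only [hz])
      (fun C L => by
        obtain ⟨n, h1, h2⟩ := hP C L
        exact ⟨n, h1, fun i h3 h4 => by simp only [h2 i h3 h4]⟩) (r := r') (by simp [hcon])
    exact this
  refine sparse_of_runs hl ?_ ?_
  · intro C
    obtain ⟨j, hj, hj2⟩ := hinf |C|
    refine ⟨r + j * q, ?_, hj2⟩
    have h1 := le_abs_self C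
    have h2 := abs_nonneg C
    nlinarith
  · intro C K
    obtain ⟨n, h1, h2⟩ := hP |C| K
    have h3 := le_abs_self C
    have h4 := abs_nonneg C
    refine ⟨n, by omega, fun i hi0 hi1 => ?_⟩
    rw [h2 i hi0 hi1]
    exact hall _ (by omega)

/-- R5 -/
theorem per_case (hl : Low1 x) (hn : NUP x) (hy : RHull x y)
    (hp : ∃ q : ℤ, 0 < q ∧ ∀ m, y (m + q) = y m) : Sparse x ∨ Sparse (fun n => !x n) := by
  obtain ⟨q, hq, hp⟩ := hp
  obtain ⟨z, hz, hP⟩ := per_phase hy hq hp
  by_cases hA : ∃ r, 0 ≤ r ∧ z r = false ∧ Inf1 (cls x q r)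
  · obtain ⟨r, hr, hzr, hinf⟩ := hA
    exact Or.inl (per_half hl hq hz hP hr hzr hinf)
  by_cases hB : ∃ r, 0 ≤ r ∧ z r = true ∧ Inf1 (fun j => !cls x q r j)
  · obtain ⟨r, hr, hzr, hinf⟩ := hB
    refine Or.inr (per_half (x := fun n => !x n) (z := fun n => !z n) hl.not hq
      (fun m => by simp only [hz]) (fun C L => ?_) hr (by simp [hzr]) hinf)
    obtain ⟨n, h1, h2⟩ := hP C L
    exact ⟨n, h1, fun i h3 h4 => by simp only [h2 i h3 h4]⟩
  exfalso
  have hev : ∀ r, ∃ C, 0 ≤ r → ∀ j, C < j → x (r + j * q) = z r := by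
    intro r
    by_cases hr : 0 ≤ r
    · cases hzr : z r
      · have h1 : ¬ Inf1 (cls x q r) := fun h => hA ⟨r, hr, hzr, h⟩
        unfold Inf1 at h1
        push Not at h1
        obtain ⟨C, hC⟩ := h1
        exact ⟨C, fun _ j hj => by have := hC j hj; simpa [cls] using this⟩
      · have h1 : ¬ Inf1 (fun j => !cls x q r j) := fun h => hB ⟨r, hr, hzr, h⟩
        unfold Inf1 at h1
        push Not at h1
        obtain ⟨C, hC⟩ := h1
        exact ⟨C, fun _ j hj => by have := hC j hj; simpa [cls] using this⟩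
    · exact ⟨0, fun h => absurd h hr⟩
  choose C hC using hev
  obtain ⟨n, hn1, hn2⟩ := hn q ((∑ ρ ∈ Finset.Ico 0 q, |C ρ|) * q + q) hq
  have hρ : n % q ∈ Finset.Ico 0 q :=
    Finset.mem_Ico.mpr ⟨Int.emod_nonneg _ hq.ne', Int.emod_lt_of_pos _ hq⟩
  have hCs := Finset.single_le_sum (f := fun ρ => |C ρ|) (fun ρ _ => abs_nonneg _) hρ
  have e1 := le_abs_self (C (n % q))
  have e2 := Int.emod_add_mul_ediv n q
  have e3 := Int.emod_lt_of_pos n hq
  have e4 : (∑ ρ ∈ Finset.Ico 0 q, |C ρ|) < n / q := by
    have : (∑ ρ ∈ Finset.Ico 0 q, |C ρ|) * q < (n / q) * q := by nlinarith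
    exact lt_of_mul_lt_mul_right this hq.le
  have h1 := hC (n % q) (Int.emod_nonneg _ hq.ne') (n / q) (by omega)
  have h2 := hC (n % q) (Int.emod_nonneg _ hq.ne') (n / q + 1) (by omega)
  apply hn2
  rw [show n + q = n % q + (n / q + 1) * q by linarith, h2, ← h1]
  congr 1
  linarith

end Pool.Agent.PatSturm.NR
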