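import Mathlib
import Pool.Agent.PatSturm.NRDefs

/-!
R6: counting patterns of sparse words.
-/

set_option autoImplicit false

namespace Pool.Agent.PatSturm.NR

open Pool.Agent.PatSturm Pool.Agent.Helper434.PCDefs

variable {x y : ℤ → Bool}

/-- the trace of `m` on `K` has at least two elements -/
def Multi (x : ℤ → Bool) (K : Finset ℤ) (m : ℤ) : Prop :=
  ∃ k ∈ K, ∃ l ∈ K, k ≠ l ∧ x (m + k) = true ∧ x (m + l) = true

/-- beyond a certain place two ones are far apart -/
lemma Sparse.far (hs : Sparse x) (B : ℤ) : ∃ C : ℤ, ∀ m n, C < m → C < n → x m = true →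
    x n = true → m ≠ n → B < |m - n| := by
  classical
  have key : ∀ B : ℕ, ∃ C : ℤ, ∀ h, 0 < h → h ≤ (B : ℤ) → ∀ n, C < n →
      ¬ (x n = true ∧ x (n + h) = true) := by
    intro B
    induction B with
    | zero => exact ⟨0, fun h h1 h2 => by push_cast at h2; omega⟩
    | succ B ih =>
      obtain ⟨C, hC⟩ := ih
      obtain ⟨C', hC'⟩ := hs.2 ((B : ℤ) + 1) (by positivity)
      refine ⟨max C C', fun h h1 h2 n hn => ?_⟩
      rcases lt_or_ge (B : ℤ) h with h3 | h3
      · have : h = (B : ℤ) + 1 := by push_cast at h2; omega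
        subst this
        exact hC' n (lt_of_le_of_lt (le_max_right _ _) hn)
      · exact hC h h1 h3 n (lt_of_le_of_lt (le_max_left _ _) hn)
  obtain ⟨C, hC⟩ := key B.toNat
  refine ⟨C, fun m n hm hn hxm hxn hne => ?_⟩
  by_contra hcon
  push Not at hcon
  have hcon' : |m - n| ≤ (B.toNat : ℤ) := hcon.trans (Int.self_le_toNat B)
  rcases lt_or_gt_of_ne hne with h | h
  · rw [abs_of_neg (by omega)] at hcon'
    apply hC (n - m) (by omega) (by omega) m hm
    rw [show m + (n - m) = n by ring]
    exact ⟨hxm, hxn⟩
  · rw [abs_of_pos (by omega)] at hcon'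
    apply hC (m - n) (by omega) (by omega) n hn
    rw [show n + (m - n) = m by ring]
    exact ⟨hxn, hxm⟩

/-- adding the empty trace and the singletons -/
lemma add_small (hs : Sparse x) {K T : Finset ℤ} (hK : K.Nonempty) (hT1 : ∀ m ∈ T, 1 ≤ m)
    (hT : Indep x K T) (hT2 : ∀ m ∈ T, Multi x K m) :
    ∃ T' : Finset ℤ, (∀ m ∈ T', 1 ≤ m) ∧ Indep x K T' ∧ T'.card = T.card + K.card + 1 := by
  classical
  obtain ⟨B, hB0, hB⟩ := exists_bounds K
  obtain ⟨C, hC⟩ := hs.far (2 * B + 2)
  obtain ⟨n0, hn0, hxn0⟩ := hs.1 (max C 0 + 3 * B + 3)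
  obtain ⟨k0, hk0⟩ := hK
  have hmax : C ≤ max C 0 := le_max_left _ _
  have hmax' : 0 ≤ max C 0 := le_max_right _ _
  have hiso : ∀ j, j ≠ 0 → |j| ≤ 2 * B + 2 → x (n0 + j) = false := by
    intro j hj hjB
    by_contra hcon
    have hxj : x (n0 + j) = true := by simpa using hcon
    have h2 := abs_le.mp hjB
    have h1 := hC (n0 + j) n0 (by omega) (by omega) hxj hxn0 (by omega)
    rw [show n0 + j - n0 = j by ring] at h1
    omega
  -- singletons
  have hsing : ∀ k ∈ K, ∀ l ∈ K, (x (n0 - k + l) = true ↔ l = k) := by
    intro k hk l hl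
    have h1 := hB k hk
    have h2 := hB l hl
    constructor
    · intro h
      by_contra hne
      have := hiso (l - k) (by omega) (by rw [abs_le]; omega)
      rw [show n0 + (l - k) = n0 - k + l by ring, h] at this
      exact absurd this (by decide)
    · rintro rfl
      rw [sub_add_cancel]; exact hxn0
  -- the empty trace
  have hempty : ∀ l ∈ K, x (n0 + (B + 1) + l) = false := by
    intro l hl
    have h2 := hB l hl
    have := hiso (B + 1 + l) (by omega) (by rw [abs_le]; omega)
    rwa [show n0 + (B + 1 + l) = n0 + (B + 1) + l by ring] at this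
  set T1 := K.image fun k => n0 - k with hT1'
  set e := n0 + (B + 1) with he
  have heT1 : e ∉ T1 := by
    intro h
    obtain ⟨k, hk, hke⟩ := Finset.mem_image.mp h
    have := hB k hk
    omega
  have hTe : e ∉ T := by
    intro h
    obtain ⟨k, hk, l, hl, -, h1, -⟩ := hT2 e h
    rw [hempty k hk] at h1
    exact absurd h1 (by decide)
  have hTT1 : Disjoint T T1 := by
    rw [Finset.disjoint_left]
    intro m hm hm'
    obtain ⟨k, hk, rfl⟩ := Finset.mem_image.mp hm'
    obtain ⟨i, hi, j, hj, hij, h1, h2⟩ := hT2 _ hm
    have e1 := (hsing k hk i hi).mp h1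
    have e2 := (hsing k hk j hj).mp h2
    exact hij (e1.trans e2.symm)
  refine ⟨insert e (T ∪ T1), ?_, ?_, ?_⟩
  · intro m hm
    rw [Finset.mem_insert, Finset.mem_union] at hm
    rcases hm with rfl | hm | hm
    · omega
    · exact hT1 m hm
    · obtain ⟨k, hk, rfl⟩ := Finset.mem_image.mp hm
      have := hB k hk
      omega
  · -- classes: number of ones
    have c0 : ∀ m ∈ T, ∀ n ∈ T1, ¬ Eqv x K m n := by
      intro m hm n hn hE
      obtain ⟨k, hk, rfl⟩ := Finset.mem_image.mp hn
      obtain ⟨i, hi, j, hj, hij, h1, h2⟩ := hT2 _ hm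
      rw [hE i hi] at h1
      rw [hE j hj] at h2
      exact hij (((hsing k hk i hi).mp h1).trans ((hsing k hk j hj).mp h2).symm)
    have c1 : ∀ m ∈ T, ¬ Eqv x K m e := by
      intro m hm hE
      obtain ⟨i, hi, j, hj, hij, h1, h2⟩ := hT2 _ hm
      rw [hE i hi, hempty i hi] at h1
      exact absurd h1 (by decide)
    have c2 : ∀ m ∈ T1, ¬ Eqv x K m e := by
      intro m hm hE
      obtain ⟨k, hk, rfl⟩ := Finset.mem_image.mp hm
      have := hE k hk
      rw [(hsing k hk k hk).mpr rfl, hempty k hk] at this
      exact absurd this (by decide)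
    have symm : ∀ m n, Eqv x K m n → Eqv x K n m := fun m n h i hi => (h i hi).symm
    intro m hm n hn hE
    rw [Finset.mem_insert, Finset.mem_union] at hm hn
    rcases hm with rfl | hm | hm <;> rcases hn with rfl | hn | hn
    · rfl
    · exact absurd (symm _ _ hE) (c1 n hn)
    · exact absurd (symm _ _ hE) (c2 n hn)
    · exact absurd hE (c1 m hm)
    · exact hT m hm n hn hE
    · exact absurd hE (c0 m hm n hn)
    · exact absurd hE (c2 m hm)
    · exact absurd (symm _ _ hE) (c0 n hn m hm)
    · obtain ⟨k, hk, rfl⟩ := Finset.mem_image.mp hm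
      obtain ⟨l, hl, rfl⟩ := Finset.mem_image.mp hn
      have := hE k hk
      rw [(hsing k hk k hk).mpr rfl] at this
      rw [(hsing l hl k hk).mp this.symm]
  · rw [Finset.card_insert_of_notMem (by
      rw [Finset.mem_union, not_or]; exact ⟨hTe, heT1⟩), Finset.card_union_of_disjoint hTT1,
      Finset.card_image_of_injective _ (fun a b h => by have : n0 - a = n0 - b := h; omega)]

theorem low_of_star (h : Star x) : Low1 x := by
  classical
  intro K T hK hK0 hT1 hT
  set T2 := T.filter (fun m => Multi x K m) with hT2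
  have h2 := h K T2 hK hK0 (fun m hm => hT1 m (Finset.mem_filter.mp hm).1)
    (fun m hm n hn hE => hT m (Finset.mem_filter.mp hm).1 n (Finset.mem_filter.mp hn).1 hE)
    (fun m hm => (Finset.mem_filter.mp hm).2)
  -- the others inject into the subsets with at most one element
  set T1 := T.filter (fun m => ¬ Multi x K m) with hT1'
  have hcard : T.card = T2.card + T1.card := by
    rw [hT2, hT1', Finset.card_filter_add_card_filter_not]
  have h1 : T1.card ≤ K.card + 1 := by
    have himg : T1.image (fun m => K.filter fun k => x (m + k) = true) ⊆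
        insert ∅ (K.image fun k => {k}) := by
      intro s hs
      obtain ⟨m, hm, rfl⟩ := Finset.mem_image.mp hs
      have hm2 := (Finset.mem_filter.mp hm).2
      rw [Finset.mem_insert]
      rcases (K.filter fun k => x (m + k) = true).eq_empty_or_nonempty with h | ⟨k, hk⟩
      · exact Or.inl h
      · right
        rw [Finset.mem_image]
        refine ⟨k, (Finset.mem_filter.mp hk).1, ?_⟩
        ext l
        rw [Finset.mem_singleton]
        constructor
        · rintro rfl; exact hk
        · intro hl
          by_contra hne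
          exact hm2 ⟨k, (Finset.mem_filter.mp hk).1, l, (Finset.mem_filter.mp hl).1,
            fun h => hne h.symm, (Finset.mem_filter.mp hk).2, (Finset.mem_filter.mp hl).2⟩
    have hinj : (T1.image fun m => K.filter fun k => x (m + k) = true).card = T1.card := by
      apply Finset.card_image_of_injOn
      intro m hm n hn he
      apply hT m (Finset.mem_filter.mp hm).1 n (Finset.mem_filter.mp hn).1
      intro i hi
      have he' : (i ∈ K.filter fun k => x (m + k) = true) ↔
          (i ∈ K.filter fun k => x (n + k) = true) := by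
        have : (K.filter fun k => x (m + k) = true) = (K.filter fun k => x (n + k) = true) := he
        rw [this]
      rw [Finset.mem_filter, Finset.mem_filter] at he'
      cases h1 : x (m + i) <;> cases h2 : x (n + i) <;> simp_all
    rw [← hinj]
    refine (Finset.card_le_card himg).trans ((Finset.card_insert_le _ _).trans ?_)
    have := Finset.card_image_le (s := K) (f := fun k : ℤ => ({k} : Finset ℤ))
    omega
  omega

theorem star_of_low (hs : Sparse x) (hl : Low1 x) : Star x := by
  intro K T hK hK0 hT1 hT hT2
  obtain ⟨T', h1, h2, h3⟩ := add_small hs hK hT1 hT hT2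
  have := hl K T' hK hK0 h1 h2
  omega

theorem sparse_low_iff (hs : Sparse x) : Low1 x ↔ Star x :=
  ⟨star_of_low hs, low_of_star⟩

theorem sparse_full (hs : Sparse x) : Full1 x := by
  classical
  have key : ∀ n : ℕ, ∃ K T : Finset ℤ, K.card = n + 1 ∧ 0 ∈ K ∧ (∀ k ∈ K, 0 ≤ k) ∧
      (∀ m ∈ T, 1 ≤ m) ∧ Indep x K T ∧ (∀ m ∈ T, Multi x K m) ∧ T.card = n := by
    intro n
    induction n with
    | zero =>
      refine ⟨{0}, ∅, by simp, by simp, by simp, by simp, ?_, by simp, by simp⟩
      intro m hm; simp at hm
    | succ n ih =>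
      obtain ⟨K, T, h1, h0, h2, h3, h4, h5, h6⟩ := ih
      obtain ⟨B, hB0, hB⟩ := exists_bounds K
      obtain ⟨B', hB'0, hB'⟩ := exists_bounds T
      -- a late one
      obtain ⟨d, hd, hxd⟩ := hs.1 (B' + 1)
      -- a much later one
      obtain ⟨C, hC⟩ := hs.far (B' + d)
      obtain ⟨d', hd', hxd'⟩ := hs.1 (max C 0 + B + B' + 2 * d + 1)
      have hmax : C ≤ max C 0 := le_max_left _ _
      have hmax' : 0 ≤ max C 0 := le_max_right _ _
      set k' := d' - d with hk'
      have hk'K : k' ∉ K := fun h => by
        have := hB k' h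
        omega
      have hTk' : ∀ m ∈ T, x (m + k') = false := by
        intro m hm
        have hm1 := h3 m hm
        have hm2 := hB' m hm
        by_contra hcon
        have hx : x (m + k') = true := by simpa using hcon
        have := hC (m + k') d' (by omega) (by omega) hx hxd' (by omega)
        rw [abs_of_neg (by omega)] at this
        omega
      have hdT : d ∉ T := fun h => by
        have := hB' d h
        omega
      refine ⟨insert k' K, insert d T, ?_, Finset.mem_insert_of_mem h0, ?_, ?_, ?_, ?_, ?_⟩
      · rw [Finset.card_insert_of_notMem hk'K, h1]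
      · intro k hk
        rw [Finset.mem_insert] at hk
        rcases hk with rfl | hk
        · omega
        · exact h2 k hk
      · intro m hm
        rw [Finset.mem_insert] at hm
        rcases hm with rfl | hm
        · omega
        · exact h3 m hm
      · intro m hm n hn hE
        have hEk := hE k' (Finset.mem_insert_self _ _)
        have hxdk : x (d + k') = true := by rw [hk', show d + (d' - d) = d' by ring]; exact hxd'
        rw [Finset.mem_insert] at hm hn
        rcases hm with rfl | hm <;> rcases hn with rfl | hn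
        · rfl
        · rw [hxdk, hTk' n hn] at hEk
          exact absurd hEk (by decide)
        · rw [hxdk, hTk' m hm] at hEk
          exact absurd hEk (by decide)
        · exact h4 m hm n hn fun i hi => hE i (Finset.mem_insert_of_mem hi)
      · intro m hm
        rw [Finset.mem_insert] at hm
        rcases hm with rfl | hm
        · refine ⟨0, Finset.mem_insert_of_mem h0, k', Finset.mem_insert_self _ _, ?_, ?_, ?_⟩
          · intro h; exact hk'K (h ▸ h0)
          · rw [add_zero]; exact hxd
          · rw [hk', show m + (d' - m) = d' by ring]; exact hxd'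
        · obtain ⟨k, hk, l, hl, hkl⟩ := h5 m hm
          exact ⟨k, Finset.mem_insert_of_mem hk, l, Finset.mem_insert_of_mem hl, hkl⟩
      · rw [Finset.card_insert_of_notMem hdT, h6]
  intro n hn
  obtain ⟨K, T, h1, h0, h2, h3, h4, h5, h6⟩ := key (n - 1)
  obtain ⟨T', g1, g2, g3⟩ := add_small hs ⟨0, h0⟩ h3 h4 h5
  exact ⟨K, T', by omega, h2, g1, g2, by omega⟩

end Pool.Agent.PatSturm.NR
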