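import Mathlib
import Pool.Agent.PatSturm.NRDefs
import Pool.Agent.PatSturm.NR2
import Pool.Agent.Helper434.PCRotIf

/-!
Part R7: codings of irrational rotations by intervals of all four types have at most `2 |K|`
patterns on a window `K`, and exactly `2 n` patterns on suitable windows of size `n`.
-/

set_option autoImplicit false

namespace Pool.Agent.PatSturm.NR

open Pool.Agent.PatSturm Pool.Agent.Helper434.PCDefs Pool.Agent.Helper434.PCCore
open Pool.Agent.Helper434.PCSpec Pool.Agent.Helper434.PCSpec2 Pool.Agent.Helper434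

variable {x y : ℤ → Bool} {α β θ : ℝ}

/-- forward distance to the next point congruent to `r`; with `s = true` the present point does
not count -/
noncomputable def dist1 (s : Bool) (r : ℝ) : ℝ := if s then 1 - Int.fract (-r) else Int.fract r

lemma dist1_nonneg (s : Bool) (r : ℝ) : 0 ≤ dist1 s r := by
  unfold dist1
  split_ifs
  · have := Int.fract_lt_one (-r); linarith
  · exact Int.fract_nonneg r

lemma dist1_le (s : Bool) (r : ℝ) : dist1 s r ≤ 1 := by
  unfold dist1
  split_ifs
  · have := Int.fract_nonneg (-r); linarith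
  · exact (Int.fract_lt_one r).le

lemma dist1_pos (r : ℝ) : 0 < dist1 true r := by
  unfold dist1
  rw [if_pos rfl]
  have := Int.fract_lt_one (-r); linarith

lemma dist1_lt (r : ℝ) : dist1 false r < 1 := by
  unfold dist1
  simp only [Bool.false_eq_true, if_false]
  exact Int.fract_lt_one r

lemma dist1_cong (s : Bool) (r : ℝ) : ∃ j : ℤ, dist1 s r = r + j := by
  unfold dist1
  split_ifs
  · refine ⟨⌊-r⌋ + 1, ?_⟩
    have : Int.fract (-r) = -r - ⌊-r⌋ := rfl
    push_cast
    linarith
  · refine ⟨-⌊r⌋, ?_⟩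
    have : Int.fract r = r - ⌊r⌋ := rfl
    push_cast
    linarith

lemma dist1_unique {s : Bool} {r v : ℝ} {j : ℤ} (hv : v = r + j)
    (h : (0 < v ∧ v < 1) ∨ (v = 0 ∧ s = false)) : dist1 s r = v := by
  cases s
  · unfold dist1
    simp only [Bool.false_eq_true, if_false]
    rw [Int.fract_eq_iff]
    rcases h with ⟨h1, h2⟩ | ⟨h1, -⟩
    · exact ⟨h1.le, h2, -j, by push_cast; linarith⟩
    · exact ⟨h1.ge, by linarith, -j, by push_cast; linarith⟩
  · rcases h with ⟨h1, h2⟩ | ⟨-, h1⟩
    · unfold dist1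
      rw [if_pos rfl]
      have : Int.fract (-r) = 1 - v := by
        rw [Int.fract_eq_iff]
        exact ⟨by linarith, by linarith, j - 1, by push_cast; linarith⟩
      linarith
    · exact absurd h1 (by decide)

/-- a word whose letters are given by comparing the distances to the two end points -/
theorem low_of_dist (hα : Irrational α) (sd : Bool → Bool)
    (hx : ∀ n : ℤ, 1 ≤ n → (x n = true ↔
      dist1 (sd true) (β - (n * α + θ)) < dist1 (sd false) (0 - (n * α + θ)))) : Low1 x := by
  classical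
  intro K T hK hK0 hT1 hI
  -- distances
  set D : ℤ × Bool → ℤ → ℝ := fun p m =>
    dist1 (sd p.2) ((if p.2 then β else 0) - ((m + p.1 : ℤ) * α + θ)) with hD
  set P : Finset (ℤ × Bool) := K ×ˢ Finset.univ with hP
  have hPne : P.Nonempty := hK.product Finset.univ_nonempty
  have hlab : ∀ m : ℤ, ∃ p ∈ P, (∀ p' ∈ P, D p m ≤ D p' m) ∧
      (sd p.2 = false → ∀ p' ∈ P, D p' m = D p m → sd p'.2 = false) := by
    intro m
    obtain ⟨p, hp, hmin⟩ := P.exists_min_image (fun p => D p m) hPne
    by_cases h : ∃ p' ∈ P, D p' m = D p m ∧ sd p'.2 = true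
    · obtain ⟨p', hp', h1, h2⟩ := h
      exact ⟨p', hp', fun q hq => by rw [h1]; exact hmin q hq, fun h3 => by
        rw [h2] at h3; exact absurd h3 (by decide)⟩
    · refine ⟨p, hp, hmin, fun _ p' hp' h1 => ?_⟩
      by_contra h2
      exact h ⟨p', hp', h1, by simpa using h2⟩
  choose Φ hΦ1 hΦ2 hΦ3 using hlab
  have hcard : T.card ≤ P.card := by
    apply Finset.card_le_card_of_injOn Φ (fun m _ => hΦ1 m)
    have key : ∀ m ∈ T, ∀ m' ∈ T, Φ m = Φ m' → D (Φ m) m' ≤ D (Φ m) m → m = m' := by
      intro m hm m' hm' hΦ hle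
      by_contra hne
      apply hne
      apply hI m hm m' hm'
      set p := Φ m with hp
      set c : ℝ := D p m - D p m' with hc
      have hc0 : 0 ≤ c := by rw [hc]; linarith
      -- the shift
      have hshift : ∀ q ∈ P, D q m' = D q m - c := by
        intro q hq
        obtain ⟨j1, hj1⟩ := dist1_cong (sd q.2) ((if q.2 then β else 0) - ((m + q.1 : ℤ) * α + θ))
        obtain ⟨j2, hj2⟩ := dist1_cong (sd p.2) ((if p.2 then β else 0) - ((m + p.1 : ℤ) * α + θ))
        obtain ⟨j3, hj3⟩ := dist1_cong (sd p.2) ((if p.2 then β else 0) - ((m' + p.1 : ℤ) * α + θ))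
        have hcv : c = ((m' : ℝ) - m) * α + (j2 - j3) := by
          rw [hc]
          simp only [hD]
          rw [hj2, hj3]
          push_cast
          ring
        have h1 : D p m ≤ D q m := hΦ2 m q hq
        have h2 : 0 ≤ D p m' := dist1_nonneg _ _
        have h3 : D q m ≤ 1 := dist1_le _ _
        have hv : D q m - c = (if q.2 then β else 0) - ((m' + q.1 : ℤ) * α + θ) +
            ((j1 - j2 + j3 : ℤ) : ℝ) := by
          rw [hcv]
          simp only [hD]
          rw [hj1]
          push_cast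
          ring
        refine dist1_unique hv ?_
        have h4 : 0 ≤ D q m - c := by linarith
        rcases h4.lt_or_eq with h5 | h5
        · left
          refine ⟨h5, ?_⟩
          rcases h3.lt_or_eq with h6 | h6
          · linarith
          · rcases hc0.lt_or_eq with h7 | h7
            · linarith
            · exfalso
              rw [hcv] at h7
              have := mul_int hα (k := m' - m) (J := j3 - j2) (by push_cast; linarith)
              exact hne (by omega)
        · right
          refine ⟨h5.symm, ?_⟩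
          have h6 : D p m' = 0 := by linarith
          have h7 : D q m = D p m := by linarith
          have h8 : sd p.2 = false := by
            by_contra h9
            have h9 : sd p.2 = true := by simpa using h9
            have h10 := dist1_pos ((if p.2 then β else 0) - ((m' + p.1 : ℤ) * α + θ))
            simp only [hD] at h6
            rw [h9] at h6
            linarith
          exact hΦ3 m h8 q hq h7
      intro k hk
      have hkm : 1 ≤ m + k := by
        have := hT1 m hm; have := hK0 k hk; omega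
      have hkm' : 1 ≤ m' + k := by
        have := hT1 m' hm'; have := hK0 k hk; omega
      have e1 := hshift (k, true) (Finset.mem_product.mpr ⟨hk, Finset.mem_univ _⟩)
      have e2 := hshift (k, false) (Finset.mem_product.mpr ⟨hk, Finset.mem_univ _⟩)
      simp only [hD, if_true, Bool.false_eq_true, if_false] at e1 e2
      have h1 := hx (m + k) hkm
      have h2 := hx (m' + k) hkm'
      rw [e1, e2] at h2
      have h3 : x (m + k) = true ↔ x (m' + k) = true := by
        rw [h1, h2]
        constructor <;> intro h <;> linarith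
      exact Bool.eq_iff_iff.mpr h3
    intro m hm m' hm' hΦ
    rcases le_total (D (Φ m) m') (D (Φ m) m) with h | h
    · exact key m hm m' hm' hΦ h
    · exact (key m' hm' m hm hΦ.symm (by rw [← hΦ]; exact h)).symm
  rw [hP, Finset.card_product, Finset.card_univ, Fintype.card_bool] at hcard
  omega

/-- the distances in terms of the fractional part -/
lemma dist1_zero_true (u : ℝ) : dist1 true (0 - u) = 1 - Int.fract u := by
  unfold dist1
  rw [if_pos rfl]
  congr 2
  ring

lemma dist1_zero_false {u : ℝ} (h : 0 < Int.fract u) : dist1 false (0 - u) = 1 - Int.fract u := by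
  have f1 := Int.fract_lt_one u
  have f2 : Int.fract u = u - ⌊u⌋ := rfl
  exact dist1_unique (j := 1 + ⌊u⌋) (by push_cast; linarith) (Or.inl ⟨by linarith, by linarith⟩)

lemma dist1_zero_false' {u : ℝ} (h : Int.fract u = 0) : dist1 false (0 - u) = 0 := by
  have f2 : Int.fract u = u - ⌊u⌋ := rfl
  exact dist1_unique (j := ⌊u⌋) (by linarith) (Or.inr ⟨rfl, rfl⟩)

lemma dist1_beta_lt {s : Bool} {u : ℝ} (hβ1 : β < 1) (h : Int.fract u < β) :
    dist1 s (β - u) = β - Int.fract u := by
  have f0 := Int.fract_nonneg u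
  have f2 : Int.fract u = u - ⌊u⌋ := rfl
  exact dist1_unique (j := ⌊u⌋) (by linarith) (Or.inl ⟨by linarith, by linarith⟩)

lemma dist1_beta_gt {s : Bool} {u : ℝ} (hβ0 : 0 < β) (h : β < Int.fract u) :
    dist1 s (β - u) = 1 + β - Int.fract u := by
  have f1 := Int.fract_lt_one u
  have f2 : Int.fract u = u - ⌊u⌋ := rfl
  exact dist1_unique (j := ⌊u⌋ + 1) (by push_cast; linarith) (Or.inl ⟨by linarith, by linarith⟩)

lemma dist1_beta_eq_false {u : ℝ} (h : Int.fract u = β) : dist1 false (β - u) = 0 := by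
  have f2 : Int.fract u = u - ⌊u⌋ := rfl
  exact dist1_unique (j := ⌊u⌋) (by linarith) (Or.inr ⟨rfl, rfl⟩)

lemma dist1_beta_eq_true {u : ℝ} (h : Int.fract u = β) : dist1 true (β - u) = 1 := by
  have f2 : Int.fract u = u - ⌊u⌋ := rfl
  unfold dist1
  rw [if_pos rfl]
  have : Int.fract (-(β - u)) = 0 := by
    rw [Int.fract_eq_iff]
    exact ⟨le_rfl, one_pos, ⌊u⌋, by linarith⟩
  linarith

theorem any_low (h : AnyInterval x) : Low1 x := by
  obtain ⟨α, β, θ, hα, hβ0, hβ1, h⟩ := h
  rcases h with h | h | h | h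
  · apply low_of_dist (β := β) (θ := θ) hα (fun _ => true)
    intro n hn
    rw [h n hn, dist1_zero_true]
    rcases lt_trichotomy (Int.fract (n * α + θ)) β with h1 | h1 | h1
    · rw [dist1_beta_lt hβ1 h1]; constructor <;> intro <;> linarith
    · rw [dist1_beta_eq_true h1]; constructor <;> intro <;> linarith
    · rw [dist1_beta_gt hβ0 h1]; constructor <;> intro <;> linarith
  · apply low_of_dist (β := β) (θ := θ) hα (fun b => !b)
    intro n hn
    simp only [Bool.not_true, Bool.not_false]
    rw [h n hn, dist1_zero_true]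
    rcases lt_trichotomy (Int.fract (n * α + θ)) β with h1 | h1 | h1
    · rw [dist1_beta_lt hβ1 h1]; constructor <;> intro <;> linarith
    · rw [dist1_beta_eq_false h1]; constructor <;> intro <;> linarith
    · rw [dist1_beta_gt hβ0 h1]; constructor <;> intro <;> linarith
  · apply low_of_dist (β := β) (θ := θ) hα (fun b => b)
    intro n hn
    rw [h n hn]
    rcases (Int.fract_nonneg ((n : ℝ) * α + θ)).lt_or_eq with h0 | h0
    · rw [dist1_zero_false h0]
      rcases lt_trichotomy (Int.fract (n * α + θ)) β with h1 | h1 | h1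
      · rw [dist1_beta_lt hβ1 h1]
        exact ⟨fun _ => by linarith, fun _ => ⟨h0, h1⟩⟩
      · rw [dist1_beta_eq_true h1]
        exact ⟨fun h2 => by linarith [h2.2], fun h2 => by linarith⟩
      · rw [dist1_beta_gt hβ0 h1]
        exact ⟨fun h2 => by linarith [h2.2], fun h2 => by linarith⟩
    · rw [dist1_zero_false' h0.symm]
      have := dist1_nonneg true (β - ((n : ℝ) * α + θ))
      exact ⟨fun h2 => by linarith [h2.1], fun h2 => by linarith⟩
  · apply low_of_dist (β := β) (θ := θ) hα (fun _ => false)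
    intro n hn
    rw [h n hn]
    rcases (Int.fract_nonneg ((n : ℝ) * α + θ)).lt_or_eq with h0 | h0
    · rw [dist1_zero_false h0]
      rcases lt_trichotomy (Int.fract (n * α + θ)) β with h1 | h1 | h1
      · rw [dist1_beta_lt hβ1 h1]
        exact ⟨fun _ => by linarith, fun _ => ⟨h0, h1.le⟩⟩
      · rw [dist1_beta_eq_false h1]
        exact ⟨fun _ => by linarith, fun _ => ⟨h0, h1.le⟩⟩
      · rw [dist1_beta_gt hβ0 h1]
        exact ⟨fun h2 => by linarith [h2.2], fun h2 => by linarith⟩
    · rw [dist1_zero_false' h0.symm]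
      have := dist1_nonneg false (β - ((n : ℝ) * α + θ))
      exact ⟨fun h2 => by linarith [h2.1], fun h2 => by linarith⟩

/-- an interval coding of any type is eventually equal to the half-open one -/
lemma any_eventually (hα : Irrational α)
    (h : (∀ n : ℤ, 1 ≤ n → (x n = true ↔ Int.fract (n * α + θ) < β)) ∨
     (∀ n : ℤ, 1 ≤ n → (x n = true ↔ Int.fract (n * α + θ) ≤ β)) ∨
     (∀ n : ℤ, 1 ≤ n → (x n = true ↔ 0 < Int.fract (n * α + θ) ∧ Int.fract (n * α + θ) < β)) ∨
     (∀ n : ℤ, 1 ≤ n → (x n = true ↔ 0 < Int.fract (n * α + θ) ∧ Int.fract (n * α + θ) ≤ β))) :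
    ∃ C : ℤ, 1 ≤ C ∧ ∀ n, C ≤ n → (x n = true ↔ Int.fract (n * α + θ) < β) := by
  have huniq : ∀ n n' : ℤ, Int.fract (n * α + θ) = Int.fract (n' * α + θ) → n = n' := by
    intro n n' h
    rw [Int.fract_eq_fract] at h
    obtain ⟨z, hz⟩ := h
    have := mul_int hα (k := n - n') (J := z) (by push_cast; linarith)
    omega
  have hev : ∀ r : ℝ, ∃ C : ℤ, ∀ n, C ≤ n → Int.fract (n * α + θ) ≠ r := by
    intro r
    by_cases h : ∃ n : ℤ, Int.fract (n * α + θ) = r
    · obtain ⟨n0, h0⟩ := h
      refine ⟨n0 + 1, fun n hn h1 => ?_⟩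
      have := huniq n n0 (h1.trans h0.symm)
      omega
    · exact ⟨0, fun n _ h1 => h ⟨n, h1⟩⟩
  obtain ⟨C0, h0⟩ := hev 0
  obtain ⟨C1, h1⟩ := hev β
  refine ⟨max 1 (max C0 C1), le_max_left _ _, fun n hn => ?_⟩
  have hn1 : 1 ≤ n := (le_max_left _ _).trans hn
  have h0n := h0 n (((le_max_left _ _).trans (le_max_right _ _)).trans hn)
  have h1n := h1 n (((le_max_right _ _).trans (le_max_right _ _)).trans hn)
  have h0p : 0 < Int.fract (n * α + θ) := lt_of_le_of_ne (Int.fract_nonneg _) (Ne.symm h0n)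
  rcases h with h | h | h | h
  · exact h n hn1
  · rw [h n hn1]
    exact ⟨fun h2 => lt_of_le_of_ne h2 h1n, fun h2 => h2.le⟩
  · rw [h n hn1]
    exact ⟨fun h2 => h2.2, fun h2 => ⟨h0p, h2⟩⟩
  · rw [h n hn1]
    exact ⟨fun h2 => lt_of_le_of_ne h2.2 h1n, fun h2 => ⟨h0p, h2.le⟩⟩

open Classical in
/-- the right hull of an interval coding contains the half-open coding -/
theorem any_rhull (h : AnyInterval x) : ∃ (y : ℤ → Bool) (α β θ : ℝ), RHull x y ∧ Irrational α ∧
    0 < β ∧ β < 1 ∧ ∀ n : ℤ, y n = true ↔ Int.fract (n * α + θ) < β := by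
  obtain ⟨α, β, θ, hα, hβ0, hβ1, h⟩ := h
  obtain ⟨C, hC1, hC⟩ := any_eventually hα h
  set y : ℤ → Bool := fun n => decide (Int.fract (n * α + θ) < β) with hy
  have hyc : ∀ n : ℤ, y n = true ↔ Int.fract (n * α + θ) < β := fun n => by
    rw [hy]; exact decide_eq_true_iff
  refine ⟨y, α, β, θ, ?_, hα, hβ0, hβ1, hyc⟩
  intro a b D
  obtain ⟨h', h1, h2⟩ := PCRotIf.recR hyc hα hβ0 hβ1 (Finset.Icc a b) 0 (|D| + |C| + |a|)
  have e1 := le_abs_self D
  have e2 := le_abs_self C
  have e3 := neg_abs_le a
  have e4 := abs_nonneg D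
  have e5 := abs_nonneg C
  have e6 := abs_nonneg a
  refine ⟨h', by omega, fun m hm1 hm2 => ?_⟩
  have h3 := h2 m (Finset.mem_Icc.mpr ⟨hm1, hm2⟩)
  rw [zero_add, add_comm] at h3
  rw [← h3]
  exact Bool.eq_iff_iff.mpr ((hC (m + h') (by omega)).trans (hyc _).symm)

theorem any_full (h : AnyInterval x) : Full1 x := by
  classical
  obtain ⟨y, α, β, θ, hH, hα, hβ0, hβ1, hy⟩ := any_rhull h
  intro n hn
  obtain ⟨V, T, hV, -, hV0, hI, hT⟩ := PCRotIf.full hy hα hβ0 hβ1 (n - 1)
  rw [Nat.sub_add_cancel hn] at hV hT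
  choose Q hQ1 hQ using fun m => hH.pat V m
  have hQi : Set.InjOn Q (T : Set ℤ) := by
    intro m hm m' hm' he
    apply hI m hm m' hm'
    intro i hi
    rw [← hQ m i hi, ← hQ m' i hi, he]
  refine ⟨V, T.image Q, hV, hV0, ?_, ?_, by rw [Finset.card_image_of_injOn hQi, hT]⟩
  · intro m hm
    obtain ⟨t, -, rfl⟩ := Finset.mem_image.mp hm
    exact hQ1 t
  · intro m hm m' hm' hE
    obtain ⟨t, ht, rfl⟩ := Finset.mem_image.mp hm
    obtain ⟨t', ht', rfl⟩ := Finset.mem_image.mp hm'
    rw [hI t ht t' ht' fun i hi => ?_]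
    rw [← hQ t i hi, ← hQ t' i hi]
    exact hE i hi

end Pool.Agent.PatSturm.NR
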