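import Mathlib

/-!
Definitions for the description of all words `f : {1,2,3,...} → {0,1}` with pattern complexity
`P*_f(n) = 2n` for all `n ≥ 1`. The positive integers are `ℕ+`, the letters are `true = 1` and
`false = 0`.
-/

set_option autoImplicit false

namespace Pool.Agent.PatSturm.NR.Statement

/-! ### Pattern complexity -/

/-- the positive integer `m + k`, for `m ≥ 1` and `k ≥ 0` -/
def plus (m : ℕ+) (k : ℕ) : ℕ+ := ⟨m + k, Nat.add_pos_left m.pos k⟩

/-- `P*_f(K)`: the number of patterns `(f(m+k))_{k ∈ K}`, `m = 1, 2, 3, ...`, of the word `f` on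
the window `K`, a finite set of integers `≥ 0`. -/
noncomputable def windowComplexity (f : ℕ+ → Bool) (K : Finset ℕ) : ℕ∞ :=
  (Set.range fun m : ℕ+ => fun k : K => f (plus m k)).encard

/-- `P*_f(n)`: the supremum of `P*_f(K)` over all windows `K` with `n` elements. -/
noncomputable def patternComplexity (f : ℕ+ → Bool) (n : ℕ) : ℕ∞ :=
  ⨆ K : {K : Finset ℕ // K.card = n}, windowComplexity f K

/-! ### The first class: interval words -/

/-- Codings of irrational rotations by intervals: `f(n) = 1` iff `n α + θ` modulo 1 lies in an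
interval with the end points `0` and `β`, which may be `[0,β)`, `[0,β]`, `(0,β)` or `(0,β]`. -/
def IntervalWord (f : ℕ+ → Bool) : Prop :=
  ∃ α β θ : ℝ, Irrational α ∧ 0 < β ∧ β < 1 ∧
    ((∀ n : ℕ+, f n = true ↔ Int.fract (n * α + θ) < β) ∨
     (∀ n : ℕ+, f n = true ↔ Int.fract (n * α + θ) ≤ β) ∨
     (∀ n : ℕ+, f n = true ↔ 0 < Int.fract (n * α + θ) ∧ Int.fract (n * α + θ) < β) ∨
     (∀ n : ℕ+, f n = true ↔ 0 < Int.fract (n * α + θ) ∧ Int.fract (n * α + θ) ≤ β))

/-! ### The second class: arc-Toeplitz words -/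

/-- Arc-Toeplitz words. There are moduli `N_0 | N_1 | N_2 | ...`, `1 ≤ N_0 < N_1 < ...`, nested
classes `r_{k+1} ≡ r_k mod N_k` and colours `c_k`, both colours occurring infinitely often. Outside
the class `r_0 mod N_0` the word is equal to `1` exactly on the classes
`r_0 + u, r_0 + 2 u, ..., r_0 + a u` modulo `N_0`, where `u` is a unit modulo `N_0` and
`0 ≤ a < N_0`. On the class `r_k mod N_k` minus the class `r_{k+1} mod N_{k+1}` it is equal to the
constant `c_k`. (There is at most one `n` in all the classes `r_k mod N_k`; the letter there is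
arbitrary.) -/
def ToeplitzWord (f : ℕ+ → Bool) : Prop :=
  ∃ (N : ℕ → ℤ) (r : ℕ → ℤ) (c : ℕ → Bool) (u a : ℤ),
    1 ≤ N 0 ∧ (∀ k, N k < N (k + 1)) ∧ (∀ k, N k ∣ N (k + 1)) ∧ (∀ k, N k ∣ r (k + 1) - r k) ∧
    (∀ K, ∃ k, K ≤ k ∧ c k = true) ∧ (∀ K, ∃ k, K ≤ k ∧ c k = false) ∧
    IsCoprime u (N 0) ∧ 0 ≤ a ∧ a < N 0 ∧
    (∀ n : ℕ+, ¬ N 0 ∣ (n : ℤ) - r 0 →
      (f n = true ↔ ∃ i, 1 ≤ i ∧ i ≤ a ∧ N 0 ∣ (n : ℤ) - (r 0 + u * i))) ∧
    ∀ k, ∀ n : ℕ+, N k ∣ (n : ℤ) - r k → ¬ N (k + 1) ∣ (n : ℤ) - r (k + 1) → f n = c k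

/-! ### The third class: sparse words

`f` is the indicator function of a set `S = {s_0 < s_1 < s_2 < ...}` with `s_{j+1} - s_j → ∞`.
The rule below says, step by step, which `s_{j+1}` may follow `s_0, ..., s_j`. -/

/-- The graph `Γ_j` of the sequence `s`: for `i ≤ j` and `0 ≤ u < s_i` there is an edge with the
label `(i, u)` between the integers `u` and `u + (s_{i+1} - s_i)`. `Edge s j y u v` says that `u` and
`v` are joined (in this order) by such an edge whose label is not `(j, y)`. -/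
def Edge (s : ℕ → ℤ) (j : ℕ) (y u v : ℤ) : Prop :=
  ∃ i, i ≤ j ∧ 0 ≤ u ∧ u < s i ∧ v = u + (s (i + 1) - s i) ∧ ¬ (i = j ∧ u = y)

/-- A free step: in the (finite) graph `Γ_j` each edge `(j, y)`, `0 ≤ y < s_j`, is a bridge, that is,
`y` and `y + (s_{j+1} - s_j)` are not connected by the other labelled edges. (This holds for
example if `s_{j+1} ≥ 2 s_j`.) -/
def FreeStep (s : ℕ → ℤ) (j : ℕ) : Prop :=
  ∀ y, 0 ≤ y → y < s j → ¬ Relation.EqvGen (Edge s j y) y (y + (s (j + 1) - s j))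

/-- A progression step: `s_i, s_J, s_{J+1}, ..., s_j, s_{j+1}` is an arithmetic progression with
difference `p = s_J - s_i ≥ s_{J-1}`; a difference `s_k - s_i` with `k < J` does not occur a second
time in `{s_0, ..., s_J}`; and, if `J < j`, the step from `s_{J-1}` to `s_J` is free. -/
def ProgStep (s : ℕ → ℤ) (j : ℕ) : Prop :=
  ∃ i J, i < J ∧ J ≤ j ∧ (∀ l, J ≤ l → l ≤ j → s (l + 1) = s l + (s J - s i)) ∧
    s i + s (J - 1) ≤ s J ∧
    (∀ k l m, k ≤ J → l ≤ J → m ≤ J → k ≠ i → k ≠ J → l ≠ i → s m - s l ≠ s k - s i) ∧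
    (J < j → FreeStep s (J - 1))

/-- the rule -/
def Rule (s : ℕ → ℤ) : Prop := ∀ j, FreeStep s j ∨ ProgStep s j

/-- Sparse words: the ones of `f` are at the places `s_0 < s_1 < s_2 < ...`, the gaps
`s_{j+1} - s_j` tend to infinity, and `s` satisfies the rule. -/
def SparseWord (f : ℕ+ → Bool) : Prop :=
  ∃ s : ℕ → ℤ, StrictMono s ∧ 1 ≤ s 0 ∧ (∀ n : ℕ+, f n = true ↔ ∃ j, s j = n) ∧
    (∀ g : ℤ, ∃ J, ∀ j, J ≤ j → g ≤ s (j + 1) - s j) ∧ Rule s

end Pool.Agent.PatSturm.NR.Statement
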