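import Mathlib
import Pool.Agent.PatSturm.Step6
import Pool.Agent.PatSturm.Bridge
import Pool.Agent.PatSturm.NRDefs
import Pool.Agent.Helper434.PCToep

/-!
Toeplitz type: a word (on the positive integers) of low complexity in which every block of a
Toeplitz sequence occurs infinitely often is itself of Toeplitz type.
-/

set_option autoImplicit false

namespace Pool.Agent.PatSturm.NR

open Pool.Agent.PatSturm Pool.Agent.Helper434 Pool.Agent.Helper434.PCDefs
  Pool.Agent.Helper434.PCToep

variable {x y : ℤ → Bool} {V W : Finset ℤ}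

/-- adding a translate of `V` gains `2 |V|` patterns when there are large one-hole moduli -/
lemma growT (hr : Rec y) (ha : Aper y) (hol : ∀ K : ℤ, ∃ N r, K ≤ N ∧ OneHole y N r)
    (hVW : V ⊆ W) (C : ℤ) :
    ∃ h, C < h ∧ 0 < h ∧ p y W + 2 * V.card ≤ p y (W ∪ V.image (fun v => v + h)) := by
  classical
  obtain ⟨T, hT1, hT2, hT3⟩ := exists_reps y W
  obtain ⟨B, hB0, hB⟩ := exists_bounds V
  obtain ⟨N, r, hN, -, hconst⟩ := hol (2 * B + 1)
  -- an interval with all the places of the representatives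
  set P : Finset ℤ := (T ×ˢ W).image (fun q => q.1 + q.2) with hP
  obtain ⟨D, hD0, hD⟩ := exists_bounds P
  obtain ⟨h, hC, hh0, hNh, hret⟩ := AR' hr (-D) D N C (by omega)
  refine ⟨h, hC, hh0, ?_⟩
  obtain ⟨⟨m1, a1, b1⟩, ⟨m2, a2, b2⟩⟩ := both hr ha hh0
  have hflip : ∀ m, y (m + h) ≠ y m → N ∣ m - r := by
    intro m hm
    by_contra hcon
    obtain ⟨k, hk⟩ := hNh
    have h1 := hconst m hcon k
    apply hm
    rw [hk, mul_comm]
    exact h1
  have hrep : ∀ t ∈ T, ∀ w ∈ W, y (t + w + h) = y (t + w) := by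
    intro t ht w hw
    have := hD (t + w) (by
      rw [hP, Finset.mem_image]
      exact ⟨(t, w), Finset.mem_product.mpr ⟨ht, hw⟩, rfl⟩)
    exact hret _ this.1 this.2
  have hm1 : N ∣ m1 - r := hflip m1 (by rw [a1, b1]; decide)
  have hm2 : N ∣ m2 - r := hflip m2 (by rw [a2, b2]; decide)
  have key : ∀ U : Finset ℤ, U ⊆ V → p y W + 2 * U.card ≤ p y (W ∪ U.image (fun v => v + h)) := by
    intro U
    induction U using Finset.induction_on with
    | empty => intro _; simp
    | insert v U hvU ih =>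
      intro hU
      have hUV : U ⊆ V := (Finset.subset_insert _ _).trans hU
      have hvV : v ∈ V := hU (Finset.mem_insert_self _ _)
      have h1 := ih hUV
      obtain ⟨t1, ht1, hn1⟩ := hT3 (m1 - v)
      obtain ⟨t2, ht2, hn2⟩ := hT3 (m2 - v)
      have hpat : ∀ k t, N ∣ k - r → t ∈ T → Eqv y W (k - v) t →
          pat y (W ∪ U.image (fun v => v + h)) (k - v) =
            pat y (W ∪ U.image (fun v => v + h)) t := by
        intro k t hk ht hn
        rw [pat_eq_iff]
        intro i hi
        rw [Finset.mem_union, Finset.mem_image] at hi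
        rcases hi with hi | ⟨u, hu, rfl⟩
        · exact hn i hi
        · have huv : u ≠ v := fun h => hvU (h ▸ hu)
          have h2 : y (k + (u - v) + h) = y (k + (u - v)) := by
            by_contra hcon
            have h3 := hflip _ hcon
            have h4 := dvd_sub h3 hk
            rw [show k + (u - v) - r - (k - r) = u - v by ring] at h4
            have h5 := hB u (hUV hu)
            have h6 := hB v hvV
            have h7 := Int.eq_zero_of_abs_lt_dvd h4 (by rw [abs_lt]; constructor <;> omega)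
            exact huv (by omega)
          rw [show k - v + (u + h) = k + (u - v) + h by ring, h2, ← add_assoc,
            hrep t ht u (hVW (hUV hu)), ← hn u (hVW (hUV hu))]
          congr 1; ring
      have hvW : v ∈ W := hVW hvV
      have e1 : y (t1 + v) = false := by
        rw [← hn1 v hvW, sub_add_cancel]; exact a1
      have e2 : y (t2 + v) = true := by
        rw [← hn2 v hvW, sub_add_cancel]; exact a2
      have g := gain4 (y := y) (F := W ∪ U.image (fun v => v + h))
        (F' := W ∪ (insert v U).image (fun v => v + h)) (by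
          apply Finset.union_subset_union_right
          exact Finset.image_subset_image (Finset.subset_insert _ _))
        (v := v) (w := v + h) (Finset.mem_union_left _ hvW)
        (Finset.mem_union_right _ (Finset.mem_image_of_mem _ (Finset.mem_insert_self _ _)))
        (n1 := m1 - v) (n1' := t1) (n2 := m2 - v) (n2' := t2)
        (hpat m1 t1 hm1 ht1 hn1) (hpat m2 t2 hm2 ht2 hn2)
        (by rw [sub_add_cancel]; exact a1)
        (by rw [show m1 - v + (v + h) = m1 + h by ring]; exact b1)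
        e1
        (by rw [← add_assoc, hrep t1 ht1 v hvW]; exact e1)
        (by rw [sub_add_cancel]; exact a2)
        (by rw [show m2 - v + (v + h) = m2 + h by ring]; exact b2)
        e2
        (by rw [← add_assoc, hrep t2 ht2 v hvW]; exact e2)
      rw [Finset.card_insert_of_notMem hvU]
      omega
  exact key V (Finset.Subset.refl _)

/-- blocks of `y` can be found at positive places -/
lemma RHull.shift (hH : RHull x y) (U T : Finset ℤ) (C : ℤ) :
    ∃ s : ℤ, ∀ t ∈ T, C < t + s ∧ ∀ u ∈ U, x (t + s + u) = y (t + u) := by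
  classical
  obtain ⟨A, hA0, hA⟩ := exists_bounds U
  obtain ⟨B, hB0, hB⟩ := exists_bounds T
  obtain ⟨s, hs, h⟩ := hH (-(A + B)) (A + B) (C + B)
  refine ⟨s, fun t ht => ?_⟩
  have h1 := hB t ht
  refine ⟨by omega, fun u hu => ?_⟩
  have h2 := hA u hu
  rw [show t + s + u = t + u + s by ring]
  exact h _ (by omega) (by omega)

/-- windows at far places see only patterns of `y` -/
lemma eventually_pat (hl : Low1 x) (hH : RHull x y) (hr : Rec y) (ha : Aper y)
    (hol : ∀ K : ℤ, ∃ N r, K ≤ N ∧ OneHole y N r) (hV0 : ∀ v ∈ V, 0 ≤ v) :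
    ∃ C : ℤ, ∀ m, C < m → ∃ t, ∀ v ∈ V, x (m + v) = y (t + v) := by
  classical
  by_contra hcon
  push Not at hcon
  have hne : V.Nonempty := by
    obtain ⟨m, -, hm⟩ := hcon 0
    obtain ⟨v, hv, -⟩ := hm 0
    exact ⟨v, hv⟩
  have key : ∀ k : ℕ, ∃ H : Finset ℤ, 0 ∈ H ∧ (∀ h ∈ H, 0 ≤ h) ∧ H.card = k + 1 ∧
      p y V + 2 * (k * V.card) ≤ p y (H.biUnion fun h => V.image (fun v => v + h)) := by
    intro k
    induction k with
    | zero =>
      refine ⟨{0}, by simp, by simp, by simp, ?_⟩
      have h9 : ({0} : Finset ℤ).biUnion (fun h => V.image (fun v => v + h)) = V := by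
        rw [Finset.singleton_biUnion]
        ext v
        rw [Finset.mem_image]
        constructor
        · rintro ⟨u, hu, rfl⟩
          rwa [add_zero]
        · intro hv
          exact ⟨v, hv, add_zero v⟩
      rw [h9]
      omega
    | succ k ih =>
      obtain ⟨H, h0, h1, h2, h3⟩ := ih
      set W := H.biUnion fun h => V.image (fun v => v + h) with hW
      have hVW : V ⊆ W := by
        intro v hv
        rw [hW, Finset.mem_biUnion]
        exact ⟨0, h0, Finset.mem_image.mpr ⟨v, hv, by ring⟩⟩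
      obtain ⟨C, -, hC⟩ := exists_bounds H
      obtain ⟨h, hh1, hh2, hh3⟩ := growT hr ha hol hVW C
      have hnot : h ∉ H := fun hm => by
        have := hC h hm
        omega
      refine ⟨insert h H, Finset.mem_insert_of_mem h0, ?_, ?_, ?_⟩
      · intro h' hh'
        rw [Finset.mem_insert] at hh'
        rcases hh' with rfl | hh'
        · exact hh2.le
        · exact h1 h' hh'
      · rw [Finset.card_insert_of_notMem hnot, h2]
      · rw [Finset.biUnion_insert, Finset.union_comm, ← hW]
        have : 2 * ((k + 1) * V.card) = 2 * (k * V.card) + 2 * V.card := by ring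
        omega
  obtain ⟨H, h0, h1, h2, h3⟩ := key (2 * V.card)
  set U := H.biUnion fun h => V.image (fun v => v + h) with hU
  have hmemU : ∀ h ∈ H, ∀ v ∈ V, v + h ∈ U := fun h hh v hv =>
    Finset.mem_biUnion.mpr ⟨h, hh, Finset.mem_image_of_mem _ hv⟩
  obtain ⟨G, hG0, hG⟩ := exists_bounds H
  obtain ⟨D, hD0, hD⟩ := exists_bounds V
  obtain ⟨s, hs, hmatch⟩ := hH 0 (G + D) G
  -- the first bad place after `s`
  have hgood : ∀ m, s ≤ m → m ≤ s + G → ∃ t, ∀ v ∈ V, x (m + v) = y (t + v) := by
    intro m hm1 hm2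
    refine ⟨m - s, fun v hv => ?_⟩
    have e1 := hD v hv
    have e2 := hV0 v hv
    have := hmatch (m - s + v) (by omega) (by omega)
    rw [← this]
    congr 1; ring
  have hex : ∃ j : ℕ, ∀ t, ∃ v ∈ V, x (s + j + v) ≠ y (t + v) := by
    obtain ⟨m, hm1, hm2⟩ := hcon s
    refine ⟨(m - s).toNat, ?_⟩
    rw [Int.toNat_of_nonneg (by omega), show s + (m - s) = m by ring]
    exact hm2
  have hf := Nat.find_spec hex
  set j := Nat.find hex with hj
  set f : ℤ := s + j with hfdef
  have hfG : s + G < f := by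
    by_contra hc
    push Not at hc
    obtain ⟨t, ht⟩ := hgood f (by omega) hc
    obtain ⟨v, hv, hne⟩ := hf t
    exact hne (ht v hv)
  have hbefore : ∀ m, s ≤ m → m < f → ∃ t, ∀ v ∈ V, x (m + v) = y (t + v) := by
    intro m hm1 hm2
    have := Nat.find_min hex (m := (m - s).toNat) (by omega)
    push Not at this
    rw [Int.toNat_of_nonneg (by omega), show s + (m - s) = m by ring] at this
    exact this
  -- the positions
  obtain ⟨T, hT1, hT2, -⟩ := exists_reps y U
  obtain ⟨s', hs'⟩ := hH.shift U T 0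
  have hbad : ∀ h ∈ H, ∀ t, ¬ (∀ u ∈ U, x (f - h + u) = y (t + u)) := by
    intro h hh t hcon
    obtain ⟨v, hv, hne⟩ := hf (t + h)
    apply hne
    have := hcon (v + h) (hmemU h hh v hv)
    rw [show f - h + (v + h) = f + v by ring, show t + (v + h) = t + h + v by ring] at this
    exact this
  have hbad2 : ∀ h ∈ H, ∀ h' ∈ H, h < h' → ¬ Eqv x U (f - h) (f - h') := by
    intro h hh h' hh' hlt he
    have e1 := hG h hh
    have e2 := hG h' hh'
    have e3 := h1 h hh
    obtain ⟨t, ht⟩ := hbefore (f - (h' - h)) (by omega) (by omega)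
    obtain ⟨v, hv, hne⟩ := hf t
    apply hne
    rw [← ht v hv]
    have := he (v + h) (hmemU h hh v hv)
    rw [show f - h + (v + h) = f + v by ring] at this
    rw [this]
    congr 1; ring
  set T1 : Finset ℤ := T.image (fun t => t + s') with hT1def
  set T2 : Finset ℤ := H.image (fun h => f - h) with hT2def
  have hdisj : Disjoint T1 T2 := by
    rw [Finset.disjoint_left]
    intro m hm1 hm2
    rw [hT1def, Finset.mem_image] at hm1
    rw [hT2def, Finset.mem_image] at hm2
    obtain ⟨t, ht, rfl⟩ := hm1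
    obtain ⟨h, hh, he⟩ := hm2
    apply hbad h hh t
    intro u hu
    rw [he]
    exact (hs' t ht).2 u hu
  have hc1 : T1.card = T.card := Finset.card_image_of_injective _ (fun a b hab => by
    have : a + s' = b + s' := hab
    omega)
  have hc2 : T2.card = H.card := Finset.card_image_of_injective _ (fun a b hab => by
    have : f - a = f - b := hab
    omega)
  have hind : Indep x U (T1 ∪ T2) := by
    have hsymm : ∀ m m', Eqv x U m m' → Eqv x U m' m := fun m m' h i hi => (h i hi).symm
    have h12 : ∀ m ∈ T1, ∀ m' ∈ T2, ¬ Eqv x U m m' := by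
      intro m hm m' hm' he
      rw [hT1def, Finset.mem_image] at hm
      rw [hT2def, Finset.mem_image] at hm'
      obtain ⟨t, ht, rfl⟩ := hm
      obtain ⟨h, hh, rfl⟩ := hm'
      apply hbad h hh t
      intro u hu
      rw [← he u hu]
      exact (hs' t ht).2 u hu
    intro m hm m' hm' he
    rw [Finset.mem_union] at hm hm'
    rcases hm with hm | hm <;> rcases hm' with hm' | hm'
    · rw [hT1def, Finset.mem_image] at hm hm'
      obtain ⟨t, ht, rfl⟩ := hm
      obtain ⟨t', ht', rfl⟩ := hm'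
      have : t = t' := hT1 t ht t' ht' (fun u hu => by
        rw [← (hs' t ht).2 u hu, ← (hs' t' ht').2 u hu]
        exact he u hu)
      rw [this]
    · exact absurd he (h12 m hm m' hm')
    · exact absurd (hsymm _ _ he) (h12 m' hm' m hm)
    · rw [hT2def, Finset.mem_image] at hm hm'
      obtain ⟨h, hh, rfl⟩ := hm
      obtain ⟨h', hh', rfl⟩ := hm'
      rcases lt_trichotomy h h' with hlt | rfl | hlt
      · exact absurd he (hbad2 h hh h' hh' hlt)
      · rfl
      · exact absurd (hsymm _ _ he) (hbad2 h' hh' h hh hlt)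
  have hUne : U.Nonempty := by
    obtain ⟨v, hv⟩ := hne
    exact ⟨v + 0, hmemU 0 h0 v hv⟩
  have h5 := hl U (T1 ∪ T2) hUne (by
    intro u hu
    rw [hU, Finset.mem_biUnion] at hu
    obtain ⟨h, hh, hu⟩ := hu
    rw [Finset.mem_image] at hu
    obtain ⟨v, hv, rfl⟩ := hu
    have := hV0 v hv
    have := h1 h hh
    omega) (by
    intro m hm
    rw [Finset.mem_union, hT1def, hT2def, Finset.mem_image, Finset.mem_image] at hm
    rcases hm with ⟨t, ht, rfl⟩ | ⟨h, hh, rfl⟩
    · have := (hs' t ht).1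
      omega
    · have := hG h hh
      omega) hind
  rw [Finset.card_union_of_disjoint hdisj, hc1, hc2, hT2, h2] at h5
  have h6 : U.card ≤ (2 * V.card + 1) * V.card := by
    rw [hU, ← h2]
    refine Finset.card_biUnion_le.trans ?_
    rw [← smul_eq_mul, ← Finset.sum_const]
    exact Finset.sum_le_sum fun h _ => Finset.card_image_le
  have h7 : 2 * U.card ≤ 2 * ((2 * V.card + 1) * V.card) := by omega
  have h8 : 2 * ((2 * V.card + 1) * V.card) = 2 * (2 * V.card * V.card) + 2 * V.card := by ring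
  omega

lemma eventually_block (hl : Low1 x) (hH : RHull x y) (hr : Rec y) (ha : Aper y)
    (hol : ∀ K : ℤ, ∃ N r, K ≤ N ∧ OneHole y N r) (L : ℤ) :
    ∃ C : ℤ, ∀ m, C < m → ∃ t, ∀ i, 0 ≤ i → i ≤ L → x (m + i) = y (t + i) := by
  obtain ⟨C, hC⟩ := eventually_pat (V := Finset.Icc 0 L) hl hH hr ha hol
    (fun v hv => (Finset.mem_Icc.mp hv).1)
  refine ⟨C, fun m hm => ?_⟩
  obtain ⟨t, ht⟩ := hC m hm
  exact ⟨t, fun i h1 h2 => ht i (Finset.mem_Icc.mpr ⟨h1, h2⟩)⟩

variable {N : ℕ → ℤ} {r : ℕ → ℤ} {c : ℕ → Bool} {u a : ℤ}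

lemma marker (h : TD y N r c u a) (k : ℕ) (b : Bool) :
    ∃ M : ℤ, 0 < M ∧ ∀ t, ∃ i, 1 ≤ i ∧ i ≤ M ∧ hole N r k (t + i) ∧ y (t + i) = b := by
  obtain ⟨j, hj, hcj⟩ : ∃ j, k ≤ j ∧ c j = b := by
    cases b
    · exact h.cf k
    · exact h.ct k
  have hN1 := Npos h j
  have hN2 := h.lt j
  refine ⟨N (j + 1), by omega, fun t => ?_⟩
  set q : ℤ := r (j + 1) + N j with hq
  have e0 : N (j + 1) ∣ t + ((q - t - 1) % N (j + 1) + 1) - q := by
    have h1 := Int.emod_add_mul_ediv (q - t - 1) (N (j + 1))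
    refine ⟨-((q - t - 1) / N (j + 1)), ?_⟩
    linarith
  have e1 : hole N r j (t + ((q - t - 1) % N (j + 1) + 1)) := by
    unfold hole
    have h1 := dvd_add (dvd_add ((h.dvd j).trans e0) (h.nest j)) (dvd_refl (N j))
    rwa [show t + ((q - t - 1) % N (j + 1) + 1) - q + (r (j + 1) - r j) + N j =
      t + ((q - t - 1) % N (j + 1) + 1) - r j by rw [hq]; ring] at h1
  have e2 : ¬ hole N r (j + 1) (t + ((q - t - 1) % N (j + 1) + 1)) := by
    intro h1
    have h2 := dvd_sub h1 e0
    rw [show t + ((q - t - 1) % N (j + 1) + 1) - r (j + 1) -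
      (t + ((q - t - 1) % N (j + 1) + 1) - q) = N j by rw [hq]; ring] at h2
    have := Int.le_of_dvd (by omega) h2
    omega
  refine ⟨(q - t - 1) % N (j + 1) + 1, ?_, ?_, hole_mono h hj e1, ?_⟩
  · have := Int.emod_nonneg (q - t - 1) (show N (j + 1) ≠ 0 by omega)
    omega
  · have := Int.emod_lt_of_pos (q - t - 1) (show 0 < N (j + 1) by omega)
    omega
  · rw [h.col j _ e1 e2, hcj]

lemma uniq (h : TD y N r c u a) (k : ℕ) :
    ∃ M : ℤ, 0 < M ∧ ∀ t t', (∀ i, 1 ≤ i → i ≤ M → y (t + i) = y (t' + i)) → N k ∣ t - t' := by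
  obtain ⟨M0, h0, hM0⟩ := marker h k false
  obtain ⟨M1, h1, hM1⟩ := marker h k true
  refine ⟨max M0 M1, lt_max_of_lt_left h0, fun t t' hag => ?_⟩
  by_contra hcon
  obtain ⟨i0, a0, b0, c0, d0⟩ := hM0 t
  obtain ⟨i1, a1, b1, c1, d1⟩ := hM1 t
  have e : N k ∣ t' + i0 - (t' + i1) := by
    have := dvd_sub c0 c1
    rwa [show t + i0 - r k - (t + i1 - r k) = t' + i0 - (t' + i1) by ring] at this
  have hn : ¬ hole N r k (t' + i0) := by
    intro h2
    apply hcon
    have := dvd_sub c0 h2
    rwa [show t + i0 - r k - (t' + i0 - r k) = t - t' by ring] at this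
  have h3 := det h e hn
  rw [← hag i0 a0 (b0.trans (le_max_left _ _)), ← hag i1 a1 (b1.trans (le_max_right _ _)), d0, d1]
    at h3
  exact absurd h3 (by decide)

lemma td_hol (h : TD y N r c u a) (K : ℤ) : ∃ N r, K ≤ N ∧ OneHole y N r := by
  have hN := Npos h K.toNat
  refine ⟨N K.toNat, r K.toNat, by omega, ?_, ?_⟩
  · intro hc
    obtain ⟨M0, -, hM0⟩ := marker h K.toNat false
    obtain ⟨M1, -, hM1⟩ := marker h K.toNat true
    obtain ⟨i0, -, -, c0, d0⟩ := hM0 0
    obtain ⟨i1, -, -, c1, d1⟩ := hM1 0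
    obtain ⟨j0, hj0⟩ := c0
    obtain ⟨j1, hj1⟩ := c1
    have e0 := hc j0
    have e1 := hc j1
    rw [show r K.toNat + j0 * N K.toNat = 0 + i0 by linarith] at e0
    rw [show r K.toNat + j1 * N K.toNat = 0 + i1 by linarith] at e1
    rw [d0] at e0
    rw [d1, ← e0] at e1
    exact absurd e1 (by decide)
  · intro s hs j
    symm
    apply det h (k := K.toNat) _ hs
    rw [show s - (s + j * N K.toNat) = -j * N K.toNat by ring]
    exact dvd_mul_left _ _

lemma td_aper (h : TD y N r c u a) : Aper y := by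
  intro q hq
  by_contra hcon
  push Not at hcon
  obtain ⟨M, -, hM⟩ := uniq h q.natAbs
  have h1 := hM q 0 (fun i _ _ => by rw [add_comm q i, hcon, zero_add])
  rw [sub_zero] at h1
  have h2 := Npos h q.natAbs
  have h3 := Int.eq_zero_of_abs_lt_dvd h1 (by rw [Int.abs_eq_natAbs]; exact h2)
  exact hq h3

/-- the phase at level `k` -/
lemma phase (h : TD y N r c u a)
    (hb : ∀ L : ℤ, ∃ C : ℤ, ∀ m, C < m → ∃ t, ∀ i, 0 ≤ i → i ≤ L → x (m + i) = y (t + i))
    (k : ℕ) : ∃ L C ρ : ℤ, ∀ m, C < m → ∀ t, (∀ i, 0 ≤ i → i ≤ L → x (m + i) = y (t + i)) →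
      N k ∣ (m - ρ) - (t - r k) := by
  obtain ⟨M, hM0, hM⟩ := uniq h k
  obtain ⟨C, hC⟩ := hb (M + 1)
  obtain ⟨t0, ht0⟩ := hC (C + 1) (by omega)
  have key : ∀ j : ℕ, ∀ t, (∀ i, 0 ≤ i → i ≤ M + 1 → x (C + 1 + j + i) = y (t + i)) →
      N k ∣ (C + 1 + j - (C + 1 + r k - t0)) - (t - r k) := by
    intro j
    induction j with
    | zero =>
      intro t ht
      have h1 := hM t0 t (fun i hi1 hi2 => by
        rw [← ht0 i (by omega) (by omega), ← ht i (by omega) (by omega)]
        simp)
      rwa [show C + 1 + ((0 : ℕ) : ℤ) - (C + 1 + r k - t0) - (t - r k) = t0 - t by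
        push_cast; ring]
    | succ j ih =>
      intro t ht
      obtain ⟨t', ht'⟩ := hC (C + 1 + j) (by omega)
      have h1 := ih t' ht'
      have h2 := hM (t' + 1) t (fun i hi1 hi2 => by
        rw [← ht i (by omega) (by omega), show t' + 1 + i = t' + (i + 1) by ring,
          ← ht' (i + 1) (by omega) (by omega)]
        congr 1
        push_cast
        ring)
      have h3 := dvd_add h1 h2
      rwa [show C + 1 + (j : ℤ) - (C + 1 + r k - t0) - (t' - r k) + (t' + 1 - t) =
        C + 1 + ((j + 1 : ℕ) : ℤ) - (C + 1 + r k - t0) - (t - r k) by push_cast; ring] at h3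
  refine ⟨M + 1, C, C + 1 + r k - t0, fun m hm t ht => ?_⟩
  have h1 := key (m - (C + 1)).toNat t
  rw [Int.toNat_of_nonneg (by omega), show C + 1 + (m - (C + 1)) = m by ring] at h1
  exact h1 ht

/-- seven patterns on three places -/
lemma Low1.seven (hl : Low1 x) {h g : ℤ} (hh : 0 ≤ h) (hg : 0 ≤ g) (f : Fin 7 → ℤ)
    (hf : ∀ i, 1 ≤ f i)
    (hinj : Function.Injective fun i => (x (f i), x (f i + h), x (f i + g))) : False := by
  classical
  have hfi : Function.Injective f := fun i j hij => hinj (by simp only [hij])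
  have h1 := hl {0, h, g} (Finset.univ.image f) ⟨0, by simp⟩ (by
    intro k hk
    simp only [Finset.mem_insert, Finset.mem_singleton] at hk
    omega) (by
    intro m hm
    rw [Finset.mem_image] at hm
    obtain ⟨i, -, rfl⟩ := hm
    exact hf i) (by
    intro m hm m' hm' he
    rw [Finset.mem_image] at hm hm'
    obtain ⟨i, -, rfl⟩ := hm
    obtain ⟨j, -, rfl⟩ := hm'
    have e0 := he 0 (by simp)
    have e1 := he h (by simp)
    have e2 := he g (by simp)
    rw [add_zero, add_zero] at e0
    have : i = j := hinj (by simp only [e0, e1, e2])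
    rw [this])
  rw [Finset.card_image_of_injective _ hfi, Finset.card_univ, Fintype.card_fin] at h1
  have h2 : ({0, h, g} : Finset ℤ).card ≤ 3 := Finset.card_le_three
  omega

/-- outside the hole the letters of `x` are those of `y` -/
lemma exact (hl : Low1 x) (hH : RHull x y) (h : TD y N r c u a) {k : ℕ} {ρ C : ℤ}
    (hC : ∀ m, C < m → ∃ t, x m = y t ∧ N k ∣ (m - ρ) - (t - r k))
    {n t : ℤ} (hn : 1 ≤ n) (hk : ¬ hole N r k t) (ht : N k ∣ (n - ρ) - (t - r k)) :
    x n = y t := by
  classical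
  by_contra hne
  have hr : Rec y := RecR.rec' (recR h)
  have ha : Aper y := td_aper h
  -- the letter of the class
  have hfar : ∀ m, C < m → N k ∣ m - n → x m = y t := by
    intro m hm hmn
    obtain ⟨t', h1, h2⟩ := hC m hm
    rw [h1]
    symm
    apply det h _ hk
    have := dvd_sub (dvd_sub h2 ht) hmn
    rwa [show m - ρ - (t' - r k) - (n - ρ - (t - r k)) - (m - n) = t - t' by ring] at this
  obtain ⟨b, hb⟩ : ∃ b, x n = b := ⟨_, rfl⟩
  have hyt : y t = !b := by
    rw [hb] at hne
    cases h1 : y t <;> cases h2 : b <;> simp_all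
  obtain ⟨j0, -, hj0⟩ : ∃ j, 0 ≤ j ∧ c j = !b := by
    cases !b
    · exact h.cf 0
    · exact h.ct 0
  obtain ⟨k', hk', hck'⟩ : ∃ j, max k (j0 + 1) ≤ j ∧ c j = b := by
    cases b
    · exact h.cf _
    · exact h.ct _
  have hkk' : k ≤ k' := (le_max_left _ _).trans hk'
  have hjk' : j0 + 1 ≤ k' := (le_max_right _ _).trans hk'
  have hN1 := Npos h k'
  have hN2 := h.lt k'
  -- positions in the hole
  obtain ⟨M0, -, hM0⟩ := marker h (k' + 1) false
  obtain ⟨q0, hq01, -, hq0h, hq0⟩ := hM0 0
  obtain ⟨M1, -, hM1⟩ := marker h (k' + 1) true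
  obtain ⟨q1, hq11, -, hq1h, hq1⟩ := hM1 0
  obtain ⟨M2, -, hM2⟩ := marker h (k' + 1) (!b)
  obtain ⟨qc, -, -, hqch, hqc⟩ := hM2 0
  rw [zero_add] at hq0h hq0 hq1h hq1 hqch hqc
  -- the return
  obtain ⟨d, hdC, hd0, hNd, hret⟩ := AR' hr 0 (q0 + q1) (N (k' + 1)) C (by omega)
  obtain ⟨⟨m1, a1, b1⟩, ⟨m2, a2, b2⟩⟩ := both hr ha hd0
  have hflip : ∀ m, y (m + d) ≠ y m → hole N r (k' + 1) m := by
    intro m hm
    by_contra hcon
    apply hm
    symm
    apply det h _ hcon
    rw [show m - (m + d) = -d by ring]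
    exact hNd.neg_right
  have hm1 := hflip m1 (by rw [a1, b1]; decide)
  have hm2 := hflip m2 (by rw [a2, b2]; decide)
  -- the third place
  set g : ℤ := N (k' + 1) * (|C| + 1) + N k' with hg
  have hgpos : |C| + 1 ≤ N (k' + 1) * (|C| + 1) := by
    have := abs_nonneg C
    nlinarith
  have habs := le_abs_self C
  have hg0 : 0 < g := by
    have := abs_nonneg C
    omega
  have hgC : C < g := by omega
  have hNg : N k' ∣ g := dvd_add ((h.dvd k').mul_right _) (dvd_refl _)
  have hNg' : ¬ N (k' + 1) ∣ g := by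
    intro h1
    have h2 := (Int.dvd_add_right (dvd_mul_right _ _)).mp h1
    have := Int.le_of_dvd (by omega) h2
    omega
  have hplus : ∀ q, hole N r (k' + 1) q → y (q + g) = b := by
    intro q hq
    rw [← hck']
    apply h.col k'
    · have := dvd_add (hole_mono h (Nat.le_succ k') hq) hNg
      rwa [show q - r k' + g = q + g - r k' by ring] at this
    · intro h1
      apply hNg'
      have := dvd_sub h1 hq
      rwa [show q + g - r (k' + 1) - (q - r (k' + 1)) = g by ring] at this
  have hminus : ∀ q, hole N r (k' + 1) q → y (q - g) = b := by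
    intro q hq
    rw [← hck']
    apply h.col k'
    · have := dvd_sub (hole_mono h (Nat.le_succ k') hq) hNg
      rwa [show q - r k' - g = q - g - r k' by ring] at this
    · intro h1
      apply hNg'
      have := dvd_sub hq h1
      rwa [show q - r (k' + 1) - (q - g - r (k' + 1)) = g by ring] at this
  -- a position with three times the other letter
  set s : ℤ := r (j0 + 1) + N j0 with hs
  have hj1 := Npos h j0
  have hj2 := h.lt j0
  have hs1 : ¬ hole N r (j0 + 1) s := by
    intro h1
    unfold hole at h1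
    rw [hs, show r (j0 + 1) + N j0 - r (j0 + 1) = N j0 by ring] at h1
    have := Int.le_of_dvd (by omega) h1
    omega
  have hs2 : y s = !b := by
    rw [← hj0]
    apply h.col j0 _ _ hs1
    have := dvd_add (h.nest j0) (dvd_refl (N j0))
    rwa [show r (j0 + 1) - r j0 + N j0 = s - r j0 by rw [hs]; ring] at this
  have hs3 : y (s + d) = !b := by
    rw [← hs2]
    symm
    apply det h _ hs1
    rw [show s - (s + d) = -d by ring]
    exact (((Ndvd h hjk').trans (h.dvd k')).trans hNd).neg_right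
  have hs4 : y (s + g) = !b := by
    rw [← hs2]
    symm
    apply det h _ hs1
    rw [show s - (s + g) = -g by ring]
    exact ((Ndvd h hjk').trans hNg).neg_right
  -- the seven positions
  obtain ⟨σ, hσ⟩ := hH.shift {0, d, g} {q0, m1, m2, q1, qc - g, s} 0
  have hv : ∀ q ∈ ({q0, m1, m2, q1, qc - g, s} : Finset ℤ), 1 ≤ q + σ ∧
      (x (q + σ), x (q + σ + d), x (q + σ + g)) = (y q, y (q + d), y (q + g)) := by
    intro q hq
    obtain ⟨h1, h2⟩ := hσ q hq
    have e0 := h2 0 (by simp)
    have e1 := h2 d (by simp)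
    have e2 := h2 g (by simp)
    rw [add_zero, add_zero] at e0
    refine ⟨by omega, ?_⟩
    rw [e0, e1, e2]
  have v0 := hv q0 (by simp)
  have v1 := hv m1 (by simp)
  have v2 := hv m2 (by simp)
  have v3 := hv q1 (by simp)
  have v4 := hv (qc - g) (by simp)
  have v5 := hv s (by simp)
  rw [hq0, hret q0 (by omega) (by omega), hq0, hplus q0 hq0h] at v0
  rw [a1, b1, hplus m1 hm1] at v1
  rw [a2, b2, hplus m2 hm2] at v2
  rw [hq1, hret q1 (by omega) (by omega), hq1, hplus q1 hq1h] at v3
  rw [hminus qc hqch, show qc - g + d = qc + d - g by ring, hminus (qc + d) (by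
    rw [hole_congr (n' := qc)]
    · exact hqch
    · rw [show qc + d - qc = d by ring]; exact hNd), sub_add_cancel, hqc] at v4
  rw [hs2, hs3, hs4] at v5
  have v6 : (x n, x (n + d), x (n + g)) = (b, !b, !b) := by
    rw [hb, hfar (n + d) (by omega) (by
      rw [show n + d - n = d by ring]
      exact ((Ndvd h hkk').trans (h.dvd k')).trans hNd), hfar (n + g) (by omega) (by
      rw [show n + g - n = g by ring]
      exact (Ndvd h hkk').trans hNg), hyt]
  apply hl.seven hd0.le hg0.le ![q0 + σ, m1 + σ, m2 + σ, q1 + σ, qc - g + σ, s + σ, n]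
  · intro i
    fin_cases i
    · exact v0.1
    · exact v1.1
    · exact v2.1
    · exact v3.1
    · exact v4.1
    · exact v5.1
    · exact hn
  · have e : (fun i => (x ((![q0 + σ, m1 + σ, m2 + σ, q1 + σ, qc - g + σ, s + σ, n] :
          Fin 7 → ℤ) i),
        x ((![q0 + σ, m1 + σ, m2 + σ, q1 + σ, qc - g + σ, s + σ, n] : Fin 7 → ℤ) i + d),
        x ((![q0 + σ, m1 + σ, m2 + σ, q1 + σ, qc - g + σ, s + σ, n] : Fin 7 → ℤ) i + g))) =
        ![(false, false, b), (false, true, b), (true, false, b), (true, true, b), (b, b, !b),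
          (!b, !b, !b), (b, !b, !b)] := by
      funext i
      fin_cases i
      · exact v0.2
      · exact v1.2
      · exact v2.2
      · exact v3.2
      · exact v4.2
      · exact v5.2
      · exact v6
    rw [e]
    cases b <;> decide

/-- **Toeplitz case.** -/
theorem toep_case' (hl : Low1 x) (hH : RHull x y) (hT : ToepForm y) :
    ∃ X, ToepForm X ∧ ∀ n, 1 ≤ n → x n = X n := by
  classical
  obtain ⟨N, r, c, u, a, g1, g2, g3, g4, g5, g6, g7, g8, g9, g10, g11⟩ := hT
  have h : TD y N r c u a := ⟨g1, g2, g3, g4, g5, g6, g7, g8, g9, g10, g11⟩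
  have hr : Rec y := RecR.rec' (recR h)
  have hb := eventually_block hl hH hr (td_aper h) (td_hol h)
  choose L C ρ hρ using phase h hb
  have hC : ∀ k, ∃ C', ∀ m, C' < m → ∃ t, x m = y t ∧ N k ∣ (m - ρ k) - (t - r k) := by
    intro k
    obtain ⟨C', hC'⟩ := hb (max (L k) 0)
    refine ⟨max C' (C k), fun m hm => ?_⟩
    obtain ⟨t, ht⟩ := hC' m ((le_max_left _ _).trans_lt hm)
    refine ⟨t, ?_, hρ k m ((le_max_right _ _).trans_lt hm) t fun i h1 h2 =>
      ht i h1 (h2.trans (le_max_left _ _))⟩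
    have := ht 0 le_rfl (le_max_right _ _)
    rwa [add_zero, add_zero] at this
  have hnest : ∀ k, N k ∣ ρ (k + 1) - ρ k := by
    intro k
    obtain ⟨C', hC'⟩ := hb (max (L k) (L (k + 1)))
    set m := max C' (max (C k) (C (k + 1))) + 1 with hm
    have e1 : C' < m := by have := le_max_left C' (max (C k) (C (k + 1))); omega
    have e2 : C k < m := by
      have := le_max_right C' (max (C k) (C (k + 1)))
      have := le_max_left (C k) (C (k + 1))
      omega
    have e3 : C (k + 1) < m := by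
      have := le_max_right C' (max (C k) (C (k + 1)))
      have := le_max_right (C k) (C (k + 1))
      omega
    obtain ⟨t, ht⟩ := hC' m e1
    have h1 := hρ k m e2 t fun i h1 h2 => ht i h1 (h2.trans (le_max_left _ _))
    have h2 := hρ (k + 1) m e3 t fun i h1 h2 => ht i h1 (h2.trans (le_max_right _ _))
    have h3 := dvd_add (dvd_sub h1 ((h.dvd k).trans h2)) (h.nest k)
    rwa [show m - ρ k - (t - r k) - (m - ρ (k + 1) - (t - r (k + 1))) + (r (k + 1) - r k) =
      ρ (k + 1) - ρ k by ring] at h3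
  have hρdvd : ∀ j k, j ≤ k → N j ∣ ρ k - ρ j := by
    intro j k hjk
    induction k, hjk using Nat.le_induction with
    | base => simp
    | succ k hk ih =>
      have h1 := (Ndvd h hk).trans (hnest k)
      have := dvd_add h1 ih
      rwa [show ρ (k + 1) - ρ k + (ρ k - ρ j) = ρ (k + 1) - ρ j by ring] at this
  have hx : ∀ k n, 1 ≤ n → ¬ N k ∣ n - ρ k → x n = y (n - ρ k + r k) := by
    intro k n hn hk
    obtain ⟨C', hC'⟩ := hC k
    apply exact hl hH h hC' hn
    · unfold hole
      rwa [show n - ρ k + r k - r k = n - ρ k by ring]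
    · rw [show n - ρ k - (n - ρ k + r k - r k) = 0 by ring]
      exact dvd_zero _
  -- the values
  have hval : ∀ j k n, j ≤ k → ¬ N j ∣ n - ρ j → y (n - ρ j + r j) = y (n - ρ k + r k) := by
    intro j k n hjk hj
    apply det h (k := j)
    · have := dvd_sub (hρdvd j k hjk) (rdvd h hjk)
      rwa [show ρ k - ρ j - (r k - r j) = n - ρ j + r j - (n - ρ k + r k) by ring] at this
    · unfold hole
      rwa [show n - ρ j + r j - r j = n - ρ j by ring]
  set X : ℤ → Bool := fun n => if hn : ∃ k, ¬ N k ∣ n - ρ k then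
    y (n - ρ (Nat.find hn) + r (Nat.find hn)) else x n with hX
  have hXk : ∀ k n, ¬ N k ∣ n - ρ k → X n = y (n - ρ k + r k) := by
    intro k n hk
    have hn : ∃ k, ¬ N k ∣ n - ρ k := ⟨k, hk⟩
    rw [hX]
    simp only [hn, ↓reduceDIte]
    exact hval _ _ _ (Nat.find_min' hn hk) (Nat.find_spec hn)
  refine ⟨X, ⟨N, ρ, c, u, a, g1, g2, g3, hnest, g5, g6, g7, g8, g9, ?_, ?_⟩, ?_⟩
  · intro n hn
    rw [hXk 0 n hn, g10 _ (by rwa [show n - ρ 0 + r 0 - r 0 = n - ρ 0 by ring])]
    constructor
    · rintro ⟨i, p, q, s⟩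
      refine ⟨i, p, q, ?_⟩
      rwa [show n - ρ 0 + r 0 - (r 0 + u * i) = n - (ρ 0 + u * i) by ring] at s
    · rintro ⟨i, p, q, s⟩
      refine ⟨i, p, q, ?_⟩
      rwa [show n - ρ 0 + r 0 - (r 0 + u * i) = n - (ρ 0 + u * i) by ring]
  · intro k n h1 h2
    rw [hXk (k + 1) n h2]
    apply g11 k
    · have := dvd_add (dvd_sub h1 (hnest k)) (g4 k)
      rwa [show n - ρ k - (ρ (k + 1) - ρ k) + (r (k + 1) - r k) =
        n - ρ (k + 1) + r (k + 1) - r k by ring] at this
    · rwa [show n - ρ (k + 1) + r (k + 1) - r (k + 1) = n - ρ (k + 1) by ring]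
  · intro n hn
    by_cases hk : ∃ k, ¬ N k ∣ n - ρ k
    · obtain ⟨k, hk⟩ := hk
      rw [hXk k n hk, hx k n hn hk]
    · rw [hX]
      simp only [hk, ↓reduceDIte]

theorem toep_case (hl : Low1 x) (_hn : NUP x) (hH : RHull x y) (hT : ToepForm y) :
    ∃ X, ToepForm X ∧ ∀ n, 1 ≤ n → x n = X n := toep_case' hl hH hT

end Pool.Agent.PatSturm.NR
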