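import Mathlib
import Pool.Agent.PatSturm.NRStatement
import Pool.Agent.PatSturm.NRDefs
import Pool.Agent.PatSturm.NR1
import Pool.Agent.PatSturm.NR2
import Pool.Agent.PatSturm.NR45
import Pool.Agent.PatSturm.NR6
import Pool.Agent.PatSturm.NR7
import Pool.Agent.PatSturm.NRToep
import Pool.Agent.PatSturm.Final
import Pool.Agent.Helper434.SpDefs

/-!
Assembly: words with pattern complexity `2n`.
-/

set_option autoImplicit false

namespace Pool.Agent.PatSturm.NR.Fin

open Pool.Agent.PatSturm Pool.Agent.PatSturm.NR Pool.Agent.Helper434.PCDefs Pool.Agent.Helper434.Sp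
open Pool.Agent.PatSturm.NR.Statement (plus windowComplexity patternComplexity IntervalWord ToeplitzWord
  SparseWord)

/-- the word as a function on the integers -/
def ext (f : ℕ+ → Bool) (n : ℤ) : Bool := if h : 0 < n.toNat then f ⟨n.toNat, h⟩ else false

lemma ext_pnat (f : ℕ+ → Bool) (n : ℕ+) : ext f (n : ℤ) = f n := by
  unfold ext
  have h : ((n : ℤ)).toNat = (n : ℕ) := by simp
  rw [dif_pos (by rw [h]; exact n.pos)]
  congr 1

lemma plus_coe (m : ℕ+) (k : ℕ) : ((plus m k : ℕ+) : ℤ) = (m : ℤ) + k := by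
  have : ((plus m k : ℕ+) : ℕ) = (m : ℕ) + k := rfl
  have h2 : (((plus m k : ℕ+) : ℕ) : ℤ) = (((m : ℕ) + k : ℕ) : ℤ) := by rw [this]
  push_cast at h2
  exact h2

lemma ext_add (f : ℕ+ → Bool) (m : ℕ+) (k : ℕ) :
    ext f ((m : ℤ) + k) = f (plus m k) := by
  rw [← ext_pnat f, plus_coe]

lemma ext_of {f : ℕ+ → Bool} {n : ℤ} (hn : 1 ≤ n) :
    ∃ m : ℕ+, (m : ℤ) = n ∧ ext f n = f m := by
  refine ⟨⟨n.toNat, by omega⟩, ?_, ?_⟩
  · simp only [PNat.mk_coe]
    omega
  · unfold ext
    rw [dif_pos (by omega)]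

lemma ext_not (f : ℕ+ → Bool) {n : ℤ} (hn : 1 ≤ n) : ext (fun n => !f n) n = !ext f n := by
  obtain ⟨m, rfl, h⟩ := ext_of (f := f) hn
  rw [h, ext_pnat]

/-- an upper bound for the number of patterns gives an upper bound for independent sets -/
lemma indep_le {f : ℕ+ → Bool} {K T : Finset ℤ} (hK0 : ∀ k ∈ K, 0 ≤ k) (hT1 : ∀ m ∈ T, 1 ≤ m)
    (hT : Indep (ext f) K T) :
    (T.card : ℕ∞) ≤ patternComplexity f K.card := by
  classical
  have hc : (K.image Int.toNat).card = K.card := by
    apply Finset.card_image_of_injOn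
    intro a ha b hb hab
    have h1 := hK0 a ha
    have h2 := hK0 b hb
    have h3 : a.toNat = b.toNat := hab
    omega
  refine le_trans ?_ (le_iSup (fun K : {K' : Finset ℕ // K'.card = K.card} =>
    windowComplexity f K) ⟨K.image Int.toNat, hc⟩)
  simp only
  unfold windowComplexity
  set g : ℕ+ → (↥(K.image Int.toNat) → Bool) :=
    fun m k => f (plus m k) with hg
  -- the positions
  have h1 : ∀ m ∈ T, ∃ n : ℕ+, (n : ℤ) = m := fun m hm => by
    obtain ⟨n, h, -⟩ := ext_of (f := f) (hT1 m hm)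
    exact ⟨n, h⟩
  choose! q hq using h1
  have h2 : Set.InjOn (fun m => g (q m)) (T : Set ℤ) := by
    intro m hm m' hm' hE
    apply hT m hm m' hm'
    intro k hk
    have h3 := congrFun hE ⟨k.toNat, Finset.mem_image_of_mem _ hk⟩
    simp only [hg] at h3
    rw [← ext_add f, ← ext_add f, hq m hm, hq m' hm', Int.toNat_of_nonneg (hK0 k hk)] at h3
    exact h3
  calc (T.card : ℕ∞) = (T : Set ℤ).encard := (Set.encard_coe_eq_coe_finsetCard T).symm
    _ = ((fun m => g (q m)) '' (T : Set ℤ)).encard := h2.encard_image.symm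
    _ ≤ (Set.range g).encard := by
        apply Set.encard_le_encard
        rintro _ ⟨m, -, rfl⟩
        exact ⟨q m, rfl⟩

/-- upper bound for the number of patterns -/
lemma pc_le {f : ℕ+ → Bool} (hl : Low1 (ext f)) {n : ℕ} (hn : 1 ≤ n) :
    patternComplexity f n ≤ 2 * n := by
  classical
  apply iSup_le
  rintro ⟨K, hK⟩
  simp only
  unfold windowComplexity
  set g : ℕ+ → (K → Bool) := fun m k => f (plus m k) with hg
  have hfin : (Set.range g).Finite := Set.toFinite _
  -- representatives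
  have h1 : ∀ w ∈ hfin.toFinset, ∃ m : ℕ+, g m = w := by
    intro w hw
    rw [Set.Finite.mem_toFinset] at hw
    exact hw
  choose! q hq using h1
  set T : Finset ℤ := hfin.toFinset.image fun w => ((q w : ℕ+) : ℤ) with hT
  have h2 : T.card = hfin.toFinset.card := by
    apply Finset.card_image_of_injOn
    intro w hw w' hw' hE
    have h3 : q w = q w' := by
      have : ((q w : ℕ+) : ℤ) = ((q w' : ℕ+) : ℤ) := hE
      exact_mod_cast this
    rw [← hq w hw, ← hq w' hw', h3]
  have h3 : (K.image fun k : ℕ => (k : ℤ)).card = K.card :=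
    Finset.card_image_of_injective _ Nat.cast_injective
  have h4 := hl (K.image fun k : ℕ => (k : ℤ)) T (by
      apply Finset.Nonempty.image
      apply Finset.card_pos.mp
      omega) (by
      intro k hk
      rw [Finset.mem_image] at hk
      obtain ⟨k', -, rfl⟩ := hk
      exact Int.natCast_nonneg k') (by
      intro m hm
      rw [hT, Finset.mem_image] at hm
      obtain ⟨w, -, rfl⟩ := hm
      have := (q w).pos
      omega) (by
      intro m hm m' hm' hE
      rw [hT, Finset.mem_image] at hm hm'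
      obtain ⟨w, hw, rfl⟩ := hm
      obtain ⟨w', hw', rfl⟩ := hm'
      have h5 : w = w' := by
        rw [← hq w hw, ← hq w' hw']
        funext k
        simp only [hg]
        rw [← ext_add f, ← ext_add f]
        exact hE k (Finset.mem_image_of_mem _ k.2)
      rw [h5])
  rw [h2, h3, hK] at h4
  rw [hfin.encard_eq_coe_toFinset_card]
  exact_mod_cast h4

lemma pc_ge {f : ℕ+ → Bool} (hf : Full1 (ext f)) {n : ℕ} (hn : 1 ≤ n) :
    2 * (n : ℕ∞) ≤ patternComplexity f n := by
  obtain ⟨K, T, h1, h2, h3, h4, h5⟩ := hf n hn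
  have h6 := indep_le h2 h3 h4
  rw [h5, h1] at h6
  exact_mod_cast h6

lemma pc_eq {f : ℕ+ → Bool} (hl : Low1 (ext f)) (hf : Full1 (ext f)) :
    ∀ n : ℕ, 1 ≤ n → patternComplexity f n = 2 * n :=
  fun _ hn => le_antisymm (pc_le hl hn) (pc_ge hf hn)

lemma low_of_pc {f : ℕ+ → Bool} (h : ∀ n : ℕ, 1 ≤ n → patternComplexity f n = 2 * n) :
    Low1 (ext f) := by
  intro K T hK hK0 hT1 hT
  have h1 := indep_le hK0 hT1 hT
  rw [h _ (Finset.card_pos.mpr hK)] at h1
  exact_mod_cast h1

lemma nup_of_pc {f : ℕ+ → Bool} (h : ∀ n : ℕ, 1 ≤ n → patternComplexity f n = 2 * n) :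
    NUP (ext f) := by
  classical
  intro q C hq
  by_contra hcon
  push Not at hcon
  -- every pattern occurs at a place `≤ |C| + q`
  set B : ℕ := (|C| + q).toNat with hB
  have hBC : (B : ℤ) = |C| + q := by
    rw [hB, Int.toNat_of_nonneg (by positivity)]
  have hper : ∀ n : ℕ, ∀ m : ℤ, 1 ≤ m → m ≤ n → ∃ m' : ℤ, 1 ≤ m' ∧ m' ≤ B ∧
      ∀ k : ℤ, 0 ≤ k → ext f (m + k) = ext f (m' + k) := by
    intro n
    induction n with
    | zero => intro m h1 h2; push_cast at h2; omega
    | succ n ih =>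
      intro m h1 h2
      rcases le_or_gt m B with h3 | h3
      · exact ⟨m, h1, h3, fun _ _ => rfl⟩
      · have hC := le_abs_self C
        have hC' := abs_nonneg C
        obtain ⟨m', a1, a2, a3⟩ := ih (m - q) (by omega) (by push_cast at h2; omega)
        refine ⟨m', a1, a2, fun k hk => ?_⟩
        rw [← a3 k hk, ← hcon (m - q + k) (by omega)]
        congr 1
        ring
  have hb : ∀ n : ℕ, patternComplexity f n ≤ B := by
    intro n
    apply iSup_le
    rintro ⟨K, hK⟩
    simp only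
    unfold windowComplexity
    set g : ℕ+ → (K → Bool) := fun m k => f (plus m k) with hg
    set G : ℕ → (K → Bool) := fun i k => ext f ((i : ℤ) + (k : ℕ)) with hG
    have h1 : Set.range g ⊆ ((Finset.Icc 1 B).image G : Finset (K → Bool)) := by
      rintro _ ⟨m, rfl⟩
      obtain ⟨m', a1, a2, a3⟩ := hper (m : ℕ) m (by have := m.pos; omega) (by simp)
      rw [Finset.coe_image]
      refine ⟨m'.toNat, ?_, ?_⟩
      · rw [Finset.coe_Icc, Set.mem_Icc]; omega
      · funext k
        simp only [hG, hg]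
        rw [← ext_add f, a3 _ (Int.natCast_nonneg _), Int.toNat_of_nonneg (by omega)]
    refine le_trans (Set.encard_le_encard h1) ?_
    rw [Set.encard_coe_eq_coe_finsetCard]
    have h2 : ((Finset.Icc 1 B).image G).card ≤ B := by
      refine Finset.card_image_le.trans ?_
      rw [Nat.card_Icc]; omega
    exact_mod_cast h2
  have h1 := hb (B + 1)
  rw [h (B + 1) (by omega)] at h1
  have h2 : 2 * (B + 1) ≤ B := by exact_mod_cast h1
  omega

/-! ### Toeplitz words -/

lemma toep_of {f : ℕ+ → Bool} (h : ToeplitzWord f) :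
    ∃ X, Pool.Agent.PatSturm.Statement.ArcToeplitz X ∧ ∀ n, 1 ≤ n → ext f n = X n := by
  classical
  obtain ⟨N, r, c, u, a, h1, h2, h3, h4, h5, h6, h7, h8, h9, h10, h11⟩ := h
  have hNle : ∀ i j, i ≤ j → N i ∣ N j := by
    intro i j hij
    induction j, hij using Nat.le_induction with
    | base => exact dvd_rfl
    | succ j _ ih => exact ih.trans (h3 j)
  have hr : ∀ i j, i ≤ j → N i ∣ r j - r i := by
    intro i j hij
    induction j, hij using Nat.le_induction with
    | base => simp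
    | succ j hj ih =>
      have := dvd_add ((hNle i j hj).trans (h4 j)) ih
      rwa [sub_add_sub_cancel] at this
  have hcl : ∀ n i j, i ≤ j → N j ∣ n - r j → N i ∣ n - r i := by
    intro n i j hij hn
    have := dvd_add ((hNle i j hij).trans hn) (hr i j hij)
    rwa [sub_add_sub_cancel] at this
  set X : ℤ → Bool := fun n =>
    if hk : ∃ k, ¬ N k ∣ n - r k then
      (if Nat.find hk = 0 then decide (∃ i, 1 ≤ i ∧ i ≤ a ∧ N 0 ∣ n - (r 0 + u * i))
        else c (Nat.find hk - 1))
    else ext f n with hX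
  have X0 : ∀ n, ¬ N 0 ∣ n - r 0 →
      X n = decide (∃ i, 1 ≤ i ∧ i ≤ a ∧ N 0 ∣ n - (r 0 + u * i)) := by
    intro n hn
    have hk : ∃ k, ¬ N k ∣ n - r k := ⟨0, hn⟩
    have h0 : Nat.find hk = 0 := by
      rw [Nat.find_eq_zero]; exact hn
    simp only [hX]
    rw [dif_pos hk, if_pos h0]
  have X1 : ∀ k n, N k ∣ n - r k → ¬ N (k + 1) ∣ n - r (k + 1) → X n = c k := by
    intro k n hn hn'
    have hk : ∃ k, ¬ N k ∣ n - r k := ⟨k + 1, hn'⟩
    have h0 : Nat.find hk = k + 1 := by
      rw [Nat.find_eq_iff]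
      refine ⟨hn', fun j hj => not_not.mpr (hcl n j k (by omega) hn)⟩
    simp only [hX]
    rw [dif_pos hk, if_neg (by omega), h0, Nat.add_sub_cancel]
  refine ⟨X, ⟨N, r, c, u, a, h1, h2, h3, h4, h5, h6, h7, h8, h9, ?_, X1⟩, ?_⟩
  · intro n hn
    rw [X0 n hn, decide_eq_true_iff]
  · intro n hn
    obtain ⟨m, rfl, hm⟩ := ext_of (f := f) hn
    by_cases hk : ∃ k, ¬ N k ∣ (m : ℤ) - r k
    · rcases Nat.eq_zero_or_pos (Nat.find hk) with h0 | h0
      · have hs := Nat.find_spec hk
        rw [h0] at hs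
        rw [X0 _ hs, hm, Bool.eq_iff_iff, h10 m hs, decide_eq_true_iff]
      · obtain ⟨k, hk'⟩ : ∃ k, Nat.find hk = k + 1 := ⟨Nat.find hk - 1, by omega⟩
        have hs := Nat.find_spec hk
        rw [hk'] at hs
        have hs' : N k ∣ (m : ℤ) - r k := by
          have := Nat.find_min hk (m := k) (by omega)
          exact not_not.mp this
        rw [X1 k _ hs' hs, hm]
        exact h11 k m hs' hs
    · simp only [hX]
      rw [dif_neg hk]

lemma toep_to {f : ℕ+ → Bool} {X : ℤ → Bool} (h : ToepForm X) (hX : ∀ n, 1 ≤ n → ext f n = X n) :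
    ToeplitzWord f := by
  obtain ⟨N, r, c, u, a, h1, h2, h3, h4, h5, h6, h7, h8, h9, h10, h11⟩ := h
  have e : ∀ n : ℕ+, f n = X n := fun n => by
    rw [← ext_pnat f, hX _ (by have := n.pos; omega)]
  refine ⟨N, r, c, u, a, h1, h3, h2, h4, h5, h6, h7, h8, h9, fun n hn => ?_, fun k n hn hn' => ?_⟩
  · rw [e]; exact h10 _ hn
  · rw [e]; exact h11 k _ hn hn'

lemma toep_low {x X : ℤ → Bool} (h : Pool.Agent.PatSturm.Statement.ArcToeplitz X)
    (hX : ∀ n, 1 ≤ n → x n = X n) : Low1 x := by
  intro K T hK hK0 hT1 hT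
  apply Final.class_bdd (Or.inr h) K T hK
  intro m hm m' hm' hE
  apply hT m hm m' hm'
  intro k hk
  have h1 := hK0 k hk
  have h2 := hT1 m hm
  have h3 := hT1 m' hm'
  rw [hX _ (by omega), hX _ (by omega)]
  exact hE k hk

lemma toep_full {x X : ℤ → Bool} (h : Pool.Agent.PatSturm.Statement.ArcToeplitz X)
    (hX : ∀ n, 1 ≤ n → x n = X n) : Full1 x := by
  classical
  intro n hn
  obtain ⟨V, T, h1, h2, h3, h4, h5⟩ := Final.class_full (Or.inr h) (n - 1)
  have hr := Final.class_recR (Or.inr h)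
  choose g hg1 hg2 using fun m : ℤ => hr V m 0
  refine ⟨V, T.image g, by omega, h3, ?_, ?_, ?_⟩
  · intro m hm
    rw [Finset.mem_image] at hm
    obtain ⟨t, -, rfl⟩ := hm
    have := hg1 t
    omega
  · intro m hm m' hm' hE
    rw [Finset.mem_image] at hm hm'
    obtain ⟨t, ht, rfl⟩ := hm
    obtain ⟨t', ht', rfl⟩ := hm'
    have h6 : t = t' := by
      apply h4 t ht t' ht'
      intro k hk
      have e1 := hg2 t k hk
      have e2 := hg2 t' k hk
      have e3 := hE k hk
      have g1 := hg1 t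
      have g2 := hg1 t'
      have g3 := h3 k hk
      rw [hX _ (by omega), hX _ (by omega), e1, e2] at e3
      exact e3
    rw [h6]
  · rw [Finset.card_image_of_injOn, h5]
    · omega
    · intro t ht t' ht' hE
      apply h4 t ht t' ht'
      intro k hk
      have e1 := hg2 t k hk
      have e2 := hg2 t' k hk
      have e3 : g t = g t' := hE
      rw [← e1, ← e2, e3]

/-! ### Interval words -/

lemma any_iff {f : ℕ+ → Bool} : IntervalWord f ↔ AnyInterval (ext f) := by
  have e : ∀ P : ℤ → Prop, (∀ n : ℕ+, f n = true ↔ P n) ↔ ∀ n : ℤ, 1 ≤ n →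
      (ext f n = true ↔ P n) := by
    intro P
    constructor
    · intro h n hn
      obtain ⟨m, rfl, hm⟩ := ext_of (f := f) hn
      rw [hm]; exact h m
    · intro h n
      rw [← ext_pnat f]
      exact h n (by have := n.pos; omega)
  unfold IntervalWord AnyInterval
  apply exists_congr; intro α
  apply exists_congr; intro β
  apply exists_congr; intro θ
  apply and_congr Iff.rfl
  apply and_congr Iff.rfl
  apply and_congr Iff.rfl
  rw [← e (fun n => Int.fract (n * α + θ) < β), ← e (fun n => Int.fract (n * α + θ) ≤ β),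
    ← e (fun n => 0 < Int.fract (n * α + θ) ∧ Int.fract (n * α + θ) < β),
    ← e (fun n => 0 < Int.fract (n * α + θ) ∧ Int.fract (n * α + θ) ≤ β)]
  push_cast
  rfl

/-! ### Sparse words -/

/-- enumeration of the ones of a sparse word -/
lemma sparse_enum {x : ℤ → Bool} (hs : Sparse x) : ∃ s : ℕ → ℤ, Enum s x := by
  classical
  have hinf : (Set.ofPred fun n : ℕ => 1 ≤ n ∧ x n = true).Infinite := by
    apply Set.infinite_of_not_bddAbove
    rw [not_bddAbove_iff]
    intro N
    obtain ⟨n, h1, h2⟩ := hs.1 N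
    refine ⟨n.toNat, ⟨by omega, ?_⟩, by omega⟩
    rw [Int.toNat_of_nonneg (by omega)]
    exact h2
  refine ⟨fun j => (Nat.nth (fun n : ℕ => 1 ≤ n ∧ x n = true) j : ℤ), ?_, ?_, ?_⟩
  · intro i j hij
    have := Nat.nth_strictMono hinf hij
    simp only
    exact_mod_cast this
  · have := (Nat.nth_mem_of_infinite hinf 0).1
    simp only
    exact_mod_cast this
  · intro n hn
    constructor
    · intro hx
      have h1 : n.toNat ∈ Set.ofPred fun n : ℕ => 1 ≤ n ∧ x n = true := by
        refine ⟨by omega, ?_⟩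
        rw [Int.toNat_of_nonneg (by omega)]
        exact hx
      rw [← Nat.range_nth_of_infinite hinf] at h1
      obtain ⟨j, hj⟩ := h1
      refine ⟨j, ?_⟩
      simp only
      rw [hj, Int.toNat_of_nonneg (by omega)]
    · rintro ⟨j, hj⟩
      simp only at hj
      rw [← hj]
      exact (Nat.nth_mem_of_infinite hinf j).2

lemma Enum.mem {s : ℕ → ℤ} {x : ℤ → Bool} (he : Enum s x) (i : ℕ) : 1 ≤ s i ∧ x (s i) = true := by
  have h1 : 1 ≤ s i := he.2.1.trans (he.1.monotone (Nat.zero_le i))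
  exact ⟨h1, (he.2.2 _ h1).mpr ⟨i, rfl⟩⟩

lemma sm_ge {s : ℕ → ℤ} (h : StrictMono s) (i : ℕ) : s 0 + i ≤ s i := by
  induction i with
  | zero => simp
  | succ i ih =>
    have := h (Nat.lt_add_one i)
    push_cast
    omega

lemma sparse_iff {s : ℕ → ℤ} {x : ℤ → Bool} (he : Enum s x) :
    Sparse x ↔ ∀ g : ℤ, ∃ J, ∀ j, J ≤ j → g ≤ s (j + 1) - s j := by
  constructor
  · intro hs g
    obtain ⟨C, hC⟩ := hs.far g
    refine ⟨C.toNat, fun j hj => ?_⟩
    have h1 := sm_ge he.1 j
    have h2 := he.1 (Nat.lt_add_one j)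
    have h3 := he.2.1
    have h4 := hC (s (j + 1)) (s j) (by omega) (by omega) (Enum.mem he _).2 (Enum.mem he _).2
      (by omega)
    rw [abs_of_pos (by omega)] at h4
    omega
  · intro hg
    refine ⟨fun C => ?_, fun h hh => ?_⟩
    · refine ⟨s (C.toNat), ?_, (Enum.mem he _).2⟩
      have h1 := sm_ge he.1 C.toNat
      have h3 := he.2.1
      omega
    · obtain ⟨J, hJ⟩ := hg (h + 1)
      refine ⟨s J, ?_⟩
      rintro n hn ⟨h1, h2⟩
      have h3 := (Enum.mem he J).1
      obtain ⟨i, hi⟩ := (he.2.2 n (by omega)).mp h1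
      obtain ⟨i', hi'⟩ := (he.2.2 (n + h) (by omega)).mp h2
      have h4 : J < i := he.1.lt_iff_lt.mp (by omega)
      have h5 : i < i' := he.1.lt_iff_lt.mp (by omega)
      have h6 := hJ i (by omega)
      have h7 := he.1.monotone (Nat.succ_le_of_lt h5)
      simp only [Nat.succ_eq_add_one] at h7
      omega

/-- the criterion for sparse words -/
def Crit : Prop := ∀ (s : ℕ → ℤ) (x : ℤ → Bool), Enum s x → Sparse x → (Star x ↔ Rule s)

lemma enum_ext {f : ℕ+ → Bool} {s : ℕ → ℤ} : Enum s (ext f) ↔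
    StrictMono s ∧ 1 ≤ s 0 ∧ ∀ n : ℕ+, f n = true ↔ ∃ j, s j = n := by
  constructor
  · rintro ⟨h1, h2, h3⟩
    refine ⟨h1, h2, fun n => ?_⟩
    rw [← ext_pnat f]
    exact h3 n (by have := n.pos; omega)
  · rintro ⟨h1, h2, h3⟩
    refine ⟨h1, h2, fun n hn => ?_⟩
    obtain ⟨m, rfl, hm⟩ := ext_of (f := f) hn
    rw [hm]
    exact h3 m

lemma sparse_to (hc : Crit) {f : ℕ+ → Bool} (hl : Low1 (ext f)) (hs : Sparse (ext f)) :
    SparseWord f := by
  obtain ⟨s, he⟩ := sparse_enum hs
  have h1 := (hc s _ he hs).mp (star_of_low hs hl)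
  obtain ⟨h2, h3, h4⟩ := enum_ext.mp he
  exact ⟨s, h2, h3, h4, (sparse_iff he).mp hs, h1⟩

lemma sparse_pc (hc : Crit) {f : ℕ+ → Bool} (h : SparseWord f) :
    Low1 (ext f) ∧ Full1 (ext f) := by
  obtain ⟨s, h2, h3, h4, h5, h6⟩ := h
  have he : Enum s (ext f) := enum_ext.mpr ⟨h2, h3, h4⟩
  have hs : Sparse (ext f) := (sparse_iff he).mpr h5
  exact ⟨low_of_star ((hc s _ he hs).mpr h6), sparse_full hs⟩

/-! ### Complements -/

lemma low_congr {x y : ℤ → Bool} (h : ∀ n, 1 ≤ n → x n = y n) (hl : Low1 x) : Low1 y := by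
  intro K T hK hK0 hT1 hT
  apply hl K T hK hK0 hT1
  intro m hm m' hm' hE
  apply hT m hm m' hm'
  intro k hk
  have h1 := hK0 k hk
  have h2 := hT1 m hm
  have h3 := hT1 m' hm'
  rw [← h _ (by omega), ← h _ (by omega)]
  exact hE k hk

lemma sparse_congr {x y : ℤ → Bool} (h : ∀ n, 1 ≤ n → x n = y n) (hs : Sparse x) : Sparse y := by
  refine ⟨fun C => ?_, fun g hg => ?_⟩
  · obtain ⟨n, h1, h2⟩ := hs.1 (max C 0)
    refine ⟨n, by omega, ?_⟩
    rw [← h _ (by omega)]; exact h2
  · obtain ⟨C, hC⟩ := hs.2 g hg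
    refine ⟨max C 0, fun n hn hxy => ?_⟩
    rw [← h _ (by omega), ← h _ (by omega)] at hxy
    exact hC n (by omega) hxy

lemma pc_not (f : ℕ+ → Bool) (n : ℕ) :
    patternComplexity (fun n => !f n) n = patternComplexity f n := by
  unfold patternComplexity windowComplexity
  congr 1
  funext K
  have h1 : Function.Injective fun (w : K.1 → Bool) (k : K.1) => !w k := by
    intro w w' h
    funext k
    have := congrFun h k
    simpa using this
  rw [← h1.encard_image, ← Set.range_comp]
  congr 1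
  congr 1
  funext m k
  simp

/-! ### The classification -/

theorem classification (hc : Crit) (f : ℕ+ → Bool) :
    (∀ n : ℕ, 1 ≤ n → patternComplexity f n = 2 * n) ↔
      IntervalWord f ∨ ToeplitzWord f ∨ SparseWord f ∨ SparseWord fun n => !f n := by
  constructor
  · intro h
    have hl := low_of_pc h
    have hn := nup_of_pc h
    obtain ⟨y, hH, hu⟩ := exists_rhull (ext f)
    have hly := hH.low hl
    by_cases hp : ∃ q : ℤ, 0 < q ∧ ∀ m, y (m + q) = y m
    · rcases per_case hl hn hH hp with hs | hs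
      · exact Or.inr (Or.inr (Or.inl (sparse_to hc hl hs)))
      · right; right; right
        have e : ∀ n, 1 ≤ n → (!ext f n) = ext (fun n => !f n) n := fun n hn => (ext_not f hn).symm
        exact sparse_to hc (low_congr e hl.not) (sparse_congr e hs)
    · have ha : Aper y := by
        intro q hq
        by_contra hcon
        push Not at hcon
        apply hp
        rcases lt_or_gt_of_ne hq with h0 | h0
        · refine ⟨-q, by omega, fun m => ?_⟩
          rw [← hcon (m + -q), neg_add_cancel_right]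
        · exact ⟨q, h0, hcon⟩
      rcases Pool.Agent.PatSturm.main hu.rec' hly ha with ⟨α, β, θ, h1, h2, h3, h4⟩ | hT
      · exact Or.inl (any_iff.mpr (rot_case hl hH h1 h2 h3 h4))
      · obtain ⟨X, h1, h2⟩ := toep_case hl hn hH hT
        exact Or.inr (Or.inl (toep_to h1 h2))
  · rintro (h | h | h | h)
    · have h1 := any_iff.mp h
      exact pc_eq (any_low h1) (any_full h1)
    · obtain ⟨X, h1, h2⟩ := toep_of h
      exact pc_eq (toep_low h1 h2) (toep_full h1 h2)
    · obtain ⟨h1, h2⟩ := sparse_pc hc h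
      exact pc_eq h1 h2
    · obtain ⟨h1, h2⟩ := sparse_pc hc h
      intro n hn
      rw [← pc_not]
      exact pc_eq h1 h2 n hn

end Pool.Agent.PatSturm.NR.Fin
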