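import Mathlib
import Pool.Agent.PatSturm.NRDefs
import Pool.Agent.Helper434.SpDefs

/-!
The trace condition implies the explicit rule for sparse words.
-/

set_option autoImplicit false

namespace Pool.Agent.PatSturm.SpN

open Pool.Agent.PatSturm Pool.Agent.PatSturm.NR Pool.Agent.Helper434.PCDefs Pool.Agent.Helper434.Sp

variable {x : ℤ → Bool} {s : ℕ → ℤ}

/-- families of different traces -/
lemma star_fun (hS : Star x) {K : Finset ℤ} (hK : K.Nonempty) (hK0 : ∀ k ∈ K, 0 ≤ k) {N : ℕ}
    {g : ℕ → ℤ} (h1 : ∀ i, i < N → 1 ≤ g i)
    (h2 : ∀ i, i < N → ∃ k ∈ K, ∃ l ∈ K, k ≠ l ∧ x (g i + k) = true ∧ x (g i + l) = true)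
    (h3 : ∀ i j, i < N → j < N → Eqv x K (g i) (g j) → i = j) : N + 1 ≤ K.card := by
  classical
  have h := hS K ((Finset.range N).image g) hK hK0 (by
    intro m hm
    obtain ⟨i, hi, rfl⟩ := Finset.mem_image.mp hm
    exact h1 i (Finset.mem_range.mp hi)) (by
    intro m hm m' hm' hE
    obtain ⟨i, hi, rfl⟩ := Finset.mem_image.mp hm
    obtain ⟨j, hj, rfl⟩ := Finset.mem_image.mp hm'
    rw [h3 i j (Finset.mem_range.mp hi) (Finset.mem_range.mp hj) hE]) (by
    intro m hm
    obtain ⟨i, hi, rfl⟩ := Finset.mem_image.mp hm
    exact h2 i (Finset.mem_range.mp hi))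
  rwa [Finset.card_image_of_injOn, Finset.card_range] at h
  intro i hi j hj he
  exact h3 i j (Finset.mem_range.mp hi) (Finset.mem_range.mp hj) (by
    have : g i = g j := he
    rw [this]; intro k _; rfl)

/-- three different traces of size at least two on three places -/
lemma w3 (hS : Star x) {b c : ℤ} (hb : 0 < b) (hc : 0 < c) (hbc : b ≠ c) {m1 m2 m3 : ℤ}
    (h1 : 1 ≤ m1) (h2 : 1 ≤ m2) (h3 : 1 ≤ m3) {p1 q1 r1 p2 q2 r2 p3 q3 r3 : Bool}
    (e1 : (x m1, x (m1 + b), x (m1 + c)) = (p1, q1, r1))
    (e2 : (x m2, x (m2 + b), x (m2 + c)) = (p2, q2, r2))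
    (e3 : (x m3, x (m3 + b), x (m3 + c)) = (p3, q3, r3))
    (hd : [(p1, q1, r1), (p2, q2, r2), (p3, q3, r3)].Nodup)
    (t1 : p1 && q1 || p1 && r1 || q1 && r1) (t2 : p2 && q2 || p2 && r2 || q2 && r2)
    (t3 : p3 && q3 || p3 && r3 || q3 && r3) : False := by
  classical
  simp only [Prod.mk.injEq] at e1 e2 e3
  have hln : [m1, m2, m3].Nodup := by
    refine List.Nodup.of_map (fun m => (x m, x (m + b), x (m + c))) ?_
    simp only [List.map, e1, e2, e3]
    exact hd
  have h := hS {0, b, c} [m1, m2, m3].toFinset (by simp) (by
    intro k hk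
    simp only [Finset.mem_insert, Finset.mem_singleton] at hk
    rcases hk with rfl | rfl | rfl
    · exact le_rfl
    · exact hb.le
    · exact hc.le) (fun m hm => by
      simp only [List.mem_toFinset, List.mem_cons, List.not_mem_nil, or_false] at hm
      rcases hm with rfl | rfl | rfl
      · exact h1
      · exact h2
      · exact h3) (by
    intro m hm n hn' hE
    rw [List.mem_toFinset] at hm hn'
    have hnd : ([m1, m2, m3].map fun m => (x m, x (m + b), x (m + c))).Nodup := by
      simp only [List.map, e1, e2, e3]
      exact hd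
    apply List.inj_on_of_nodup_map hnd hm hn'
    have f1 := hE 0 (by simp)
    have f2 := hE b (by simp)
    have f3 := hE c (by simp)
    rw [add_zero, add_zero] at f1
    simp only [f1, f2, f3]) (by
    intro m hm
    simp only [List.mem_toFinset, List.mem_cons, List.not_mem_nil, or_false] at hm
    have key : ∀ (m : ℤ) (p q r : Bool), x m = p ∧ x (m + b) = q ∧ x (m + c) = r →
        (p && q || p && r || q && r) = true →
        ∃ k ∈ ({0, b, c} : Finset ℤ), ∃ l ∈ ({0, b, c} : Finset ℤ), k ≠ l ∧
          x (m + k) = true ∧ x (m + l) = true := by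
      rintro m p q r ⟨g1, g2, g3⟩ ht
      cases p <;> cases q <;> cases r <;> simp only [Bool.false_and, Bool.and_false,
        Bool.or_false, Bool.and_true, Bool.false_eq_true] at ht
      · exact ⟨b, by simp, c, by simp, hbc, g2, g3⟩
      · exact ⟨0, by simp, c, by simp, hc.ne, by rw [add_zero]; exact g1, g3⟩
      · exact ⟨0, by simp, b, by simp, hb.ne, by rw [add_zero]; exact g1, g2⟩
      · exact ⟨0, by simp, b, by simp, hb.ne, by rw [add_zero]; exact g1, g2⟩
    rcases hm with rfl | rfl | rfl
    · exact key _ _ _ _ e1 t1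
    · exact key _ _ _ _ e2 t2
    · exact key _ _ _ _ e3 t3)
  rw [List.toFinset_card_of_nodup hln] at h
  have h4 : ({0, b, c} : Finset ℤ).card ≤ 3 := Finset.card_le_three
  simp only [List.length_cons, List.length_nil] at h
  omega

/-- consecutive ones -/
structure Cons (x : ℤ → Bool) (b c : ℤ) : Prop where
  one : 1 ≤ b
  lt : b < c
  hb : x b = true
  hc : x c = true
  gap : ∀ n, b < n → n < c → x n = false

lemma no_ap (hsp : Sparse x) {z p : ℤ} (hp : 0 < p) (h : ∀ n : ℕ, x (z + n * p) = true) :
    False := by
  obtain ⟨C, hC⟩ := hsp.2 p hp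
  have e0 : 0 ≤ |C| + |z| + 1 := by positivity
  have h2 := h (|C| + |z| + 1).toNat
  have h3 := h ((|C| + |z| + 1).toNat + 1)
  push_cast at h3
  rw [Int.toNat_of_nonneg e0] at h2 h3
  apply hC (z + (|C| + |z| + 1) * p) (by
    have := le_abs_self C
    have := neg_abs_le z
    nlinarith)
  refine ⟨h2, ?_⟩
  rw [← h3]; congr 1; ring

/-- the last two terms of a progression -/
lemma ap_top (hsp : Sparse x) {z p : ℤ} (hp : 0 < p) (h0 : x z = true) (h1 : x (z + p) = true) :
    ∃ e, z ≤ e ∧ x e = true ∧ x (e + p) = true ∧ x (e + 2 * p) = false := by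
  classical
  have hex : ∃ n : ℕ, x (z + n * p) = false := by
    by_contra hcon
    push Not at hcon
    exact no_ap hsp hp fun n => by simpa using hcon n
  have hs := Nat.find_spec hex
  have hm : ∀ m : ℕ, m < Nat.find hex → x (z + m * p) = true := fun m hm => by
    have := Nat.find_min hex hm
    simpa using this
  set n := Nat.find hex with hn
  have hn2 : 2 ≤ n := by
    by_contra hc
    have : n = 0 ∨ n = 1 := by omega
    rcases this with h | h
    · rw [h] at hs; simp [h0] at hs
    · rw [h] at hs; simp [h1] at hs
  clear_value n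
  obtain ⟨k, rfl⟩ : ∃ k, n = k + 2 := ⟨n - 2, by omega⟩
  refine ⟨z + k * p, ?_, hm k (by omega), ?_, ?_⟩
  · have : 0 ≤ (k : ℤ) * p := by positivity
    linarith
  · have := hm (k + 1) (by omega)
    rw [← this]; congr 1; push_cast; ring
  · rw [← hs]; congr 1; push_cast; ring

lemma V1 (hS : Star x) (hsp : Sparse x) {a p : ℤ} (hp : 0 < p) (hap : p < a) (h0 : x a = true)
    (h1 : x (a + p) = true) (h2 : x (a + 2 * p) = true) : x (a - p) = true := by
  by_contra hcon
  have hcon : x (a - p) = false := by simpa using hcon
  obtain ⟨e, he, he0, he1, he2⟩ := ap_top hsp hp h0 h1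
  refine w3 hS (b := p) (c := 2 * p) hp (by omega) (by omega) (m1 := a) (m2 := e) (m3 := a - p)
    (by omega) (by omega) (by omega) (p1 := true) (q1 := true) (r1 := true) (p2 := true)
    (q2 := true) (r2 := false) (p3 := false) (q3 := true) (r3 := true) ?_ ?_ ?_ (by decide)
    rfl rfl rfl
  · rw [h0, h1, h2]
  · rw [he0, he1, he2]
  · rw [hcon, sub_add_cancel, h0, show a - p + 2 * p = a + p by ring, h1]

lemma V2 (hS : Star x) {a b c p e : ℤ} (ha : 1 ≤ a) (hbc : Cons x b c) (hp : c = b + p)
    (hp' : b = a + p) (hxa : x a = true) (hxe : x e = true) (hae : a < e) (heb : e < b) :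
    a + e ≤ b := by
  by_contra hcon
  have hlt := hbc.lt
  refine w3 hS (b := b - e) (c := p) (by omega) (by omega) (by omega) (m1 := b) (m2 := e)
    (m3 := a - (b - e)) (by omega) (by omega) (by omega) (p1 := true) (q1 := false) (r1 := true)
    (p2 := true) (q2 := true) (r2 := false) (p3 := x (a - (b - e))) (q3 := true) (r3 := true)
    ?_ ?_ ?_ ?_ rfl rfl ?_
  · rw [hbc.hb, hbc.gap (b + (b - e)) (by omega) (by omega), ← hp, hbc.hc]
  · rw [hxe, show e + (b - e) = b by ring, hbc.hb, hbc.gap (e + p) (by omega) (by omega)]
  · rw [sub_add_cancel, hxa, show a - (b - e) + p = e by omega, hxe]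
  · cases x (a - (b - e)) <;> decide
  · cases x (a - (b - e)) <;> rfl

lemma AP3 (hS : Star x) (hsp : Sparse x) {b c σ : ℤ} (h1 : Cons x b c) (h2 : Cons x c σ)
    (hσ : σ < 2 * b) : x (2 * b - c) = true := by
  have g1 := h1.lt
  have g2 := h2.lt
  have g0 := h1.one
  obtain ⟨de, hde⟩ : ∃ de, de = c - b := ⟨_, rfl⟩
  obtain ⟨ep, hep⟩ : ∃ ep, ep = σ - c := ⟨_, rfl⟩
  have hc : c = b + de := by omega
  have hs : σ = b + de + ep := by omega
  subst hc hs
  rcases eq_or_ne ep de with heq | hne
  · subst heq
    have := V1 hS hsp (a := b) (p := ep) (by omega) (by omega) h1.hb h1.hc (by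
      rw [show b + 2 * ep = b + ep + ep by ring]; exact h2.hc)
    rw [← this]; congr 1; ring
  · exfalso
    have hde0 : 0 < de := by omega
    have hep0 : 0 < ep := by omega
    have hb1 : (x b, x (b + ep), x (b + (de + ep))) = (true, false, true) := by
      have e1 : x (b + ep) = false := by
        rcases lt_or_gt_of_ne hne with h | h
        · exact h1.gap _ (by omega) (by omega)
        · exact h2.gap _ (by omega) (by omega)
      rw [h1.hb, e1, ← add_assoc, h2.hc]
    have hb2 : (x (b - ep), x (b - ep + ep), x (b - ep + (de + ep))) =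
        (x (b - ep), true, true) := by
      rw [sub_add_cancel, h1.hb, show b - ep + (de + ep) = b + de by ring, h1.hc]
    have hb3 : (x (b + de), x (b + de + ep), x (b + de + (de + ep))) =
        (true, true, x (b + de + (de + ep))) := by
      rw [h1.hc, h2.hc]
    have hu : x (b - ep) = true := by
      by_contra hu
      have hu : x (b - ep) = false := by simpa using hu
      rw [hu] at hb2
      rw [← hu] at hb2
      have hb2' : (x (b - ep), x (b - ep + ep), x (b - ep + (de + ep))) = (false, true, true) := by
        rw [hb2, hu]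
      refine w3 hS (b := ep) (c := de + ep) hep0 (by omega) (by omega) (by omega) (by omega)
        (by omega) hb1 hb2' hb3 ?_ rfl rfl ?_
      · cases x (b + de + (de + ep)) <;> decide
      · cases x (b + de + (de + ep)) <;> rfl
    have hb2' : (x (b - ep), x (b - ep + ep), x (b - ep + (de + ep))) = (true, true, true) := by
      rw [hb2, hu]
    have hi : ∀ z, 1 ≤ z → x z = true → x (z + ep) = true → x (z + (de + ep)) = true := by
      intro z hz hz0 hz1
      by_contra hv
      have hv : x (z + (de + ep)) = false := by simpa using hv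
      exact w3 hS (b := ep) (c := de + ep) hep0 (by omega) (by omega) (by omega) (by omega)
        hz hb1 hb2' (p3 := true) (q3 := true) (r3 := false) (by rw [hz0, hz1, hv]) (by decide)
        rfl rfl rfl
    -- the other window
    have hc1 : (x b, x (b + de), x (b + (de + ep))) = (true, true, true) := by
      rw [h1.hb, h1.hc, ← add_assoc, h2.hc]
    have hc2 : ∃ m, 1 ≤ m ∧ (x m, x (m + de), x (m + (de + ep))) = (true, false, true) := by
      rcases lt_or_gt_of_ne hne with h | h
      · refine ⟨b - ep, by omega, ?_⟩
        rw [hu, h1.gap (b - ep + de) (by omega) (by omega),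
          show b - ep + (de + ep) = b + de by ring, h1.hc]
      · refine ⟨b + de, by omega, ?_⟩
        have := hi (b + de) (by omega) h1.hc h2.hc
        rw [h1.hc, h2.gap (b + de + de) (by omega) (by omega), this]
    obtain ⟨m, hm, hc2⟩ := hc2
    have hii : ∀ z, 1 ≤ z → x z = true → x (z + de) = true → x (z + (de + ep)) = true := by
      intro z hz hz0 hz1
      by_contra hv
      have hv : x (z + (de + ep)) = false := by simpa using hv
      exact w3 hS (b := de) (c := de + ep) hde0 (by omega) (by omega) (by omega) hm
        hz hc1 hc2 (p3 := true) (q3 := true) (r3 := false) (by rw [hz0, hz1, hv]) (by decide)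
        rfl rfl rfl
    have hall : ∀ n : ℕ, x (b + de + n * (de + ep)) = true ∧
        x (b + de + n * (de + ep) + ep) = true := by
      intro n
      induction n with
      | zero => simpa using ⟨h1.hc, h2.hc⟩
      | succ n ih =>
        have hn : 0 ≤ (n : ℤ) * (de + ep) := by positivity
        have e1 := hi _ (by omega) ih.1 ih.2
        have e2 := hii (b + de + n * (de + ep) + ep) (by omega) ih.2 (by
          rw [← e1]; congr 1; ring)
        constructor
        · rw [← e1]; congr 1; push_cast; ring
        · rw [← e2]; congr 1; push_cast; ring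
    exact no_ap hsp (z := b + de) (p := de + ep) (by omega) fun n => (hall n).1

/-- no parallelogram with top `c` -/
lemma no_rep (hS : Star x) {b c : ℤ} (h1 : Cons x b c) (hno : ∀ n, c < n → n < 2 * b → x n = false)
    (ht : ¬ (1 ≤ 2 * b - c ∧ x (2 * b - c) = true)) : ∀ (N : ℕ) (g e f : ℤ), 1 ≤ g → g < e →
    e ≤ f → f ≤ b → x g = true → x e = true → x f = true → e + f - g = c → b - g ≤ N → False := by
  intro N
  have g1 := h1.lt
  induction N with
  | zero =>
    intro g e f hg hge hef hfb _ _ _ _ hN
    push_cast at hN
    omega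
  | succ N ih =>
    intro g e f hg hge hef hfb hxg hxe hxf hsum hN
    push_cast at hN
    rcases hef.lt_or_eq with hlt | heq
    · -- `e < f`
      have h2e : x (e + (e - g)) = true := by
        by_contra hcon
        have hcon : x (e + (e - g)) = false := by simpa using hcon
        refine w3 hS (b := e - g) (c := f - g) (by omega) (by omega) (by omega) (m1 := g)
          (m2 := f) (m3 := e) hg (by omega) (by omega) (p1 := true) (q1 := true) (r1 := true)
          (p2 := true) (q2 := true) (r2 := false) (p3 := true) (q3 := false) (r3 := true)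
          ?_ ?_ ?_ (by decide) rfl rfl rfl
        · rw [hxg, show g + (e - g) = e by ring, hxe, show g + (f - g) = f by ring, hxf]
        · rw [hxf, show f + (e - g) = c by omega, h1.hc, hno (f + (f - g)) (by omega) (by omega)]
        · rw [hxe, hcon, show e + (f - g) = c by omega, h1.hc]
      have hle : e + (e - g) ≤ b := by
        by_contra hcon
        rw [h1.gap (e + (e - g)) (by omega) (by omega)] at h2e
        exact absurd h2e (by decide)
      rcases le_total (e + (e - g)) f with h | h
      · exact ih e (e + (e - g)) f (by omega) (by omega) h hfb hxe h2e hxf (by omega) (by omega)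
      · exact ih e f (e + (e - g)) (by omega) hlt h hle hxe hxf h2e (by omega) (by omega)
    · subst heq
      rcases hfb.lt_or_eq with hlt | heq
      · -- `e = f < b`
        have hq : x (e - (c - b)) = true := by
          by_contra hcon
          have hcon : x (e - (c - b)) = false := by simpa using hcon
          refine w3 hS (b := c - b) (c := c - e) (by omega) (by omega) (by omega) (m1 := b)
            (m2 := e) (m3 := e - (c - b)) (by omega) (by omega) (by omega) (p1 := true)
            (q1 := true) (r1 := false) (p2 := true) (q2 := x (e + (c - b))) (r2 := true)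
            (p3 := false) (q3 := true) (r3 := true) ?_ ?_ ?_ ?_ rfl ?_ rfl
          · rw [h1.hb, show b + (c - b) = c by ring, h1.hc,
              hno (b + (c - e)) (by omega) (by omega)]
          · rw [hxe, show e + (c - e) = c by ring, h1.hc]
          · rw [hcon, sub_add_cancel, hxe, show e - (c - b) + (c - e) = b by ring, h1.hb]
          · cases x (e + (c - b)) <;> decide
          · cases x (e + (c - b)) <;> rfl
        exact ih (e - (c - b)) e b (by omega) (by omega) (by omega) le_rfl hq hxe h1.hb (by omega)
          (by omega)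
      · apply ht
        have hg' : 2 * b - c = g := by omega
        rw [hg']
        exact ⟨hg, hxg⟩

/-! ### The enumeration -/

lemma s_pos (he : Enum s x) (j : ℕ) : 1 ≤ s j :=
  he.2.1.trans (he.1.monotone (Nat.zero_le j))

lemma x_s (he : Enum s x) (j : ℕ) : x (s j) = true := (he.2.2 _ (s_pos he j)).mpr ⟨j, rfl⟩

lemma cons_s (he : Enum s x) (j : ℕ) : Cons x (s j) (s (j + 1)) := by
  refine ⟨s_pos he j, he.1 (Nat.lt_succ_self j), x_s he j, x_s he _, fun n h1 h2 => ?_⟩
  by_contra hcon
  have hcon : x n = true := by simpa using hcon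
  obtain ⟨i, rfl⟩ := (he.2.2 n (by have := s_pos he j; omega)).mp hcon
  have h3 := he.1.lt_iff_lt.mp h1
  have h4 := he.1.lt_iff_lt.mp h2
  omega

lemma eq_s (he : Enum s x) {u : ℤ} {k : ℕ} (h : Cons x u (s k)) : ∃ l, k = l + 1 ∧ u = s l := by
  obtain ⟨i, rfl⟩ := (he.2.2 u h.one).mp h.hb
  have h1 := he.1.lt_iff_lt.mp h.lt
  refine ⟨i, ?_, rfl⟩
  by_contra hne
  have h2 := h.gap (s (i + 1)) (he.1 (Nat.lt_succ_self i)) (he.1 (by omega))
  rw [x_s he] at h2
  exact absurd h2 (by decide)

/-! ### Paths -/

/-- adjacency in the graph on `[0, b)` given by the places `m ≠ M` in `[1, b]` -/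
def Adj (x : ℤ → Bool) (b M k l : ℤ) : Prop :=
  (0 ≤ k ∧ k < b) ∧ (0 ≤ l ∧ l < b) ∧ ∃ m, 1 ≤ m ∧ m ≠ M ∧ m ≤ b ∧ x (m + k) = true ∧
    x (m + l) = true

lemma Adj.symm {b M k l : ℤ} (h : Adj x b M k l) : Adj x b M l k := by
  obtain ⟨h1, h2, m, h3, h4, h5, h6, h7⟩ := h
  exact ⟨h2, h1, m, h3, h4, h5, h7, h6⟩

/-- there is a path of length `n` from `z` to the target set -/
def Path (R : ℤ → ℤ → Prop) (Tg : ℤ → Prop) (z : ℤ) (n : ℕ) : Prop :=
  ∃ f : ℕ → ℤ, f 0 = z ∧ Tg (f n) ∧ ∀ i, i < n → R (f i) (f (i + 1))

lemma path_of_rtg {R : ℤ → ℤ → Prop} {Tg : ℤ → Prop} {z w : ℤ} (h : Relation.ReflTransGen R z w)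
    (hw : Tg w) : ∃ n, Path R Tg z n := by
  have key : ∃ (n : ℕ) (f : ℕ → ℤ), f 0 = z ∧ f n = w ∧ ∀ i, i < n → R (f i) (f (i + 1)) := by
    clear hw
    induction h with
    | refl => exact ⟨0, fun _ => z, rfl, rfl, fun i hi => absurd hi (Nat.not_lt_zero i)⟩
    | @tail u v _ huv ih =>
      obtain ⟨n, f, h1, h2, h3⟩ := ih
      refine ⟨n + 1, fun i => if i ≤ n then f i else v, by simp [h1], by simp, fun i hi => ?_⟩
      rcases Nat.lt_succ_iff_lt_or_eq.mp hi with h | h
      · simp only [if_pos h.le, if_pos (Nat.succ_le_of_lt h)]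
        exact h3 i h
      · subst h
        simp only [le_refl, if_true, if_neg (Nat.not_succ_le_self i), h2]
        exact huv
  obtain ⟨n, f, h1, h2, h3⟩ := key
  exact ⟨n, f, h1, by rw [h2]; exact hw, h3⟩

/-- Lemma C -/
lemma lemmaC (hS : Star x) {b M z w : ℤ} (hM : 1 ≤ M) (hz : 0 ≤ z ∧ z < b)
    (hzM : x (M + z) = true) (hw : 0 ≤ w ∧ w < b) (hwM : x (M + w) = true) (hwz : w ≠ z)
    (h : Relation.ReflTransGen (Adj x b M) z w) :
    ∃ u, u ≠ z ∧ x (M + u) = true ∧ Adj x b M z u := by
  classical
  set Tg : ℤ → Prop := fun u => (0 ≤ u ∧ u < b) ∧ u ≠ z ∧ x (M + u) = true with hTg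
  have hex := path_of_rtg h (Tg := Tg) ⟨hw, hwz, hwM⟩
  have hmin : ∀ m, m < Nat.find hex → ¬ Path (Adj x b M) Tg z m := fun m hm => Nat.find_min hex hm
  obtain ⟨f, hf0, hfT, hf⟩ := Nat.find_spec hex
  set n := Nat.find hex with hn
  have hn0 : n ≠ 0 := by
    intro h0
    rw [h0, hf0] at hfT
    exact hfT.2.1 rfl
  rcases Nat.lt_or_ge 1 n with hn1 | hn1
  · exfalso
    -- shortcuts
    have hcut : ∀ i k, i + 1 < k → k ≤ n → ¬ Adj x b M (f i) (f k) := by
      intro i k hik hkn hA
      apply hmin (n - (k - i - 1)) (by omega)
      refine ⟨fun t => if t ≤ i then f t else f (t + (k - i - 1)), by simp [hf0], ?_, ?_⟩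
      · simp only
        rw [if_neg (by omega), show n - (k - i - 1) + (k - i - 1) = n by omega]
        exact hfT
      · intro t ht
        rcases lt_trichotomy t i with h1 | h1 | h1
        · simp only [if_pos h1.le, if_pos (Nat.succ_le_of_lt h1)]
          exact hf t (by omega)
        · subst h1
          simp only [le_refl, if_true, if_neg (Nat.not_succ_le_self t)]
          rw [show t + 1 + (k - t - 1) = k by omega]
          exact hA
        · simp only [if_neg (by omega : ¬ t ≤ i), if_neg (by omega : ¬ t + 1 ≤ i)]
          rw [show t + 1 + (k - i - 1) = t + (k - i - 1) + 1 by omega]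
          exact hf _ (by omega)
    have hrange : ∀ i, i ≤ n → 0 ≤ f i ∧ f i < b := by
      intro i hi
      rcases hi.lt_or_eq with h1 | h1
      · exact (hf i h1).1
      · rw [h1]; exact hfT.1
    have hinner : ∀ k, 0 < k → k < n → x (M + f k) = false := by
      intro k hk hkn
      by_contra hcon
      have hcon : x (M + f k) = true := by simpa using hcon
      by_cases hfk : f k = z
      · apply hmin (n - k) (by omega)
        refine ⟨fun t => f (t + k), by simpa using hfk, ?_, fun t ht => ?_⟩
        · simp only
          rw [Nat.sub_add_cancel hkn.le]; exact hfT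
        · simp only
          rw [show t + 1 + k = t + k + 1 by ring]
          exact hf _ (by omega)
      · exact hmin k hkn ⟨f, hf0, ⟨hrange k hkn.le, hfk, hcon⟩, fun t ht => hf t (by omega)⟩
    -- the places
    have hm : ∀ i, ∃ m, i < n → 1 ≤ m ∧ m ≠ M ∧ m ≤ b ∧ x (m + f i) = true ∧
        x (m + f (i + 1)) = true := by
      intro i
      by_cases hi : i < n
      · obtain ⟨-, -, m, h1, h2, h3, h4, h5⟩ := hf i hi
        exact ⟨m, fun _ => ⟨h1, h2, h3, h4, h5⟩⟩
      · exact ⟨0, fun h => absurd h hi⟩
    choose m hm using hm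
    have hmo : ∀ i k, i < n → k ≤ n → k ≠ i → k ≠ i + 1 → x (m i + f k) = false := by
      intro i k hi hk h1 h2
      by_contra hcon
      have hcon : x (m i + f k) = true := by simpa using hcon
      obtain ⟨g1, g2, g3, g4, g5⟩ := hm i hi
      rcases lt_or_gt_of_ne h1 with h3 | h3
      · exact hcut k (i + 1) (by omega) (by omega)
          ⟨hrange k hk, hrange _ hi, m i, g1, g2, g3, hcon, g5⟩
      · exact hcut i k (by omega) hk ⟨hrange i hi.le, hrange k hk, m i, g1, g2, g3, g4, hcon⟩
    have hfM0 : x (M + f 0) = true := by rw [hf0]; exact hzM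
    have hfMn : x (M + f n) = true := hfT.2.2
    set g : ℕ → ℤ := fun i => if i < n then m i else M with hg
    have hgi : ∀ i, i < n → g i = m i := fun i hi => by rw [hg]; simp only [if_pos hi]
    have hgn : g n = M := by rw [hg]; simp only [lt_irrefl, if_false]
    have hmemK : ∀ i, i ≤ n → f i ∈ (Finset.range (n + 1)).image f := fun i hi =>
      Finset.mem_image_of_mem f (Finset.mem_range.mpr (by omega))
    have hcard := star_fun hS (K := (Finset.range (n + 1)).image f) ⟨f 0, hmemK 0 (Nat.zero_le n)⟩
      (fun k hk => by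
        obtain ⟨i, hi, rfl⟩ := Finset.mem_image.mp hk
        exact (hrange i (by have := Finset.mem_range.mp hi; omega)).1) (N := n + 1) (g := g)
      (fun i hi => by
        rcases Nat.lt_succ_iff_lt_or_eq.mp hi with h1 | h1
        · rw [hgi i h1]; exact (hm i h1).1
        · rw [h1, hgn]; exact hM)
      (fun i hi => by
        rcases Nat.lt_succ_iff_lt_or_eq.mp hi with h1 | h1
        · rw [hgi i h1]
          refine ⟨f i, hmemK i h1.le, f (i + 1), hmemK _ h1, ?_, (hm i h1).2.2.2.1,
            (hm i h1).2.2.2.2⟩
          intro hEq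
          -- `f i = f (i+1)` contradicts minimality
          rcases Nat.eq_zero_or_pos i with h0 | h0
          · subst h0
            apply hmin (n - 1) (by omega)
            refine ⟨fun t => f (t + 1), by simp only; rw [zero_add, ← hf0]; exact hEq.symm, ?_,
              fun t ht => ?_⟩
            · simp only
              rw [Nat.sub_add_cancel (by omega)]; exact hfT
            · exact hf _ (by omega)
          · by_cases hi1 : i + 1 = n
            · apply hmin i h1
              exact ⟨f, hf0, by rw [hEq, hi1]; exact hfT, fun t ht => hf t (by omega)⟩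
            · exact hcut i (i + 2) (by omega) (by omega) (by
                rw [hEq]; exact hf (i + 1) (by omega))
        · rw [h1, hgn]
          exact ⟨f 0, hmemK 0 (Nat.zero_le n), f n, hmemK n le_rfl, by
            rw [hf0]; exact fun h => hfT.2.1 h.symm, hfM0, hfMn⟩)
      (by
        have key : ∀ i j, i < j → j ≤ n → ¬ Eqv x ((Finset.range (n + 1)).image f) (g i) (g j) := by
          intro i j hij hjn hE
          have hin : i < n := by omega
          rcases hjn.lt_or_eq with hj | hj
          · have e1 := hE (f i) (hmemK i hin.le)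
            rw [hgi i hin, hgi j hj, (hm i hin).2.2.2.1, hmo j i hj hin.le (by omega) (by omega)]
              at e1
            exact absurd e1 (by decide)
          · subst hj
            rcases Nat.eq_zero_or_pos i with h0 | h0
            · subst h0
              have e1 := hE (f 1) (hmemK 1 (by omega))
              rw [hgi 0 hin, hgn, (hm 0 hin).2.2.2.2, hinner 1 one_pos hn1] at e1
              exact absurd e1 (by decide)
            · have e1 := hE (f i) (hmemK i hin.le)
              rw [hgi i hin, hgn, (hm i hin).2.2.2.1, hinner i h0 hin] at e1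
              exact absurd e1 (by decide)
        intro i j hi hj hE
        by_contra hne
        rcases lt_or_gt_of_ne hne with h1 | h1
        · exact key i j h1 (by omega) hE
        · exact key j i h1 (by omega) fun k hk => (hE k hk).symm)
    have h3 := Finset.card_image_le (s := Finset.range (n + 1)) (f := f)
    rw [Finset.card_range] at h3
    omega
  · have h1 : n = 1 := by omega
    rw [h1] at hfT hf
    have h2 := hf 0 one_pos
    rw [hf0] at h2
    exact ⟨f (0 + 1), hfT.2.1, hfT.2.2, h2⟩

/-- N1 -/
theorem free_of_star (he : Enum s x) (hsp : Sparse x) (hS : Star x) {j : ℕ}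
    (ht : ¬ (1 ≤ 2 * s j - s (j + 1) ∧ x (2 * s j - s (j + 1)) = true)) : FreeStep s j := by
  intro y hy0 hyb hE
  have hC := cons_s he j
  have hlt := hC.lt
  have hmono : ∀ i, i ≤ j → s i ≤ s j := fun i hi => he.1.monotone hi
  rcases lt_or_ge (y + (s (j + 1) - s j)) (s j) with hz | hz
  · -- the interesting case
    have hno : ∀ n, s (j + 1) < n → n < 2 * s j → x n = false := by
      intro n h1 h2
      by_contra hcon
      have hcon : x n = true := by simpa using hcon
      obtain ⟨i, rfl⟩ := (he.2.2 n (by have := hC.one; omega)).mp hcon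
      have h3 := he.1.lt_iff_lt.mp h1
      have h4 : s (j + 1 + 1) ≤ s i := he.1.monotone h3
      apply ht
      exact ⟨by omega, AP3 hS hsp hC (cons_s he (j + 1)) (by omega)⟩
    set z := y + (s (j + 1) - s j) with hzdef
    set M := s j - y with hMdef
    have hM1 : 1 ≤ M := by omega
    have hzM : x (M + z) = true := by
      rw [show M + z = s (j + 1) by omega]; exact hC.hc
    have hyM : x (M + y) = true := by
      rw [show M + y = s j by omega]; exact hC.hb
    -- a path from `z` to the other points of `M`
    have hpath : ∃ w, (0 ≤ w ∧ w < s j) ∧ x (M + w) = true ∧ w ≠ z ∧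
        Relation.ReflTransGen (Adj x (s j) M) z w := by
      by_contra hcon
      push Not at hcon
      have hinv : ∀ u v, Relation.EqvGen (Edge s j y) u v →
          (((0 ≤ u ∧ u < s j ∧ Relation.ReflTransGen (Adj x (s j) M) z u) ∨
            (s j ≤ u ∧ ∃ u', 0 ≤ u' ∧ u' < s j ∧ u = u' + (s (j + 1) - s j) ∧
              Relation.ReflTransGen (Adj x (s j) M) z u')) ↔
          ((0 ≤ v ∧ v < s j ∧ Relation.ReflTransGen (Adj x (s j) M) z v) ∨
            (s j ≤ v ∧ ∃ u', 0 ≤ u' ∧ u' < s j ∧ v = u' + (s (j + 1) - s j) ∧
              Relation.ReflTransGen (Adj x (s j) M) z u'))) := by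
        intro u v huv
        induction huv with
        | refl a => exact Iff.rfl
        | symm a b _ ih => exact ih.symm
        | trans a b c _ _ ih1 ih2 => exact ih1.trans ih2
        | rel u v huv =>
          obtain ⟨i, hij, hu0, hui, hv, hne⟩ := huv
          have hsi := hmono i hij
          have hub : u < s j := by omega
          have hsi1 : s i < s (i + 1) := he.1 (Nat.lt_succ_self i)
          have hm1 : 1 ≤ s i - u := by omega
          have hxu : x (s i - u + u) = true := by rw [sub_add_cancel]; exact x_s he i
          have hxv : x (s i - u + v) = true := by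
            rw [hv, show s i - u + (u + (s (i + 1) - s i)) = s (i + 1) by ring]
            exact x_s he _
          rcases hij.lt_or_eq with hlt' | heq
          · -- old edge
            have hs1 : s (i + 1) ≤ s j := he.1.monotone hlt'
            have hvb : v < s j := by omega
            have hv0 : 0 ≤ v := by omega
            have hadj : s i - u ≠ M → Adj x (s j) M u v := fun h =>
              ⟨⟨hu0, hub⟩, ⟨hv0, hvb⟩, s i - u, hm1, h, by omega, hxu, hxv⟩
            constructor
            · rintro (⟨-, -, h3⟩ | ⟨h3, -⟩)
              · left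
                refine ⟨hv0, hvb, ?_⟩
                by_cases hmM : s i - u = M
                · exfalso
                  refine hcon u ⟨hu0, hub⟩ (by rw [← hmM]; exact hxu) ?_ h3
                  intro h4
                  have : s i = s (j + 1) := by omega
                  omega
                · exact h3.tail (hadj hmM)
              · omega
            · rintro (⟨-, -, h3⟩ | ⟨h3, -⟩)
              · left
                refine ⟨hu0, hub, ?_⟩
                by_cases hmM : s i - u = M
                · exfalso
                  refine hcon v ⟨hv0, hvb⟩ (by rw [← hmM]; exact hxv) ?_ h3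
                  intro h4
                  have : s (i + 1) = s (j + 1) := by omega
                  omega
                · exact h3.tail (hadj hmM).symm
              · omega
          · -- new edge
            subst heq
            have huy : u ≠ y := fun h => hne ⟨rfl, h⟩
            have hmM : s i - u ≠ M := by omega
            have hv0 : 0 ≤ v := by omega
            constructor
            · rintro (⟨-, -, h3⟩ | ⟨h3, -⟩)
              · rcases lt_or_ge v (s i) with hvb | hvb
                · left
                  exact ⟨hv0, hvb, h3.tail ⟨⟨hu0, hub⟩, ⟨hv0, hvb⟩, s i - u, hm1, hmM,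
                    by omega, hxu, hxv⟩⟩
                · right
                  exact ⟨hvb, u, hu0, hub, hv, h3⟩
              · omega
            · rintro (⟨-, hvb, h3⟩ | ⟨-, u', _, _, h5, h6⟩)
              · left
                exact ⟨hu0, hub, h3.tail ⟨⟨hv0, hvb⟩, ⟨hu0, hub⟩, s i - u, hm1, hmM, by omega,
                  hxv, hxu⟩⟩
              · left
                have : u' = u := by omega
                subst this
                exact ⟨hu0, hub, h6⟩
      have h1 := (hinv y z hE).mpr (Or.inl ⟨by omega, hz, Relation.ReflTransGen.refl⟩)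
      rcases h1 with ⟨-, -, h3⟩ | ⟨h3, -⟩
      · exact hcon y ⟨hy0, hyb⟩ hyM (by omega) h3
      · omega
    obtain ⟨w, hw, hwM, hwz, hrtg⟩ := hpath
    obtain ⟨u, huz, huM, hA⟩ := lemmaC hS hM1 ⟨by omega, hz⟩ hzM hw hwM hwz hrtg
    obtain ⟨-, ⟨hu0, hub⟩, m, hm1, hmM, hmb, hmz, hmu⟩ := hA
    -- elements of `S` below `2 b` are `≤ b` or `= c`
    have hle : ∀ n, x n = true → n < 2 * s j → n ≤ s j ∨ n = s (j + 1) := by
      intro n h1 h2
      rcases le_or_gt n (s j) with h3 | h3
      · exact Or.inl h3
      · right
        rcases lt_trichotomy n (s (j + 1)) with h4 | h4 | h4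
        · rw [hC.gap n h3 h4] at h1; exact absurd h1 (by decide)
        · exact h4
        · rw [hno n h4 h2] at h1; exact absurd h1 (by decide)
    have e1 : M + u ≤ s j := by
      rcases hle (M + u) huM (by omega) with h | h
      · exact h
      · exfalso; apply huz; omega
    have e2 : m + z ≤ s j := by
      rcases hle (m + z) hmz (by omega) with h | h
      · exact h
      · exfalso; apply hmM; omega
    have hrep := no_rep hS hC hno ht
    rcases le_total (m + z) (M + u) with h | h
    · exact hrep (s j - (m + u)).toNat (m + u) (m + z) (M + u) (by omega) (by omega) h e1 hmu hmz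
        huM (by omega) (Int.self_le_toNat _)
    · exact hrep (s j - (m + u)).toNat (m + u) (M + u) (m + z) (by omega) (by omega) h e2 hmu huM
        hmz (by omega) (Int.self_le_toNat _)
  · -- no other edge touches the point
    have hinv : ∀ u v, Relation.EqvGen (Edge s j y) u v →
        (u = y + (s (j + 1) - s j) ↔ v = y + (s (j + 1) - s j)) := by
      intro u v huv
      induction huv with
      | refl a => exact Iff.rfl
      | symm a b _ ih => exact ih.symm
      | trans a b c _ _ ih1 ih2 => exact ih1.trans ih2
      | rel u v huv =>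
        obtain ⟨i, hij, hu0, hui, hv, hne⟩ := huv
        have hsi := hmono i hij
        constructor
        · intro h; omega
        · intro h
          exfalso
          rcases hij.lt_or_eq with hlt' | heq
          · have hs1 : s (i + 1) ≤ s j := he.1.monotone hlt'
            omega
          · subst heq
            exact hne ⟨rfl, by omega⟩
    have := (hinv _ _ hE).mpr rfl
    omega

end Pool.Agent.PatSturm.SpN
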