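import Mathlib
import Pool.Agent.PatSturm.SpN

/-!
The trace condition implies the explicit rule for sparse words: the step which continues an
arithmetic progression, and the final statement `rule_of_star`.
-/

set_option autoImplicit false

namespace Pool.Agent.PatSturm.SpN

open Pool.Agent.PatSturm Pool.Agent.PatSturm.NR Pool.Agent.Helper434.PCDefs Pool.Agent.Helper434.Sp

variable {x : ℤ → Bool} {s : ℕ → ℤ}

/-- going down along the progression -/
lemma descend (he : Enum s x) (hsp : Sparse x) (hS : Star x) {j : ℕ} {p : ℤ} (hp : 0 < p)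
    (hj : s (j + 1) = s j + p) (ht1 : 1 ≤ s j - p) (ht : x (s j - p) = true) :
    ∃ J, J ≤ j ∧ (∀ l, J ≤ l → l ≤ j → s (l + 1) = s l + p) ∧ 1 ≤ s J - p ∧
      x (s J - p) = true ∧ s J - p ≤ p := by
  set D : ℕ → Prop := fun n => n ≤ j ∧ (∀ l, j - n ≤ l → l ≤ j → s (l + 1) = s l + p) ∧
    1 ≤ s (j - n) - p ∧ x (s (j - n) - p) = true with hD
  have hD0 : D 0 := by
    refine ⟨Nat.zero_le j, fun l h1 h2 => ?_, by simpa using ht1, by simpa using ht⟩
    have : l = j := by omega
    rw [this]; exact hj
  have hex : ∃ n, D n ∧ ¬ D (n + 1) := by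
    by_contra hcon
    push Not at hcon
    have : ∀ n, D n := fun n => by
      induction n with
      | zero => exact hD0
      | succ n ih => exact hcon n ih
    exact absurd (this (j + 1)).1 (by omega)
  obtain ⟨n, ⟨h1, h2, h3, h4⟩, h5⟩ := hex
  refine ⟨j - n, Nat.sub_le _ _, h2, h3, h4, ?_⟩
  by_contra hcon
  push Not at hcon
  apply h5
  have e1 : s (j - n + 1) = s (j - n) + p := h2 (j - n) le_rfl (Nat.sub_le _ _)
  have hC := cons_s he (j - n)
  have e2 : x (s (j - n) - p + p) = true := by rw [sub_add_cancel]; exact x_s he _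
  have e3 : x (s (j - n) - p + 2 * p) = true := by
    rw [show s (j - n) - p + 2 * p = s (j - n + 1) by omega]; exact x_s he _
  have e4 := V1 hS hsp hp hcon h4 e2 e3
  have hC' : Cons x (s (j - n) - p) (s (j - n)) := by
    refine ⟨h3, by omega, h4, x_s he _, fun e g1 g2 => ?_⟩
    by_contra hx
    have hx : x e = true := by simpa using hx
    have := V2 hS h3 hC e1 (by omega) h4 hx g1 g2
    omega
  obtain ⟨l, g1, g2⟩ := eq_s he hC'
  have hl : j - (n + 1) = l := by omega
  refine ⟨by omega, fun m hm1 hm2 => ?_, ?_, ?_⟩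
  · rcases Nat.lt_or_ge m (j - n) with h | h
    · have : m = l := by omega
      subst this
      rw [← g1, ← g2]; omega
    · exact h2 m h hm2
  · rw [hl, ← g2]; omega
  · rw [hl, ← g2]; exact e4

theorem prog_of_star (he : Enum s x) (hsp : Sparse x) (hS : Star x) {j : ℕ}
    (ht : 1 ≤ 2 * s j - s (j + 1)) (hxt : x (2 * s j - s (j + 1)) = true) : ProgStep s j := by
  have hlt : s j < s (j + 1) := he.1 (Nat.lt_succ_self j)
  obtain ⟨p, hp⟩ : ∃ p, p = s (j + 1) - s j := ⟨_, rfl⟩
  have hp0 : 0 < p := by omega
  obtain ⟨J, hJj, hP1, hJ1, hxJ, hJp⟩ := descend he hsp hS (j := j) (p := p) hp0 (by omega)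
    (by omega) (by rw [← hxt]; congr 1; omega)
  obtain ⟨i, hi⟩ := (he.2.2 _ hJ1).mp hxJ
  have hiJ : i < J := he.1.lt_iff_lt.mp (by omega)
  have hsJ1 : s (J + 1) = s J + p := hP1 J le_rfl hJj
  have hCJ := cons_s he J
  have hxi := x_s he i
  have hpi := s_pos he i
  -- elements below `a`
  have hV : ∀ r, 1 ≤ r → r < s i → x (r + p) = false := by
    intro r h1 h2
    by_contra hcon
    have hcon : x (r + p) = true := by simpa using hcon
    have := V2 hS hpi hCJ hsJ1 (by omega) hxi hcon (by omega) (by omega)
    omega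
  have hA : ∀ l, l < J → l ≠ i → x (s l + p) = false := by
    intro l h1 h2
    have h3 : s l < s J := he.1 h1
    rcases lt_or_gt_of_ne h2 with h4 | h4
    · exact hV _ (s_pos he l) (he.1 h4)
    · have h5 : s i < s l := he.1 h4
      exact hCJ.gap _ (by omega) (by omega)
  have hJi : s J - s i = p := by omega
  refine ⟨i, J, hiJ, hJj, fun l h1 h2 => by rw [hJi]; exact hP1 l h1 h2, ?_, ?_, ?_⟩
  · -- P2
    have h1 : s i ≤ s (J - 1) := he.1.monotone (by omega)
    have h2 : s (J - 1) < s J := he.1 (by omega)
    rcases h1.lt_or_eq with h3 | h3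
    · exact V2 hS hpi hCJ hsJ1 (by omega) hxi (x_s he _) h3 h2
    · omega
  · -- P3
    intro k l m hk hl hm hki hkJ hli hEq
    have hkJ' : k < J := by omega
    have hskJ : s k < s J := he.1 hkJ'
    rcases lt_or_gt_of_ne hki with h | h
    · -- `s k < s i`
      have hski : s k < s i := he.1 h
      have hml : s m < s l := by omega
      have hk1 := s_pos he k
      have hlJ : l < J := by
        rcases hl.lt_or_eq with h1 | h1
        · exact h1
        · exfalso
          have h2 := hV (s k) hk1 hski
          rw [show s k + p = s m by rw [h1] at hEq; omega, x_s he] at h2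
          exact absurd h2 (by decide)
      refine w3 hS (b := s i - s k) (c := s i - s k + p) (by omega) (by omega) (by omega)
        (m1 := s k) (m2 := s k + p) (m3 := s m) hk1 (by omega) (s_pos he m)
        (p1 := true) (q1 := true) (r1 := true) (p2 := false) (q2 := true) (r2 := true)
        (p3 := true) (q3 := true) (r3 := false) ?_ ?_ ?_ (by decide) rfl rfl rfl
      · rw [x_s he, show s k + (s i - s k) = s i by ring, hxi,
          show s k + (s i - s k + p) = s J by omega, x_s he]
      · rw [hV _ hk1 hski, show s k + p + (s i - s k) = s J by omega, x_s he,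
          show s k + p + (s i - s k + p) = s (J + 1) by omega, x_s he]
      · rw [x_s he, show s m + (s i - s k) = s l by omega, x_s he,
          show s m + (s i - s k + p) = s l + p by omega, hA l hlJ hli]
    · -- `s i < s k`
      have hski : s i < s k := he.1 h
      have hlm : s l < s m := by omega
      have hlJ : l < J := by
        have := he.1.lt_iff_lt.mp hlm
        omega
      refine w3 hS (b := s k - s i) (c := p) (by omega) (by omega) (by omega)
        (m1 := s i) (m2 := s J) (m3 := s l) hpi (s_pos he J) (s_pos he l)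
        (p1 := true) (q1 := true) (r1 := true) (p2 := true) (q2 := false) (r2 := true)
        (p3 := true) (q3 := true) (r3 := false) ?_ ?_ ?_ (by decide) rfl rfl rfl
      · rw [hxi, show s i + (s k - s i) = s k by ring, x_s he,
          show s i + p = s J by omega, x_s he]
      · rw [x_s he, hCJ.gap (s J + (s k - s i)) (by omega) (by omega), ← hsJ1, x_s he]
      · rw [x_s he, show s l + (s k - s i) = s m by omega, x_s he, hA l hlJ hli]
  · -- P4
    intro hJ
    apply free_of_star he hsp hS
    rintro ⟨g1, g2⟩
    have hJ1' : J - 1 + 1 = J := by omega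
    rw [hJ1'] at g1 g2
    have h1 : s i ≤ s (J - 1) := he.1.monotone (by omega)
    have h2 : s (J - 1) < s J := he.1 (by omega)
    have h3 : s i < s (J - 1) := by omega
    have hsJ2 : s (J + 1 + 1) = s (J + 1) + p := hP1 (J + 1) (by omega) (by omega)
    refine w3 hS (b := s J - s (J - 1)) (c := s J - s (J - 1) + p) (by omega) (by omega)
      (by omega) (m1 := s (J - 1)) (m2 := 2 * s (J - 1) - s J)
      (m3 := s (J + 1) - (s J - s (J - 1))) (s_pos he _) g1 (by omega)
      (p1 := true) (q1 := true) (r1 := true) (p2 := true) (q2 := true) (r2 := false)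
      (p3 := false) (q3 := true) (r3 := true) ?_ ?_ ?_ (by decide) rfl rfl rfl
    · rw [x_s he, show s (J - 1) + (s J - s (J - 1)) = s J by ring, x_s he,
        show s (J - 1) + (s J - s (J - 1) + p) = s (J + 1) by omega, x_s he]
    · rw [g2, show 2 * s (J - 1) - s J + (s J - s (J - 1)) = s (J - 1) by ring, x_s he,
        hCJ.gap (2 * s (J - 1) - s J + (s J - s (J - 1) + p)) (by omega) (by omega)]
    · rw [hCJ.gap (s (J + 1) - (s J - s (J - 1))) (by omega) (by omega), sub_add_cancel,
        x_s he, show s (J + 1) - (s J - s (J - 1)) + (s J - s (J - 1) + p) = s (J + 1 + 1) by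
          omega, x_s he]

/-- the trace condition implies the rule -/
theorem rule_of_star (he : Enum s x) (hsp : Sparse x) (hst : Star x) : Rule s := by
  intro j
  by_cases ht : 1 ≤ 2 * s j - s (j + 1) ∧ x (2 * s j - s (j + 1)) = true
  · exact Or.inr (prog_of_star he hsp hst ht.1 ht.2)
  · exact Or.inl (free_of_star he hsp hst ht)

end Pool.Agent.PatSturm.SpN
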