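import Mathlib
import Pool.Agent.PatSturm.NR9
import Pool.Agent.PatSturm.SpN2
import Pool.Agent.Helper434.SpC

/-!
All words with pattern complexity `2n`.
-/

set_option autoImplicit false

namespace Pool.Agent.PatSturm.NR.Fin

open Pool.Agent.PatSturm.NR.Statement (patternComplexity IntervalWord ToeplitzWord SparseWord)

theorem crit : Crit := fun _ _ he hs =>
  ⟨fun h => Pool.Agent.PatSturm.SpN.rule_of_star he hs h,
    fun h => Pool.Agent.Helper434.Sp.star_of_rule he h⟩

theorem full (f : ℕ+ → Bool) : (∀ n : ℕ, 1 ≤ n → patternComplexity f n = 2 * n) ↔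
    IntervalWord f ∨ ToeplitzWord f ∨ SparseWord f ∨ SparseWord fun n => !f n :=
  classification crit f

end Pool.Agent.PatSturm.NR.Fin
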